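import Mathlib

set_option autoImplicit false

open Polynomial

namespace Pool.Agent.MP1f45fc.SalemC

/-- Sum of the squares of the coefficients. -/
noncomputable def sq (p : ℝ[X]) : ℝ := p.sum (fun _ x => x ^ 2)

/-- The Toeplitz map attached to an integer sequence `u`: `X ^ i ↦ ∑_{j ≤ i} u (i - j) X ^ j`. -/
noncomputable def T (u : ℕ → ℤ) (p : ℝ[X]) : ℝ[X] :=
  p.sum fun i a => ∑ j ∈ Finset.range (i + 1), monomial j ((u (i - j) : ℝ) * a)

/-- The two properties of the Taylor coefficients `u` of `ε P(z) / P*(z)` which are used in the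
certificate search (`β` is the root of `X ^ n P + ε P*`). -/
structure Core (n : ℕ) (β : ℝ) (u : ℕ → ℤ) : Prop where
  one_lt : 1 < β
  u0 : u 0 ≠ 0
  ineq : ∀ p : ℝ[X], (∑ i ∈ Finset.range n, (β⁻¹) ^ (2 * i)) * (sq (T u p) - sq p) ≤
    ((T u p).eval β⁻¹ + (β⁻¹) ^ n * p.eval β⁻¹) ^ 2
  rigid : ∀ p0 : ℝ[X], (∀ j : ℕ, T u (X ^ j * p0) = X ^ j * T u p0) →
    β ^ n * p0.eval β + (T u p0).eval β = 0

end Pool.Agent.MP1f45fc.SalemC
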