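import Mathlib

/-!
# An inequality between averages over the unit circle
-/

set_option autoImplicit false

open Polynomial
open scoped ComplexConjugate

namespace Pool.Agent.MP1f45fc.SalemC

namespace Pars

theorem den_ne {a : ℝ} (ha : |a| < 1) {z : ℂ} (hz : ‖z‖ ≤ 1) : (1 : ℂ) - (a : ℂ) * z ≠ 0 := by
  intro h
  have h1 : (a : ℂ) * z = 1 := by linear_combination -h
  have h2 : ‖(a : ℂ) * z‖ = 1 := by rw [h1]; simp
  rw [norm_mul, Complex.norm_real, Real.norm_eq_abs] at h2
  nlinarith [abs_nonneg a, norm_nonneg z]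

theorem diff_q {a : ℝ} (ha : |a| < 1) (c : ℝ) :
    DiffContOnCl ℂ (fun z : ℂ => (c : ℂ) / (1 - (a : ℂ) * z)) (Metric.ball 0 1) := by
  have h1 : DifferentiableOn ℂ (fun z : ℂ => (c : ℂ) / (1 - (a : ℂ) * z))
      (Metric.closedBall 0 1) := by
    intro z hz
    rw [mem_closedBall_zero_iff] at hz
    have := den_ne ha hz
    apply DifferentiableAt.differentiableWithinAt
    fun_prop (disch := assumption)
  apply DifferentiableOn.diffContOnCl
  exact h1.mono Metric.closure_ball_subset_closedBall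

theorem diff_poly (p : ℝ[X]) :
    DiffContOnCl ℂ (fun z : ℂ => aeval z p) (Metric.ball 0 1) := by
  apply Differentiable.diffContOnCl
  exact Polynomial.differentiable_aeval p

theorem cont_of_diff {F : ℂ → ℂ} (hF : DiffContOnCl ℂ F (Metric.ball 0 1)) :
    ContinuousOn F (Metric.sphere 0 1) := by
  have h := hF.continuousOn
  rw [closure_ball _ one_ne_zero] at h
  exact h.mono Metric.sphere_subset_closedBall

/-- Cauchy's formula as a circle average. -/
theorem avg_cross {a : ℝ} (ha : |a| < 1) {F : ℂ → ℂ}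
    (hF : DiffContOnCl ℂ F (Metric.ball 0 1)) (c : ℝ) :
    Real.circleAverage (fun z => F z * conj ((c : ℂ) / (1 - (a : ℂ) * z))) 0 1 = c * F a := by
  have h1 := DiffContOnCl.circleAverage_smul_div (c := (0 : ℂ)) (R := 1) (w := (a : ℂ))
    (f := fun z => (c : ℂ) * F z) (by
      rw [abs_one]
      exact hF.const_smul (c : ℂ)) (by
      rw [abs_one, mem_ball_zero_iff, Complex.norm_real, Real.norm_eq_abs]; exact ha)
  rw [← h1]
  apply Real.circleAverage_congr_sphere
  intro z hz
  rw [abs_one, mem_sphere_zero_iff_norm] at hz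
  have hz0 : z ≠ 0 := by
    intro h; rw [h] at hz; simp at hz
  have hza : z - (a : ℂ) ≠ 0 := by
    intro h
    have : z = (a : ℂ) := by linear_combination h
    rw [this, Complex.norm_real, Real.norm_eq_abs] at hz
    linarith
  show F z * conj ((c : ℂ) / (1 - (a : ℂ) * z)) = ((z - 0) / (z - (a : ℂ))) • ((c : ℂ) * F z)
  rw [map_div₀, Complex.conj_ofReal, map_sub, map_one, map_mul, Complex.conj_ofReal,
    ← Complex.inv_eq_conj hz]
  have h2 : (1 : ℂ) - (a : ℂ) * z⁻¹ = (z - a) / z := by field_simp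
  rw [h2, sub_zero, smul_eq_mul]
  field_simp

theorem int_of_cont {F : ℂ → ℂ} (hF : ContinuousOn F (Metric.sphere 0 1)) :
    CircleIntegrable F 0 1 := hF.circleIntegrable zero_le_one

theorem int_of_contR {F : ℂ → ℝ} (hF : ContinuousOn F (Metric.sphere 0 1)) :
    CircleIntegrable F 0 1 := hF.circleIntegrable zero_le_one

/-- Average of the square of the norm of a sum. -/
theorem avg_add {F G : ℂ → ℂ} (hF : ContinuousOn F (Metric.sphere 0 1))
    (hG : ContinuousOn G (Metric.sphere 0 1)) :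
    Real.circleAverage (fun z => ‖F z + G z‖ ^ 2) 0 1 =
      Real.circleAverage (fun z => ‖F z‖ ^ 2) 0 1 +
      2 * (Real.circleAverage (fun z => F z * conj (G z)) 0 1).re +
      Real.circleAverage (fun z => ‖G z‖ ^ 2) 0 1 := by
  have hFG : ContinuousOn (fun z => F z * conj (G z)) (Metric.sphere 0 1) :=
    hF.mul (Complex.continuous_conj.comp_continuousOn hG)
  have hre : ContinuousOn (fun z => (F z * conj (G z)).re) (Metric.sphere 0 1) :=
    Complex.continuous_re.comp_continuousOn hFG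
  have h1 := Complex.reCLM.circleAverage_comp_comm (int_of_cont hFG)
  have h2 : (Real.circleAverage (fun z => F z * conj (G z)) 0 1).re =
      Real.circleAverage (fun z => (F z * conj (G z)).re) 0 1 := h1.symm
  have e : (fun z => ‖F z + G z‖ ^ 2) =
      fun z => (‖F z‖ ^ 2 + (2 : ℝ) • (F z * conj (G z)).re) + ‖G z‖ ^ 2 := by
    funext z
    rw [Complex.sq_norm, Complex.sq_norm, Complex.sq_norm, Complex.normSq_add, smul_eq_mul]
    ring
  have i1 : CircleIntegrable (fun z => ‖F z‖ ^ 2) 0 1 := int_of_contR (hF.norm.pow 2)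
  have i2 : CircleIntegrable (fun z => (2 : ℝ) • (F z * conj (G z)).re) 0 1 :=
    int_of_contR (hre.const_smul (2 : ℝ))
  have i3 : CircleIntegrable (fun z => ‖G z‖ ^ 2) 0 1 := int_of_contR (hG.norm.pow 2)
  have i12 : CircleIntegrable (fun z => ‖F z‖ ^ 2 + (2 : ℝ) • (F z * conj (G z)).re) 0 1 :=
    i1.add i2
  rw [e, Real.circleAverage_fun_add i12 i3, Real.circleAverage_fun_add i1 i2,
    Real.circleAverage_fun_smul, h2, smul_eq_mul]

theorem avg_poly (p : ℝ[X]) :
    Real.circleAverage (fun z => ‖aeval z p‖ ^ 2) 0 1 = p.sum (fun _ x => x ^ 2) := by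
  have h := sum_sq_norm_coeff_eq_circleAverage (p := p.map (algebraMap ℝ ℂ))
  have e : (fun z : ℂ => ‖aeval z p‖ ^ 2) =
      fun z : ℂ => ‖(p.map (algebraMap ℝ ℂ)).eval z‖ ^ 2 := by
    funext z
    rw [eval_map_algebraMap]
  rw [e, ← h, Polynomial.sum_def]
  rw [Polynomial.support_map_of_injective _ (algebraMap ℝ ℂ).injective]
  apply Finset.sum_congr rfl
  intro i _
  rw [coeff_map]
  simp

theorem avg_total {a : ℝ} (ha : |a| < 1) (p : ℝ[X]) (c : ℝ) :
    Real.circleAverage (fun z => ‖aeval z p + (c : ℂ) / (1 - (a : ℂ) * z)‖ ^ 2) 0 1 =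
      p.sum (fun _ x => x ^ 2) + 2 * c * p.eval a + c ^ 2 / (1 - a ^ 2) := by
  have ha2 : 1 - a ^ 2 ≠ 0 := by
    have : a ^ 2 < 1 := by
      rw [← sq_abs]
      nlinarith [abs_nonneg a]
    linarith
  rw [avg_add (cont_of_diff (diff_poly p)) (cont_of_diff (diff_q ha c)), avg_poly,
    avg_cross ha (diff_poly p) c]
  have h1 : aeval (a : ℂ) p = ((p.eval a : ℝ) : ℂ) := by
    rw [show (a : ℂ) = algebraMap ℝ ℂ a from rfl, aeval_algebraMap_apply_eq_algebraMap_eval]
    rfl
  have h2 : Real.circleAverage (fun z => ‖(c : ℂ) / (1 - (a : ℂ) * z)‖ ^ 2) 0 1 =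
      c ^ 2 / (1 - a ^ 2) := by
    have hc := cont_of_diff (diff_q ha c)
    have hFG : ContinuousOn (fun z : ℂ => ((c : ℂ) / (1 - (a : ℂ) * z)) *
        conj ((c : ℂ) / (1 - (a : ℂ) * z))) (Metric.sphere 0 1) :=
      hc.mul (Complex.continuous_conj.comp_continuousOn hc)
    have h3 := Complex.reCLM.circleAverage_comp_comm (int_of_cont hFG)
    rw [avg_cross ha (diff_q ha c) c] at h3
    have e : (fun z : ℂ => ‖(c : ℂ) / (1 - (a : ℂ) * z)‖ ^ 2) =
        Complex.reCLM ∘ (fun z : ℂ => ((c : ℂ) / (1 - (a : ℂ) * z)) *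
        conj ((c : ℂ) / (1 - (a : ℂ) * z))) := by
      funext z
      rw [Function.comp_apply, Complex.mul_conj, Complex.sq_norm]
      simp
    rw [e, h3]
    have h4 : (c : ℂ) * ((c : ℂ) / (1 - (a : ℂ) * (a : ℂ))) = ((c ^ 2 / (1 - a ^ 2) : ℝ) : ℂ) := by
      push_cast
      ring
    rw [h4]
    exact Complex.ofReal_re _
  rw [h1, h2]
  have h5 : ((c : ℂ) * ((p.eval a : ℝ) : ℂ)).re = c * p.eval a := by
    rw [← Complex.ofReal_mul, Complex.ofReal_re]
  rw [h5]
  ring

theorem aeval_inv (f : ℝ[X]) (m : ℕ) (hf : f.natDegree ≤ m) {z : ℂ} (hz : z ≠ 0) :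
    aeval z⁻¹ f = aeval z (reflect m f) * (z⁻¹) ^ m := by
  have hz' : z⁻¹ ≠ 0 := inv_ne_zero hz
  have : Invertible z⁻¹ := invertibleOfNonzero hz'
  have h := eval₂_reflect_mul_pow (algebraMap ℝ ℂ) z⁻¹ m f hf
  rw [invOf_eq_inv, inv_inv] at h
  rw [aeval_def, aeval_def, h]

end Pars

open Pars in
/-- Circle average inequality. -/
theorem parseval_ineq (D R p A : ℝ[X]) (a c c' : ℝ) (ha : |a| < 1)
    (hroots : ∀ z : ℂ, aeval z D = 0 → ‖z‖ < 1) (hR : R.degree < D.degree)
    (hnorm : ∀ z : ℂ, ‖z‖ = 1 →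
      ‖aeval z p + (c : ℂ) / (1 - (a : ℂ) * z)‖ =
      ‖aeval z A + (c' : ℂ) / (1 - (a : ℂ) * z) + aeval z R / aeval z D‖) :
    A.sum (fun _ x => x ^ 2) + 2 * c' * A.eval a + c' ^ 2 / (1 - a ^ 2) ≤
      p.sum (fun _ x => x ^ 2) + 2 * c * p.eval a + c ^ 2 / (1 - a ^ 2) := by
  have hD0 : D ≠ 0 := by
    intro h
    have := hroots 2 (by rw [h]; simp)
    norm_num at this
  set m := D.natDegree with hm
  have hRm : R = 0 ∨ R.natDegree < m := by
    by_cases h : R = 0
    · exact Or.inl h
    · right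
      exact natDegree_lt_natDegree h hR
  have hRm' : R.natDegree ≤ m := by
    rcases hRm with h | h
    · rw [h]; simp
    · exact h.le
  have hRc : R.coeff m = 0 := by
    rcases hRm with h | h
    · rw [h]; simp
    · exact coeff_eq_zero_of_natDegree_lt h
  -- no zero of the reversed polynomial in the closed disc
  have hDs : ∀ z : ℂ, ‖z‖ ≤ 1 → aeval z (reflect m D) ≠ 0 := by
    intro z hz h
    by_cases hz0 : z = 0
    · rw [hz0, ← coeff_zero_eq_aeval_zero', coeff_reflect, revAt_le (Nat.zero_le m),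
        Nat.sub_zero] at h
      have h' : D.coeff m = 0 := by
        have := (algebraMap ℝ ℂ).injective (h.trans (map_zero _).symm)
        exact this
      rw [hm, coeff_natDegree] at h'
      exact hD0 (leadingCoeff_eq_zero.1 h')
    · have h1 := aeval_inv D m le_rfl hz0
      rw [h, zero_mul] at h1
      have h2 := hroots _ h1
      rw [norm_inv] at h2
      have h3 : 0 < ‖z‖ := norm_pos_iff.2 hz0
      have h4 : 1 ≤ ‖z‖⁻¹ := (one_le_inv₀ h3).2 hz
      linarith
  set h : ℂ → ℂ := fun z => aeval z A + (c' : ℂ) / (1 - (a : ℂ) * z) with hh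
  set g : ℂ → ℂ := fun z => aeval z R / aeval z D with hg
  set G : ℂ → ℂ := fun z => aeval z (reflect m R) / aeval z (reflect m D) with hG
  have hhd : DiffContOnCl ℂ h (Metric.ball 0 1) := (diff_poly A).add (diff_q ha c')
  have hGd : DiffContOnCl ℂ G (Metric.ball 0 1) := by
    have h1 : DifferentiableOn ℂ G (Metric.closedBall 0 1) := by
      intro z hz
      rw [mem_closedBall_zero_iff] at hz
      have := hDs z hz
      apply DifferentiableAt.differentiableWithinAt
      exact ((Polynomial.differentiable_aeval _) z).div ((Polynomial.differentiable_aeval _) z)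
        this
    apply DifferentiableOn.diffContOnCl
    exact h1.mono Metric.closure_ball_subset_closedBall
  have hgG : ∀ z : ℂ, ‖z‖ = 1 → conj (g z) = G z := by
    intro z hz
    have hz0 : z ≠ 0 := by
      intro h; rw [h] at hz; simp at hz
    have e1 : ∀ f : ℝ[X], conj (aeval z f) = aeval z⁻¹ f := by
      intro f
      rw [Complex.inv_eq_conj hz, aeval_conj]
    show conj (aeval z R / aeval z D) = _
    rw [map_div₀, e1, e1, aeval_inv R m hRm' hz0, aeval_inv D m le_rfl hz0]
    have : (z⁻¹) ^ m ≠ 0 := pow_ne_zero _ (inv_ne_zero hz0)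
    exact mul_div_mul_right _ _ this
  have hgc : ContinuousOn g (Metric.sphere 0 1) := by
    intro z hz
    rw [mem_sphere_zero_iff_norm] at hz
    have h1 : aeval z D ≠ 0 := by
      intro h0
      have := hroots z h0
      linarith
    exact (((Polynomial.differentiable_aeval R).continuous.continuousAt).div
      ((Polynomial.differentiable_aeval D).continuous.continuousAt) h1).continuousWithinAt
  have hcross : Real.circleAverage (fun z => h z * conj (g z)) 0 1 = 0 := by
    have h1 : Real.circleAverage (fun z => h z * conj (g z)) 0 1 =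
        Real.circleAverage (fun z => h z * G z) 0 1 := by
      apply Real.circleAverage_congr_sphere
      intro z hz
      rw [abs_one, mem_sphere_zero_iff_norm] at hz
      show h z * conj (g z) = h z * G z
      rw [hgG z hz]
    have h2 : DiffContOnCl ℂ (fun z => h z * G z) (Metric.ball 0 |1|) := by
      rw [abs_one]
      exact hhd.smul hGd
    rw [h1, h2.circleAverage]
    have h3 : G 0 = 0 := by
      show aeval 0 (reflect m R) / aeval 0 (reflect m D) = 0
      rw [← coeff_zero_eq_aeval_zero', coeff_reflect, revAt_le (Nat.zero_le m), Nat.sub_zero, hRc]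
      simp
    rw [h3, mul_zero]
  have hL := avg_total ha A c'
  have hRt := avg_total ha p c
  have hsum := avg_add (cont_of_diff hhd) hgc
  rw [hcross] at hsum
  have hpos : 0 ≤ Real.circleAverage (fun z => ‖g z‖ ^ 2) 0 1 :=
    Real.circleAverage_nonneg_of_nonneg (fun _ _ => by positivity)
  have heq : Real.circleAverage (fun z => ‖aeval z p + (c : ℂ) / (1 - (a : ℂ) * z)‖ ^ 2) 0 1 =
      Real.circleAverage (fun z => ‖h z + g z‖ ^ 2) 0 1 := by
    apply Real.circleAverage_congr_sphere
    intro z hz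
    rw [abs_one, mem_sphere_zero_iff_norm] at hz
    show ‖aeval z p + (c : ℂ) / (1 - (a : ℂ) * z)‖ ^ 2 = ‖h z + g z‖ ^ 2
    rw [hnorm z hz]
  rw [← hL, ← hRt, heq, hsum]
  simp only [Complex.zero_re, mul_zero, add_zero]
  linarith

end Pool.Agent.MP1f45fc.SalemC
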