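import Mathlib
import Pool.Agent.Lib.MP_1f45fc_nt.SalemC.Defs
import Pool.Agent.Lib.MP_1f45fc_nt.SalemC.Parseval

/-!
# From a Pisot polynomial to the core data of the certificate search (lemma 81)

`exists_core`: for a monic integer polynomial `P` with one root `θ > 1` and all other roots in the
open unit disc, and `β > 1` a root of `X ^ n P + ε P*` with `P β ≠ 0`, the Taylor coefficients `u`
(realised as constant coefficients of quotients) satisfy the structure `Core n β u`.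
-/

set_option autoImplicit false

open Polynomial

namespace Pool.Agent.MP1f45fc.SalemC

theorem T_zero (u : ℕ → ℤ) : T u 0 = 0 := by simp [T]

theorem T_add (u : ℕ → ℤ) (p q : ℝ[X]) : T u (p + q) = T u p + T u q := by
  unfold T
  apply Polynomial.sum_add_index
  · intro i; simp
  · intro i a b
    rw [← Finset.sum_add_distrib]
    refine Finset.sum_congr rfl fun j _ => ?_
    rw [mul_add, map_add]

theorem T_monomial (u : ℕ → ℤ) (n : ℕ) (a : ℝ) :
    T u (monomial n a) = ∑ j ∈ Finset.range (n + 1), monomial j ((u (n - j) : ℝ) * a) := by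
  unfold T
  rw [Polynomial.sum_monomial_index]
  simp

/-- The quotient sequence. -/
theorem div_step {R : Type*} [CommRing R] [Nontrivial R] (P A B : R[X]) (hP : P.Monic)
    (hA : A = (B /ₘ P)) :
    (X * B) /ₘ P = X * A + C (((X * B) /ₘ P).coeff 0) := by
  have h1 := Polynomial.modByMonic_add_div B P
  set R0 := B %ₘ P with hR0
  have hdeg : R0.degree < P.degree := Polynomial.degree_modByMonic_lt B hP
  set c := (X * R0) /ₘ P with hc
  have h2 := Polynomial.modByMonic_add_div (X * R0) P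
  have hdeg2 : ((X * R0) %ₘ P).degree < P.degree := Polynomial.degree_modByMonic_lt _ hP
  have key : (X * B) /ₘ P = X * A + c := by
    refine (Polynomial.div_modByMonic_unique (X * A + c) ((X * R0) %ₘ P) hP ⟨?_, hdeg2⟩).1
    rw [hA]
    calc (X * R0) %ₘ P + P * (X * (B /ₘ P) + c)
        = ((X * R0) %ₘ P + P * c) + X * (P * (B /ₘ P)) := by ring
      _ = X * R0 + X * (P * (B /ₘ P)) := by rw [hc, h2]
      _ = X * (R0 + P * (B /ₘ P)) := by ring
      _ = X * B := by rw [h1]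
  have hc0 : c.natDegree = 0 := by
    rw [hc, Polynomial.natDegree_divByMonic _ hP]
    by_cases h0 : R0 = 0
    · simp [h0]
    · have : R0.natDegree < P.natDegree := Polynomial.natDegree_lt_natDegree h0 hdeg
      have h3 : (X * R0).natDegree ≤ R0.natDegree + 1 := by
        refine (Polynomial.natDegree_mul_le).trans ?_
        have := Polynomial.natDegree_X_le (R := R)
        omega
      omega
  have hcC : c = C (c.coeff 0) := Polynomial.eq_C_of_natDegree_eq_zero hc0
  rw [key]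
  simp only [coeff_add, mul_coeff_zero, coeff_X_zero, zero_mul, zero_add]
  rw [← hcC]

/-- The integer sequence of quotients. -/
noncomputable def useq (Q P : ℤ[X]) (k : ℕ) : ℤ := ((X ^ k * Q) /ₘ P).coeff 0

theorem T_pow_eq (Q P : ℤ[X]) (hP : P.Monic) (hQ : Q.natDegree ≤ P.natDegree) (i : ℕ) :
    ∑ j ∈ Finset.range (i + 1), monomial j ((useq Q P (i - j) : ℝ)) =
      (X ^ i * Q.map (Int.castRingHom ℝ)) /ₘ P.map (Int.castRingHom ℝ) := by
  have hPr : (P.map (Int.castRingHom ℝ)).Monic := hP.map _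
  have hmap : ∀ k : ℕ, ((X ^ k * Q.map (Int.castRingHom ℝ)) /ₘ P.map (Int.castRingHom ℝ)) =
      ((X ^ k * Q) /ₘ P).map (Int.castRingHom ℝ) := by
    intro k
    rw [Polynomial.map_divByMonic _ hP]
    simp
  have hu : ∀ k : ℕ, ((X ^ k * Q.map (Int.castRingHom ℝ)) /ₘ P.map (Int.castRingHom ℝ)).coeff 0 =
      (useq Q P k : ℝ) := by
    intro k
    rw [hmap, Polynomial.coeff_map]
    rfl
  induction i with
  | zero =>
    have h1 : (X ^ 0 * Q.map (Int.castRingHom ℝ) /ₘ P.map (Int.castRingHom ℝ)).natDegree = 0 := by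
      rw [Polynomial.natDegree_divByMonic _ hPr, pow_zero, one_mul]
      have := Polynomial.natDegree_map_le (f := Int.castRingHom ℝ) (p := Q)
      rw [hP.natDegree_map]
      omega
    rw [Polynomial.eq_C_of_natDegree_eq_zero h1, hu]
    simp [monomial_zero_left]
  | succ i ih =>
    have h2 := div_step (P.map (Int.castRingHom ℝ)) _ (X ^ i * Q.map (Int.castRingHom ℝ)) hPr rfl
    rw [← mul_assoc, ← pow_succ'] at h2
    rw [h2, hu, ← ih, Finset.sum_range_succ', Finset.mul_sum]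
    congr 1
    refine Finset.sum_congr rfl fun j _ => ?_
    rw [X_mul_monomial]
    congr 3
    omega

theorem T_eq_div (Q P : ℤ[X]) (hP : P.Monic) (hQ : Q.natDegree ≤ P.natDegree) (p : ℝ[X]) :
    ∃ R : ℝ[X], R.degree < (P.map (Int.castRingHom ℝ)).degree ∧
      p * Q.map (Int.castRingHom ℝ) = T (useq Q P) p * P.map (Int.castRingHom ℝ) + R := by
  have hPr : (P.map (Int.castRingHom ℝ)).Monic := hP.map _
  induction p using Polynomial.induction_on' with
  | add p q hp hq =>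
    obtain ⟨R1, h1, h1'⟩ := hp
    obtain ⟨R2, h2, h2'⟩ := hq
    refine ⟨R1 + R2, (Polynomial.degree_add_le _ _).trans_lt (max_lt h1 h2), ?_⟩
    rw [T_add, add_mul, add_mul, h1', h2']
    ring
  | monomial n a =>
    have hdeg := Polynomial.degree_modByMonic_lt (X ^ n * Q.map (Int.castRingHom ℝ)) hPr
    have h1 := Polynomial.modByMonic_add_div (X ^ n * Q.map (Int.castRingHom ℝ))
      (P.map (Int.castRingHom ℝ))
    refine ⟨C a * ((X ^ n * Q.map (Int.castRingHom ℝ)) %ₘ P.map (Int.castRingHom ℝ)), ?_, ?_⟩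
    · refine lt_of_le_of_lt ?_ hdeg
      refine (Polynomial.degree_mul_le _ _).trans ?_
      have := Polynomial.degree_C_le (a := a)
      calc (C a).degree + _ ≤ 0 + _ := by gcongr
        _ = _ := zero_add _
    · have h3 : T (useq Q P) (monomial n a) =
          C a * ((X ^ n * Q.map (Int.castRingHom ℝ)) /ₘ P.map (Int.castRingHom ℝ)) := by
        rw [T_monomial, ← T_pow_eq Q P hP hQ, Finset.mul_sum]
        refine Finset.sum_congr rfl fun j _ => ?_
        rw [C_mul_monomial, mul_comm]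
      rw [h3, ← C_mul_X_pow_eq_monomial, mul_assoc, ← h1]
      simp only [Polynomial.modByMonic_add_div]
      nth_rewrite 1 [← h1]
      ring

theorem natDegree_eps_reverse (P : ℤ[X]) (hP0 : P.coeff 0 ≠ 0) (ε : ℤ) (hε : ε = 1 ∨ ε = -1) :
    (C ε * P.reverse).natDegree = P.natDegree := by
  have h1 : P.natTrailingDegree = 0 := by
    apply Polynomial.natTrailingDegree_eq_zero_of_constantCoeff_ne_zero
    simpa using hP0
  have hε0 : ε ≠ 0 := by rcases hε with h | h <;> simp [h]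
  rw [Polynomial.natDegree_C_mul hε0, Polynomial.reverse_natDegree, h1, Nat.sub_zero]

theorem useq_zero (P : ℤ[X]) (hP : P.Monic) (hP0 : P.coeff 0 ≠ 0) (ε : ℤ)
    (hε : ε = 1 ∨ ε = -1) : useq (C ε * P.reverse) P 0 = ε * P.coeff 0 := by
  have hε0 : ε ≠ 0 := by rcases hε with h | h <;> simp [h]
  have hQ := natDegree_eps_reverse P hP0 ε hε
  have hQ0 : (C ε * P.reverse) ≠ 0 := by
    refine mul_ne_zero (C_ne_zero.2 hε0) ?_
    rw [Ne, Polynomial.reverse_eq_zero]
    exact hP.ne_zero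
  unfold useq
  rw [pow_zero, one_mul]
  have h1 : ((C ε * P.reverse) /ₘ P).natDegree = 0 := by
    rw [Polynomial.natDegree_divByMonic _ hP, hQ, Nat.sub_self]
  have h2 := Polynomial.leadingCoeff_divByMonic_of_monic (p := C ε * P.reverse) hP
    (by rw [Polynomial.degree_eq_natDegree hQ0, Polynomial.degree_eq_natDegree hP.ne_zero, hQ])
  have h3 : ((C ε * P.reverse) /ₘ P).coeff 0 = ((C ε * P.reverse) /ₘ P).leadingCoeff := by
    rw [Polynomial.leadingCoeff, h1]
  rw [h3, h2, Polynomial.leadingCoeff_mul, Polynomial.leadingCoeff_C,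
    Polynomial.reverse_leadingCoeff, Polynomial.trailingCoeff]
  have h1 : P.natTrailingDegree = 0 := by
    apply Polynomial.natTrailingDegree_eq_zero_of_constantCoeff_ne_zero
    simpa using hP0
  rw [h1]

theorem norm_aeval_reverse (P : ℤ[X]) (z : ℂ) (hz : ‖z‖ = 1) :
    ‖aeval z P.reverse‖ = ‖aeval z P‖ := by
  have hz0 : z ≠ 0 := by
    intro h
    rw [h] at hz
    simp at hz
  have hzi : z⁻¹ = (starRingEnd ℂ) z := by
    rw [Complex.inv_def, Complex.normSq_eq_norm_sq, hz]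
    simp
  let _ : Invertible z⁻¹ := invertibleOfNonzero (inv_ne_zero hz0)
  have h := Polynomial.eval₂_reverse_mul_pow (Int.castRingHom ℂ) z⁻¹ P
  have h2 : ⅟(z⁻¹) = z := by simp
  rw [h2] at h
  have h3 : ‖eval₂ (Int.castRingHom ℂ) z P.reverse‖ = ‖eval₂ (Int.castRingHom ℂ) z⁻¹ P‖ := by
    rw [← h, norm_mul, norm_pow, norm_inv, hz]
    simp
  have h4 : eval₂ (Int.castRingHom ℂ) z⁻¹ P = (starRingEnd ℂ) (eval₂ (Int.castRingHom ℂ) z P) := by
    rw [hzi, Polynomial.hom_eval₂]
    congr 1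
    ext
    simp
  rw [aeval_def, aeval_def, algebraMap_int_eq, h3, h4, RCLike.norm_conj]

theorem aeval_map_real (P : ℤ[X]) (z : ℂ) :
    aeval z (P.map (Int.castRingHom ℝ)) = aeval z P := by
  have := Polynomial.aeval_map_algebraMap ℝ z P
  simpa using this

theorem eval_map_real (P : ℤ[X]) (x : ℝ) :
    (P.map (Int.castRingHom ℝ)).eval x = aeval x P := by
  rw [aeval_def, eval₂_eq_eval_map, algebraMap_int_eq]

theorem key_ineq (β : ℝ) (hβ : 1 < β) (n : ℕ) (hn : 1 ≤ n) (sA sp A p c : ℝ)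
    (h : sA + 2 * (-(β ^ n) * c) * A + (-(β ^ n) * c) ^ 2 / (1 - β⁻¹ ^ 2) ≤
      sp + 2 * c * p + c ^ 2 / (1 - β⁻¹ ^ 2)) :
    (∑ i ∈ Finset.range n, (β⁻¹) ^ (2 * i)) * (sA - sp) ≤ (A + (β⁻¹) ^ n * p) ^ 2 := by
  set z := β⁻¹ with hz
  have hβ0 : 0 < β := by linarith
  have hz0 : 0 < z := inv_pos.2 hβ0
  have hz1 : z < 1 := inv_lt_one_of_one_lt₀ hβ
  have hzz : z ^ 2 < 1 := by nlinarith
  have hpos : 0 < 1 - z ^ 2 := by linarith
  have hβz : β * z = 1 := mul_inv_cancel₀ hβ0.ne'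
  have hβzn : β ^ n * z ^ n = 1 := by rw [← mul_pow, hβz, one_pow]
  have hB : 1 < (β ^ n) ^ 2 := by
    rw [← pow_mul]
    exact one_lt_pow₀ hβ (by omega)
  have hS : (∑ i ∈ Finset.range n, z ^ (2 * i)) * (1 - z ^ 2) = 1 - (z ^ n) ^ 2 := by
    have := geom_sum_mul (z ^ 2) n
    have h2 : (∑ i ∈ Finset.range n, z ^ (2 * i)) = ∑ i ∈ Finset.range n, (z ^ 2) ^ i := by
      refine Finset.sum_congr rfl fun i _ => ?_
      rw [pow_mul]
    rw [h2]
    have h3 : (z ^ 2) ^ n = (z ^ n) ^ 2 := by ring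
    rw [h3] at this
    linarith
  set S := ∑ i ∈ Finset.range n, z ^ (2 * i) with hSdef
  have hSnn : 0 ≤ S := Finset.sum_nonneg fun i _ => by positivity
  set B := β ^ n with hBdef
  set w := z ^ n with hw
  have hBw : B * w = 1 := hβzn
  have hw0 : 0 < w := by positivity
  -- M = B A + p
  have h1 : (sA - sp) * (1 - z ^ 2) ≤
      2 * c * (B * A + p) * (1 - z ^ 2) - c ^ 2 * (B ^ 2 - 1) := by
    have h2 := mul_le_mul_of_nonneg_right h hpos.le
    have e1 : (sA + 2 * (-B * c) * A + (-B * c) ^ 2 / (1 - z ^ 2)) * (1 - z ^ 2) =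
        (sA + 2 * (-B * c) * A) * (1 - z ^ 2) + (B * c) ^ 2 := by
      field_simp
    have e2 : (sp + 2 * c * p + c ^ 2 / (1 - z ^ 2)) * (1 - z ^ 2) =
        (sp + 2 * c * p) * (1 - z ^ 2) + c ^ 2 := by
      field_simp
    rw [e1, e2] at h2
    nlinarith [h2]
  -- multiply by S
  have h3 : S * (sA - sp) * (1 - z ^ 2) ≤ (A + w * p) ^ 2 * (1 - z ^ 2) := by
    have h4 : S * ((sA - sp) * (1 - z ^ 2)) ≤
      S * (2 * c * (B * A + p) * (1 - z ^ 2) - c ^ 2 * (B ^ 2 - 1)) :=
      mul_le_mul_of_nonneg_left h1 hSnn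
    have h5 : (A + w * p) ^ 2 = w ^ 2 * (B * A + p) ^ 2 := by
      have : A + w * p = w * (B * A + p) := by
        calc A + w * p = (B * w) * A + w * p := by rw [hBw, one_mul]
          _ = _ := by ring
      rw [this]; ring
    have h6 : 1 - w ^ 2 = w ^ 2 * (B ^ 2 - 1) := by
      have : w ^ 2 * B ^ 2 = 1 := by
        calc w ^ 2 * B ^ 2 = (B * w) ^ 2 := by ring
          _ = 1 := by rw [hBw, one_pow]
      linarith [this]
    rw [h5]
    rw [h6] at hS
    -- S (1 - z^2) = w^2 (B^2 - 1)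
    set M := B * A + p with hM
    have h7 : S * (2 * c * M * (1 - z ^ 2) - c ^ 2 * (B ^ 2 - 1)) * (1 - z ^ 2) =
        2 * c * M * (w ^ 2 * (B ^ 2 - 1)) * (1 - z ^ 2) -
          c ^ 2 * (B ^ 2 - 1) * (w ^ 2 * (B ^ 2 - 1)) := by
      rw [← hS]; ring
    have h8 : 0 ≤ w ^ 2 * (M * (1 - z ^ 2) - c * (B ^ 2 - 1)) ^ 2 := by positivity
    have h9 : S * ((sA - sp) * (1 - z ^ 2)) * (1 - z ^ 2) ≤
        w ^ 2 * M ^ 2 * (1 - z ^ 2) * (1 - z ^ 2) := by
      have := mul_le_mul_of_nonneg_right h4 hpos.le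
      rw [h7] at this
      nlinarith [this, h8]
    have h10 := le_of_mul_le_mul_right h9 hpos
    linarith [h10]
  exact le_of_mul_le_mul_right h3 hpos

theorem rigid_aux (Q P : ℤ[X]) (hP : P.Monic) (hQ : Q.natDegree ≤ P.natDegree)
    (p0 : ℝ[X]) (h : ∀ j : ℕ, T (useq Q P) (X ^ j * p0) = X ^ j * T (useq Q P) p0) :
    p0 * Q.map (Int.castRingHom ℝ) = T (useq Q P) p0 * P.map (Int.castRingHom ℝ) := by
  obtain ⟨R0, hR0, hR0'⟩ := T_eq_div Q P hP hQ p0
  have hPm : (P.map (Int.castRingHom ℝ)).Monic := hP.map _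
  suffices hz : R0 = 0 by rw [hR0', hz, add_zero]
  by_contra hne
  obtain ⟨R1, hR1, hR1'⟩ := T_eq_div Q P hP hQ (X ^ (P.natDegree) * p0)
  rw [h, mul_assoc, hR0'] at hR1'
  have h2 : X ^ P.natDegree * R0 = R1 := by
    have : X ^ P.natDegree * (T (useq Q P) p0 * P.map (Int.castRingHom ℝ) + R0) =
      X ^ P.natDegree * T (useq Q P) p0 * P.map (Int.castRingHom ℝ) + X ^ P.natDegree * R0 := by
      ring
    rw [this] at hR1'
    exact add_left_cancel hR1'
  rw [← h2] at hR1
  have hne2 : X ^ P.natDegree * R0 ≠ 0 := mul_ne_zero (pow_ne_zero _ X_ne_zero) hne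
  have h3 := Polynomial.natDegree_lt_natDegree hne2 hR1
  rw [Polynomial.natDegree_X_pow_mul _ hne, hP.natDegree_map] at h3
  omega

theorem exists_core (P : ℤ[X]) (hP : P.Monic) (θ : ℝ) (hθ : 1 < θ) (D : ℝ[X])
    (hPD : P.map (Int.castRingHom ℝ) = (X - C θ) * D)
    (hroots : ∀ z : ℂ, aeval z D = 0 → ‖z‖ < 1) (hP0 : P.coeff 0 ≠ 0)
    (n : ℕ) (hn : 1 ≤ n) (ε : ℤ) (hε : ε = 1 ∨ ε = -1) (β : ℝ) (hβ : 1 < β)
    (hPβ : aeval β P ≠ 0) (heq : β ^ n * aeval β P + ε * aeval β P.reverse = 0) :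
    ∃ u : ℕ → ℤ, u 0 = ε * P.coeff 0 ∧ Core n β u := by
  have hε0 : ε ≠ 0 := by rcases hε with h | h <;> simp [h]
  set Q : ℤ[X] := C ε * P.reverse with hQdef
  have hQd : Q.natDegree = P.natDegree := natDegree_eps_reverse P hP0 ε hε
  set Pr := P.map (Int.castRingHom ℝ) with hPr
  set Qr := Q.map (Int.castRingHom ℝ) with hQr
  have hPrM : Pr.Monic := hP.map _
  have hPrd : Pr.natDegree = P.natDegree := hP.natDegree_map _
  have hQrd : Qr.natDegree ≤ P.natDegree := by
    rw [← hQd]; exact Polynomial.natDegree_map_le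
  have hD0 : D ≠ 0 := by
    intro h
    rw [h, mul_zero] at hPD
    exact hPrM.ne_zero hPD
  have hXθ : (X - C θ : ℝ[X]) ≠ 0 := Polynomial.X_sub_C_ne_zero θ
  have hDd : D.natDegree + 1 = P.natDegree := by
    rw [← hPrd, hPD, Polynomial.natDegree_mul hXθ hD0, Polynomial.natDegree_X_sub_C, add_comm]
  have hPrβ : Pr.eval β ≠ 0 := by rw [eval_map_real]; exact hPβ
  have hPrθ : Pr.eval θ = 0 := by rw [hPD]; simp
  have hθβ : θ ≠ β := by
    intro h
    rw [h] at hPrθ
    exact hPrβ hPrθ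
  have hQβ : Qr.eval β = -(β ^ n) * Pr.eval β := by
    rw [eval_map_real, eval_map_real, hQdef, map_mul, aeval_C]
    simp only [algebraMap_int_eq, eq_intCast]
    linarith
  refine ⟨useq Q P, useq_zero P hP hP0 ε hε, ⟨hβ, ?_, ?_, ?_⟩⟩
  · rw [useq_zero P hP hP0 ε hε]
    exact mul_ne_zero hε0 hP0
  · intro p
    set A := T (useq Q P) p with hA
    set c : ℝ := -(p.eval θ * (1 - β⁻¹ * θ)) with hc
    apply key_ineq β hβ n hn (sq A) (sq p) (A.eval β⁻¹) (p.eval β⁻¹) c
    have hβ0 : 0 < β := by linarith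
    have hz0 : 0 < β⁻¹ := inv_pos.2 hβ0
    have hz1 : β⁻¹ < 1 := inv_lt_one_of_one_lt₀ hβ
    -- the polynomial identity
    obtain ⟨R0, hR0, hR0'⟩ := T_eq_div Q P hP hQd.le p
    rw [← hA, ← hPr, ← hQr] at hR0'
    rw [← hPr] at hR0
    set Y : ℝ[X] := p * (1 - C β⁻¹ * X) + C c with hY
    set aN : ℝ[X] := A * (1 - C β⁻¹ * X) + C (-(β ^ n) * c) with haN
    set N : ℝ[X] := Qr * Y - aN * Pr with hN
    have hN' : N = R0 * (1 - C β⁻¹ * X) + (C c * Qr + C (β ^ n * c) * Pr) := by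
      have : R0 = p * Qr - A * Pr := by rw [hR0']; ring
      rw [hN, hY, haN, this]
      simp only [map_mul, map_neg]
      ring
    have hNd : N.natDegree ≤ P.natDegree := by
      rw [hN']
      refine (Polynomial.natDegree_add_le _ _).trans (max_le ?_ ?_)
      · by_cases h0 : R0 = 0
        · simp [h0]
        · have h1 := Polynomial.natDegree_lt_natDegree h0 hR0
          rw [hPrd] at h1
          refine Polynomial.natDegree_mul_le.trans ?_
          have h2 : (1 - C β⁻¹ * X : ℝ[X]).natDegree ≤ 1 := by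
            refine (Polynomial.natDegree_sub_le _ _).trans (max_le (by simp) ?_)
            exact (Polynomial.natDegree_C_mul_le _ _).trans Polynomial.natDegree_X_le
          omega
      · refine (Polynomial.natDegree_add_le _ _).trans (max_le ?_ ?_)
        · exact (Polynomial.natDegree_C_mul_le _ _).trans hQrd
        · exact (Polynomial.natDegree_C_mul_le _ _).trans hPrd.le
    have hNθ : N.eval θ = 0 := by
      rw [hN]
      simp only [eval_sub, eval_mul, hY, eval_add, eval_one, eval_C, eval_X, hPrθ, mul_zero, sub_zero]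
      rw [hc]; ring
    have hNβ : N.eval β = 0 := by
      rw [hN]
      simp only [eval_sub, eval_mul, hY, haN, eval_add, eval_one, eval_C, eval_X]
      rw [inv_mul_cancel₀ hβ0.ne', hQβ]
      ring
    have hdvd1 : (X - C θ) ∣ N := Polynomial.dvd_iff_isRoot.2 hNθ
    have hdvd2 : (X - C β) ∣ N := Polynomial.dvd_iff_isRoot.2 hNβ
    have hcop : IsCoprime (X - C θ : ℝ[X]) (X - C β) :=
      Polynomial.isCoprime_X_sub_C_of_isUnit_sub (sub_ne_zero.2 hθβ).isUnit
    obtain ⟨R', hR'⟩ := hcop.mul_dvd hdvd1 hdvd2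
    set R : ℝ[X] := C (-β) * R' with hRdef
    have hNR : N = (X - C θ) * (1 - C β⁻¹ * X) * R := by
      have h1 : (X - C β : ℝ[X]) = C (-β) * (1 - C β⁻¹ * X) := by
        have : C (-β) * (C β⁻¹ * X) = -(X : ℝ[X]) := by
          rw [← mul_assoc, ← C_mul, neg_mul, mul_inv_cancel₀ hβ0.ne']
          simp
        rw [mul_sub, this, mul_one]
        simp
        ring
      rw [hR', h1, hRdef]
      ring
    have hRd : R.degree < D.degree := by
      by_cases hR0 : R' = 0
      · rw [hRdef, hR0, mul_zero, Polynomial.degree_zero]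
        exact bot_lt_iff_ne_bot.2 (by rwa [Ne, Polynomial.degree_eq_bot])
      · have hRne : R ≠ 0 := mul_ne_zero (C_ne_zero.2 (by linarith)) hR0
        have h1 : N.natDegree = 2 + R'.natDegree := by
          rw [hR', Polynomial.natDegree_mul (mul_ne_zero hXθ (Polynomial.X_sub_C_ne_zero β)) hR0,
            Polynomial.natDegree_mul hXθ (Polynomial.X_sub_C_ne_zero β),
            Polynomial.natDegree_X_sub_C, Polynomial.natDegree_X_sub_C]
        have h2 : R.natDegree ≤ R'.natDegree := Polynomial.natDegree_C_mul_le _ _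
        rw [Polynomial.degree_eq_natDegree hRne, Polynomial.degree_eq_natDegree hD0]
        exact_mod_cast (by omega : R.natDegree < D.natDegree)
    have := parseval_ineq D R p A β⁻¹ c (-(β ^ n) * c) (by rw [abs_of_pos hz0]; exact hz1)
      hroots hRd ?_
    · simpa [sq] using this
    · intro ζ hζ
      -- nonvanishing
      have h1 : (1 - ((β⁻¹ : ℝ) : ℂ) * ζ) ≠ 0 := by
        intro h
        have h2 : ((β⁻¹ : ℝ) : ℂ) * ζ = 1 := (sub_eq_zero.1 h).symm
        have h3 : ‖((β⁻¹ : ℝ) : ℂ) * ζ‖ = 1 := by rw [h2, norm_one]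
        rw [norm_mul, hζ, mul_one, Complex.norm_real, Real.norm_eq_abs, abs_of_pos hz0] at h3
        linarith
      have hDζ : aeval ζ D ≠ 0 := by
        intro h
        have := hroots ζ h
        linarith
      have hζθ : ζ - (θ : ℂ) ≠ 0 := by
        intro h
        have h2 : ζ = (θ : ℂ) := sub_eq_zero.1 h
        rw [h2, Complex.norm_real, Real.norm_eq_abs, abs_of_pos (by linarith)] at hζ
        linarith
      have hPζ : aeval ζ Pr = (ζ - (θ : ℂ)) * aeval ζ D := by
        rw [hPD]; simp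
      have hPζ0 : aeval ζ Pr ≠ 0 := by rw [hPζ]; exact mul_ne_zero hζθ hDζ
      have hQP : ‖aeval ζ Qr‖ = ‖aeval ζ Pr‖ := by
        rw [hQr, hPr, aeval_map_real, aeval_map_real, hQdef, map_mul, norm_mul, aeval_C,
          norm_aeval_reverse P ζ hζ]
        rcases hε with h | h <;> simp [h]
      have hid : aeval ζ Qr * aeval ζ Y = aeval ζ aN * aeval ζ Pr +
          (ζ - (θ : ℂ)) * (1 - ((β⁻¹ : ℝ) : ℂ) * ζ) * aeval ζ R := by
        have h2 : aeval ζ N = (ζ - (θ : ℂ)) * (1 - ((β⁻¹ : ℝ) : ℂ) * ζ) * aeval ζ R := by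
          rw [hNR]; simp
        have h3 : aeval ζ N = aeval ζ Qr * aeval ζ Y - aeval ζ aN * aeval ζ Pr := by
          rw [hN]; simp
        rw [← h2, h3]; ring
      have hYv : aeval ζ p + (c : ℂ) / (1 - ((β⁻¹ : ℝ) : ℂ) * ζ) =
          aeval ζ Y / (1 - ((β⁻¹ : ℝ) : ℂ) * ζ) := by
        rw [hY]
        simp only [map_add, map_mul, map_sub, map_one, aeval_C, aeval_X, Complex.coe_algebraMap]
        rw [add_div, mul_div_cancel_right₀ _ h1]
      have haNv : aeval ζ A + ((-(β ^ n) * c : ℝ) : ℂ) / (1 - ((β⁻¹ : ℝ) : ℂ) * ζ) =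
          aeval ζ aN / (1 - ((β⁻¹ : ℝ) : ℂ) * ζ) := by
        rw [haN]
        simp only [map_add, map_mul, map_sub, map_one, aeval_C, aeval_X, Complex.coe_algebraMap]
        rw [add_div, mul_div_cancel_right₀ _ h1]
        rw [Complex.ofReal_mul]
      rw [hYv, haNv]
      have h4 : (aeval ζ Qr / aeval ζ Pr) * (aeval ζ Y / (1 - ((β⁻¹ : ℝ) : ℂ) * ζ)) =
          aeval ζ aN / (1 - ((β⁻¹ : ℝ) : ℂ) * ζ) + aeval ζ R / aeval ζ D := by
        rw [div_mul_div_comm, hid, hPζ]
        generalize (1 - ((β⁻¹ : ℝ) : ℂ) * ζ) = w at h1 ⊢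
        generalize (ζ - (θ : ℂ)) = v at hζθ ⊢
        field_simp
      have h5 : ‖aeval ζ Qr / aeval ζ Pr‖ = 1 := by
        rw [norm_div, hQP, div_self (norm_ne_zero_iff.2 hPζ0)]
      rw [← h4, norm_mul, h5, one_mul]
  · intro p0 h
    have h1 := rigid_aux Q P hP hQd.le p0 h
    rw [← hPr, ← hQr] at h1
    have h2 := congrArg (Polynomial.eval β) h1
    rw [eval_mul, eval_mul, hQβ] at h2
    have h3 : (β ^ n * p0.eval β + (T (useq Q P) p0).eval β) * Pr.eval β = 0 := by
      linarith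
    exact (mul_eq_zero.1 h3).resolve_right hPrβ

end Pool.Agent.MP1f45fc.SalemC
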