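import Mathlib
import Pool.Agent.Lib.MP_1f45fc_nt.SalemC.Exists

set_option autoImplicit false

open Polynomial

namespace Pool.Agent.MP1f45fc.SalemC

theorem norm_prod_lt_one (s : Multiset ℂ) (h : ∀ z ∈ s, ‖z‖ < 1) (hs : s ≠ 0) :
    ‖s.prod‖ < 1 := by
  induction s using Multiset.induction with
  | empty => exact absurd rfl hs
  | cons a s ih =>
    rw [Multiset.prod_cons, norm_mul]
    have ha : ‖a‖ < 1 := h a (Multiset.mem_cons_self a s)
    by_cases h0 : s = 0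
    · subst h0; simpa using ha
    · have := ih (fun z hz => h z (Multiset.mem_cons_of_mem hz)) h0
      calc ‖a‖ * ‖s.prod‖ ≤ 1 * ‖s.prod‖ := mul_le_mul_of_nonneg_right ha.le (norm_nonneg _)
        _ < 1 := by rwa [one_mul]

theorem abs_coeff_zero_lt_one (E : ℝ[X]) (hE : E.Monic)
    (hroots : ∀ z : ℂ, aeval z E = 0 → ‖z‖ < 1) (hd : E.natDegree ≠ 0) : |E.coeff 0| < 1 := by
  set F := E.map (algebraMap ℝ ℂ) with hF
  have hFm : F.Monic := hE.map _
  have hFs : F.Splits := IsAlgClosed.splits F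
  have h1 := hFs.coeff_zero_eq_prod_roots_of_monic hFm
  have h2 : ‖F.coeff 0‖ = |E.coeff 0| := by
    rw [hF, coeff_map]
    simp
  rw [← h2, h1, norm_mul, norm_pow, norm_neg, norm_one, one_pow, one_mul]
  refine norm_prod_lt_one _ ?_ ?_
  · intro z hz
    refine hroots z ?_
    have h3 := (mem_roots'.mp hz).2
    rw [IsRoot.def, hF, eval_map_algebraMap] at h3
    exact h3
  · intro h0
    have h4 := hFs.natDegree_eq_card_roots
    rw [h0, Multiset.card_zero, hF, natDegree_map] at h4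
    exact hd h4

theorem quad_case (P : ℤ[X]) (hP : P.Monic) (θ : ℝ) (hθ : 1 < θ) (D : ℝ[X])
    (hPD : P.map (Int.castRingHom ℝ) = (X - C θ) * D)
    (hroots : ∀ z : ℂ, aeval z D = 0 → ‖z‖ < 1) (hP0 : P.coeff 0 ≠ 0)
    (h : aeval θ⁻¹ P = 0) : 3 ≤ θ + θ⁻¹ := by
  have hθ0 : (0 : ℝ) < θ := by linarith
  have hne : θ⁻¹ ≠ θ := by
    have : θ⁻¹ < 1 := inv_lt_one_of_one_lt₀ hθ
    intro h1; linarith
  have hD1 : D.IsRoot θ⁻¹ := by
    rw [← eval_map_real, hPD, eval_mul, eval_sub, eval_X, eval_C] at h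
    rcases mul_eq_zero.mp h with h1 | h1
    · exact absurd (sub_eq_zero.mp h1) hne
    · exact h1
  obtain ⟨E, hE⟩ := dvd_iff_isRoot.mpr hD1
  have hPm : (P.map (Int.castRingHom ℝ)).Monic := hP.map _
  have hDm : D.Monic := by
    rw [hPD] at hPm
    exact (monic_X_sub_C θ).of_mul_monic_left hPm
  have hEm : E.Monic := by
    rw [hE] at hDm
    exact (monic_X_sub_C θ⁻¹).of_mul_monic_left hDm
  have hEr : ∀ z : ℂ, aeval z E = 0 → ‖z‖ < 1 := by
    intro z hz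
    apply hroots
    rw [hE, map_mul, hz, mul_zero]
  have hc0 : ((P.coeff 0 : ℤ) : ℝ) = E.coeff 0 := by
    have h1 : (P.map (Int.castRingHom ℝ)).coeff 0 = ((P.coeff 0 : ℤ) : ℝ) := by
      rw [coeff_map]; simp
    rw [← h1, hPD, hE, mul_coeff_zero, mul_coeff_zero]
    simp only [coeff_sub, coeff_X_zero, coeff_C_zero, zero_sub]
    field_simp
  have hd : E.natDegree = 0 := by
    by_contra hd
    have h1 := abs_coeff_zero_lt_one E hEm hEr hd
    rw [← hc0] at h1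
    have h2 : |P.coeff 0| < 1 := by exact_mod_cast h1
    exact hP0 (Int.abs_lt_one_iff.mp h2)
  have hE1 : E = 1 := hEm.natDegree_eq_zero.mp hd
  rw [hE1, mul_one] at hE
  have hc1 : ((P.coeff 1 : ℤ) : ℝ) = -(θ + θ⁻¹) := by
    have h1 : (P.map (Int.castRingHom ℝ)).coeff 1 = ((P.coeff 1 : ℤ) : ℝ) := by
      rw [coeff_map]; simp
    rw [← h1, hPD, hE]
    have h2 : (X - C θ) * (X - C θ⁻¹) = X ^ 2 + C (-(θ + θ⁻¹)) * X + C (θ * θ⁻¹) := by
      simp only [C_add, C_neg, C_mul]; ring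
    rw [h2]
    simp [coeff_C]
  have h3 : (2 : ℝ) < θ + θ⁻¹ := by
    have h4 : 0 < (θ - 1) ^ 2 := by
      have : 0 < θ - 1 := by linarith
      positivity
    have h5 : θ + θ⁻¹ - 2 = (θ - 1) ^ 2 * θ⁻¹ := by field_simp; ring
    have h6 : 0 < (θ - 1) ^ 2 * θ⁻¹ := mul_pos h4 (inv_pos.mpr hθ0)
    linarith
  have h7 : (2 : ℤ) < -P.coeff 1 := by
    have : (2 : ℝ) < ((-P.coeff 1 : ℤ) : ℝ) := by push_cast; rw [hc1]; linarith
    exact_mod_cast this
  have h8 : (3 : ℤ) ≤ -P.coeff 1 := by omega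
  have h9 : (3 : ℝ) ≤ ((-P.coeff 1 : ℤ) : ℝ) := by exact_mod_cast h8
  push_cast at h9
  rw [hc1] at h9
  linarith

end Pool.Agent.MP1f45fc.SalemC
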