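import Mathlib
import Pool.Agent.Lib.MP_1f45fc_nt.SalemC.Exists

set_option autoImplicit false

open Polynomial

namespace Pool.Agent.MP1f45fc.SalemC

/-! ### Inner product of coefficient vectors -/

noncomputable def ip (p q : ℝ[X]) : ℝ := p.sum fun i x => x * q.coeff i

theorem ip_eq_sum (p q : ℝ[X]) (N : ℕ) (h : p.natDegree < N) :
    ip p q = ∑ i ∈ Finset.range N, p.coeff i * q.coeff i :=
  sum_over_range' p (by simp) N h

theorem ip_comm (p q : ℝ[X]) : ip p q = ip q p := by
  rw [ip_eq_sum p q (p.natDegree + q.natDegree + 1) (by omega),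
    ip_eq_sum q p (p.natDegree + q.natDegree + 1) (by omega)]
  exact Finset.sum_congr rfl fun i _ => mul_comm _ _

theorem ip_add_left (p p' q : ℝ[X]) : ip (p + p') q = ip p q + ip p' q := by
  unfold ip
  rw [sum_add_index]
  · simp
  · intros; ring

theorem ip_add_right (p q q' : ℝ[X]) : ip p (q + q') = ip p q + ip p q' := by
  rw [ip_comm, ip_add_left, ip_comm q, ip_comm q']

theorem ip_C_mul_left (a : ℝ) (p q : ℝ[X]) : ip (C a * p) q = a * ip p q := by
  rw [ip_eq_sum (C a * p) q (p.natDegree + 1) (by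
    have := natDegree_C_mul_le a p
    omega), ip_eq_sum p q (p.natDegree + 1) (by omega), Finset.mul_sum]
  exact Finset.sum_congr rfl fun i _ => by rw [coeff_C_mul]; ring

theorem ip_C_mul_right (a : ℝ) (p q : ℝ[X]) : ip p (C a * q) = a * ip p q := by
  rw [ip_comm, ip_C_mul_left, ip_comm]

theorem ip_self (p : ℝ[X]) : ip p p = sq p := by
  unfold ip sq
  rw [sum_def, sum_def]
  exact Finset.sum_congr rfl fun i _ => by ring

theorem ip_zero_left (q : ℝ[X]) : ip 0 q = 0 := by simp [ip]

theorem ip_zero_right (q : ℝ[X]) : ip q 0 = 0 := by rw [ip_comm, ip_zero_left]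

theorem ip_monomial_left (i : ℕ) (a : ℝ) (q : ℝ[X]) : ip (monomial i a) q = a * q.coeff i := by
  simp [ip, sum_monomial_index]

theorem ip_C_left (a : ℝ) (q : ℝ[X]) : ip (C a) q = a * q.coeff 0 := by
  rw [← monomial_zero_left, ip_monomial_left]

theorem ip_C_right (a : ℝ) (q : ℝ[X]) : ip q (C a) = a * q.coeff 0 := by
  rw [ip_comm, ip_C_left]

theorem ip_X_mul (p q : ℝ[X]) : ip (X * p) (X * q) = ip p q := by
  have hN : (X * p).natDegree < p.natDegree + 2 := by
    have := natDegree_mul_le (p := (X : ℝ[X])) (q := p)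
    have h1 : (X : ℝ[X]).natDegree ≤ 1 := natDegree_X_le
    omega
  rw [ip_eq_sum _ _ _ hN, ip_eq_sum p q (p.natDegree + 1) (by omega), Finset.sum_range_succ']
  simp [coeff_X_mul]

theorem ip_X_pow_mul (m : ℕ) (p q : ℝ[X]) : ip (X ^ m * p) (X ^ m * q) = ip p q := by
  induction m with
  | zero => simp
  | succ m ih => rw [pow_succ', mul_assoc, mul_assoc, ip_X_mul, ih]

/-! ### The Toeplitz map -/

/-- The new constant coefficient in `T u (X * p)`. -/
noncomputable def dl (u : ℕ → ℤ) (p : ℝ[X]) : ℝ := p.sum fun i x => (u (i + 1) : ℝ) * x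

theorem dl_add (u : ℕ → ℤ) (p q : ℝ[X]) : dl u (p + q) = dl u p + dl u q := by
  unfold dl
  rw [sum_add_index]
  · simp
  · intros; ring

theorem dl_monomial (u : ℕ → ℤ) (n : ℕ) (a : ℝ) : dl u (monomial n a) = u (n + 1) * a := by
  simp [dl, sum_monomial_index]

theorem T_X_mul (u : ℕ → ℤ) (p : ℝ[X]) : T u (X * p) = X * T u p + C (dl u p) := by
  induction p using Polynomial.induction_on' with
  | add p q hp hq => rw [mul_add, T_add, T_add, dl_add, hp, hq, C_add]; ring
  | monomial n a =>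
    rw [X_mul_monomial, T_monomial, T_monomial, dl_monomial, Finset.sum_range_succ',
      Finset.mul_sum]
    congr 1
    exact Finset.sum_congr rfl fun i _ => by rw [X_mul_monomial]; simp

theorem T_C_mul (u : ℕ → ℤ) (a : ℝ) (p : ℝ[X]) : T u (C a * p) = C a * T u p := by
  induction p using Polynomial.induction_on' with
  | add p q hp hq => rw [mul_add, T_add, T_add, hp, hq, mul_add]
  | monomial n b =>
    rw [C_mul_monomial, T_monomial, T_monomial, Finset.mul_sum]
    exact Finset.sum_congr rfl fun i _ => by rw [C_mul_monomial]; congr 1; ring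

theorem T_C (u : ℕ → ℤ) (a : ℝ) : T u (C a) = C (u 0 * a) := by
  rw [← monomial_zero_left, T_monomial]
  simp

/-! ### The forms -/

/-- The bilinear form `⟨Tp, Tq⟩ - ⟨p, q⟩`. -/
noncomputable def B (u : ℕ → ℤ) (p q : ℝ[X]) : ℝ := ip (T u p) (T u q) - ip p q

theorem B_comm (u : ℕ → ℤ) (p q : ℝ[X]) : B u p q = B u q p := by
  unfold B; rw [ip_comm, ip_comm p]

theorem B_add_left (u : ℕ → ℤ) (p p' q : ℝ[X]) : B u (p + p') q = B u p q + B u p' q := by
  unfold B; rw [T_add, ip_add_left, ip_add_left]; ring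

theorem B_add_right (u : ℕ → ℤ) (p q q' : ℝ[X]) : B u p (q + q') = B u p q + B u p q' := by
  unfold B; rw [T_add, ip_add_right, ip_add_right]; ring

theorem B_C_mul_left (u : ℕ → ℤ) (a : ℝ) (p q : ℝ[X]) : B u (C a * p) q = a * B u p q := by
  unfold B; rw [T_C_mul, ip_C_mul_left, ip_C_mul_left]; ring

theorem B_C_mul_right (u : ℕ → ℤ) (a : ℝ) (p q : ℝ[X]) : B u p (C a * q) = a * B u p q := by
  unfold B; rw [T_C_mul, ip_C_mul_right, ip_C_mul_right]; ring

/-- Abstract form of the inequality. -/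
def Hyp (S z t : ℝ) (u : ℕ → ℤ) : Prop :=
  ∀ p : ℝ[X], S * B u p p ≤ ((T u p).eval z + t * p.eval z) ^ 2

theorem Core.hyp {n : ℕ} {β : ℝ} {u : ℕ → ℤ} (h : Core n β u) :
    Hyp (∑ i ∈ Finset.range n, (β⁻¹) ^ (2 * i)) β⁻¹ ((β⁻¹) ^ n) u := by
  intro p
  have := h.ineq p
  rw [← ip_self, ← ip_self] at this
  exact this

/-- No two-dimensional positive definite subspace. -/
theorem no_pos2 {S z t : ℝ} {u : ℕ → ℤ} (hS : 0 < S) (H : Hyp S z t u) (p q : ℝ[X])
    (h1 : 0 < B u p p) (h2 : B u p q ^ 2 < B u p p * B u q q) : False := by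
  set lp := (T u p).eval z + t * p.eval z with hlp
  set lq := (T u q).eval z + t * q.eval z with hlq
  have key := H (C lq * p + C (-lp) * q)
  have e1 : (T u (C lq * p + C (-lp) * q)).eval z + t * (C lq * p + C (-lp) * q).eval z = 0 := by
    rw [T_add, T_C_mul, T_C_mul]
    simp only [eval_add, eval_mul, eval_C]
    rw [hlp, hlq]; ring
  rw [e1] at key
  have e2 : B u (C lq * p + C (-lp) * q) (C lq * p + C (-lp) * q) =
      lq ^ 2 * B u p p - 2 * lq * lp * B u p q + lp ^ 2 * B u q q := by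
    simp only [B_add_left, B_add_right, B_C_mul_left, B_C_mul_right]
    rw [B_comm u q p]; ring
  rw [e2] at key
  have k1 : lq ^ 2 * B u p p - 2 * lq * lp * B u p q + lp ^ 2 * B u q q ≤ 0 := by
    by_contra hc
    push Not at hc
    have := mul_pos hS hc
    nlinarith
  have kp := H p
  have hlp0 : lp ≠ 0 := by
    intro h0
    have : S * B u p p ≤ 0 := by
      have h3 : ((T u p).eval z + t * p.eval z) = 0 := h0
      rw [h3] at kp; simpa using kp
    nlinarith [mul_pos hS h1]
  have e3 : B u p p * (lq ^ 2 * B u p p - 2 * lq * lp * B u p q + lp ^ 2 * B u q q) =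
      (lq * B u p p - lp * B u p q) ^ 2 + lp ^ 2 * (B u p p * B u q q - B u p q ^ 2) := by ring
  have h4 : 0 < lp ^ 2 * (B u p p * B u q q - B u p q ^ 2) :=
    mul_pos (by positivity) (by linarith)
  have h5 : B u p p * (lq ^ 2 * B u p p - 2 * lq * lp * B u p q + lp ^ 2 * B u q q) ≤ 0 :=
    mul_nonpos_of_nonneg_of_nonpos h1.le k1
  nlinarith [sq_nonneg (lq * B u p p - lp * B u p q)]

/-- Rigidity. -/
theorem rigid_T {S z t : ℝ} {u : ℕ → ℤ} (hS : 0 < S) (H : Hyp S z t u) (p0 pp : ℝ[X])
    (hauto : ∀ m : ℕ, ip (X ^ m * T u p0) (T u p0) = ip (X ^ m * p0) p0)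
    (hA0 : (T u p0).coeff 0 ≠ 0) (hpp : 0 < B u pp pp) (hpp0 : B u pp p0 = 0) :
    ∀ j : ℕ, T u (X ^ j * p0) = X ^ j * T u p0 := by
  intro j
  induction j with
  | zero => simp
  | succ j ih =>
    have e1 : T u (X ^ (j + 1) * p0) = X ^ (j + 1) * T u p0 + C (dl u (X ^ j * p0)) := by
      rw [pow_succ', mul_assoc, T_X_mul, ih]; ring
    set δ := dl u (X ^ j * p0) with hδ
    by_cases h0 : δ = 0
    · rw [e1, h0]; simp
    exfalso
    set A := T u p0 with hA
    have c0 : (X ^ (j + 1) * A).coeff 0 = 0 := by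
      rw [pow_succ', mul_assoc]; simp
    have b1 : B u (X ^ (j + 1) * p0) (X ^ (j + 1) * p0) = δ ^ 2 := by
      unfold B
      rw [e1, ip_add_left, ip_add_right, ip_add_right, ip_X_pow_mul, ip_X_pow_mul, ip_C_right,
        ip_C_left, ip_C_left, c0]
      have := hauto 0
      simp only [pow_zero, one_mul] at this
      rw [this]; simp; ring
    have b2 : B u (X ^ (j + 1) * p0) p0 = δ * A.coeff 0 := by
      unfold B
      rw [e1, ip_add_left, ip_C_left, hauto (j + 1)]
      ring
    have b3 : B u p0 p0 = 0 := by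
      unfold B
      have := hauto 0
      simp only [pow_zero, one_mul] at this
      rw [← hA, this]; ring
    set w := B u pp pp with hw
    set μ := B u pp (X ^ (j + 1) * p0) with hμ
    set lam := μ ^ 2 / (2 * w * δ * A.coeff 0) with hlam
    have hden : 2 * w * δ * A.coeff 0 ≠ 0 := by
      refine mul_ne_zero (mul_ne_zero (mul_ne_zero two_ne_zero hpp.ne') h0) hA0
    refine no_pos2 hS H pp (X ^ (j + 1) * p0 + C lam * p0) hpp ?_
    have f1 : B u pp (X ^ (j + 1) * p0 + C lam * p0) = μ := by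
      rw [B_add_right, B_C_mul_right, hpp0, ← hμ]; ring
    have f2 : B u (X ^ (j + 1) * p0 + C lam * p0) (X ^ (j + 1) * p0 + C lam * p0) =
        δ ^ 2 + 2 * lam * (δ * A.coeff 0) := by
      simp only [B_add_left, B_add_right, B_C_mul_left, B_C_mul_right]
      rw [b1, B_comm u p0 (X ^ (j + 1) * p0), b2, b3]; ring
    rw [f1, f2, ← hw]
    have f3 : w * (2 * lam * (δ * A.coeff 0)) = μ ^ 2 := by
      rw [hlam]; field_simp
    have : 0 < w * δ ^ 2 := mul_pos hpp (by positivity)
    nlinarith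

/-- `u 0 = ±1`, `u 1 = 0` is impossible. -/
theorem zero_case {n : ℕ} {β : ℝ} {u : ℕ → ℤ} (hn : 1 ≤ n) (h : Core n β u)
    (h0 : u 0 = 1 ∨ u 0 = -1) (h1 : u 1 = 0) : False := by
  have hS : 0 < (∑ i ∈ Finset.range n, (β⁻¹) ^ (2 * i)) := by
    have hb : 0 < β⁻¹ := inv_pos.mpr (by linarith [h.one_lt])
    exact Finset.sum_pos (fun i _ => by positivity) ⟨0, by simp; omega⟩
  have H := h.hyp
  have hsq : ((u 0 : ℝ)) ^ 2 = 1 := by rcases h0 with h0 | h0 <;> rw [h0] <;> norm_num
  have key : ∀ j : ℕ, T u (X ^ j) = monomial j (u 0 : ℝ) := by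
    intro j
    induction j with
    | zero => rw [pow_zero, ← C_1, T_C]; simp
    | succ j ih =>
      have e1 : T u (X ^ (j + 1)) = monomial (j + 1) (u 0 : ℝ) + C (u (j + 1) : ℝ) := by
        rw [pow_succ', T_X_mul, ih, X_mul_monomial]
        congr 2
        rw [X_pow_eq_monomial, dl_monomial]; ring
      rcases Nat.eq_zero_or_pos j with hj | hj
      · subst hj; rw [e1]; simp [h1]
      by_cases hc : u (j + 1) = 0
      · rw [e1, hc]; simp
      exfalso
      have e2 : T u (X ^ (j + 2)) = monomial (j + 2) (u 0 : ℝ) + monomial 1 (u (j + 1) : ℝ) +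
          C (u (j + 2) : ℝ) := by
        rw [pow_succ' _ (j + 1), T_X_mul, e1, mul_add, X_mul_monomial]
        congr 2
        · rw [← monomial_zero_left, X_mul_monomial]
        · rw [X_pow_eq_monomial, dl_monomial]; ring
      set c : ℝ := (u (j + 1) : ℝ) with hcdef
      set d : ℝ := (u (j + 2) : ℝ) with hddef
      have hc' : c ≠ 0 := by rw [hcdef]; exact_mod_cast hc
      have b11 : B u (X ^ (j + 1)) (X ^ (j + 1)) = c ^ 2 := by
        unfold B
        rw [e1, X_pow_eq_monomial]
        simp only [ip_add_left, ip_monomial_left, ip_C_left, coeff_add, coeff_monomial, coeff_C]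
        simp
        nlinarith
      have b12 : B u (X ^ (j + 1)) (X ^ (j + 2)) = c * d := by
        unfold B
        rw [e1, e2, X_pow_eq_monomial, X_pow_eq_monomial]
        simp only [ip_add_left, ip_monomial_left, ip_C_left, coeff_add, coeff_monomial, coeff_C]
        have hj' : j ≠ 0 := by omega
        have hj2 : ¬ (0 = j) := by omega
        simp [hj']
      have b22 : B u (X ^ (j + 2)) (X ^ (j + 2)) = c ^ 2 + d ^ 2 := by
        unfold B
        rw [e2, X_pow_eq_monomial]
        simp only [ip_add_left, ip_monomial_left, ip_C_left, coeff_add, coeff_monomial, coeff_C]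
        simp
        nlinarith
      refine no_pos2 hS H (X ^ (j + 1)) (C c * X ^ (j + 2) + C (-d) * X ^ (j + 1)) ?_ ?_
      · rw [b11]; positivity
      · simp only [B_add_left, B_add_right, B_C_mul_left, B_C_mul_right]
        rw [B_comm u (X ^ (j + 2)) (X ^ (j + 1)), b11, b12, b22]
        have : 0 < c ^ 2 * (c ^ 4) := by positivity
        nlinarith
  have hr := h.rigid 1 (by
    intro j
    rw [mul_one, key j]
    have := key 0
    rw [pow_zero] at this
    rw [this, monomial_zero_left, X_pow_mul_C, C_mul_X_pow_eq_monomial])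
  rw [show (1 : ℝ[X]) = C 1 from rfl, T_C] at hr
  simp only [eval_C, mul_one] at hr
  have hb : 1 < β ^ n := one_lt_pow₀ h.one_lt (by omega)
  rcases h0 with h0 | h0 <;> rw [h0] at hr <;> push_cast at hr <;> linarith

end Pool.Agent.MP1f45fc.SalemC
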