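import Mathlib
import Pool.Agent.Lib.MP_1f45fc_nt.SalemC.Form

set_option autoImplicit false

open Polynomial

namespace Pool.Agent.MP1f45fc.SalemC

/-! ### List arithmetic -/

def addL : List ℤ → List ℤ → List ℤ
  | [], b => b
  | x :: a, [] => x :: a
  | x :: a, y :: b => (x + y) :: addL a b

def smulL (c : ℤ) : List ℤ → List ℤ
  | [] => []
  | x :: a => (c * x) :: smulL c a

def mulL : List ℤ → List ℤ → List ℤ
  | [], _ => []
  | x :: a, b => addL (smulL x b) (0 :: mulL a b)

def dot : List ℤ → List ℤ → ℤ
  | x :: a, y :: b => x * y + dot a b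
  | _, _ => 0

def Tl (U : List ℤ) : List ℤ → List ℤ
  | [] => []
  | b :: p => dot U (b :: p) :: Tl U p

def shiftL : ℕ → List ℤ → List ℤ
  | 0, p => p
  | m + 1, p => 0 :: shiftL m p

noncomputable def evl : List ℤ → ℝ → ℝ
  | [], _ => 0
  | a :: p, x => a + x * evl p x

noncomputable def toP : List ℤ → ℝ[X]
  | [] => 0
  | a :: p => C (a : ℝ) + X * toP p

theorem evl_addL (a b : List ℤ) (x : ℝ) : evl (addL a b) x = evl a x + evl b x := by
  induction a generalizing b with
  | nil => simp [addL, evl]
  | cons y a ih =>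
    cases b with
    | nil => simp [addL, evl]
    | cons z b => simp only [addL, evl, ih]; push_cast; ring

theorem evl_smulL (c : ℤ) (a : List ℤ) (x : ℝ) : evl (smulL c a) x = c * evl a x := by
  induction a with
  | nil => simp [smulL, evl]
  | cons y a ih => simp only [smulL, evl, ih]; push_cast; ring

theorem evl_mulL (a b : List ℤ) (x : ℝ) : evl (mulL a b) x = evl a x * evl b x := by
  induction a with
  | nil => simp [mulL, evl]
  | cons y a ih => simp only [mulL, evl, evl_addL, evl_smulL, ih]; push_cast; ring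

theorem evl_shiftL (m : ℕ) (a : List ℤ) (x : ℝ) : evl (shiftL m a) x = x ^ m * evl a x := by
  induction m with
  | zero => simp [shiftL]
  | succ m ih => simp only [shiftL, evl, ih]; push_cast; ring

theorem eval_toP (a : List ℤ) (x : ℝ) : (toP a).eval x = evl a x := by
  induction a with
  | nil => simp [toP, evl]
  | cons y a ih => simp [toP, evl, ih]

theorem ip_toP (a b : List ℤ) : ip (toP a) (toP b) = dot a b := by
  induction a generalizing b with
  | nil => simp [toP, dot, ip_zero_left]
  | cons y a ih =>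
    cases b with
    | nil => simp [toP, dot, ip_zero_right]
    | cons z b =>
      simp only [toP, dot, ip_add_left, ip_add_right, ip_C_left, ip_C_right, ip_X_mul, ih]
      simp [mul_comm]

/-! ### Prefixes -/

/-- `U` is a prefix of the sequence `u`. -/
def IsPre : List ℤ → (ℕ → ℤ) → Prop
  | [], _ => True
  | a :: U, u => u 0 = a ∧ IsPre U (fun i => u (i + 1))

def dotf : (ℕ → ℤ) → List ℤ → ℤ
  | _, [] => 0
  | u, y :: b => u 0 * y + dotf (fun i => u (i + 1)) b

theorem dl_toP (u : ℕ → ℤ) (p : List ℤ) : dl u (toP p) = dotf (fun i => u (i + 1)) p := by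
  have hX : ∀ (u : ℕ → ℤ) (p : ℝ[X]), dl u (X * p) = dl (fun i => u (i + 1)) p := by
    intro u p
    induction p using Polynomial.induction_on' with
    | add p q hp hq => rw [mul_add, dl_add, dl_add, hp, hq]
    | monomial n a => rw [X_mul_monomial, dl_monomial, dl_monomial]
  induction p generalizing u with
  | nil => simp [toP, dotf, dl]
  | cons y p ih =>
    simp only [toP, dotf, dl_add, hX, ih]
    rw [← monomial_zero_left, dl_monomial]
    push_cast; ring

def Tf (u : ℕ → ℤ) : List ℤ → List ℤ
  | [] => []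
  | b :: p => dotf u (b :: p) :: Tf u p

theorem T_toP (u : ℕ → ℤ) (p : List ℤ) : T u (toP p) = toP (Tf u p) := by
  induction p with
  | nil => simp [toP, Tf, T_zero]
  | cons y p ih =>
    simp only [toP, Tf, T_add, T_X_mul, T_C, ih, dl_toP, dotf]
    push_cast
    rw [C_add]; ring

theorem dot_eq_dotf (U : List ℤ) (u : ℕ → ℤ) (h : IsPre U u) (p : List ℤ)
    (hp : p.length ≤ U.length) : dot U p = dotf u p := by
  induction U generalizing u p with
  | nil =>
    have : p = [] := List.length_eq_zero_iff.mp (by simpa using hp)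
    subst this; simp [dot, dotf]
  | cons a U ih =>
    cases p with
    | nil => simp [dot, dotf]
    | cons y p =>
      simp only [dot, dotf]
      rw [ih _ h.2 p (by simpa using hp), h.1]

theorem Tl_eq_Tf (U : List ℤ) (u : ℕ → ℤ) (h : IsPre U u) (p : List ℤ)
    (hp : p.length ≤ U.length) : Tl U p = Tf u p := by
  induction p with
  | nil => simp [Tl, Tf]
  | cons y p ih =>
    simp only [Tl, Tf]
    rw [dot_eq_dotf U u h _ hp, ih (by simp at hp; omega)]

theorem isPre_append (U : List ℤ) (c : ℤ) (u : ℕ → ℤ) (h : IsPre U u) (hc : u U.length = c) :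
    IsPre (U ++ [c]) u := by
  induction U generalizing u with
  | nil => exact ⟨by simpa using hc, trivial⟩
  | cons a U ih => exact ⟨h.1, ih _ h.2 (by simpa using hc)⟩

theorem isPre_take (U : List ℤ) (u : ℕ → ℤ) (h : IsPre U u) (k : ℕ) : IsPre (U.take k) u := by
  induction U generalizing u k with
  | nil => simp [IsPre]
  | cons a U ih =>
    cases k with
    | zero => simp [IsPre]
    | succ k => exact ⟨h.1, ih _ h.2 k⟩

/-! ### Evaluation on an interval -/

/-- Numerator and denominator of `∑ c_i (X/Y)^i` as polynomials in `t`, `X = x0 + x1 t`,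
`Y = y0 + y1 t`. -/
def bern (x0 x1 y0 y1 : ℤ) : List ℤ → List ℤ × List ℤ
  | [] => ([], [1])
  | c :: cs =>
    let r := bern x0 x1 y0 y1 cs
    let pw := addL (smulL y0 r.2) (0 :: smulL y1 r.2)
    (addL (smulL c pw) (addL (smulL x0 r.1) (0 :: smulL x1 r.1)), pw)

theorem bern_snd (x0 x1 y0 y1 : ℤ) (cs : List ℤ) (t : ℝ) :
    evl (bern x0 x1 y0 y1 cs).2 t = (y0 + y1 * t) ^ cs.length := by
  induction cs with
  | nil => simp [bern, evl]
  | cons c cs ih =>
    simp only [bern, evl_addL, evl_smulL, evl, ih, List.length_cons]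
    push_cast; ring

theorem bern_fst (x0 x1 y0 y1 : ℤ) (cs : List ℤ) (t x : ℝ)
    (hx : (x0 + x1 * t : ℝ) = x * (y0 + y1 * t)) :
    evl (bern x0 x1 y0 y1 cs).1 t = (y0 + y1 * t) ^ cs.length * evl cs x := by
  induction cs with
  | nil => simp [bern, evl]
  | cons c cs ih =>
    have h2 := bern_snd x0 x1 y0 y1 cs t
    simp only [bern, evl_addL, evl_smulL, evl, ih, List.length_cons, h2]
    have : (x0 : ℝ) * ((y0 + y1 * t) ^ cs.length * evl cs x) +
        t * (x1 * ((y0 + y1 * t) ^ cs.length * evl cs x)) =
        (x0 + x1 * t : ℝ) * ((y0 + y1 * t) ^ cs.length * evl cs x) := by ring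
    have h3 : ((0 : ℤ) : ℝ) = 0 := by norm_num
    rw [h3, zero_add, zero_add, this, hx]
    ring

/-- All entries nonnegative. -/
def nn : List ℤ → Bool
  | [] => true
  | x :: xs => decide (0 ≤ x) && nn xs

theorem nn_evl (l : List ℤ) (h : nn l = true) (t : ℝ) (ht : 0 ≤ t) : 0 ≤ evl l t := by
  induction l with
  | nil => simp [evl]
  | cons x l ih =>
    simp only [nn, Bool.and_eq_true, decide_eq_true_eq] at h
    simp only [evl]
    have h1 : (0 : ℝ) ≤ x := by exact_mod_cast h.1
    have h2 := mul_nonneg ht (ih h.2)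
    linarith

/-! ### Packed evaluation -/

/-- Packed version of `bern`: its values at `t = T`. -/
def bz (X Y : ℤ) : List ℤ → ℤ × ℤ
  | [] => (0, 1)
  | c :: cs => match bz X Y cs with
    | (h, w) => (c * (Y * w) + X * h, Y * w)

/-- Digit check: `D` has `n` digits in base `T`, all smaller than `T / 2`. -/
def dg (T : ℤ) : ℕ → ℤ → Bool
  | 0, D => D == 0
  | n + 1, D => decide (2 * (D % T) < T) && dg T n (D / T)

/-- `ℓ¹` norm. -/
def l1 : List ℤ → ℤ
  | [] => 0
  | c :: cs => (c.natAbs : ℤ) + l1 cs

def evZ : List ℤ → ℤ → ℤ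
  | [], _ => 0
  | c :: cs, T => c + T * evZ cs T

theorem evZ_addL (a b : List ℤ) (T : ℤ) : evZ (addL a b) T = evZ a T + evZ b T := by
  induction a generalizing b with
  | nil => simp [addL, evZ]
  | cons y a ih =>
    cases b with
    | nil => simp [addL, evZ]
    | cons z b => simp only [addL, evZ, ih]; ring

theorem evZ_smulL (c : ℤ) (a : List ℤ) (T : ℤ) : evZ (smulL c a) T = c * evZ a T := by
  induction a with
  | nil => simp [smulL, evZ]
  | cons y a ih => simp only [smulL, evZ, ih]; ring

theorem l1_nonneg (a : List ℤ) : 0 ≤ l1 a := by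
  induction a with
  | nil => simp [l1]
  | cons y a ih => simp only [l1]; positivity

theorem l1_addL (a b : List ℤ) : l1 (addL a b) ≤ l1 a + l1 b := by
  induction a generalizing b with
  | nil => simp [addL, l1]
  | cons y a ih =>
    cases b with
    | nil => simp [addL, l1]
    | cons z b =>
      simp only [addL, l1]
      have := ih b
      omega

theorem l1_smulL (c : ℤ) (a : List ℤ) : l1 (smulL c a) = (c.natAbs : ℤ) * l1 a := by
  induction a with
  | nil => simp [smulL, l1]
  | cons y a ih => simp only [smulL, l1, ih, Int.natAbs_mul]; push_cast; ring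

theorem bz_eq (x0 x1 y0 y1 T : ℤ) (cs : List ℤ) :
    bz (x0 + x1 * T) (y0 + y1 * T) cs =
      (evZ (bern x0 x1 y0 y1 cs).1 T, evZ (bern x0 x1 y0 y1 cs).2 T) := by
  induction cs with
  | nil => simp [bz, bern, evZ]
  | cons c cs ih =>
    simp only [bz, ih, bern, evZ_addL, evZ_smulL, evZ]
    ext
    · simp only []
      ring
    · simp only []
      ring

/-- Bound used for the base. -/
def Mx (x0 x1 y0 y1 : ℤ) : ℤ :=
  max ((x0.natAbs : ℤ) + x1.natAbs) ((y0.natAbs : ℤ) + y1.natAbs)

theorem l1_bern (x0 x1 y0 y1 : ℤ) (cs : List ℤ) :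
    l1 (bern x0 x1 y0 y1 cs).2 ≤ Mx x0 x1 y0 y1 ^ cs.length ∧
    l1 (bern x0 x1 y0 y1 cs).1 ≤ l1 cs * Mx x0 x1 y0 y1 ^ cs.length := by
  set M := Mx x0 x1 y0 y1 with hM
  have hM0 : 0 ≤ M := by rw [hM, Mx]; positivity
  have hx : (x0.natAbs : ℤ) + x1.natAbs ≤ M := le_max_left _ _
  have hy : (y0.natAbs : ℤ) + y1.natAbs ≤ M := le_max_right _ _
  induction cs with
  | nil => simp [bern, l1]
  | cons c cs ih =>
    obtain ⟨i1, i2⟩ := ih
    set r := bern x0 x1 y0 y1 cs with hr
    have hp := l1_nonneg r.2
    have hh := l1_nonneg r.1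
    have k1 : l1 (addL (smulL y0 r.2) (0 :: smulL y1 r.2)) ≤ M ^ (cs.length + 1) := by
      refine (l1_addL _ _).trans ?_
      simp only [l1_smulL, l1]
      simp only [Int.natAbs_zero, Nat.cast_zero, zero_add]
      calc (y0.natAbs : ℤ) * l1 r.2 + y1.natAbs * l1 r.2
          = ((y0.natAbs : ℤ) + y1.natAbs) * l1 r.2 := by ring
        _ ≤ M * M ^ cs.length := mul_le_mul hy i1 hp hM0
        _ = M ^ (cs.length + 1) := by ring
    refine ⟨by simpa [bern, ← hr] using k1, ?_⟩
    simp only [bern, ← hr]
    refine (l1_addL _ _).trans ?_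
    rw [l1_smulL]
    have k2 : l1 (addL (smulL x0 r.1) (0 :: smulL x1 r.1)) ≤
        l1 cs * M ^ (cs.length + 1) := by
      refine (l1_addL _ _).trans ?_
      simp only [l1_smulL, l1]
      simp only [Int.natAbs_zero, Nat.cast_zero, zero_add]
      calc (x0.natAbs : ℤ) * l1 r.1 + x1.natAbs * l1 r.1
          = ((x0.natAbs : ℤ) + x1.natAbs) * l1 r.1 := by ring
        _ ≤ M * (l1 cs * M ^ cs.length) := mul_le_mul hx i2 hh hM0
        _ = l1 cs * M ^ (cs.length + 1) := by ring
    have k3 := mul_le_mul_of_nonneg_left k1 (show (0 : ℤ) ≤ (c.natAbs : ℤ) by positivity)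
    simp only [l1, List.length_cons]
    linarith

theorem length_addL' (a b : List ℤ) : (addL a b).length = max a.length b.length := by
  induction a generalizing b with
  | nil => simp [addL]
  | cons x a ih =>
    cases b with
    | nil => simp [addL]
    | cons y b => simp only [addL, List.length_cons, ih]; omega

theorem length_smulL' (c : ℤ) (a : List ℤ) : (smulL c a).length = a.length := by
  induction a with
  | nil => simp [smulL]
  | cons x a ih => simp [smulL, ih]

theorem length_bern (x0 x1 y0 y1 : ℤ) (cs : List ℤ) :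
    (bern x0 x1 y0 y1 cs).1.length ≤ cs.length + 1 ∧
    (bern x0 x1 y0 y1 cs).2.length ≤ cs.length + 1 := by
  induction cs with
  | nil => simp [bern]
  | cons c cs ih =>
    obtain ⟨i1, i2⟩ := ih
    simp only [bern, length_addL', length_smulL', List.length_cons]
    omega

/-- The digit check implies that all coefficients are nonnegative. -/
theorem dg_nn (T : ℤ) (n : ℕ) (l : List ℤ) (hl : l.length ≤ n) (hT : 2 * l1 l < T)
    (h : dg T n (evZ l T) = true) : nn l = true := by
  induction l generalizing n with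
  | nil => simp [nn]
  | cons x l ih =>
    cases n with
    | zero => simp at hl
    | succ n =>
      simp only [dg, Bool.and_eq_true, decide_eq_true_eq, evZ] at h
      simp only [l1] at hT
      have hl1 := l1_nonneg l
      have hTpos : 0 < T := by omega
      have e1 : (x + T * evZ l T) % T = x % T := by
        rw [mul_comm, Int.add_mul_emod_self_right]
      rw [e1] at h
      have hx0 : 0 ≤ x := by
        by_contra hneg
        push Not at hneg
        have e2 : x % T = x + T := by
          rw [← Int.add_emod_right, Int.emod_eq_of_lt (by omega) (by omega)]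
        rw [e2] at h
        omega
      have e3 : (x + T * evZ l T) / T = evZ l T := by
        rw [Int.add_mul_ediv_left _ _ hTpos.ne', Int.ediv_eq_zero_of_lt hx0 (by omega)]
        ring
      rw [e3] at h
      simp only [nn, Bool.and_eq_true, decide_eq_true_eq]
      exact ⟨hx0, ih n (by simpa using hl) (by omega) h.2⟩

theorem nn_bern (x0 x1 y0 y1 : ℤ) (h0 : 0 ≤ y0) (h1 : 0 ≤ y1) (cs : List ℤ) :
    nn (bern x0 x1 y0 y1 cs).2 = true := by
  have hs : ∀ (c : ℤ) (l : List ℤ), 0 ≤ c → nn l = true → nn (smulL c l) = true := by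
    intro c l hc hl
    induction l with
    | nil => simp [smulL, nn]
    | cons x l ih =>
      simp only [nn, smulL, Bool.and_eq_true, decide_eq_true_eq] at hl ⊢
      exact ⟨mul_nonneg hc hl.1, ih hl.2⟩
  have ha : ∀ (l l' : List ℤ), nn l = true → nn l' = true → nn (addL l l') = true := by
    intro l l' hl hl'
    induction l generalizing l' with
    | nil => simpa [addL] using hl'
    | cons x l ih =>
      cases l' with
      | nil => simpa [addL] using hl
      | cons y l' =>
        simp only [nn, addL, Bool.and_eq_true, decide_eq_true_eq] at hl hl' ⊢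
        exact ⟨add_nonneg hl.1 hl'.1, ih _ hl.2 hl'.2⟩
  induction cs with
  | nil => simp [bern, nn]
  | cons c cs ih =>
    simp only [bern]
    refine ha _ _ (hs _ _ h0 ih) ?_
    simp only [nn, Bool.and_eq_true, decide_eq_true_eq]
    exact ⟨le_refl _, hs _ _ h1 ih⟩

end Pool.Agent.MP1f45fc.SalemC
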