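import Mathlib
import Pool.Agent.Lib.MP_1f45fc_nt.SalemC.Check

set_option autoImplicit false

open Polynomial

namespace Pool.Agent.MP1f45fc.SalemC

/-- Numerator and denominator of `∑_{i<m} (a/q)^(2i)`. -/
def Srat (a q : ℤ) : ℕ → ℤ × ℤ
  | 0 => (0, 1)
  | m + 1 => let r := Srat a q m; (q * q * r.2 + a * a * r.1, q * q * r.2)

/-- `β⁻¹ ∈ [a/q, b/q)`. -/
structure InInt (a b q : ℤ) (z : ℝ) : Prop where
  qpos : 0 < q
  anonneg : 0 ≤ a
  lo : (a : ℝ) ≤ q * z
  hi : (q : ℝ) * z < b

theorem Srat_den (a q : ℤ) (hq : 0 < q) (m : ℕ) : 0 < (Srat a q m).2 := by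
  induction m with
  | zero => simp [Srat]
  | succ m ih => simp only [Srat]; positivity

theorem Srat_le (a b q : ℤ) (z : ℝ) (h : InInt a b q z) (m : ℕ) :
    ((Srat a q m).1 : ℝ) ≤ (Srat a q m).2 * ∑ i ∈ Finset.range m, z ^ (2 * i) := by
  induction m with
  | zero => simp [Srat]
  | succ m ih =>
    simp only [Srat]
    push_cast
    have hq : (0 : ℝ) < q := by exact_mod_cast h.qpos
    have ha : (0 : ℝ) ≤ a := by exact_mod_cast h.anonneg
    have hz : 0 ≤ z := by
      by_contra hc
      push Not at hc
      nlinarith [h.lo]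
    have e1 : ∑ i ∈ Finset.range (m + 1), z ^ (2 * i) =
        1 + z ^ 2 * ∑ i ∈ Finset.range m, z ^ (2 * i) := by
      rw [Finset.sum_range_succ', Finset.mul_sum, add_comm]
      congr 1
      exact Finset.sum_congr rfl fun i _ => by ring
    rw [e1]
    have hD : (0 : ℝ) < (Srat a q m).2 := by exact_mod_cast Srat_den a q h.qpos m
    set Sm := ∑ i ∈ Finset.range m, z ^ (2 * i) with hSm
    have hSm0 : 0 ≤ Sm := Finset.sum_nonneg fun i _ => by positivity
    have h1 : (a : ℝ) * a ≤ (q * z) * (q * z) := mul_self_le_mul_self ha h.lo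
    have h2 : (a : ℝ) * a * (Srat a q m).1 ≤ (a * a) * ((Srat a q m).2 * Sm) :=
      mul_le_mul_of_nonneg_left ih (mul_nonneg ha ha)
    have h3 : ((a : ℝ) * a) * ((Srat a q m).2 * Sm) ≤ (q * z) * (q * z) * ((Srat a q m).2 * Sm) :=
      mul_le_mul_of_nonneg_right h1 (mul_nonneg hD.le hSm0)
    nlinarith

structure Goal where
  U : List ℤ
  a : ℤ
  b : ℤ
  q : ℤ
  deriving DecidableEq

def ells (m : ℕ) (rel : Bool) (A p : List ℤ) : List (List ℤ) :=
  if rel then [addL (shiftL m p) A, A] else [addL (shiftL m p) A]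

/-- `|ℓ| ≤ c/1000` on `[a/q, b/q)`, and `r2 ℓ ≤ r1` if `ray`. -/
def chkL (a b q c r1 r2 : ℤ) (ray : Bool) (L : List ℤ) : Bool :=
  let T := 2 * (((c.natAbs : ℤ) + r1.natAbs + (1000 + r2.natAbs) * l1 L) * Mx a b q q ^ L.length) + 1
  match bz (a + b * T) (q + q * T) L with
  | (H, W) =>
    dg T (L.length + 1) (c * W + (-1000) * H) && dg T (L.length + 1) (c * W + 1000 * H) &&
      (!ray || dg T (L.length + 1) (r1 * W + (-r2) * H))

def chk (m : ℕ) (rel : Bool) (g : Goal) (U' p : List ℤ) (c : ℤ) (ray : Bool) : Bool :=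
  match Tl U' p with
  | A =>
    match dot A A - dot p p, A.headD 0 with
    | W, A0 =>
      match Srat g.a g.q m, Srat g.b g.q m with
      | (Sn, Sd), (Bn, Bd) =>
        decide (c * c * Sd < Sn * W * 1000000) && (!ray || decide (0 ≤ A0) || !rel) &&
        (ells m rel A p).all (fun L => chkL g.a g.b g.q c
          (if 0 ≤ A0 then Sn * A0 else Bn * A0) (if 0 ≤ A0 then Sd else Bd) ray L)

inductive Instr
  | dead (c : ℤ) (p : List ℤ)
  | branch (lo : ℤ) (len : ℕ) (cd : ℤ) (pd : List ℤ) (cu : ℤ) (pu : List ℤ)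
  | split
  | rigid (p0 pp : List ℤ)
  | rigidL (p0 pp C : List ℤ)
  | rigdiv (p0 pp : List ℤ)
  | w2 (p r : List ℤ)
  | zero
  | z0
  | spine

def children (g : Goal) (lo : ℤ) : ℕ → List Goal
  | 0 => []
  | len + 1 => { g with U := g.U ++ [lo] } :: children g (lo + 1) len

def leh : List ℤ := [1, 1, 0, -1, -1, -1, -1, -1, 0, 1, 1]

/-- Rigidity data check (for the prefix `U`). -/
def rigOK (U p0 pp : List ℤ) : Bool :=
  let A := Tl U p0
  let P := Tl U pp
  decide (p0.length ≤ U.length) && decide (pp.length ≤ U.length) &&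
    (decide (A = p0.reverse) || decide (A = smulL (-1) p0.reverse)) &&
    decide (A.headD 0 ≠ 0) && decide (0 < dot P P - dot pp pp) &&
    decide (dot P A - dot pp p0 = 0)

/-- `σ R(β)` is positive, `σ = ±1`. -/
def posB (a b q σ : ℤ) (R : List ℤ) : Bool :=
  let T := 2 * (l1 R * Mx q q a b ^ R.length) + 1
  match bz (q + q * T) (a + b * T) R with
  | (H, _) => dg T (R.length + 1) (σ * H) && decide (0 < (σ * H) % T)

def lastD : List ℤ → ℤ
  | [] => 0
  | [x] => x
  | _ :: y :: l => lastD (y :: l)

def step (m : ℕ) (rel : Bool) (sp : List (List ℤ)) (i : Instr) (g : Goal) : Option (List Goal) :=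
  match i with
  | .dead c p =>
    if decide (p.length ≤ g.U.length) && chk m rel g g.U p c false then some [] else none
  | .branch lo len cd pd cu pu =>
    if decide (pd.length = g.U.length + 1) && decide (pu.length = g.U.length + 1) &&
      decide (lastD pd ≤ 0) && decide (0 ≤ lastD pu) &&
      chk m rel g (g.U ++ [lo - 1]) pd cd true && chk m rel g (g.U ++ [lo + len]) pu cu true
    then some (children g lo len) else none
  | .split => some [{ U := g.U, a := 2 * g.a, b := g.a + g.b, q := 2 * g.q },
      { U := g.U, a := g.a + g.b, b := 2 * g.b, q := 2 * g.q }]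
  | .rigid p0 pp =>
    if !rel && rigOK g.U p0 pp &&
      (posB g.a g.b g.q 1 (addL (shiftL m p0) (Tl g.U p0)) ||
        posB g.a g.b g.q (-1) (addL (shiftL m p0) (Tl g.U p0))) then some [] else none
  | .rigidL p0 pp C =>
    if !rel && rigOK g.U p0 pp && decide (addL (shiftL m p0) (Tl g.U p0) = mulL leh C) &&
      (posB g.a g.b g.q 1 C || posB g.a g.b g.q (-1) C) then some [] else none
  | .rigdiv p0 pp =>
    if !rel && rigOK g.U p0 pp && decide (p0.length = g.U.length) &&
      decide (dot (g.U.tail ++ [0]) p0 % lastD p0 ≠ 0) then some [] else none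
  | .zero => if decide (g.U = [1, 0]) || decide (g.U = [-1, 0]) then some [] else none
  | .z0 => if decide (g.U = [0]) then some [] else none
  | .w2 p r =>
    if decide (p.length ≤ g.U.length) && decide (r.length ≤ g.U.length) &&
      (match Tl g.U p, Tl g.U r with
        | A, R =>
          match dot A A - dot p p, dot A R - dot p r, dot R R - dot r r with
          | x, y, z => decide (0 < x) && decide (y * y < x * z)) then some [] else none
  | .spine => if sp.any (fun s => decide (g.U.take s.length = s)) then some [] else none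

def run (m : ℕ) (rel : Bool) (sp : List (List ℤ)) : List Instr → List Goal → Bool
  | [], [] => true
  | i :: is, g :: gs =>
    match step m rel sp i g with
    | some l => run m rel sp is (l ++ gs)
    | none => false
  | _, _ => false

/-- Partial run: returns the remaining goals. -/
def runTo (m : ℕ) (rel : Bool) (sp : List (List ℤ)) : List Instr → List Goal → Option (List Goal)
  | [], gs => some gs
  | i :: is, g :: gs =>
    match step m rel sp i g with
    | some l => runTo m rel sp is (l ++ gs)
    | none => none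
  | _ :: _, [] => none

/-- Bookkeeping of partial runs: `(a, b)` replaces the goals `a` by `b`. -/
def link : List (List Goal × List Goal) → List Goal → Bool
  | [], [] => true
  | [], _ :: _ => false
  | (a, b) :: L, s => decide (s.take a.length = a) && link L (b ++ s.drop a.length)

end Pool.Agent.MP1f45fc.SalemC
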