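import Mathlib
import Pool.Agent.Lib.MP_1f45fc_nt.SalemC.Run

set_option autoImplicit false

open Polynomial

namespace Pool.Agent.MP1f45fc.SalemC

/-! ### The parameter `t` of the interval -/

theorem InInt.zpos {a b q : ℤ} {z : ℝ} (h : InInt a b q z) : 0 ≤ z := by
  have hq : (0 : ℝ) < q := by exact_mod_cast h.qpos
  have ha : (0 : ℝ) ≤ a := by exact_mod_cast h.anonneg
  by_contra hc
  push Not at hc
  nlinarith [h.lo]

theorem Srat_num (a q : ℤ) (hq : 0 < q) (m : ℕ) : 0 ≤ (Srat a q m).1 := by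
  induction m with
  | zero => simp [Srat]
  | succ m ih =>
    simp only [Srat]
    have := Srat_den a q hq m
    have h1 : 0 ≤ a * a * (Srat a q m).1 := mul_nonneg (mul_self_nonneg a) ih
    positivity

/-- Existence of the parameter. -/
theorem InInt.param {a b q : ℤ} {z : ℝ} (h : InInt a b q z) :
    ∃ t : ℝ, 0 ≤ t ∧ (a + b * t : ℝ) = z * (q + q * t) := by
  have hbq : 0 < (b : ℝ) - q * z := by linarith [h.hi]
  refine ⟨(q * z - a) / (b - q * z), div_nonneg (by linarith [h.lo]) hbq.le, ?_⟩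
  field_simp
  ring

/-- The quantities for one vector: `A = T p`, `W = W(p)`. -/
structure Par (m : ℕ) (rel : Bool) (S z t : ℝ) (u : ℕ → ℤ) : Prop where
  hyp : Hyp S z t u
  S1 : 1 ≤ S
  Sm : ∑ i ∈ Finset.range m, z ^ (2 * i) ≤ S
  tex : rel = false → t = z ^ m
  Sex : rel = false → S = ∑ i ∈ Finset.range m, z ^ (2 * i)
  t0 : 0 ≤ t
  t1 : t ≤ z ^ m

theorem Srat_ge (a b q : ℤ) (z : ℝ) (h : InInt a b q z) (m : ℕ) :
    ((Srat b q m).2 : ℝ) * ∑ i ∈ Finset.range m, z ^ (2 * i) ≤ (Srat b q m).1 := by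
  induction m with
  | zero => simp [Srat]
  | succ m ih =>
    simp only [Srat]
    push_cast
    have hq : (0 : ℝ) < q := by exact_mod_cast h.qpos
    have hz : 0 ≤ z := h.zpos
    have e1 : ∑ i ∈ Finset.range (m + 1), z ^ (2 * i) =
        1 + z ^ 2 * ∑ i ∈ Finset.range m, z ^ (2 * i) := by
      rw [Finset.sum_range_succ', Finset.mul_sum, add_comm]
      congr 1
      exact Finset.sum_congr rfl fun i _ => by ring
    rw [e1]
    have hD : (0 : ℝ) < (Srat b q m).2 := by exact_mod_cast Srat_den b q h.qpos m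
    set Sm := ∑ i ∈ Finset.range m, z ^ (2 * i) with hSm
    have hSm0 : 0 ≤ Sm := Finset.sum_nonneg fun i _ => by positivity
    have hqz : 0 ≤ q * z := mul_nonneg hq.le hz
    have h1 : (q * z) * (q * z) ≤ (b : ℝ) * b := mul_self_le_mul_self hqz h.hi.le
    have h2 : (b : ℝ) * b * ((Srat b q m).2 * Sm) ≤ (b * b) * (Srat b q m).1 :=
      mul_le_mul_of_nonneg_left ih (mul_self_nonneg _)
    have h3 : (q * z) * (q * z) * ((Srat b q m).2 * Sm) ≤ ((b : ℝ) * b) * ((Srat b q m).2 * Sm) :=
      mul_le_mul_of_nonneg_right h1 (mul_nonneg hD.le hSm0)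
    nlinarith

/-- Positivity of `α + γ ℓ(z)` from the digit check. -/
theorem posc_sound {a b q : ℤ} {z : ℝ} (hI : InInt a b q z) (L : List ℤ) (α γ T : ℤ)
    (hT : 2 * (((α.natAbs : ℤ) + γ.natAbs * l1 L) * Mx a b q q ^ L.length) < T)
    (h : dg T (L.length + 1) (α * (bz (a + b * T) (q + q * T) L).2 +
      γ * (bz (a + b * T) (q + q * T) L).1) = true) :
    0 ≤ (α : ℝ) + γ * evl L z := by
  obtain ⟨s, hs, hse⟩ := hI.param
  have hq : (0 : ℝ) < q := by exact_mod_cast hI.qpos
  rw [bz_eq] at h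
  simp only at h
  rw [← evZ_smulL, ← evZ_smulL, ← evZ_addL] at h
  obtain ⟨b1, b2⟩ := l1_bern a b q q L
  obtain ⟨c1, c2⟩ := length_bern a b q q L
  have hnn := dg_nn T (L.length + 1) (addL (smulL α (bern a b q q L).2)
    (smulL γ (bern a b q q L).1)) (by
      rw [length_addL', length_smulL', length_smulL']; omega) (by
      refine lt_of_le_of_lt ?_ hT
      have k := l1_addL (smulL α (bern a b q q L).2) (smulL γ (bern a b q q L).1)
      rw [l1_smulL, l1_smulL] at k
      have k1 := mul_le_mul_of_nonneg_left b1 (show (0 : ℤ) ≤ (α.natAbs : ℤ) by positivity)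
      have k2 := mul_le_mul_of_nonneg_left b2 (show (0 : ℤ) ≤ (γ.natAbs : ℤ) by positivity)
      nlinarith) h
  have hev := nn_evl _ hnn s hs
  rw [evl_addL, evl_smulL, evl_smulL, bern_snd,
    bern_fst a b q q L s z (by exact_mod_cast hse)] at hev
  have hY : (0 : ℝ) < (q + q * s) ^ L.length := by positivity
  have e : (α : ℝ) * (q + q * s) ^ L.length + γ * ((q + q * s) ^ L.length * evl L z) =
      (q + q * s) ^ L.length * (α + γ * evl L z) := by ring
  rw [e] at hev
  by_contra hc
  push Not at hc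
  have := mul_neg_of_pos_of_neg hY hc
  linarith

theorem chkL_sound {a b q : ℤ} {z : ℝ} (hI : InInt a b q z) (L : List ℤ) (c r1 r2 : ℤ)
    (ray : Bool) (h : chkL a b q c r1 r2 ray L = true) :
    |evl L z| ≤ (c : ℝ) / 1000 ∧ (ray = true → (r2 : ℝ) * evl L z ≤ r1) := by
  have hl := l1_nonneg L
  have hMx : (0 : ℤ) ≤ Mx a b q q ^ L.length := by
    have : 0 ≤ Mx a b q q := by unfold Mx; positivity
    positivity
  simp only [chkL, Bool.and_eq_true] at h
  set T := 2 * (((c.natAbs : ℤ) + r1.natAbs + (1000 + r2.natAbs) * l1 L) *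
    Mx a b q q ^ L.length) + 1 with hT
  have hlr : 0 ≤ (r2.natAbs : ℤ) * l1 L := mul_nonneg (by positivity) hl
  have hTb : ∀ x y : ℤ, (x.natAbs : ℤ) ≤ (c.natAbs : ℤ) + r1.natAbs →
      (y.natAbs : ℤ) ≤ 1000 + r2.natAbs →
      2 * (((x.natAbs : ℤ) + y.natAbs * l1 L) * Mx a b q q ^ L.length) < T := by
    intro x y hx hy
    have k1 := mul_le_mul_of_nonneg_right hy hl
    have k2 : ((x.natAbs : ℤ) + y.natAbs * l1 L) * Mx a b q q ^ L.length ≤
        ((c.natAbs : ℤ) + r1.natAbs + (1000 + r2.natAbs) * l1 L) * Mx a b q q ^ L.length :=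
      mul_le_mul_of_nonneg_right (by linarith) hMx
    linarith
  obtain ⟨⟨h1, h2⟩, h3⟩ := h
  have p1 := posc_sound hI L c (-1000) T (hTb _ _ (by omega) (by omega)) h1
  have p2 := posc_sound hI L c 1000 T (hTb _ _ (by omega) (by omega)) h2
  push_cast at p1 p2
  refine ⟨?_, ?_⟩
  · rw [abs_le]
    constructor <;> linarith
  · intro hr
    rw [hr] at h3
    simp only [Bool.not_true, Bool.false_or] at h3
    have p3 := posc_sound hI L r1 (-r2) T (hTb _ _ (by omega) (by omega)) h3
    push_cast at p3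
    linarith

/-- The bounds provided by a successful check. -/
theorem chk_bound {m : ℕ} {rel : Bool} {S z t : ℝ} {u : ℕ → ℤ} (P : Par m rel S z t u)
    (g : Goal) (hI : InInt g.a g.b g.q z) (U' p : List ℤ) (c : ℤ) (ray : Bool)
    (h : chk m rel g U' p c ray = true) :
    (evl (Tl U' p) z + t * evl p z) ^ 2 < S * ((dot (Tl U' p) (Tl U' p) - dot p p : ℤ) : ℝ) ∧
    (ray = true → evl (Tl U' p) z + t * evl p z ≤ S * ((Tl U' p).headD 0 : ℤ)) := by
  have hq : (0 : ℝ) < g.q := by exact_mod_cast hI.qpos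
  simp only [chk, Bool.and_eq_true, Bool.or_eq_true, decide_eq_true_eq, Bool.not_eq_true'] at h
  set A := Tl U' p with hA
  set W := dot A A - dot p p with hWdef
  set A0 := A.headD 0 with hA0def
  have hnum := Srat_le g.a g.b g.q z hI m
  have hden : 0 < (Srat g.a g.q m).2 := Srat_den g.a g.q hI.qpos m
  have hden' : (0 : ℝ) < ((Srat g.a g.q m).2 : ℝ) := by exact_mod_cast hden
  have hnum0 : (0 : ℤ) ≤ (Srat g.a g.q m).1 := Srat_num g.a g.q hI.qpos m
  have hge := Srat_ge g.a g.b g.q z hI m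
  have hdenb : 0 < (Srat g.b g.q m).2 := Srat_den g.b g.q hI.qpos m
  have hdenb' : (0 : ℝ) < ((Srat g.b g.q m).2 : ℝ) := by exact_mod_cast hdenb
  have hSS : ((Srat g.a g.q m).1 : ℝ) ≤ (Srat g.a g.q m).2 * S :=
    hnum.trans (mul_le_mul_of_nonneg_left P.Sm hden'.le)
  obtain ⟨⟨hc, hrel⟩, hall⟩ := h
  set Sn := (Srat g.a g.q m).1
  set Sd := (Srat g.a g.q m).2
  set Bn := (Srat g.b g.q m).1
  set Bd := (Srat g.b g.q m).2
  have hcr : (c : ℝ) * c * Sd < Sn * W * 1000000 := by exact_mod_cast hc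
  have hSn : (0 : ℝ) ≤ Sn := by exact_mod_cast hnum0
  have hW : (0 : ℝ) < W := by
    by_contra hneg
    push Not at hneg
    have k1 : (Sn : ℝ) * W ≤ 0 := mul_nonpos_of_nonneg_of_nonpos hSn hneg
    have k2 : (0 : ℝ) ≤ c * c * Sd := mul_nonneg (mul_self_nonneg _) hden'.le
    linarith
  have hcS : ((c : ℝ) / 1000) ^ 2 < S * W := by
    have k1 : (Sn : ℝ) * W ≤ Sd * S * W := mul_le_mul_of_nonneg_right hSS hW.le
    have k2 : (c : ℝ) * c * Sd < Sd * (S * W * 1000000) := by nlinarith
    have k3 : (c : ℝ) * c < S * W * 1000000 := by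
      by_contra hcon
      push Not at hcon
      have := mul_le_mul_of_nonneg_left hcon hden'.le
      linarith
    nlinarith
  -- for each list
  have key : ∀ L : List ℤ, chkL g.a g.b g.q c (if 0 ≤ A0 then Sn * A0 else Bn * A0)
      (if 0 ≤ A0 then Sd else Bd) ray L = true →
      |evl L z| ≤ (c : ℝ) / 1000 ∧ (ray = true → evl L z ≤ S * A0) := by
    intro L hL
    obtain ⟨k1, k2⟩ := chkL_sound hI L c _ _ ray hL
    refine ⟨k1, fun hr => ?_⟩
    have k3 := k2 hr
    by_cases h0 : 0 ≤ A0
    · rw [if_pos h0, if_pos h0] at k3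
      push_cast at k3
      have hA0r : (0 : ℝ) ≤ A0 := by exact_mod_cast h0
      have k4 : (Sn : ℝ) * A0 ≤ Sd * S * A0 := mul_le_mul_of_nonneg_right hSS hA0r
      have k5 : (Sd : ℝ) * evl L z ≤ Sd * (S * A0) := by nlinarith
      exact le_of_mul_le_mul_left k5 hden'
    · rw [if_neg h0, if_neg h0] at k3
      push_cast at k3
      have hrel' : rel = false := by
        rcases hrel with (h1 | h1) | h1
        · rw [hr] at h1; exact absurd h1 (by simp)
        · exact absurd h1 h0
        · exact h1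
      have hSex := P.Sex hrel'
      rw [← hSex] at hge
      push Not at h0
      have hA0r : (A0 : ℝ) ≤ 0 := by exact_mod_cast h0.le
      have k4 : (Bn : ℝ) * A0 ≤ Bd * S * A0 := mul_le_mul_of_nonpos_right hge hA0r
      have k5 : (Bd : ℝ) * evl L z ≤ Bd * (S * A0) := by nlinarith
      exact le_of_mul_le_mul_left k5 hdenb'
  have hc0 : (0 : ℝ) ≤ (c : ℝ) / 1000 → True := fun _ => trivial
  -- combine
  cases rel with
  | false =>
    simp only [ells, Bool.false_eq_true, if_false, List.all_cons, List.all_nil,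
      Bool.and_true] at hall
    obtain ⟨k1, k2⟩ := key _ hall
    have e : evl (addL (shiftL m p) A) z = evl A z + t * evl p z := by
      rw [evl_addL, evl_shiftL, P.tex rfl]; ring
    rw [e] at k1 k2
    refine ⟨?_, k2⟩
    calc (evl A z + t * evl p z) ^ 2 ≤ ((c : ℝ) / 1000) ^ 2 := by
          rw [← sq_abs]; exact pow_le_pow_left₀ (abs_nonneg _) k1 2
      _ < S * W := hcS
  | true =>
    simp only [ells, if_true, List.all_cons, List.all_nil, Bool.and_true, Bool.and_eq_true] at hall
    obtain ⟨k1, k2⟩ := key _ hall.1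
    obtain ⟨k3, k4⟩ := key _ hall.2
    have e : evl (addL (shiftL m p) A) z = evl A z + z ^ m * evl p z := by
      rw [evl_addL, evl_shiftL]; ring
    rw [e] at k1 k2
    have ht0 := P.t0
    have ht1 := P.t1
    rcases eq_or_lt_of_le (show (0 : ℝ) ≤ z ^ m from pow_nonneg hI.zpos m) with hz | hz
    · have ht : t = 0 := le_antisymm (by linarith) ht0
      rw [ht, zero_mul, add_zero]
      refine ⟨?_, k4⟩
      calc (evl A z) ^ 2 ≤ ((c : ℝ) / 1000) ^ 2 := by
            rw [← sq_abs]; exact pow_le_pow_left₀ (abs_nonneg _) k3 2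
        _ < S * W := hcS
    · set lam := t / z ^ m with hlam
      have hl0 : 0 ≤ lam := div_nonneg ht0 hz.le
      have hl1 : lam ≤ 1 := (div_le_one hz).mpr ht1
      have htl : t = lam * z ^ m := by rw [hlam]; field_simp
      have e2 : evl A z + t * evl p z = lam * (evl A z + z ^ m * evl p z) +
          (1 - lam) * evl A z := by rw [htl]; ring
      rw [e2]
      constructor
      · have k5 : |lam * (evl A z + z ^ m * evl p z) + (1 - lam) * evl A z| ≤ (c : ℝ) / 1000 := by
          rw [abs_le] at k1 k3 ⊢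
          constructor <;> nlinarith
        calc _ ≤ ((c : ℝ) / 1000) ^ 2 := by
              rw [← sq_abs]; exact pow_le_pow_left₀ (abs_nonneg _) k5 2
          _ < S * W := hcS
      · intro hr
        have := k2 hr
        have := k4 hr
        nlinarith

/-- The value of the form on a list vector. -/
theorem B_toP (U : List ℤ) (u : ℕ → ℤ) (h : IsPre U u) (p r : List ℤ)
    (hp : p.length ≤ U.length) (hr : r.length ≤ U.length) :
    B u (toP p) (toP r) = ((dot (Tl U p) (Tl U r) - dot p r : ℤ) : ℝ) := by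
  unfold B
  rw [T_toP, T_toP, ← Tl_eq_Tf U u h p hp, ← Tl_eq_Tf U u h r hr, ip_toP, ip_toP]
  push_cast; ring

theorem dead_sound {m : ℕ} {rel : Bool} {S z t : ℝ} {u : ℕ → ℤ} (P : Par m rel S z t u)
    (g : Goal) (hI : InInt g.a g.b g.q z) (hU : IsPre g.U u) (p : List ℤ) (c : ℤ)
    (hp : p.length ≤ g.U.length) (h : chk m rel g g.U p c false = true) : False := by
  have hb := (chk_bound P g hI g.U p c false h).1
  have hy := P.hyp (toP p)
  rw [B_toP g.U u hU p p hp hp, T_toP, ← Tl_eq_Tf g.U u hU p hp, eval_toP, eval_toP] at hy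
  linarith

theorem Tl_append (U V : List ℤ) (p : List ℤ) (hp : p.length ≤ U.length) :
    Tl (U ++ V) p = Tl U p := by
  have hd : ∀ (U p : List ℤ), p.length ≤ U.length → dot (U ++ V) p = dot U p := by
    intro U
    induction U with
    | nil =>
      intro p hp
      have : p = [] := List.length_eq_zero_iff.mp (by simpa using hp)
      subst this; cases V <;> simp [dot]
    | cons a U ih =>
      intro p hp
      cases p with
      | nil => simp [dot]
      | cons y p => simp only [List.cons_append, dot]; rw [ih p (by simpa using hp)]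
  induction p with
  | nil => simp [Tl]
  | cons y p ih =>
    simp only [Tl]
    rw [hd _ _ hp, ih (by simp at hp; omega)]

theorem dot_append_single (U p : List ℤ) (c c' : ℤ) (hp : p.length = U.length + 1) :
    dot (U ++ [c']) p = dot (U ++ [c]) p + (c' - c) * lastD p := by
  induction U generalizing p with
  | nil =>
    match p, hp with
    | [y], _ => simp [dot, lastD]; ring
  | cons a U ih =>
    match p, hp with
    | y :: y' :: p, hp =>
      simp only [List.cons_append, dot, lastD]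
      rw [ih (y' :: p) (by simpa using hp)]; ring

theorem ray_sound {m : ℕ} {rel : Bool} {S z t : ℝ} {u : ℕ → ℤ} (P : Par m rel S z t u)
    (g : Goal) (hI : InInt g.a g.b g.q z) (hU : IsPre g.U u) (p : List ℤ) (c cc : ℤ)
    (hp : p.length = g.U.length + 1) (hδ : 0 ≤ (u g.U.length - c) * lastD p)
    (h : chk m rel g (g.U ++ [c]) p cc true = true) : False := by
  have hb := chk_bound P g hI (g.U ++ [c]) p cc true h
  obtain ⟨hb1, hb2⟩ := hb
  have hb2 := hb2 rfl
  have hy := P.hyp (toP p)
  have hU' := isPre_append g.U _ u hU rfl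
  rw [B_toP _ u hU' p p (by simp; omega) (by simp; omega), T_toP,
    ← Tl_eq_Tf _ u hU' p (by simp; omega), eval_toP, eval_toP] at hy
  match p, hp with
  | y :: p, hp =>
    have hp' : p.length ≤ g.U.length := by simp at hp; omega
    simp only [Tl, List.headD_cons] at hb1 hb2 hy
    rw [Tl_append _ _ _ hp'] at hb1 hb2 hy
    rw [dot_append_single g.U (y :: p) c (u g.U.length) hp] at hy
    set δ : ℤ := (u g.U.length - c) * lastD (y :: p) with hδdef
    set A0 : ℤ := dot (g.U ++ [c]) (y :: p) with hA0def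
    simp only [dot, evl] at hb1 hb2 hy
    push_cast at hb1 hb2 hy
    have hδr : (0 : ℝ) ≤ δ := by exact_mod_cast hδ
    have hS := P.S1
    set E := z * evl (Tl g.U p) z with hE
    set F := t * ((y : ℝ) + z * evl p z) with hF
    set D := (dot (Tl g.U p) (Tl g.U p) : ℝ) with hD
    set G := (dot p p : ℝ) with hG
    have k1 : 0 ≤ δ * (S * A0 - (A0 + E + F)) := mul_nonneg hδr (by linarith)
    have k2 : 0 ≤ (S - 1) * (δ * δ : ℝ) := mul_nonneg (by linarith) (mul_self_nonneg _)
    nlinarith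

end Pool.Agent.MP1f45fc.SalemC
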