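import Mathlib
import Pool.Agent.Lib.MP_1f45fc_nt.SalemC.Sound

set_option autoImplicit false

open Polynomial

namespace Pool.Agent.MP1f45fc.SalemC

theorem coeff_toP (l : List ℤ) (i : ℕ) : (toP l).coeff i = (l.getD i 0 : ℝ) := by
  induction l generalizing i with
  | nil => simp [toP]
  | cons a l ih =>
    cases i with
    | zero => simp [toP]
    | succ i =>
      rw [toP, coeff_add, coeff_X_mul, ih, coeff_C]
      simp

theorem ip_eq_coeff (N : ℕ) (P P' Q : ℝ[X]) (hP : P.natDegree ≤ N)
    (h : ∀ i ≤ N, P'.coeff i = P.coeff (N - i)) : ip Q P = (Q * P').coeff N := by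
  rw [ip_comm, ip_eq_sum P Q (N + 1) (by omega), coeff_mul,
    Finset.Nat.sum_antidiagonal_eq_sum_range_succ_mk]
  refine Finset.sum_congr rfl fun i hi => ?_
  have hi' : i ≤ N := by simpa [Nat.lt_succ_iff] using hi
  simp only
  rw [h (N - i) (by omega), Nat.sub_sub_self hi']
  ring

theorem natDegree_toP (l : List ℤ) : (toP l).natDegree ≤ l.length - 1 := by
  rw [natDegree_le_iff_coeff_eq_zero]
  intro i hi
  rw [coeff_toP]
  rw [List.getD_eq_default _ _ (by omega)]
  simp

theorem auto_reverse (l : List ℤ) (m : ℕ) :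
    ip (X ^ m * toP l.reverse) (toP l.reverse) = ip (X ^ m * toP l) (toP l) := by
  rcases Nat.eq_zero_or_pos l.length with h0 | hpos
  · have : l = [] := List.length_eq_zero_iff.mp h0
    subst this; simp
  have h1 : ∀ i ≤ l.length - 1, (toP l.reverse).coeff i = (toP l).coeff (l.length - 1 - i) := by
    intro i hi
    rw [coeff_toP, coeff_toP]
    congr 1
    rw [List.getD_eq_getElem _ _ (by simp; omega), List.getD_eq_getElem _ _ (by omega),
      List.getElem_reverse]
  have h2 : ∀ i ≤ l.length - 1, (toP l).coeff i = (toP l.reverse).coeff (l.length - 1 - i) := by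
    intro i hi
    rw [h1 _ (by omega), Nat.sub_sub_self hi]
  have d1 := natDegree_toP l
  have d2 := natDegree_toP l.reverse
  rw [List.length_reverse] at d2
  rw [ip_eq_coeff (l.length - 1) (toP l.reverse) (toP l) _ d2 h2,
    ip_eq_coeff (l.length - 1) (toP l) (toP l.reverse) _ d1 h1]
  congr 1
  ring

theorem toP_smulL (c : ℤ) (l : List ℤ) : toP (smulL c l) = C (c : ℝ) * toP l := by
  induction l with
  | nil => simp [toP, smulL]
  | cons a l ih => simp only [toP, smulL, ih]; push_cast; rw [C_mul]; ring

theorem rigid_sound {n : ℕ} {β : ℝ} {u : ℕ → ℤ} (hn : 1 ≤ n) (hcore : Core n β u)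
    (U : List ℤ) (hU : IsPre U u) (p0 pp : List ℤ) (h : rigOK U p0 pp = true) :
    ∀ j : ℕ, T u (X ^ j * toP p0) = X ^ j * T u (toP p0) := by
  simp only [rigOK, Bool.and_eq_true, Bool.or_eq_true, decide_eq_true_eq] at h
  obtain ⟨⟨⟨⟨⟨hl0, hlp⟩, hrev⟩, hA0⟩, hpp⟩, hcr⟩ := h
  have hS : 0 < (∑ i ∈ Finset.range n, (β⁻¹) ^ (2 * i)) := by
    have hb : 0 < β⁻¹ := inv_pos.mpr (by linarith [hcore.one_lt])
    exact Finset.sum_pos (fun i _ => by positivity) ⟨0, by simp; omega⟩
  have hT : T u (toP p0) = toP (Tl U p0) := by rw [T_toP, Tl_eq_Tf U u hU p0 hl0]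
  refine rigid_T hS hcore.hyp (toP p0) (toP pp) ?_ ?_ ?_ ?_
  · intro m
    rw [hT]
    rcases hrev with hrev | hrev
    · rw [hrev]; exact auto_reverse p0 m
    · rw [hrev, toP_smulL, mul_left_comm, ip_C_mul_left, ip_C_mul_right, auto_reverse p0 m]
      push_cast; ring
  · rw [hT, coeff_toP]
    have : (Tl U p0).getD 0 0 = (Tl U p0).headD 0 := by cases Tl U p0 <;> simp
    rw [this]
    exact_mod_cast hA0
  · rw [B_toP U u hU pp pp hlp hlp]
    exact_mod_cast hpp
  · rw [B_toP U u hU pp p0 hlp hl0]
    exact_mod_cast hcr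

theorem posB_sound {a b q σ : ℤ} {β : ℝ} (hσ : σ = 1 ∨ σ = -1) (hβ : 1 < β)
    (hI : InInt a b q β⁻¹) (R : List ℤ) (h : posB a b q σ R = true) : evl R β ≠ 0 := by
  obtain ⟨s, hs, hse⟩ := hI.param
  have hb0 : (0 : ℝ) < β := by linarith
  have hx : (q + q * s : ℝ) = β * (a + b * s) := by rw [hse]; field_simp
  simp only [posB, bz_eq, Bool.and_eq_true, decide_eq_true_eq] at h
  set T := 2 * (l1 R * Mx q q a b ^ R.length) + 1 with hT
  obtain ⟨h1, h2⟩ := h
  rw [← evZ_smulL] at h1 h2
  have e1 := bern_fst q q a b R s β hx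
  have hlen := (length_bern q q a b R).1
  have hl1 := (l1_bern q q a b R).2
  have hLT : 2 * l1 (smulL σ (bern q q a b R).1) < T := by
    rw [l1_smulL]
    rcases hσ with hσ | hσ
    · subst hσ; simp only [Int.natAbs_one, Nat.cast_one, one_mul]; omega
    · subst hσ
      simp only [Int.natAbs_neg, Int.natAbs_one, Nat.cast_one, one_mul]; omega
  have hnn := dg_nn T (R.length + 1) (smulL σ (bern q q a b R).1)
    (by rw [length_smulL']; exact hlen) hLT h1
  have e2 : evl (smulL σ (bern q q a b R).1) s = σ * ((a + b * s) ^ R.length * evl R β) := by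
    rw [evl_smulL, e1]
  generalize smulL σ (bern q q a b R).1 = l at h2 hnn hLT e2
  cases l with
  | nil => simp [evZ] at h2
  | cons x l =>
    simp only [nn, Bool.and_eq_true, decide_eq_true_eq] at hnn
    simp only [l1] at hLT
    have hl := l1_nonneg l
    simp only [evZ] at h2
    rw [mul_comm, Int.add_mul_emod_self_right, Int.emod_eq_of_lt hnn.1 (by omega)] at h2
    have hx0 : (0 : ℝ) < x := by exact_mod_cast h2
    have h3 := mul_nonneg hs (nn_evl l hnn.2 s hs)
    simp only [evl] at e2
    intro h0
    rw [h0, mul_zero, mul_zero] at e2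
    linarith

/-- The interval is nonempty etc. -/
theorem InInt.split {a b q : ℤ} {z : ℝ} (h : InInt a b q z) :
    InInt (2 * a) (a + b) (2 * q) z ∨ InInt (a + b) (2 * b) (2 * q) z := by
  have hq := h.qpos
  have ha := h.anonneg
  have hlo := h.lo
  have hhi := h.hi
  have hab : (a : ℝ) < b := by linarith
  have hab' : a < b := by exact_mod_cast hab
  rcases lt_or_ge ((2 * q : ℤ) * z : ℝ) ((a + b : ℤ) : ℝ) with h1 | h1
  · left
    exact ⟨by omega, by omega, by push_cast; linarith, h1⟩
  · right
    exact ⟨by omega, by omega, h1, by push_cast; linarith⟩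

/-- Soundness context. -/
structure Ctx (m : ℕ) (rel : Bool) (sp : List (List ℤ)) (n : ℕ) (β : ℝ) (u : ℕ → ℤ) : Prop where
  core : Core n β u
  m1 : 1 ≤ m
  nm : if rel then m ≤ n else n = m
  leh : evl leh β < 0
  nsp : ∀ s ∈ sp, ¬ IsPre s u

theorem Ctx.par {m : ℕ} {rel : Bool} {sp : List (List ℤ)} {n : ℕ} {β : ℝ} {u : ℕ → ℤ}
    (h : Ctx m rel sp n β u) :
    Par m rel (∑ i ∈ Finset.range n, (β⁻¹) ^ (2 * i)) β⁻¹ ((β⁻¹) ^ n) u := by
  have hβ := h.core.one_lt
  have hb : 0 < β⁻¹ := inv_pos.mpr (by linarith)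
  have hb1 : β⁻¹ ≤ 1 := inv_le_one_of_one_le₀ hβ.le
  have hmn : m ≤ n := by
    have := h.nm
    cases rel with
    | false => simp at this; omega
    | true => simpa using this
  have hm1 := h.m1
  refine ⟨h.core.hyp, ?_, ?_, ?_, ?_, by positivity, ?_⟩
  · calc (1 : ℝ) = ∑ i ∈ Finset.range 1, (β⁻¹) ^ (2 * i) := by simp
      _ ≤ _ := Finset.sum_le_sum_of_subset_of_nonneg
          (Finset.range_mono (by omega)) (fun i _ _ => by positivity)
  · exact Finset.sum_le_sum_of_subset_of_nonneg
          (Finset.range_mono hmn) (fun i _ _ => by positivity)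
  · intro hr
    have := h.nm
    rw [hr] at this
    simp at this
    rw [this]
  · intro hr
    have := h.nm
    rw [hr] at this
    simp at this
    rw [this]
  · exact pow_le_pow_of_le_one hb.le hb1 hmn

theorem children_mem (g : Goal) (lo : ℤ) (len : ℕ) (c : ℤ) (h1 : lo ≤ c) (h2 : c < lo + len) :
    { g with U := g.U ++ [c] } ∈ children g lo len := by
  induction len generalizing lo with
  | zero => simp at h2; omega
  | succ len ih =>
    simp only [children, List.mem_cons]
    rcases eq_or_lt_of_le h1 with h | h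
    · left; rw [h]
    · right; exact ih (lo + 1) (by omega) (by push_cast at h2; omega)

/-- `g` is refuted. -/
def Bad (β : ℝ) (u : ℕ → ℤ) (g : Goal) : Prop :=
  InInt g.a g.b g.q β⁻¹ → IsPre g.U u → False

theorem step_sound {m : ℕ} {rel : Bool} {sp : List (List ℤ)} {n : ℕ} {β : ℝ} {u : ℕ → ℤ}
    (hc : Ctx m rel sp n β u) (i : Instr) (g : Goal) (l : List Goal)
    (h : step m rel sp i g = some l) (hl : ∀ g' ∈ l, Bad β u g') : Bad β u g := by
  intro hI hU
  have hP := hc.par
  have hn1 : 1 ≤ n := by
    have := hc.nm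
    have := hc.m1
    cases rel with
    | false => simp at *; omega
    | true => simp at *; omega
  cases i with
  | dead c p =>
    simp only [step] at h
    split_ifs at h with h1
    simp only [Bool.and_eq_true, decide_eq_true_eq] at h1
    exact dead_sound hP g hI hU p c h1.1 h1.2
  | branch lo len cd pd cu pu =>
    simp only [step] at h
    split_ifs at h with h1
    simp only [Bool.and_eq_true, decide_eq_true_eq] at h1
    obtain ⟨⟨⟨⟨⟨hpd, hpu⟩, hld⟩, hlu⟩, hcd⟩, hcu⟩ := h1
    simp only [Option.some.injEq] at h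
    rcases lt_or_ge (u g.U.length) lo with h2 | h2
    · exact ray_sound hP g hI hU pd (lo - 1) cd hpd
        (mul_nonneg_of_nonpos_of_nonpos (by omega) hld) hcd
    rcases lt_or_ge (u g.U.length) (lo + len) with h3 | h3
    · have := children_mem g lo len _ h2 h3
      rw [h] at this
      exact hl _ this hI (isPre_append g.U _ u hU rfl)
    · exact ray_sound hP g hI hU pu (lo + len) cu hpu (mul_nonneg (by omega) hlu) hcu
  | split =>
    simp only [step, Option.some.injEq] at h
    rcases hI.split with h1 | h1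
    · exact hl ⟨g.U, 2 * g.a, g.a + g.b, 2 * g.q⟩ (by rw [← h]; simp) h1 hU
    · exact hl ⟨g.U, g.a + g.b, 2 * g.b, 2 * g.q⟩ (by rw [← h]; simp) h1 hU
  | rigid p0 pp =>
    simp only [step] at h
    split_ifs at h with h1
    simp only [Bool.and_eq_true, Bool.or_eq_true, Bool.not_eq_true'] at h1
    obtain ⟨⟨hrel, hr⟩, hs⟩ := h1
    have hs : evl (addL (shiftL m p0) (Tl g.U p0)) β ≠ 0 := by
      rcases hs with hs | hs
      · exact posB_sound (Or.inl rfl) hc.core.one_lt hI _ hs
      · exact posB_sound (Or.inr rfl) hc.core.one_lt hI _ hs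
    have hT := rigid_sound hn1 hc.core g.U hU p0 pp hr
    have hroot := hc.core.rigid (toP p0) hT
    have hlen : p0.length ≤ g.U.length := by
      simp only [rigOK, Bool.and_eq_true, decide_eq_true_eq] at hr
      exact hr.1.1.1.1.1
    rw [T_toP, ← Tl_eq_Tf g.U u hU p0 hlen, eval_toP, eval_toP] at hroot
    have hnm := hc.nm
    rw [hrel] at hnm
    simp at hnm
    refine hs ?_
    rw [evl_addL, evl_shiftL, ← hnm]
    exact hroot
  | rigidL p0 pp Cc =>
    simp only [step] at h
    split_ifs at h with h1
    simp only [Bool.and_eq_true, Bool.or_eq_true, Bool.not_eq_true', decide_eq_true_eq] at h1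
    obtain ⟨⟨⟨hrel, hr⟩, hC⟩, hs⟩ := h1
    have hs : evl Cc β ≠ 0 := by
      rcases hs with hs | hs
      · exact posB_sound (Or.inl rfl) hc.core.one_lt hI _ hs
      · exact posB_sound (Or.inr rfl) hc.core.one_lt hI _ hs
    have hT := rigid_sound hn1 hc.core g.U hU p0 pp hr
    have hroot := hc.core.rigid (toP p0) hT
    have hlen : p0.length ≤ g.U.length := by
      simp only [rigOK, Bool.and_eq_true, decide_eq_true_eq] at hr
      exact hr.1.1.1.1.1
    rw [T_toP, ← Tl_eq_Tf g.U u hU p0 hlen, eval_toP, eval_toP] at hroot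
    have hnm := hc.nm
    rw [hrel] at hnm
    simp at hnm
    have h3 : evl (addL (shiftL m p0) (Tl g.U p0)) β = 0 := by
      rw [evl_addL, evl_shiftL, ← hnm]; exact hroot
    rw [hC, evl_mulL] at h3
    rcases mul_eq_zero.mp h3 with h4 | h4
    · exact absurd h4 hc.leh.ne
    · exact hs h4
  | rigdiv p0 pp =>
    simp only [step] at h
    split_ifs at h with h1
    simp only [Bool.and_eq_true, Bool.not_eq_true', decide_eq_true_eq] at h1
    obtain ⟨⟨⟨hrel, hr⟩, hlen⟩, hdiv⟩ := h1
    have hT := rigid_sound hn1 hc.core g.U hU p0 pp hr 1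
    rw [pow_one, T_X_mul] at hT
    have hd0 : dl u (toP p0) = 0 := by
      have : C (dl u (toP p0)) = (0 : ℝ[X]) := by
        have h5 := hT
        rwa [add_eq_left] at h5
      simpa using this
    rw [dl_toP] at hd0
    have hd1 : dotf (fun i => u (i + 1)) p0 = 0 := by exact_mod_cast hd0
    apply hdiv
    have hU2 := hU
    generalize hUU : g.U = UU at hU2 hlen
    cases UU with
    | nil =>
      have : p0 = [] := List.length_eq_zero_iff.mp (by simpa using hlen)
      subst this
      simp [dot, lastD]
    | cons a U' =>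
      have hpre : IsPre (U' ++ [u (U'.length + 1)]) (fun i => u (i + 1)) :=
        isPre_append U' _ _ hU2.2 rfl
      have e1 := dot_eq_dotf _ _ hpre p0 (by simp at hlen ⊢; omega)
      rw [dot_append_single U' p0 0 _ (by simpa using hlen), hd1, sub_zero] at e1
      rw [List.tail_cons]
      exact Int.emod_eq_zero_of_dvd ⟨-(u (U'.length + 1)), by linarith⟩
  | zero =>
    simp only [step] at h
    split_ifs at h with h1
    simp only [Bool.or_eq_true, decide_eq_true_eq] at h1
    rcases h1 with h1 | h1
    · rw [h1] at hU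
      exact zero_case hn1 hc.core (Or.inl hU.1) hU.2.1
    · rw [h1] at hU
      exact zero_case hn1 hc.core (Or.inr hU.1) hU.2.1
  | z0 =>
    simp only [step] at h
    split_ifs at h with h1
    simp only [decide_eq_true_eq] at h1
    rw [h1] at hU
    exact hc.core.u0 hU.1
  | w2 p r =>
    simp only [step] at h
    split_ifs at h with h1
    simp only [Bool.and_eq_true, decide_eq_true_eq] at h1
    obtain ⟨⟨hp, hr⟩, hW, hx⟩ := h1
    have hS : 0 < (∑ i ∈ Finset.range n, (β⁻¹) ^ (2 * i)) := by linarith [hP.S1]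
    refine no_pos2 hS hc.core.hyp (toP p) (toP r) ?_ ?_
    · rw [B_toP g.U u hU p p hp hp]
      exact_mod_cast hW
    · rw [B_toP g.U u hU p p hp hp, B_toP g.U u hU p r hp hr, B_toP g.U u hU r r hr hr,
        pow_two]
      exact_mod_cast hx
  | spine =>
    simp only [step] at h
    split_ifs at h with h1
    simp only [List.any_eq_true, decide_eq_true_eq] at h1
    obtain ⟨s, hs, hs2⟩ := h1
    refine hc.nsp s hs ?_
    have := isPre_take g.U u hU s.length
    rwa [hs2] at this

theorem run_sound {m : ℕ} {rel : Bool} {sp : List (List ℤ)} {n : ℕ} {β : ℝ} {u : ℕ → ℤ}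
    (hc : Ctx m rel sp n β u) (is : List Instr) (gs : List Goal)
    (h : run m rel sp is gs = true) : ∀ g ∈ gs, Bad β u g := by
  induction is generalizing gs with
  | nil =>
    cases gs with
    | nil => simp
    | cons g gs => simp [run] at h
  | cons i is ih =>
    cases gs with
    | nil => simp
    | cons g gs =>
      simp only [run] at h
      cases hs : step m rel sp i g with
      | none => rw [hs] at h; simp at h
      | some l =>
        rw [hs] at h
        have h' := ih _ h
        intro g' hg'
        rcases List.mem_cons.mp hg' with h1 | h1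
        · subst h1
          exact step_sound hc i _ l hs fun g'' hg'' => h' g'' (List.mem_append_left _ hg'')
        · exact h' g' (List.mem_append_right _ h1)

theorem runTo_sound {m : ℕ} {rel : Bool} {sp : List (List ℤ)} {n : ℕ} {β : ℝ} {u : ℕ → ℤ}
    (hc : Ctx m rel sp n β u) (is : List Instr) (gs gs' : List Goal)
    (h : runTo m rel sp is gs = some gs') (hgs : ∀ g ∈ gs', Bad β u g) :
    ∀ g ∈ gs, Bad β u g := by
  induction is generalizing gs with
  | nil =>
    simp only [runTo, Option.some.injEq] at h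
    rw [h]; exact hgs
  | cons i is ih =>
    cases gs with
    | nil => simp
    | cons g gs =>
      simp only [runTo] at h
      cases hs : step m rel sp i g with
      | none => rw [hs] at h; simp at h
      | some l =>
        rw [hs] at h
        have h' := ih _ h
        intro g' hg'
        rcases List.mem_cons.mp hg' with h1 | h1
        · subst h1
          exact step_sound hc i _ l hs fun g'' hg'' => h' g'' (List.mem_append_left _ hg'')
        · exact h' g' (List.mem_append_right _ h1)

theorem link_sound {β : ℝ} {u : ℕ → ℤ} (L : List (List Goal × List Goal)) (s : List Goal)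
    (h : link L s = true)
    (hL : ∀ ab ∈ L, (∀ g ∈ ab.2, Bad β u g) → ∀ g ∈ ab.1, Bad β u g) :
    ∀ g ∈ s, Bad β u g := by
  induction L generalizing s with
  | nil =>
    cases s with
    | nil => simp
    | cons g s => simp [link] at h
  | cons ab L ih =>
    obtain ⟨a, b⟩ := ab
    simp only [link, Bool.and_eq_true, decide_eq_true_eq] at h
    have h1 := ih _ h.2 (fun ab hab => hL ab (List.mem_cons_of_mem _ hab))
    have h2 := hL (a, b) List.mem_cons_self
      (fun g hg => h1 g (List.mem_append_left _ hg))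
    intro g hg
    rw [← List.take_append_drop a.length s, h.1] at hg
    rcases List.mem_append.mp hg with h3 | h3
    · exact h2 g h3
    · exact h1 g (List.mem_append_right _ h3)

end Pool.Agent.MP1f45fc.SalemC
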