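import Mathlib
import Pool.Agent.Lib.MP_1f45fc_nt.SalemC.Sound2

set_option autoImplicit false

open Polynomial

namespace Pool.Agent.MP1f45fc.SalemC

/-- The first 17 Fibonacci numbers. -/
def F17 : List ℤ := [1, 1, 2, 3, 5, 8, 13, 21, 34, 55, 89, 144, 233, 377, 610, 987, 1597]

/-- `X^2 - X - 1`. -/
def Gl : List ℤ := [-1, -1, 1]

/-- Defect of the Fibonacci recurrence. -/
def ed (u : ℕ → ℤ) (k : ℕ) : ℤ := u (k + 2) - u (k + 1) - u k

theorem dotf_addL (w : ℕ → ℤ) (a b : List ℤ) : dotf w (addL a b) = dotf w a + dotf w b := by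
  induction a generalizing w b with
  | nil => simp [addL, dotf]
  | cons x a ih =>
    cases b with
    | nil => simp [addL, dotf]
    | cons y b => simp only [addL, dotf, ih]; ring

theorem dotf_smulL (w : ℕ → ℤ) (c : ℤ) (a : List ℤ) : dotf w (smulL c a) = c * dotf w a := by
  induction a generalizing w with
  | nil => simp [smulL, dotf]
  | cons x a ih => simp only [smulL, dotf, ih]; ring

theorem dotf_ed (w : ℕ → ℤ) (q : List ℤ) : dotf (fun k => w (k + 2) - w (k + 1) - w k) q =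
    dotf (fun k => w (k + 2)) q - dotf (fun k => w (k + 1)) q - dotf w q := by
  induction q generalizing w with
  | nil => simp [dotf]
  | cons x a ih =>
    simp only [dotf]
    have := ih (fun k => w (k + 1))
    simp only [Nat.zero_add]
    have e : (fun i => w (i + 1 + 2) - w (i + 1 + 1) - w (i + 1)) =
      (fun k => (fun k => w (k + 1)) (k + 2) - (fun k => w (k + 1)) (k + 1) -
        (fun k => w (k + 1)) k) := by
      funext k; rfl
    rw [e, this]
    have e2 : (fun k => (fun k => w (k + 1)) (k + 2)) = (fun i => w (i + 1 + 2)) := by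
      funext k; rfl
    have e3 : (fun k => (fun k => w (k + 1)) (k + 1)) = (fun i => w (i + 1 + 1)) := by
      funext k; rfl
    rw [e2, e3]
    ring

theorem dotf_mulG (w : ℕ → ℤ) (q : List ℤ) :
    dotf w (mulL Gl q) = dotf (fun k => w (k + 2) - w (k + 1) - w k) q := by
  rw [dotf_ed]
  simp only [Gl, mulL, dotf_addL, dotf_smulL, dotf]
  have e2 : (fun k => w (k + 2)) = (fun i => w (i + 1 + 1)) := by
    funext k; rfl
  rw [e2]
  ring

theorem dl_X_pow (u : ℕ → ℤ) (i : ℕ) (b : List ℤ) :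
    dl u (X ^ i * toP b) = dotf (fun k => u (k + i + 1)) b := by
  have hX : ∀ (u : ℕ → ℤ) (p : ℝ[X]), dl u (X * p) = dl (fun i => u (i + 1)) p := by
    intro u p
    induction p using Polynomial.induction_on' with
    | add p q hp hq => rw [mul_add, dl_add, dl_add, hp, hq]
    | monomial n a => rw [X_mul_monomial, dl_monomial, dl_monomial]
  induction i generalizing u with
  | zero => rw [pow_zero, one_mul, dl_toP]
  | succ i ih =>
    rw [pow_succ', mul_assoc, hX, ih]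
    congr 2

theorem dl_G (u : ℕ → ℤ) (i : ℕ) (q : List ℤ) :
    dl u (X ^ i * toP (mulL Gl q)) = dotf (fun k => ed u (k + i + 1)) q := by
  rw [dl_X_pow, dotf_mulG]
  congr 2
  funext k
  simp only [ed]
  rw [show k + 2 + i + 1 = k + i + 1 + 2 by ring, show k + 1 + i + 1 = k + i + 1 + 1 by ring]

theorem dotf_zero (w : ℕ → ℤ) (q : List ℤ) (h : ∀ k < q.length, w k = 0) : dotf w q = 0 := by
  induction q generalizing w with
  | nil => simp [dotf]
  | cons x q ih =>
    simp only [dotf]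
    rw [h 0 (by simp), ih _ (fun k hk => h (k + 1) (by simpa using hk))]
    ring

/-- Action of `T` on a top window. -/
theorem T_win (u : ℕ → ℤ) (N : ℕ) (hu : ∀ k < N + 8, ed u k = 0)
    (q0 q1 q2 q3 q4 q5 q6 q7 : ℤ) :
    T u (X ^ (N + 3) * toP (mulL Gl [q0, q1, q2, q3, q4, q5, q6, q7])) =
      X ^ (N + 3) * T u (toP (mulL Gl [q0, q1, q2, q3, q4, q5, q6, q7])) +
      toP [ed u (N + 8) * q5 + ed u (N + 9) * q6 + ed u (N + 10) * q7,
        ed u (N + 8) * q6 + ed u (N + 9) * q7, ed u (N + 8) * q7] := by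
  set P := toP (mulL Gl [q0, q1, q2, q3, q4, q5, q6, q7]) with hP
  have h1 : ∀ i ≤ N, T u (X ^ i * P) = X ^ i * T u P := by
    intro i hi
    induction i with
    | zero => simp
    | succ i ih =>
      rw [pow_succ', mul_assoc, T_X_mul, ih (by omega), hP, dl_G, dotf_zero]
      · simp; ring
      · intro k hk
        simp at hk
        exact hu _ (by omega)
  have d0 : dl u (X ^ N * P) = ((ed u (N + 8) * q7 : ℤ) : ℝ) := by
    rw [hP, dl_G]
    simp only [dotf]
    rw [hu (0 + N + 1) (by omega), hu (0 + 1 + N + 1) (by omega), hu (0 + 1 + 1 + N + 1) (by omega),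
      hu (0 + 1 + 1 + 1 + N + 1) (by omega), hu (0 + 1 + 1 + 1 + 1 + N + 1) (by omega),
      hu (0 + 1 + 1 + 1 + 1 + 1 + N + 1) (by omega),
      hu (0 + 1 + 1 + 1 + 1 + 1 + 1 + N + 1) (by omega),
      show 0 + 1 + 1 + 1 + 1 + 1 + 1 + 1 + N + 1 = N + 8 by ring]
    congr 1; ring
  have d1 : dl u (X ^ (N + 1) * P) = ((ed u (N + 8) * q6 + ed u (N + 9) * q7 : ℤ) : ℝ) := by
    rw [hP, dl_G]
    simp only [dotf]
    rw [hu (0 + (N + 1) + 1) (by omega), hu (0 + 1 + (N + 1) + 1) (by omega),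
      hu (0 + 1 + 1 + (N + 1) + 1) (by omega),
      hu (0 + 1 + 1 + 1 + (N + 1) + 1) (by omega), hu (0 + 1 + 1 + 1 + 1 + (N + 1) + 1) (by omega),
      hu (0 + 1 + 1 + 1 + 1 + 1 + (N + 1) + 1) (by omega),
      show 0 + 1 + 1 + 1 + 1 + 1 + 1 + (N + 1) + 1 = N + 8 by ring,
      show 0 + 1 + 1 + 1 + 1 + 1 + 1 + 1 + (N + 1) + 1 = N + 9 by ring]
    congr 1; ring
  have d2 : dl u (X ^ (N + 2) * P) =
      ((ed u (N + 8) * q5 + ed u (N + 9) * q6 + ed u (N + 10) * q7 : ℤ) : ℝ) := by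
    rw [hP, dl_G]
    simp only [dotf]
    rw [hu (0 + (N + 2) + 1) (by omega), hu (0 + 1 + (N + 2) + 1) (by omega),
      hu (0 + 1 + 1 + (N + 2) + 1) (by omega),
      hu (0 + 1 + 1 + 1 + (N + 2) + 1) (by omega), hu (0 + 1 + 1 + 1 + 1 + (N + 2) + 1) (by omega),
      show 0 + 1 + 1 + 1 + 1 + 1 + (N + 2) + 1 = N + 8 by ring,
      show 0 + 1 + 1 + 1 + 1 + 1 + 1 + (N + 2) + 1 = N + 9 by ring,
      show 0 + 1 + 1 + 1 + 1 + 1 + 1 + 1 + (N + 2) + 1 = N + 10 by ring]
    congr 1; ring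
  have s1 : T u (X ^ (N + 1) * P) = X ^ (N + 1) * T u P + C (dl u (X ^ N * P)) := by
    rw [pow_succ', mul_assoc, T_X_mul, h1 N le_rfl]; ring
  have s2 : T u (X ^ (N + 2) * P) = X ^ (N + 2) * T u P + X * C (dl u (X ^ N * P)) +
      C (dl u (X ^ (N + 1) * P)) := by
    rw [pow_succ' X (N + 1), mul_assoc, T_X_mul, s1]; ring
  have s3 : T u (X ^ (N + 3) * P) = X ^ (N + 3) * T u P + X ^ 2 * C (dl u (X ^ N * P)) +
      X * C (dl u (X ^ (N + 1) * P)) + C (dl u (X ^ (N + 2) * P)) := by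
    rw [pow_succ' X (N + 2), mul_assoc, T_X_mul, s2]; ring
  rw [s3, d0, d1, d2]
  simp only [toP]
  ring

theorem toP_addL (a b : List ℤ) : toP (addL a b) = toP a + toP b := by
  induction a generalizing b with
  | nil => simp [addL, toP]
  | cons y a ih =>
    cases b with
    | nil => simp [addL, toP]
    | cons z b => simp only [addL, toP, ih]; push_cast; rw [C_add]; ring

/-- Two-part vectors. -/
theorem ip_two (M : ℕ) (a b a' b' : List ℤ) (ha : a.length ≤ M) (ha' : a'.length ≤ M) :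
    ip (toP a + X ^ M * toP b) (toP a' + X ^ M * toP b') = ((dot a a' + dot b b' : ℤ) : ℝ) := by
  have h0 : ∀ (a : List ℤ) (Q : ℝ[X]), a.length ≤ M → ip (toP a) (X ^ M * Q) = 0 := by
    intro a Q ha
    rcases Nat.eq_zero_or_pos a.length with h | h
    · have : a = [] := List.length_eq_zero_iff.mp h
      subst this; simp [toP, ip_zero_left]
    rw [ip_eq_sum (toP a) _ M (by have := natDegree_toP a; omega)]
    refine Finset.sum_eq_zero fun i hi => ?_
    rw [coeff_X_pow_mul', if_neg (by have := Finset.mem_range.mp hi; omega), mul_zero]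
  rw [ip_add_left, ip_add_right, ip_add_right, h0 a _ ha, ip_comm (X ^ M * toP b) (toP a'),
    h0 a' _ ha', ip_X_pow_mul, ip_toP, ip_toP]
  push_cast; ring

/-- Window data: `a` low list, `q` top list. -/
def wD (e0 e1 e2 : ℤ) (q : List ℤ) : List ℤ :=
  [dot [0, 0, 0, 0, 0, e0, e1, e2] q, dot [0, 0, 0, 0, 0, 0, e0, e1] q,
    dot [0, 0, 0, 0, 0, 0, 0, e0] q]

def wB (e0 e1 e2 : ℤ) (a q a' q' : List ℤ) : ℤ :=
  dot (addL (Tl F17 a) (wD e0 e1 e2 q)) (addL (Tl F17 a') (wD e0 e1 e2 q')) +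
    dot (Tl F17 (mulL Gl q)) (Tl F17 (mulL Gl q')) - dot a a' - dot (mulL Gl q) (mulL Gl q')

theorem T_win' (u : ℕ → ℤ) (N : ℕ) (hu : ∀ k < N + 8, ed u k = 0) (q : List ℤ)
    (hq : q.length = 8) :
    T u (X ^ (N + 3) * toP (mulL Gl q)) = X ^ (N + 3) * T u (toP (mulL Gl q)) +
      toP (wD (ed u (N + 8)) (ed u (N + 9)) (ed u (N + 10)) q) := by
  match q, hq with
  | [q0, q1, q2, q3, q4, q5, q6, q7], _ =>
    rw [T_win u N hu]
    congr 2
    simp only [wD, dot]
    simp only [zero_mul, zero_add, add_zero, List.cons.injEq, and_true]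
    ring

theorem length_addL (a b : List ℤ) : (addL a b).length = max a.length b.length := by
  induction a generalizing b with
  | nil => simp [addL]
  | cons x a ih =>
    cases b with
    | nil => simp [addL]
    | cons y b => simp only [addL, List.length_cons, ih]; omega

theorem length_smulL (c : ℤ) (a : List ℤ) : (smulL c a).length = a.length := by
  induction a with
  | nil => simp [smulL]
  | cons x a ih => simp [smulL, ih]

theorem length_Tl (U a : List ℤ) : (Tl U a).length = a.length := by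
  induction a with
  | nil => simp [Tl]
  | cons x a ih => simp [Tl, ih]

theorem wB_eq (u : ℕ → ℤ) (N : ℕ) (hN : 7 ≤ N) (hF : IsPre F17 u)
    (hu : ∀ k < N + 8, ed u k = 0) (a q a' q' : List ℤ) (ha : a.length ≤ 10)
    (ha' : a'.length ≤ 10) (hq : q.length = 8) (hq' : q'.length = 8) :
    B u (toP a + X ^ (N + 3) * toP (mulL Gl q)) (toP a' + X ^ (N + 3) * toP (mulL Gl q')) =
      ((wB (ed u (N + 8)) (ed u (N + 9)) (ed u (N + 10)) a q a' q' : ℤ) : ℝ) := by
  have hlen : ∀ q : List ℤ, q.length = 8 → (mulL Gl q).length = 10 := by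
    intro q hq
    simp [mulL, Gl, length_addL, length_smulL, hq]
  have hT : ∀ a q : List ℤ, a.length ≤ 10 → q.length = 8 →
      T u (toP a + X ^ (N + 3) * toP (mulL Gl q)) =
      toP (addL (Tl F17 a) (wD (ed u (N + 8)) (ed u (N + 9)) (ed u (N + 10)) q)) +
        X ^ (N + 3) * toP (Tl F17 (mulL Gl q)) := by
    intro a q ha hq
    rw [T_add, T_win' u N hu q hq, T_toP u a, T_toP u (mulL Gl q),
      ← Tl_eq_Tf F17 u hF a (by simp [F17]; omega),
      ← Tl_eq_Tf F17 u hF _ (by rw [hlen q hq]; simp [F17]), toP_addL]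
    ring
  unfold B
  rw [hT a q ha hq, hT a' q' ha' hq', ip_two _ _ _ _ _ (by
      rw [length_addL, length_Tl]; simp [wD]; omega) (by
      rw [length_addL, length_Tl]; simp [wD]; omega), ip_two _ _ _ _ _ (by omega) (by omega)]
  unfold wB
  push_cast; ring

/-- A window certificate gives a contradiction. -/
theorem wkill {β : ℝ} {u : ℕ → ℤ} (hc : Core 3 β u) (N : ℕ) (hN : 7 ≤ N) (hF : IsPre F17 u)
    (hu : ∀ k < N + 8, ed u k = 0) (a q a' q' : List ℤ) (ha : a.length ≤ 10)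
    (ha' : a'.length ≤ 10) (hq : q.length = 8) (hq' : q'.length = 8)
    (h1 : 0 < wB (ed u (N + 8)) (ed u (N + 9)) (ed u (N + 10)) a q a q)
    (h2 : wB (ed u (N + 8)) (ed u (N + 9)) (ed u (N + 10)) a q a' q' ^ 2 <
      wB (ed u (N + 8)) (ed u (N + 9)) (ed u (N + 10)) a q a q *
      wB (ed u (N + 8)) (ed u (N + 9)) (ed u (N + 10)) a' q' a' q') : False := by
  have hS : 0 < (∑ i ∈ Finset.range 3, (β⁻¹) ^ (2 * i)) := by
    have hb : 0 < β⁻¹ := inv_pos.mpr (by linarith [hc.one_lt])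
    exact Finset.sum_pos (fun i _ => by positivity) ⟨0, by simp⟩
  refine no_pos2 hS hc.hyp (toP a + X ^ (N + 3) * toP (mulL Gl q))
    (toP a' + X ^ (N + 3) * toP (mulL Gl q')) ?_ ?_
  · rw [wB_eq u N hN hF hu a q a q ha ha hq hq]
    exact_mod_cast h1
  · rw [wB_eq u N hN hF hu a q a q ha ha hq hq, wB_eq u N hN hF hu a q a' q' ha ha' hq hq',
      wB_eq u N hN hF hu a' q' a' q' ha' ha' hq' hq']
    exact_mod_cast h2

theorem spine_A {β : ℝ} {u : ℕ → ℤ} (hc : Core 3 β u) (N : ℕ) (hN : 7 ≤ N) (hF : IsPre F17 u)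
    (hu : ∀ k < N + 8, ed u k = 0) (h0 : ed u (N + 8) ≤ -2 ∨ 2 ≤ ed u (N + 8)) : False := by
  refine wkill hc N hN hF hu [] [0, 0, 0, 0, 0, 1, 0, 0] [-3, 1, -1, 2] [0, 0, 0, 0, 0, 0, 0, 0]
    (by simp) (by simp) (by simp) (by simp) ?_ ?_ <;>
  generalize ed u (N + 8) = e at h0 ⊢ <;>
  simp [wB, wD, dot, Tl, F17, Gl, mulL, addL, smulL] <;> 
  rcases h0 with h0 | h0 <;> nlinarith

theorem spine_B_pos {β : ℝ} {u : ℕ → ℤ} (hc : Core 3 β u) (N : ℕ) (hN : 7 ≤ N)
    (hF : IsPre F17 u) (hu : ∀ k < N + 8, ed u k = 0) (h0 : ed u (N + 8) = 1)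
    (h1 : ed u (N + 9) ≠ 1) : False := by
  by_cases hbig : 4 ≤ 1 * ed u (N + 9) ∨ 1 * ed u (N + 9) ≤ -2
  · refine wkill hc N hN hF hu [] [0, 0, 0, 0, 0, 0, 1, 0] [-1, 0, 0, 1] [0, 0, 0, 0, 0, 0, 0, 0]
      (by simp) (by simp) (by simp) (by simp) ?_ ?_ <;>
    rw [h0] <;>
    generalize ed u (N + 9) = e at hbig ⊢ <;>
    simp [wB, wD, dot, Tl, F17, Gl, mulL, addL, smulL] <;>
    rcases hbig with hbig | hbig <;> nlinarith
  · have hf : ed u (N + 9) = 1 * -1 ∨ ed u (N + 9) = 1 * 0 ∨ ed u (N + 9) = 1 * 2 ∨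
        ed u (N + 9) = 1 * 3 := by omega
    rcases hf with h | h | h | h
    · refine wkill hc N hN hF hu [1, 1, 0, 0] [0, 0, 0, 0, 0, 0, 0, 0] [0, 1, 0, 0]
        [0, 0, 0, 0, 0, 0, 1, 0] (by simp) (by simp) (by simp) (by simp) ?_ ?_ <;>
      rw [h0, h] <;> generalize ed u (N + 10) = e <;>
      simp [wB, wD, dot, Tl, F17, Gl, mulL, addL, smulL]
    · refine wkill hc N hN hF hu [1, 2, 0, 1, 0, 0] [0, 0, 0, 0, 0, 2, 1, 0] [2, -2, 2, -1, 0, 0]
        [0, 0, 0, 1, -1, 2, -3, 0] (by simp) (by simp) (by simp) (by simp) ?_ ?_ <;>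
      rw [h0, h] <;> generalize ed u (N + 10) = e <;>
      simp [wB, wD, dot, Tl, F17, Gl, mulL, addL, smulL]
    · refine wkill hc N hN hF hu [2, 3, 0, 1, 0, 0] [0, 0, 0, 0, 1, 3, 7, 0] [-4, -2, -2, 0, 0, 2]
        [0, 0, 0, -1, -2, -3, -4, 0] (by simp) (by simp) (by simp) (by simp) ?_ ?_ <;>
      rw [h0, h] <;> generalize ed u (N + 10) = e <;>
      simp [wB, wD, dot, Tl, F17, Gl, mulL, addL, smulL]
    · refine wkill hc N hN hF hu [1, 1, 0, 0] [0, 0, 0, 0, 0, 1, 3, 0] [1, 0, 0, -1]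
        [0, 0, 0, 0, 0, 1, 1, 0] (by simp) (by simp) (by simp) (by simp) ?_ ?_ <;>
      rw [h0, h] <;> generalize ed u (N + 10) = e <;>
      simp [wB, wD, dot, Tl, F17, Gl, mulL, addL, smulL]

theorem spine_C_pos {β : ℝ} {u : ℕ → ℤ} (hc : Core 3 β u) (N : ℕ) (hN : 7 ≤ N)
    (hF : IsPre F17 u) (hu : ∀ k < N + 8, ed u k = 0) (h0 : ed u (N + 8) = 1)
    (h1 : ed u (N + 9) = 1) (h2 : ed u (N + 10) ≠ 0) : False := by
  by_cases hbig : 4 ≤ 1 * ed u (N + 10) ∨ 1 * ed u (N + 10) ≤ -1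
  · refine wkill hc N hN hF hu [] [0, 0, 0, 0, 0, 0, 0, 1] [-1, 0, 0, 1] [0, 0, 0, 0, 0, 0, 0, 0]
      (by simp) (by simp) (by simp) (by simp) ?_ ?_ <;>
    rw [h0, h1] <;>
    generalize ed u (N + 10) = e at hbig ⊢ <;>
    simp [wB, wD, dot, Tl, F17, Gl, mulL, addL, smulL] <;>
    rcases hbig with hbig | hbig <;> nlinarith
  · have hf : ed u (N + 10) = 1 * 1 ∨ ed u (N + 10) = 1 * 2 ∨ ed u (N + 10) = 1 * 3 := by
      omega
    rcases hf with h | h | h
    · refine wkill hc N hN hF hu [2, 4, 2, 1, 0, 0, 0, 0, 0, 0] [0, 0, 0, 1, 1, 5, 7, 9] [4, -1, 7, -1, 4, -2, 3, -1, 2, -2]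
        [0, 2, 0, 4, -1, 6, -1, 4] (by simp) (by simp) (by simp) (by simp) ?_ ?_ <;>
      rw [h0, h1, h] <;> decide +kernel
    · refine wkill hc N hN hF hu [1, 2, 1, 0, 0, 0] [0, 0, 0, 0, 0, 2, 3, 5] [2, -1, 2, -1, 2, -2]
        [0, 0, 0, 0, 0, 2, -1, 2] (by simp) (by simp) (by simp) (by simp) ?_ ?_ <;>
      rw [h0, h1, h] <;> decide +kernel
    · refine wkill hc N hN hF hu [1, 1, 0, 0] [0, 0, 0, 0, 0, 1, 1, 3] [1, -1, 0, -1]
        [0, 0, 0, 0, 0, 1, -1, 1] (by simp) (by simp) (by simp) (by simp) ?_ ?_ <;>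
      rw [h0, h1, h] <;> decide +kernel

theorem spine_B_neg {β : ℝ} {u : ℕ → ℤ} (hc : Core 3 β u) (N : ℕ) (hN : 7 ≤ N)
    (hF : IsPre F17 u) (hu : ∀ k < N + 8, ed u k = 0) (h0 : ed u (N + 8) = -1)
    (h1 : ed u (N + 9) ≠ -1) : False := by
  by_cases hbig : 4 ≤ -1 * ed u (N + 9) ∨ -1 * ed u (N + 9) ≤ -2
  · refine wkill hc N hN hF hu [] [0, 0, 0, 0, 0, 0, 1, 0] [-1, 0, 0, 1] [0, 0, 0, 0, 0, 0, 0, 0]
      (by simp) (by simp) (by simp) (by simp) ?_ ?_ <;>
    rw [h0] <;>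
    generalize ed u (N + 9) = e at hbig ⊢ <;>
    simp [wB, wD, dot, Tl, F17, Gl, mulL, addL, smulL] <;>
    rcases hbig with hbig | hbig <;> nlinarith
  · have hf : ed u (N + 9) = -1 * -1 ∨ ed u (N + 9) = -1 * 0 ∨ ed u (N + 9) = -1 * 2 ∨
        ed u (N + 9) = -1 * 3 := by omega
    rcases hf with h | h | h | h
    · refine wkill hc N hN hF hu [1, 1, 0, 0] [0, 0, 0, 0, 0, 0, 0, 0] [0, 1, 0, 0]
        [0, 0, 0, 0, 0, 0, -1, 0] (by simp) (by simp) (by simp) (by simp) ?_ ?_ <;>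
      rw [h0, h] <;> generalize ed u (N + 10) = e <;>
      simp [wB, wD, dot, Tl, F17, Gl, mulL, addL, smulL]
    · refine wkill hc N hN hF hu [1, 2, 0, 1, 0, 0] [0, 0, 0, 0, 0, -2, -1, 0] [2, -2, 2, -1, 0, 0]
        [0, 0, 0, -1, 1, -2, 3, 0] (by simp) (by simp) (by simp) (by simp) ?_ ?_ <;>
      rw [h0, h] <;> generalize ed u (N + 10) = e <;>
      simp [wB, wD, dot, Tl, F17, Gl, mulL, addL, smulL]
    · refine wkill hc N hN hF hu [2, 3, 0, 1, 0, 0] [0, 0, 0, 0, -1, -3, -7, 0] [-4, -2, -2, 0, 0, 2]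
        [0, 0, 0, 1, 2, 3, 4, 0] (by simp) (by simp) (by simp) (by simp) ?_ ?_ <;>
      rw [h0, h] <;> generalize ed u (N + 10) = e <;>
      simp [wB, wD, dot, Tl, F17, Gl, mulL, addL, smulL]
    · refine wkill hc N hN hF hu [1, 1, 0, 0] [0, 0, 0, 0, 0, -1, -3, 0] [1, 0, 0, -1]
        [0, 0, 0, 0, 0, -1, -1, 0] (by simp) (by simp) (by simp) (by simp) ?_ ?_ <;>
      rw [h0, h] <;> generalize ed u (N + 10) = e <;>
      simp [wB, wD, dot, Tl, F17, Gl, mulL, addL, smulL]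

theorem spine_C_neg {β : ℝ} {u : ℕ → ℤ} (hc : Core 3 β u) (N : ℕ) (hN : 7 ≤ N)
    (hF : IsPre F17 u) (hu : ∀ k < N + 8, ed u k = 0) (h0 : ed u (N + 8) = -1)
    (h1 : ed u (N + 9) = -1) (h2 : ed u (N + 10) ≠ 0) : False := by
  by_cases hbig : 4 ≤ -1 * ed u (N + 10) ∨ -1 * ed u (N + 10) ≤ -1
  · refine wkill hc N hN hF hu [] [0, 0, 0, 0, 0, 0, 0, -1] [-1, 0, 0, 1] [0, 0, 0, 0, 0, 0, 0, 0]
      (by simp) (by simp) (by simp) (by simp) ?_ ?_ <;>
    rw [h0, h1] <;>
    generalize ed u (N + 10) = e at hbig ⊢ <;>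
    simp [wB, wD, dot, Tl, F17, Gl, mulL, addL, smulL] <;>
    rcases hbig with hbig | hbig <;> nlinarith
  · have hf : ed u (N + 10) = -1 * 1 ∨ ed u (N + 10) = -1 * 2 ∨ ed u (N + 10) = -1 * 3 := by
      omega
    rcases hf with h | h | h
    · refine wkill hc N hN hF hu [2, 4, 2, 1, 0, 0, 0, 0, 0, 0] [0, 0, 0, -1, -1, -5, -7, -9] [4, -1, 7, -1, 4, -2, 3, -1, 2, -2]
        [0, -2, 0, -4, 1, -6, 1, -4] (by simp) (by simp) (by simp) (by simp) ?_ ?_ <;>
      rw [h0, h1, h] <;> decide +kernel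
    · refine wkill hc N hN hF hu [1, 2, 1, 0, 0, 0] [0, 0, 0, 0, 0, -2, -3, -5] [2, -1, 2, -1, 2, -2]
        [0, 0, 0, 0, 0, -2, 1, -2] (by simp) (by simp) (by simp) (by simp) ?_ ?_ <;>
      rw [h0, h1, h] <;> decide +kernel
    · refine wkill hc N hN hF hu [1, 1, 0, 0] [0, 0, 0, 0, 0, -1, -1, -3] [1, -1, 0, -1]
        [0, 0, 0, 0, 0, -1, 1, -1] (by simp) (by simp) (by simp) (by simp) ?_ ?_ <;>
      rw [h0, h1, h] <;> decide +kernel

theorem toP_replicate (n : ℕ) (l : List ℤ) :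
    toP (List.replicate n 0 ++ l) = X ^ n * toP l := by
  induction n with
  | zero => simp
  | succ n ih =>
    rw [List.replicate_succ, List.cons_append, toP, ih, pow_succ']
    push_cast; rw [C_0]; ring

/-- The exceptional continuations are rigid and impossible. -/
theorem spine_R {β : ℝ} {u : ℕ → ℤ} (hc : Core 3 β u) (N : ℕ) (hN : 7 ≤ N)
    (hF : IsPre F17 u) (hu : ∀ k < N + 8, ed u k = 0) (s : ℤ) (hs : s = 1 ∨ s = -1)
    (h0 : ed u (N + 8) = s) (h1 : ed u (N + 9) = s) (h2 : ed u (N + 10) = 0) : False := by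
  have hS : 0 < (∑ i ∈ Finset.range 3, (β⁻¹) ^ (2 * i)) := by
    have hb : 0 < β⁻¹ := inv_pos.mpr (by linarith [hc.one_lt])
    exact Finset.sum_pos (fun i _ => by positivity) ⟨0, by simp⟩
  set p0 : List ℤ := (-s) :: (List.replicate (N + 9) 0 ++ [-1, -1, 1]) with hp0
  have e0 : toP p0 = toP [-s] + X ^ (N + 3) * toP (mulL Gl [0, 0, 0, 0, 0, 0, 0, 1]) := by
    rw [hp0, toP, toP_replicate]
    simp only [toP, mulL, Gl, addL, smulL]
    norm_num
    ring
  have e1 : T u (toP p0) = C (-(s : ℝ)) * toP p0.reverse := by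
    have hr : p0.reverse = 1 :: -1 :: -1 :: (List.replicate (N + 9) 0 ++ [-s]) := by
      rw [hp0]
      simp [List.reverse_cons, List.reverse_append]
    rw [hr, e0, T_add, T_win' u N hu _ (by simp), h0, h1, h2, T_toP u [-s],
      T_toP u (mulL Gl [0, 0, 0, 0, 0, 0, 0, 1]),
      ← Tl_eq_Tf F17 u hF [-s] (by simp [F17]),
      ← Tl_eq_Tf F17 u hF _ (by simp [F17, mulL, Gl, addL, smulL])]
    simp only [toP, toP_replicate]
    rcases hs with hs | hs <;> subst hs <;>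
      simp [Tl, dot, wD, F17, mulL, Gl, addL, smulL, toP] <;> ring
  have hs2 : (s : ℝ) * s = 1 := by rcases hs with hs | hs <;> rw [hs] <;> norm_num
  have hT := rigid_T hS hc.hyp (toP p0) (toP [0, 1]) (by
      intro m
      rw [e1, mul_left_comm, ip_C_mul_left, ip_C_mul_right, auto_reverse p0 m]
      linear_combination (ip (X ^ m * toP p0) (toP p0)) * hs2) (by
      rw [e1, coeff_C_mul, coeff_toP]
      have : p0.reverse.getD 0 0 = 1 := by
        rw [hp0]; simp [List.reverse_cons, List.reverse_append]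
      rw [this]
      rcases hs with hs | hs <;> rw [hs] <;> norm_num) (by
      rw [B_toP F17 u hF [0, 1] [0, 1] (by simp [F17]) (by simp [F17])]
      have : (0 : ℤ) < dot (Tl F17 [0, 1]) (Tl F17 [0, 1]) - dot [0, 1] [0, 1] := by decide
      exact_mod_cast this) (by
      have e2 : toP [0, 1] = toP [0, 1] + X ^ (N + 3) * toP (mulL Gl [0, 0, 0, 0, 0, 0, 0, 0]) := by
        simp [toP, mulL, Gl, addL, smulL]
      rw [e2, e0, wB_eq u N hN hF hu [0, 1] _ [-s] _ (by simp) (by simp) (by simp) (by simp),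
        h0, h1, h2]
      rcases hs with hs | hs <;> subst hs <;>
        simp [wB, wD, dot, Tl, F17, Gl, mulL, addL, smulL])
  have hroot := hc.rigid (toP p0) hT
  have hβ := hc.one_lt
  have v1 : (toP p0).eval β = β ^ (N + 10) * (β ^ 2 - β - 1) - s := by
    rw [e0]
    simp [toP, mulL, Gl, addL, smulL]
    ring
  have v2 : (T u (toP p0)).eval β = β ^ (N + 12) - s * (1 - β - β ^ 2) := by
    have hr : p0.reverse = 1 :: -1 :: -1 :: (List.replicate (N + 9) 0 ++ [-s]) := by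
      rw [hp0]
      simp [List.reverse_cons, List.reverse_append]
    rw [e1, hr]
    simp only [toP, toP_replicate]
    simp
    linear_combination (β ^ (N + 12)) * hs2
  rw [v1, v2] at hroot
  have h3 : (β ^ (N + 12) - s) * ((β - 1) ^ 2 * (β + 1)) = 0 := by
    linear_combination hroot
  have hp : 1 < β ^ (N + 12) := one_lt_pow₀ hβ (by omega)
  have h4 : 0 < β ^ (N + 12) - s := by
    rcases hs with hs | hs <;> rw [hs] <;> push_cast <;> linarith
  have h5 : 0 < (β - 1) ^ 2 * (β + 1) := mul_pos (pow_pos (by linarith) 2) (by linarith)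
  exact absurd h3 (mul_pos h4 h5).ne'

/-- The Fibonacci spine is impossible. -/
theorem spine3 {β : ℝ} {u : ℕ → ℤ} (hc : Core 3 β u) (hF : IsPre F17 u) : False := by
  by_cases hall : ∀ k, ed u k = 0
  · have hβ := hc.one_lt
    have hT : ∀ j : ℕ, T u (X ^ j * toP Gl) = X ^ j * T u (toP Gl) := by
      intro j
      induction j with
      | zero => simp
      | succ j ih =>
        have : toP Gl = toP (mulL Gl [1]) := by simp [toP, mulL, Gl, addL, smulL]
        have hd : dl u (X ^ j * toP Gl) = 0 := by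
          rw [this, dl_G, dotf_zero _ _ (fun k _ => hall _)]; simp
        rw [pow_succ', mul_assoc, T_X_mul, ih, hd]; simp; ring
    have hroot := hc.rigid (toP Gl) hT
    rw [T_toP, ← Tl_eq_Tf F17 u hF Gl (by simp [F17, Gl]), eval_toP, eval_toP] at hroot
    simp [Tl, dot, F17, Gl, evl] at hroot
    have h3 : β * ((β - 1) ^ 2 * (β + 1)) * β = 0 := by
      linear_combination hroot
    have h5 : 0 < β * ((β - 1) ^ 2 * (β + 1)) * β :=
      mul_pos (mul_pos (by linarith) (mul_pos (pow_pos (by linarith) 2) (by linarith)))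
        (by linarith)
    exact absurd h3 h5.ne'
  · push Not at hall
    classical
    have hfind := Nat.find_spec hall
    have hmin : ∀ k < Nat.find hall, ed u k = 0 := fun k hk => by
      by_contra hcon
      exact Nat.find_min hall hk hcon
    generalize Nat.find hall = kk at hfind hmin
    have hge : 15 ≤ kk := by
      by_contra hlt
      push Not at hlt
      apply hfind
      have hF' := hF
      simp only [F17, IsPre] at hF'
      norm_num at hF'
      obtain ⟨f0, f1, f2, f3, f4, f5, f6, f7, f8, f9, f10, f11, f12, f13, f14, f15, f16⟩ := hF'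
      unfold ed
      interval_cases kk <;> simp [*]
    obtain ⟨N, hN⟩ : ∃ N, kk = N + 8 := ⟨kk - 8, by omega⟩
    rw [hN] at hfind hmin
    have hN7 : 7 ≤ N := by omega
    rcases le_or_gt (ed u (N + 8)) (-2) with hA | hA
    · exact spine_A hc N hN7 hF hmin (Or.inl hA)
    rcases le_or_gt 2 (ed u (N + 8)) with hA2 | hA2
    · exact spine_A hc N hN7 hF hmin (Or.inr hA2)
    have h01 : ed u (N + 8) = 1 ∨ ed u (N + 8) = -1 := by omega
    rcases h01 with h0 | h0
    · by_cases h1 : ed u (N + 9) = 1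
      · by_cases h2 : ed u (N + 10) = 0
        · exact spine_R hc N hN7 hF hmin 1 (Or.inl rfl) h0 h1 h2
        · exact spine_C_pos hc N hN7 hF hmin h0 h1 h2
      · exact spine_B_pos hc N hN7 hF hmin h0 h1
    · by_cases h1 : ed u (N + 9) = -1
      · by_cases h2 : ed u (N + 10) = 0
        · exact spine_R hc N hN7 hF hmin (-1) (Or.inr rfl) h0 h1 h2
        · exact spine_C_neg hc N hN7 hF hmin h0 h1 h2
      · exact spine_B_neg hc N hN7 hF hmin h0 h1

end Pool.Agent.MP1f45fc.SalemC
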