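import Mathlib
import Pool.Agent.Lib.MP_1f45fc_nt.SalemC.Spine

set_option autoImplicit false

open Polynomial

namespace Pool.Agent.MP1f45fc.SalemC

/-! General spines: `u (k+2) = c1 u (k+1) + c2 u k`. -/

/-- `X^2 - c1 X - c2`. -/
def Gc (c1 c2 : ℤ) : List ℤ := [-c2, -c1, 1]

def edc (c1 c2 : ℤ) (u : ℕ → ℤ) (k : ℕ) : ℤ := u (k + 2) - c1 * u (k + 1) - c2 * u k

theorem dotf_lin (c1 c2 : ℤ) (w : ℕ → ℤ) (q : List ℤ) :
    dotf (fun k => w (k + 2) - c1 * w (k + 1) - c2 * w k) q =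
    dotf (fun k => w (k + 2)) q - c1 * dotf (fun k => w (k + 1)) q - c2 * dotf w q := by
  induction q generalizing w with
  | nil => simp [dotf]
  | cons x a ih =>
    simp only [dotf]
    have := ih (fun k => w (k + 1))
    simp only [Nat.zero_add]
    have e : (fun i => w (i + 1 + 2) - c1 * w (i + 1 + 1) - c2 * w (i + 1)) =
      (fun k => (fun k => w (k + 1)) (k + 2) - c1 * (fun k => w (k + 1)) (k + 1) -
        c2 * (fun k => w (k + 1)) k) := by
      funext k; rfl
    rw [e, this]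
    have e2 : (fun k => (fun k => w (k + 1)) (k + 2)) = (fun i => w (i + 1 + 2)) := by
      funext k; rfl
    have e3 : (fun k => (fun k => w (k + 1)) (k + 1)) = (fun i => w (i + 1 + 1)) := by
      funext k; rfl
    rw [e2, e3]
    ring

theorem dotf_mulGc (c1 c2 : ℤ) (w : ℕ → ℤ) (q : List ℤ) :
    dotf w (mulL (Gc c1 c2) q) = dotf (fun k => w (k + 2) - c1 * w (k + 1) - c2 * w k) q := by
  rw [dotf_lin]
  simp only [Gc, mulL, dotf_addL, dotf_smulL, dotf]
  have e2 : (fun k => w (k + 2)) = (fun i => w (i + 1 + 1)) := by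
    funext k; rfl
  rw [e2]
  ring

theorem dl_Gc (c1 c2 : ℤ) (u : ℕ → ℤ) (i : ℕ) (q : List ℤ) :
    dl u (X ^ i * toP (mulL (Gc c1 c2) q)) = dotf (fun k => edc c1 c2 u (k + i + 1)) q := by
  rw [dl_X_pow, dotf_mulGc]
  congr 2
  funext k
  simp only [edc]
  rw [show k + 2 + i + 1 = k + i + 1 + 2 by ring, show k + 1 + i + 1 = k + i + 1 + 1 by ring]

theorem isPre_iff (U : List ℤ) (w : ℕ → ℤ) : IsPre U w ↔ ∀ i < U.length, w i = U.getD i 0 := by
  induction U generalizing w with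
  | nil => simp [IsPre]
  | cons a U ih =>
    simp only [IsPre, List.length_cons]
    rw [ih]
    constructor
    · rintro ⟨h0, h⟩ i hi
      cases i with
      | zero => simpa using h0
      | succ i => simpa using h i (by omega)
    · intro h
      exact ⟨by simpa using h 0 (by omega), fun i hi => by simpa using h (i + 1) (by omega)⟩

theorem getD_rep (n : ℕ) (es : List ℤ) (i : ℕ) :
    (List.replicate n 0 ++ es).getD i 0 = if i < n then 0 else es.getD (i - n) 0 := by
  split_ifs with h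
  · rw [List.getD_append _ _ _ _ (by simpa using h)]
    simp
  · push Not at h
    rw [List.getD_append_right _ _ _ _ (by simpa using h)]
    simp

def wDg (e0 e1 e2 : ℤ) (q : List ℤ) : List ℤ :=
  [dot (List.replicate (q.length - 3) 0 ++ [e0, e1, e2]) q,
    dot (List.replicate (q.length - 2) 0 ++ [e0, e1]) q,
    dot (List.replicate (q.length - 1) 0 ++ [e0]) q]

/-- Action of `T` on a top window. -/
theorem T_top (c1 c2 : ℤ) (u : ℕ → ℤ) (K N : ℕ) (hu : ∀ k < K, edc c1 c2 u k = 0) (q : List ℤ)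
    (hq : 3 ≤ q.length) (hK : K = N + q.length) :
    T u (X ^ (N + 3) * toP (mulL (Gc c1 c2) q)) =
      X ^ (N + 3) * T u (toP (mulL (Gc c1 c2) q)) +
      toP (wDg (edc c1 c2 u K) (edc c1 c2 u (K + 1)) (edc c1 c2 u (K + 2)) q) := by
  set P := toP (mulL (Gc c1 c2) q) with hP
  have h1 : ∀ i ≤ N, T u (X ^ i * P) = X ^ i * T u P := by
    intro i hi
    induction i with
    | zero => simp
    | succ i ih =>
      rw [pow_succ', mul_assoc, T_X_mul, ih (by omega), hP, dl_Gc, dotf_zero]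
      · simp; ring
      · intro k hk
        exact hu _ (by omega)
  have d0 : dl u (X ^ N * P) =
      ((dot (List.replicate (q.length - 1) 0 ++ [edc c1 c2 u K]) q : ℤ) : ℝ) := by
    rw [hP, dl_Gc, dot_eq_dotf _ (fun k => edc c1 c2 u (k + N + 1)) _ q (by simp; omega)]
    rw [isPre_iff]
    intro i hi
    rw [getD_rep]
    split_ifs with h
    · exact hu _ (by omega)
    · simp at hi
      have : i = q.length - 1 := by omega
      subst this
      rw [show q.length - 1 + N + 1 = K by omega]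
      simp
  have d1 : dl u (X ^ (N + 1) * P) =
      ((dot (List.replicate (q.length - 2) 0 ++ [edc c1 c2 u K, edc c1 c2 u (K + 1)]) q : ℤ) :
        ℝ) := by
    rw [hP, dl_Gc, dot_eq_dotf _ (fun k => edc c1 c2 u (k + (N + 1) + 1)) _ q (by simp; omega)]
    rw [isPre_iff]
    intro i hi
    rw [getD_rep]
    split_ifs with h
    · exact hu _ (by omega)
    · simp at hi
      have : i = q.length - 2 ∨ i = q.length - 2 + 1 := by omega
      rcases this with h' | h'
      · subst h'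
        rw [show q.length - 2 + (N + 1) + 1 = K by omega]
        simp
      · subst h'
        rw [show q.length - 2 + 1 + (N + 1) + 1 = K + 1 by omega]
        simp
  have d2 : dl u (X ^ (N + 2) * P) =
      ((dot (List.replicate (q.length - 3) 0 ++
        [edc c1 c2 u K, edc c1 c2 u (K + 1), edc c1 c2 u (K + 2)]) q : ℤ) : ℝ) := by
    rw [hP, dl_Gc, dot_eq_dotf _ (fun k => edc c1 c2 u (k + (N + 2) + 1)) _ q (by simp; omega)]
    rw [isPre_iff]
    intro i hi
    rw [getD_rep]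
    split_ifs with h
    · exact hu _ (by omega)
    · simp at hi
      have : i = q.length - 3 ∨ i = q.length - 3 + 1 ∨ i = q.length - 3 + 2 := by omega
      rcases this with h' | h' | h'
      · subst h'
        rw [show q.length - 3 + (N + 2) + 1 = K by omega]
        simp
      · subst h'
        rw [show q.length - 3 + 1 + (N + 2) + 1 = K + 1 by omega]
        simp
      · subst h'
        rw [show q.length - 3 + 2 + (N + 2) + 1 = K + 2 by omega]
        simp
  have s1 : T u (X ^ (N + 1) * P) = X ^ (N + 1) * T u P + C (dl u (X ^ N * P)) := by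
    rw [pow_succ', mul_assoc, T_X_mul, h1 N le_rfl]; ring
  have s2 : T u (X ^ (N + 2) * P) = X ^ (N + 2) * T u P + X * C (dl u (X ^ N * P)) +
      C (dl u (X ^ (N + 1) * P)) := by
    rw [pow_succ' X (N + 1), mul_assoc, T_X_mul, s1]; ring
  have s3 : T u (X ^ (N + 3) * P) = X ^ (N + 3) * T u P + X ^ 2 * C (dl u (X ^ N * P)) +
      X * C (dl u (X ^ (N + 1) * P)) + C (dl u (X ^ (N + 2) * P)) := by
    rw [pow_succ' X (N + 2), mul_assoc, T_X_mul, s2]; ring
  rw [s3, d0, d1, d2]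
  simp only [toP, wDg]
  ring

/-- The form on window vectors. -/
def wBg (c1 c2 : ℤ) (F : List ℤ) (e0 e1 e2 : ℤ) (a q a' q' : List ℤ) : ℤ :=
  dot (addL (Tl F a) (wDg e0 e1 e2 q)) (addL (Tl F a') (wDg e0 e1 e2 q')) +
    dot (Tl F (mulL (Gc c1 c2) q)) (Tl F (mulL (Gc c1 c2) q')) - dot a a' -
    dot (mulL (Gc c1 c2) q) (mulL (Gc c1 c2) q')

theorem wBg_eq (c1 c2 : ℤ) (F : List ℤ) (u : ℕ → ℤ) (K L : ℕ) (hF : IsPre F u)
    (hu : ∀ k < K, edc c1 c2 u k = 0) (a q a' q' : List ℤ) (hL : 3 ≤ L) (hLF : L + 2 ≤ F.length)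
    (haF : a.length ≤ F.length) (haF' : a'.length ≤ F.length)
    (ha : a.length + L ≤ K + 3) (ha' : a'.length + L ≤ K + 3) (hLK : L ≤ K)
    (hq : q.length = L) (hq' : q'.length = L) :
    B u (toP a + X ^ (K + 3 - L) * toP (mulL (Gc c1 c2) q))
      (toP a' + X ^ (K + 3 - L) * toP (mulL (Gc c1 c2) q')) =
      ((wBg c1 c2 F (edc c1 c2 u K) (edc c1 c2 u (K + 1)) (edc c1 c2 u (K + 2)) a q a' q' : ℤ) :
        ℝ) := by
  obtain ⟨N, hN⟩ : ∃ N, K = N + L := ⟨K - L, by omega⟩
  have hM : K + 3 - L = N + 3 := by omega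
  rw [hM]
  have hlen : ∀ q : List ℤ, q.length = L → (mulL (Gc c1 c2) q).length = L + 2 := by
    intro q hq
    simp [mulL, Gc, length_addL, length_smulL, hq]
    omega
  have hT : ∀ a q : List ℤ, a.length ≤ F.length → q.length = L →
      T u (toP a + X ^ (N + 3) * toP (mulL (Gc c1 c2) q)) =
      toP (addL (Tl F a) (wDg (edc c1 c2 u K) (edc c1 c2 u (K + 1)) (edc c1 c2 u (K + 2)) q)) +
        X ^ (N + 3) * toP (Tl F (mulL (Gc c1 c2) q)) := by
    intro a q ha hq
    rw [T_add, T_top c1 c2 u K N hu q (by omega) (by omega), T_toP u a,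
      T_toP u (mulL (Gc c1 c2) q), ← Tl_eq_Tf F u hF a ha,
      ← Tl_eq_Tf F u hF _ (by rw [hlen q hq]; omega), toP_addL]
    ring
  unfold B
  rw [hT a q haF hq, hT a' q' haF' hq', ip_two _ _ _ _ _ (by
      rw [length_addL, length_Tl]; simp [wDg]; omega) (by
      rw [length_addL, length_Tl]; simp [wDg]; omega), ip_two _ _ _ _ _ (by omega) (by omega)]
  unfold wBg
  push_cast; ring

/-- A window certificate gives a contradiction. -/
theorem wkillg {n : ℕ} {β : ℝ} {u : ℕ → ℤ} (hn : 1 ≤ n) (hc : Core n β u) (c1 c2 : ℤ)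
    (F : List ℤ) (K L : ℕ) (hF : IsPre F u)
    (hu : ∀ k < K, edc c1 c2 u k = 0) (a q a' q' : List ℤ) (hL : 3 ≤ L) (hLF : L + 2 ≤ F.length)
    (haF : a.length ≤ F.length) (haF' : a'.length ≤ F.length)
    (ha : a.length + L ≤ K + 3) (ha' : a'.length + L ≤ K + 3) (hLK : L ≤ K)
    (hq : q.length = L) (hq' : q'.length = L)
    (h1 : 0 < wBg c1 c2 F (edc c1 c2 u K) (edc c1 c2 u (K + 1)) (edc c1 c2 u (K + 2)) a q a q)
    (h2 : wBg c1 c2 F (edc c1 c2 u K) (edc c1 c2 u (K + 1)) (edc c1 c2 u (K + 2)) a q a' q' ^ 2 <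
      wBg c1 c2 F (edc c1 c2 u K) (edc c1 c2 u (K + 1)) (edc c1 c2 u (K + 2)) a q a q *
      wBg c1 c2 F (edc c1 c2 u K) (edc c1 c2 u (K + 1)) (edc c1 c2 u (K + 2)) a' q' a' q') :
    False := by
  have hS : 0 < (∑ i ∈ Finset.range n, (β⁻¹) ^ (2 * i)) := by
    have hb : 0 < β⁻¹ := inv_pos.mpr (by linarith [hc.one_lt])
    exact Finset.sum_pos (fun i _ => by positivity) ⟨0, by simp; omega⟩
  refine no_pos2 hS hc.hyp (toP a + X ^ (K + 3 - L) * toP (mulL (Gc c1 c2) q))
    (toP a' + X ^ (K + 3 - L) * toP (mulL (Gc c1 c2) q')) ?_ ?_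
  · rw [wBg_eq c1 c2 F u K L hF hu a q a q hL hLF haF haF ha ha hLK hq hq]
    exact_mod_cast h1
  · rw [wBg_eq c1 c2 F u K L hF hu a q a q hL hLF haF haF ha ha hLK hq hq,
      wBg_eq c1 c2 F u K L hF hu a q a' q' hL hLF haF haF' ha ha' hLK hq hq',
      wBg_eq c1 c2 F u K L hF hu a' q' a' q' hL hLF haF' haF' ha' ha' hLK hq' hq']
    exact_mod_cast h2

end Pool.Agent.MP1f45fc.SalemC
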