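import Mathlib
import Pool.Agent.Lib.MP_1f45fc_nt.SalemC.SpineG

set_option autoImplicit false

open Polynomial

namespace Pool.Agent.MP1f45fc.SalemC

def FA : List ℤ := [2, 4, 10, 24, 58, 140, 338, 816, 1970, 4756, 11482, 27720, 66922, 161564, 390050, 941664, 2273378]

theorem spineA_0 {n : ℕ} {β : ℝ} {u : ℕ → ℤ} (hn : 1 ≤ n) (hc : Core n β u) (K : ℕ) (hK : 15 ≤ K)
    (hF : IsPre FA u) (hu : ∀ k < K, edc (2) (1) u k = 0)
    (h0 : edc (2) (1) u K ≤ -2 ∨ 2 ≤ edc (2) (1) u K) : False := by
  by_cases hbig : 2 ≤ edc (2) (1) u K ∨ edc (2) (1) u K ≤ -2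
  · refine wkillg hn hc (2) (1) FA K 3 hF hu [] [1, 0, 0] [-3, 1, -2, 1] [0, 0, 0]
      (by norm_num) (by simp [FA]) (by simp [FA]) (by simp [FA])
      (by simp only [List.length_cons, List.length_nil]; omega)
      (by simp only [List.length_cons, List.length_nil]; omega) (by omega) (by simp) (by simp) ?_ ?_ <;>
    generalize edc (2) (1) u K = e at hbig ⊢ <;> generalize edc (2) (1) u (K + 1) = x1 <;> generalize edc (2) (1) u (K + 2) = x2 <;>
    simp [wBg, wDg, dot, Tl, FA, Gc, mulL, addL, smulL, List.replicate] <;>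
    rcases hbig with hbig | hbig <;> nlinarith
  · omega

theorem spineA_1p {n : ℕ} {β : ℝ} {u : ℕ → ℤ} (hn : 1 ≤ n) (hc : Core n β u) (K : ℕ) (hK : 15 ≤ K)
    (hF : IsPre FA u) (hu : ∀ k < K, edc (2) (1) u k = 0)
    (h0 : edc (2) (1) u K = 1) (h10 : edc (2) (1) u (K + 1) ≠ 2) : False := by
  by_cases hbig : 4 ≤ 1 * edc (2) (1) u (K + 1) ∨ 1 * edc (2) (1) u (K + 1) ≤ -2
  · refine wkillg hn hc (2) (1) FA K 3 hF hu [] [0, 1, 0] [-2, -1, -1, 1] [0, 0, 0]
      (by norm_num) (by simp [FA]) (by simp [FA]) (by simp [FA])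
      (by simp only [List.length_cons, List.length_nil]; omega)
      (by simp only [List.length_cons, List.length_nil]; omega) (by omega) (by simp) (by simp) ?_ ?_ <;>
    rw [h0] <;> generalize edc (2) (1) u (K + 1) = e at hbig ⊢ <;> generalize edc (2) (1) u (K + 2) = x2 <;>
    simp [wBg, wDg, dot, Tl, FA, Gc, mulL, addL, smulL, List.replicate] <;>
    rcases hbig with hbig | hbig <;> nlinarith
  · have hf : edc (2) (1) u (K + 1) = -1 ∨ edc (2) (1) u (K + 1) = 0 ∨ edc (2) (1) u (K + 1) = 1 ∨ edc (2) (1) u (K + 1) = 3 := by omega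
    rcases hf with h | h | h | h
    · refine wkillg hn hc (2) (1) FA K 3 hF hu [0, 1] [0, 0, 0] [-1]
          [0, 1, 0] (by norm_num) (by simp [FA]) (by simp [FA]) (by simp [FA])
          (by simp only [List.length_cons, List.length_nil]; omega)
          (by simp only [List.length_cons, List.length_nil]; omega) (by omega) (by simp) (by simp) ?_ ?_ <;>
        rw [h0, h] <;>
        generalize edc (2) (1) u (K + 2) = x0 <;>
        simp [wBg, wDg, dot, Tl, FA, Gc, mulL, addL, smulL, List.replicate]
    · refine wkillg hn hc (2) (1) FA K 3 hF hu [0, 1] [0, 0, 0] [1]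
          [0, -1, 0] (by norm_num) (by simp [FA]) (by simp [FA]) (by simp [FA])
          (by simp only [List.length_cons, List.length_nil]; omega)
          (by simp only [List.length_cons, List.length_nil]; omega) (by omega) (by simp) (by simp) ?_ ?_ <;>
        rw [h0, h] <;>
        generalize edc (2) (1) u (K + 2) = x0 <;>
        simp [wBg, wDg, dot, Tl, FA, Gc, mulL, addL, smulL, List.replicate]
    · refine wkillg hn hc (2) (1) FA K 4 hF hu [2, 5] [0, 1, 1, 0] [-4, 3, -3, 1]
          [1, -1, 2, 0] (by norm_num) (by simp [FA]) (by simp [FA]) (by simp [FA])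
          (by simp only [List.length_cons, List.length_nil]; omega)
          (by simp only [List.length_cons, List.length_nil]; omega) (by omega) (by simp) (by simp) ?_ ?_ <;>
        rw [h0, h] <;>
        generalize edc (2) (1) u (K + 2) = x0 <;>
        simp [wBg, wDg, dot, Tl, FA, Gc, mulL, addL, smulL, List.replicate]
    · refine wkillg hn hc (2) (1) FA K 5 hF hu [3, 7] [0, 0, 1, 5, 0] [7, 3, 3, 2, -2]
          [1, 2, 2, 4, 0] (by norm_num) (by simp [FA]) (by simp [FA]) (by simp [FA])
          (by simp only [List.length_cons, List.length_nil]; omega)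
          (by simp only [List.length_cons, List.length_nil]; omega) (by omega) (by simp) (by simp) ?_ ?_ <;>
        rw [h0, h] <;>
        generalize edc (2) (1) u (K + 2) = x0 <;>
        simp [wBg, wDg, dot, Tl, FA, Gc, mulL, addL, smulL, List.replicate]

theorem spineA_2p_2 {n : ℕ} {β : ℝ} {u : ℕ → ℤ} (hn : 1 ≤ n) (hc : Core n β u) (K : ℕ) (hK : 15 ≤ K)
    (hF : IsPre FA u) (hu : ∀ k < K, edc (2) (1) u k = 0)
    (h0 : edc (2) (1) u K = 1) (h1 : edc (2) (1) u (K + 1) = 2) (h2 : edc (2) (1) u (K + 2) ≠ 3) : False := by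
  by_cases hbig : 7 ≤ 1 * edc (2) (1) u (K + 2) ∨ 1 * edc (2) (1) u (K + 2) ≤ 1
  · refine wkillg hn hc (2) (1) FA K 3 hF hu [] [0, 0, 1] [-1, 0, -1, 1] [0, 0, 0]
      (by norm_num) (by simp [FA]) (by simp [FA]) (by simp [FA])
      (by simp only [List.length_cons, List.length_nil]; omega)
      (by simp only [List.length_cons, List.length_nil]; omega) (by omega) (by simp) (by simp) ?_ ?_ <;>
    rw [h0, h1] <;> generalize edc (2) (1) u (K + 2) = e at hbig ⊢ <;>
    simp [wBg, wDg, dot, Tl, FA, Gc, mulL, addL, smulL, List.replicate] <;>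
    rcases hbig with hbig | hbig <;> nlinarith
  · have hf : edc (2) (1) u (K + 2) = 2 ∨ edc (2) (1) u (K + 2) = 4 ∨ edc (2) (1) u (K + 2) = 5 ∨ edc (2) (1) u (K + 2) = 6 := by omega
    rcases hf with h | h | h | h
    · refine wkillg hn hc (2) (1) FA K 3 hF hu [0, 1] [0, 0, 0] [-1]
          [0, 0, 1] (by norm_num) (by simp [FA]) (by simp [FA]) (by simp [FA])
          (by simp only [List.length_cons, List.length_nil]; omega)
          (by simp only [List.length_cons, List.length_nil]; omega) (by omega) (by simp) (by simp) ?_ ?_ <;>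
        rw [h0, h1, h] <;> decide +kernel
    · refine wkillg hn hc (2) (1) FA K 7 hF hu [2, 5, 1] [0, 0, 0, 0, 2, 3, 7] [5, -1, 8, -1, 6, -1, 4, -1, 2, -1]
          [1, 0, 3, 0, 4, 0, 3] (by norm_num) (by simp [FA]) (by simp [FA]) (by simp [FA])
          (by simp only [List.length_cons, List.length_nil]; omega)
          (by simp only [List.length_cons, List.length_nil]; omega) (by omega) (by simp) (by simp) ?_ ?_ <;>
        rw [h0, h1, h] <;> decide +kernel
    · refine wkillg hn hc (2) (1) FA K 3 hF hu [1, 3] [1, 1, 4] [2, -1, 4, -1, 2, -1]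
          [1, 0, 2] (by norm_num) (by simp [FA]) (by simp [FA]) (by simp [FA])
          (by simp only [List.length_cons, List.length_nil]; omega)
          (by simp only [List.length_cons, List.length_nil]; omega) (by omega) (by simp) (by simp) ?_ ?_ <;>
        rw [h0, h1, h] <;> decide +kernel
    · refine wkillg hn hc (2) (1) FA K 3 hF hu [1, 2] [0, 1, 2] [1, -1, 2, -1]
          [1, 0, 1] (by norm_num) (by simp [FA]) (by simp [FA]) (by simp [FA])
          (by simp only [List.length_cons, List.length_nil]; omega)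
          (by simp only [List.length_cons, List.length_nil]; omega) (by omega) (by simp) (by simp) ?_ ?_ <;>
        rw [h0, h1, h] <;> decide +kernel

theorem spineA_1m {n : ℕ} {β : ℝ} {u : ℕ → ℤ} (hn : 1 ≤ n) (hc : Core n β u) (K : ℕ) (hK : 15 ≤ K)
    (hF : IsPre FA u) (hu : ∀ k < K, edc (2) (1) u k = 0)
    (h0 : edc (2) (1) u K = -1) (h10 : edc (2) (1) u (K + 1) ≠ -2) : False := by
  by_cases hbig : 4 ≤ -1 * edc (2) (1) u (K + 1) ∨ -1 * edc (2) (1) u (K + 1) ≤ -2
  · refine wkillg hn hc (2) (1) FA K 3 hF hu [] [0, -1, 0] [-2, -1, -1, 1] [0, 0, 0]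
      (by norm_num) (by simp [FA]) (by simp [FA]) (by simp [FA])
      (by simp only [List.length_cons, List.length_nil]; omega)
      (by simp only [List.length_cons, List.length_nil]; omega) (by omega) (by simp) (by simp) ?_ ?_ <;>
    rw [h0] <;> generalize edc (2) (1) u (K + 1) = e at hbig ⊢ <;> generalize edc (2) (1) u (K + 2) = x2 <;>
    simp [wBg, wDg, dot, Tl, FA, Gc, mulL, addL, smulL, List.replicate] <;>
    rcases hbig with hbig | hbig <;> nlinarith
  · have hf : edc (2) (1) u (K + 1) = 1 ∨ edc (2) (1) u (K + 1) = 0 ∨ edc (2) (1) u (K + 1) = -1 ∨ edc (2) (1) u (K + 1) = -3 := by omega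
    rcases hf with h | h | h | h
    · refine wkillg hn hc (2) (1) FA K 3 hF hu [0, 1] [0, 0, 0] [-1]
          [0, -1, 0] (by norm_num) (by simp [FA]) (by simp [FA]) (by simp [FA])
          (by simp only [List.length_cons, List.length_nil]; omega)
          (by simp only [List.length_cons, List.length_nil]; omega) (by omega) (by simp) (by simp) ?_ ?_ <;>
        rw [h0, h] <;>
        generalize edc (2) (1) u (K + 2) = x0 <;>
        simp [wBg, wDg, dot, Tl, FA, Gc, mulL, addL, smulL, List.replicate]
    · refine wkillg hn hc (2) (1) FA K 3 hF hu [0, 1] [0, 0, 0] [1]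
          [0, 1, 0] (by norm_num) (by simp [FA]) (by simp [FA]) (by simp [FA])
          (by simp only [List.length_cons, List.length_nil]; omega)
          (by simp only [List.length_cons, List.length_nil]; omega) (by omega) (by simp) (by simp) ?_ ?_ <;>
        rw [h0, h] <;>
        generalize edc (2) (1) u (K + 2) = x0 <;>
        simp [wBg, wDg, dot, Tl, FA, Gc, mulL, addL, smulL, List.replicate]
    · refine wkillg hn hc (2) (1) FA K 4 hF hu [2, 5] [0, -1, -1, 0] [-4, 3, -3, 1]
          [-1, 1, -2, 0] (by norm_num) (by simp [FA]) (by simp [FA]) (by simp [FA])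
          (by simp only [List.length_cons, List.length_nil]; omega)
          (by simp only [List.length_cons, List.length_nil]; omega) (by omega) (by simp) (by simp) ?_ ?_ <;>
        rw [h0, h] <;>
        generalize edc (2) (1) u (K + 2) = x0 <;>
        simp [wBg, wDg, dot, Tl, FA, Gc, mulL, addL, smulL, List.replicate]
    · refine wkillg hn hc (2) (1) FA K 5 hF hu [3, 7] [0, 0, -1, -5, 0] [7, 3, 3, 2, -2]
          [-1, -2, -2, -4, 0] (by norm_num) (by simp [FA]) (by simp [FA]) (by simp [FA])
          (by simp only [List.length_cons, List.length_nil]; omega)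
          (by simp only [List.length_cons, List.length_nil]; omega) (by omega) (by simp) (by simp) ?_ ?_ <;>
        rw [h0, h] <;>
        generalize edc (2) (1) u (K + 2) = x0 <;>
        simp [wBg, wDg, dot, Tl, FA, Gc, mulL, addL, smulL, List.replicate]

theorem spineA_2m_2 {n : ℕ} {β : ℝ} {u : ℕ → ℤ} (hn : 1 ≤ n) (hc : Core n β u) (K : ℕ) (hK : 15 ≤ K)
    (hF : IsPre FA u) (hu : ∀ k < K, edc (2) (1) u k = 0)
    (h0 : edc (2) (1) u K = -1) (h1 : edc (2) (1) u (K + 1) = -2) (h2 : edc (2) (1) u (K + 2) ≠ -3) : False := by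
  by_cases hbig : 7 ≤ -1 * edc (2) (1) u (K + 2) ∨ -1 * edc (2) (1) u (K + 2) ≤ 1
  · refine wkillg hn hc (2) (1) FA K 3 hF hu [] [0, 0, -1] [-1, 0, -1, 1] [0, 0, 0]
      (by norm_num) (by simp [FA]) (by simp [FA]) (by simp [FA])
      (by simp only [List.length_cons, List.length_nil]; omega)
      (by simp only [List.length_cons, List.length_nil]; omega) (by omega) (by simp) (by simp) ?_ ?_ <;>
    rw [h0, h1] <;> generalize edc (2) (1) u (K + 2) = e at hbig ⊢ <;>
    simp [wBg, wDg, dot, Tl, FA, Gc, mulL, addL, smulL, List.replicate] <;>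
    rcases hbig with hbig | hbig <;> nlinarith
  · have hf : edc (2) (1) u (K + 2) = -2 ∨ edc (2) (1) u (K + 2) = -4 ∨ edc (2) (1) u (K + 2) = -5 ∨ edc (2) (1) u (K + 2) = -6 := by omega
    rcases hf with h | h | h | h
    · refine wkillg hn hc (2) (1) FA K 3 hF hu [0, 1] [0, 0, 0] [-1]
          [0, 0, -1] (by norm_num) (by simp [FA]) (by simp [FA]) (by simp [FA])
          (by simp only [List.length_cons, List.length_nil]; omega)
          (by simp only [List.length_cons, List.length_nil]; omega) (by omega) (by simp) (by simp) ?_ ?_ <;>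
        rw [h0, h1, h] <;> decide +kernel
    · refine wkillg hn hc (2) (1) FA K 7 hF hu [2, 5, 1] [0, 0, 0, 0, -2, -3, -7] [5, -1, 8, -1, 6, -1, 4, -1, 2, -1]
          [-1, 0, -3, 0, -4, 0, -3] (by norm_num) (by simp [FA]) (by simp [FA]) (by simp [FA])
          (by simp only [List.length_cons, List.length_nil]; omega)
          (by simp only [List.length_cons, List.length_nil]; omega) (by omega) (by simp) (by simp) ?_ ?_ <;>
        rw [h0, h1, h] <;> decide +kernel
    · refine wkillg hn hc (2) (1) FA K 3 hF hu [1, 3] [-1, -1, -4] [2, -1, 4, -1, 2, -1]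
          [-1, 0, -2] (by norm_num) (by simp [FA]) (by simp [FA]) (by simp [FA])
          (by simp only [List.length_cons, List.length_nil]; omega)
          (by simp only [List.length_cons, List.length_nil]; omega) (by omega) (by simp) (by simp) ?_ ?_ <;>
        rw [h0, h1, h] <;> decide +kernel
    · refine wkillg hn hc (2) (1) FA K 3 hF hu [1, 2] [0, -1, -2] [1, -1, 2, -1]
          [-1, 0, -1] (by norm_num) (by simp [FA]) (by simp [FA]) (by simp [FA])
          (by simp only [List.length_cons, List.length_nil]; omega)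
          (by simp only [List.length_cons, List.length_nil]; omega) (by omega) (by simp) (by simp) ?_ ?_ <;>
        rw [h0, h1, h] <;> decide +kernel

end Pool.Agent.MP1f45fc.SalemC
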