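import Mathlib
import Pool.Agent.Lib.MP_1f45fc_nt.SalemC.SpineG

set_option autoImplicit false

open Polynomial

namespace Pool.Agent.MP1f45fc.SalemC

def FB : List ℤ := [2, 5, 13, 34, 89, 233, 610, 1597, 4181, 10946, 28657, 75025, 196418, 514229, 1346269, 3524578, 9227465, 24157817, 63245986, 165580141, 433494437, 1134903170, 2971215073, 7778742049, 20365011074, 53316291173, 139583862445]

theorem spineB_0 {n : ℕ} {β : ℝ} {u : ℕ → ℤ} (hn : 1 ≤ n) (hc : Core n β u) (K : ℕ) (hK : 25 ≤ K)
    (hF : IsPre FB u) (hu : ∀ k < K, edc (3) (-1) u k = 0)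
    (h0 : edc (3) (-1) u K ≤ -2 ∨ 2 ≤ edc (3) (-1) u K) : False := by
  by_cases hbig : 5 ≤ edc (3) (-1) u K ∨ edc (3) (-1) u K ≤ -5
  · refine wkillg hn hc (3) (-1) FB K 3 hF hu [] [1, 0, 0] [-2, -1, 1] [0, 0, 0]
      (by norm_num) (by simp [FB]) (by simp [FB]) (by simp [FB])
      (by simp only [List.length_cons, List.length_nil]; omega)
      (by simp only [List.length_cons, List.length_nil]; omega) (by omega) (by simp) (by simp) ?_ ?_ <;>
    generalize edc (3) (-1) u K = e at hbig ⊢ <;> generalize edc (3) (-1) u (K + 1) = x1 <;> generalize edc (3) (-1) u (K + 2) = x2 <;>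
    simp [wBg, wDg, dot, Tl, FB, Gc, mulL, addL, smulL, List.replicate] <;>
    rcases hbig with hbig | hbig <;> nlinarith
  · have hf : edc (3) (-1) u K = 2 ∨ edc (3) (-1) u K = -2 ∨ edc (3) (-1) u K = 3 ∨ edc (3) (-1) u K = -3 ∨ edc (3) (-1) u K = 4 ∨ edc (3) (-1) u K = -4 := by omega
    rcases hf with h | h | h | h | h | h
    · refine wkillg hn hc (3) (-1) FB K 6 hF hu [4, 12] [0, 0, 0, 4, 0, 0] [6, 5, 3, 2, 1, -1]
          [1, 2, 3, 3, 0, 0] (by norm_num) (by simp [FB]) (by simp [FB]) (by simp [FB])
          (by simp only [List.length_cons, List.length_nil]; omega)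
          (by simp only [List.length_cons, List.length_nil]; omega) (by omega) (by simp) (by simp) ?_ ?_ <;>
        rw [h] <;>
        generalize edc (3) (-1) u (K + 1) = x0 <;>
        generalize edc (3) (-1) u (K + 2) = x1 <;>
        simp [wBg, wDg, dot, Tl, FB, Gc, mulL, addL, smulL, List.replicate]
    · refine wkillg hn hc (3) (-1) FB K 6 hF hu [4, 12] [0, 0, 0, -4, 0, 0] [6, 5, 3, 2, 1, -1]
          [-1, -2, -3, -3, 0, 0] (by norm_num) (by simp [FB]) (by simp [FB]) (by simp [FB])
          (by simp only [List.length_cons, List.length_nil]; omega)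
          (by simp only [List.length_cons, List.length_nil]; omega) (by omega) (by simp) (by simp) ?_ ?_ <;>
        rw [h] <;>
        generalize edc (3) (-1) u (K + 1) = x0 <;>
        generalize edc (3) (-1) u (K + 2) = x1 <;>
        simp [wBg, wDg, dot, Tl, FB, Gc, mulL, addL, smulL, List.replicate]
    · refine wkillg hn hc (3) (-1) FB K 4 hF hu [2, 6] [0, 3, 0, 0] [4, 2, 1, -1]
          [1, 2, 0, 0] (by norm_num) (by simp [FB]) (by simp [FB]) (by simp [FB])
          (by simp only [List.length_cons, List.length_nil]; omega)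
          (by simp only [List.length_cons, List.length_nil]; omega) (by omega) (by simp) (by simp) ?_ ?_ <;>
        rw [h] <;>
        generalize edc (3) (-1) u (K + 1) = x0 <;>
        generalize edc (3) (-1) u (K + 2) = x1 <;>
        simp [wBg, wDg, dot, Tl, FB, Gc, mulL, addL, smulL, List.replicate]
    · refine wkillg hn hc (3) (-1) FB K 4 hF hu [2, 6] [0, -3, 0, 0] [4, 2, 1, -1]
          [-1, -2, 0, 0] (by norm_num) (by simp [FB]) (by simp [FB]) (by simp [FB])
          (by simp only [List.length_cons, List.length_nil]; omega)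
          (by simp only [List.length_cons, List.length_nil]; omega) (by omega) (by simp) (by simp) ?_ ?_ <;>
        rw [h] <;>
        generalize edc (3) (-1) u (K + 1) = x0 <;>
        generalize edc (3) (-1) u (K + 2) = x1 <;>
        simp [wBg, wDg, dot, Tl, FB, Gc, mulL, addL, smulL, List.replicate]
    · refine wkillg hn hc (3) (-1) FB K 4 hF hu [1, 2] [0, 2, 0, 0] [1, 1, -1]
          [1, 1, 0, 0] (by norm_num) (by simp [FB]) (by simp [FB]) (by simp [FB])
          (by simp only [List.length_cons, List.length_nil]; omega)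
          (by simp only [List.length_cons, List.length_nil]; omega) (by omega) (by simp) (by simp) ?_ ?_ <;>
        rw [h] <;>
        generalize edc (3) (-1) u (K + 1) = x0 <;>
        generalize edc (3) (-1) u (K + 2) = x1 <;>
        simp [wBg, wDg, dot, Tl, FB, Gc, mulL, addL, smulL, List.replicate]
    · refine wkillg hn hc (3) (-1) FB K 4 hF hu [1, 2] [0, -2, 0, 0] [1, 1, -1]
          [-1, -1, 0, 0] (by norm_num) (by simp [FB]) (by simp [FB]) (by simp [FB])
          (by simp only [List.length_cons, List.length_nil]; omega)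
          (by simp only [List.length_cons, List.length_nil]; omega) (by omega) (by simp) (by simp) ?_ ?_ <;>
        rw [h] <;>
        generalize edc (3) (-1) u (K + 1) = x0 <;>
        generalize edc (3) (-1) u (K + 2) = x1 <;>
        simp [wBg, wDg, dot, Tl, FB, Gc, mulL, addL, smulL, List.replicate]

theorem spineB_1p {n : ℕ} {β : ℝ} {u : ℕ → ℤ} (hn : 1 ≤ n) (hc : Core n β u) (K : ℕ) (hK : 25 ≤ K)
    (hF : IsPre FB u) (hu : ∀ k < K, edc (3) (-1) u k = 0)
    (h0 : edc (3) (-1) u K = 1) (h10 : edc (3) (-1) u (K + 1) ≠ 0) (h11 : edc (3) (-1) u (K + 1) ≠ -1) : False := by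
  by_cases hbig : 7 ≤ 1 * edc (3) (-1) u (K + 1) ∨ 1 * edc (3) (-1) u (K + 1) ≤ -3
  · refine wkillg hn hc (3) (-1) FB K 3 hF hu [] [0, 1, 0] [-2, -1, 1] [0, 0, 0]
      (by norm_num) (by simp [FB]) (by simp [FB]) (by simp [FB])
      (by simp only [List.length_cons, List.length_nil]; omega)
      (by simp only [List.length_cons, List.length_nil]; omega) (by omega) (by simp) (by simp) ?_ ?_ <;>
    rw [h0] <;> generalize edc (3) (-1) u (K + 1) = e at hbig ⊢ <;> generalize edc (3) (-1) u (K + 2) = x2 <;>
    simp [wBg, wDg, dot, Tl, FB, Gc, mulL, addL, smulL, List.replicate] <;>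
    rcases hbig with hbig | hbig <;> nlinarith
  · have hf : edc (3) (-1) u (K + 1) = -2 ∨ edc (3) (-1) u (K + 1) = 1 ∨ edc (3) (-1) u (K + 1) = 2 ∨ edc (3) (-1) u (K + 1) = 3 ∨ edc (3) (-1) u (K + 1) = 4 ∨ edc (3) (-1) u (K + 1) = 5 ∨ edc (3) (-1) u (K + 1) = 6 := by omega
    rcases hf with h | h | h | h | h | h | h
    · refine wkillg hn hc (3) (-1) FB K 3 hF hu [2, 5] [0, -1, 0] [3, 1, -1]
          [0, -1, 0] (by norm_num) (by simp [FB]) (by simp [FB]) (by simp [FB])
          (by simp only [List.length_cons, List.length_nil]; omega)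
          (by simp only [List.length_cons, List.length_nil]; omega) (by omega) (by simp) (by simp) ?_ ?_ <;>
        rw [h0, h] <;>
        generalize edc (3) (-1) u (K + 2) = x0 <;>
        simp [wBg, wDg, dot, Tl, FB, Gc, mulL, addL, smulL, List.replicate]
    · refine wkillg hn hc (3) (-1) FB K 8 hF hu [13, 35, 3, -1] [0, 0, 0, 0, 0, 6, 8, 0] [9, 15, 15, 12, 8, 5, 1, -2]
          [2, 5, 8, 10, 11, 10, 5, 0] (by norm_num) (by simp [FB]) (by simp [FB]) (by simp [FB])
          (by simp only [List.length_cons, List.length_nil]; omega)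
          (by simp only [List.length_cons, List.length_nil]; omega) (by omega) (by simp) (by simp) ?_ ?_ <;>
        rw [h0, h] <;>
        generalize edc (3) (-1) u (K + 2) = x0 <;>
        simp [wBg, wDg, dot, Tl, FB, Gc, mulL, addL, smulL, List.replicate]
    · refine wkillg hn hc (3) (-1) FB K 5 hF hu [7, 21] [0, 0, 4, 8, 0] [8, 11, 8, 3, 2, -2]
          [2, 5, 6, 4, 0] (by norm_num) (by simp [FB]) (by simp [FB]) (by simp [FB])
          (by simp only [List.length_cons, List.length_nil]; omega)
          (by simp only [List.length_cons, List.length_nil]; omega) (by omega) (by simp) (by simp) ?_ ?_ <;>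
        rw [h0, h] <;>
        generalize edc (3) (-1) u (K + 2) = x0 <;>
        simp [wBg, wDg, dot, Tl, FB, Gc, mulL, addL, smulL, List.replicate]
    · refine wkillg hn hc (3) (-1) FB K 4 hF hu [4, 12] [0, 3, 7, 0] [6, 7, 1, -2]
          [2, 4, 3, 0] (by norm_num) (by simp [FB]) (by simp [FB]) (by simp [FB])
          (by simp only [List.length_cons, List.length_nil]; omega)
          (by simp only [List.length_cons, List.length_nil]; omega) (by omega) (by simp) (by simp) ?_ ?_ <;>
        rw [h0, h] <;>
        generalize edc (3) (-1) u (K + 2) = x0 <;>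
        simp [wBg, wDg, dot, Tl, FB, Gc, mulL, addL, smulL, List.replicate]
    · refine wkillg hn hc (3) (-1) FB K 3 hF hu [2, 5] [1, 3, 0] [3, 2, 1, -1]
          [1, 1, 0] (by norm_num) (by simp [FB]) (by simp [FB]) (by simp [FB])
          (by simp only [List.length_cons, List.length_nil]; omega)
          (by simp only [List.length_cons, List.length_nil]; omega) (by omega) (by simp) (by simp) ?_ ?_ <;>
        rw [h0, h] <;>
        generalize edc (3) (-1) u (K + 2) = x0 <;>
        simp [wBg, wDg, dot, Tl, FB, Gc, mulL, addL, smulL, List.replicate]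
    · refine wkillg hn hc (3) (-1) FB K 3 hF hu [1, 2] [0, 2, 0] [1, 1, -1]
          [1, 1, 0] (by norm_num) (by simp [FB]) (by simp [FB]) (by simp [FB])
          (by simp only [List.length_cons, List.length_nil]; omega)
          (by simp only [List.length_cons, List.length_nil]; omega) (by omega) (by simp) (by simp) ?_ ?_ <;>
        rw [h0, h] <;>
        generalize edc (3) (-1) u (K + 2) = x0 <;>
        simp [wBg, wDg, dot, Tl, FB, Gc, mulL, addL, smulL, List.replicate]
    · refine wkillg hn hc (3) (-1) FB K 3 hF hu [1, 2] [0, 2, 0] [1, 1, -1]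
          [1, 1, 0] (by norm_num) (by simp [FB]) (by simp [FB]) (by simp [FB])
          (by simp only [List.length_cons, List.length_nil]; omega)
          (by simp only [List.length_cons, List.length_nil]; omega) (by omega) (by simp) (by simp) ?_ ?_ <;>
        rw [h0, h] <;>
        generalize edc (3) (-1) u (K + 2) = x0 <;>
        simp [wBg, wDg, dot, Tl, FB, Gc, mulL, addL, smulL, List.replicate]

theorem spineB_2p_0 {n : ℕ} {β : ℝ} {u : ℕ → ℤ} (hn : 1 ≤ n) (hc : Core n β u) (K : ℕ) (hK : 25 ≤ K)
    (hF : IsPre FB u) (hu : ∀ k < K, edc (3) (-1) u k = 0)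
    (h0 : edc (3) (-1) u K = 1) (h1 : edc (3) (-1) u (K + 1) = 0)  : False := by
  by_cases hbig : 6 ≤ 1 * edc (3) (-1) u (K + 2) ∨ 1 * edc (3) (-1) u (K + 2) ≤ -4
  · refine wkillg hn hc (3) (-1) FB K 3 hF hu [] [0, 0, 1] [-2, -1, 1] [0, 0, 0]
      (by norm_num) (by simp [FB]) (by simp [FB]) (by simp [FB])
      (by simp only [List.length_cons, List.length_nil]; omega)
      (by simp only [List.length_cons, List.length_nil]; omega) (by omega) (by simp) (by simp) ?_ ?_ <;>
    rw [h0, h1] <;> generalize edc (3) (-1) u (K + 2) = e at hbig ⊢ <;>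
    simp [wBg, wDg, dot, Tl, FB, Gc, mulL, addL, smulL, List.replicate] <;>
    rcases hbig with hbig | hbig <;> nlinarith
  · have hf : edc (3) (-1) u (K + 2) = -3 ∨ edc (3) (-1) u (K + 2) = -2 ∨ edc (3) (-1) u (K + 2) = -1 ∨ edc (3) (-1) u (K + 2) = 0 ∨ edc (3) (-1) u (K + 2) = 1 ∨ edc (3) (-1) u (K + 2) = 2 ∨ edc (3) (-1) u (K + 2) = 3 ∨ edc (3) (-1) u (K + 2) = 4 ∨ edc (3) (-1) u (K + 2) = 5 := by omega
    rcases hf with h | h | h | h | h | h | h | h | h
    · refine wkillg hn hc (3) (-1) FB K 3 hF hu [1, 2] [0, 0, -1] [1, 2, -1]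
          [0, 0, -1] (by norm_num) (by simp [FB]) (by simp [FB]) (by simp [FB])
          (by simp only [List.length_cons, List.length_nil]; omega)
          (by simp only [List.length_cons, List.length_nil]; omega) (by omega) (by simp) (by simp) ?_ ?_ <;>
        rw [h0, h1, h] <;> decide +kernel
    · refine wkillg hn hc (3) (-1) FB K 3 hF hu [1, 2] [0, 0, -1] [1, -1]
          [0, -1, -1] (by norm_num) (by simp [FB]) (by simp [FB]) (by simp [FB])
          (by simp only [List.length_cons, List.length_nil]; omega)
          (by simp only [List.length_cons, List.length_nil]; omega) (by omega) (by simp) (by simp) ?_ ?_ <;>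
        rw [h0, h1, h] <;> decide +kernel
    · refine wkillg hn hc (3) (-1) FB K 3 hF hu [1, 2] [0, 0, 0] [1, -1]
          [0, -1, -1] (by norm_num) (by simp [FB]) (by simp [FB]) (by simp [FB])
          (by simp only [List.length_cons, List.length_nil]; omega)
          (by simp only [List.length_cons, List.length_nil]; omega) (by omega) (by simp) (by simp) ?_ ?_ <;>
        rw [h0, h1, h] <;> decide +kernel
    · refine wkillg hn hc (3) (-1) FB K 3 hF hu [1, 4] [0, 0, 0] [2, 2, -1]
          [0, -1, -1] (by norm_num) (by simp [FB]) (by simp [FB]) (by simp [FB])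
          (by simp only [List.length_cons, List.length_nil]; omega)
          (by simp only [List.length_cons, List.length_nil]; omega) (by omega) (by simp) (by simp) ?_ ?_ <;>
        rw [h0, h1, h] <;> decide +kernel
    · refine wkillg hn hc (3) (-1) FB K 3 hF hu [5, 15] [2, 1, 2] [10, 6, -3]
          [-3, -7, -5] (by norm_num) (by simp [FB]) (by simp [FB]) (by simp [FB])
          (by simp only [List.length_cons, List.length_nil]; omega)
          (by simp only [List.length_cons, List.length_nil]; omega) (by omega) (by simp) (by simp) ?_ ?_ <;>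
        rw [h0, h1, h] <;> decide +kernel
    · refine wkillg hn hc (3) (-1) FB K 13 hF hu [1380, 3245, 407, -71, -15, 1] [0, 0, 0, 0, 0, 0, 0, -2, -10, 46, 576, 348, 1189] [308, 778, 1133, 1230, 1238, 1174, 1056, 892, 710, 509, 321, 150, 15, -67]
          [71, 195, 355, 533, 710, 870, 994, 1066, 1066, 977, 782, 463, 156] (by norm_num) (by simp [FB]) (by simp [FB]) (by simp [FB])
          (by simp only [List.length_cons, List.length_nil]; omega)
          (by simp only [List.length_cons, List.length_nil]; omega) (by omega) (by simp) (by simp) ?_ ?_ <;>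
        rw [h0, h1, h] <;> decide +kernel
    · refine wkillg hn hc (3) (-1) FB K 9 hF hu [167, 379, 51, -10, -1] [0, 0, 0, 0, -1, 5, 68, 44, 214] [82, 127, 182, 175, 154, 118, 79, 39, 6, -17]
          [18, 47, 81, 113, 135, 142, 126, 81, 41] (by norm_num) (by simp [FB]) (by simp [FB]) (by simp [FB])
          (by simp only [List.length_cons, List.length_nil]; omega)
          (by simp only [List.length_cons, List.length_nil]; omega) (by omega) (by simp) (by simp) ?_ ?_ <;>
        rw [h0, h1, h] <;> decide +kernel
    · refine wkillg hn hc (3) (-1) FB K 5 hF hu [8, 14, 4, -1] [0, 0, 3, 2, 12] [8, 5, 9, 5, 3, 0, -1]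
          [2, 4, 5, 4, 4] (by norm_num) (by simp [FB]) (by simp [FB]) (by simp [FB])
          (by simp only [List.length_cons, List.length_nil]; omega)
          (by simp only [List.length_cons, List.length_nil]; omega) (by omega) (by simp) (by simp) ?_ ?_ <;>
        rw [h0, h1, h] <;> decide +kernel
    · refine wkillg hn hc (3) (-1) FB K 3 hF hu [1, 4] [0, 0, 3] [3, 0, -1]
          [0, 0, 1] (by norm_num) (by simp [FB]) (by simp [FB]) (by simp [FB])
          (by simp only [List.length_cons, List.length_nil]; omega)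
          (by simp only [List.length_cons, List.length_nil]; omega) (by omega) (by simp) (by simp) ?_ ?_ <;>
        rw [h0, h1, h] <;> decide +kernel

theorem spineB_2p_n1 {n : ℕ} {β : ℝ} {u : ℕ → ℤ} (hn : 1 ≤ n) (hc : Core n β u) (K : ℕ) (hK : 25 ≤ K)
    (hF : IsPre FB u) (hu : ∀ k < K, edc (3) (-1) u k = 0)
    (h0 : edc (3) (-1) u K = 1) (h1 : edc (3) (-1) u (K + 1) = -1) (h2 : edc (3) (-1) u (K + 2) ≠ 2) : False := by
  by_cases hbig : 4 ≤ 1 * edc (3) (-1) u (K + 2) ∨ 1 * edc (3) (-1) u (K + 2) ≤ -5
  · refine wkillg hn hc (3) (-1) FB K 3 hF hu [] [0, 0, 1] [-2, -1, 1] [0, 0, 0]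
      (by norm_num) (by simp [FB]) (by simp [FB]) (by simp [FB])
      (by simp only [List.length_cons, List.length_nil]; omega)
      (by simp only [List.length_cons, List.length_nil]; omega) (by omega) (by simp) (by simp) ?_ ?_ <;>
    rw [h0, h1] <;> generalize edc (3) (-1) u (K + 2) = e at hbig ⊢ <;>
    simp [wBg, wDg, dot, Tl, FB, Gc, mulL, addL, smulL, List.replicate] <;>
    rcases hbig with hbig | hbig <;> nlinarith
  · have hf : edc (3) (-1) u (K + 2) = -4 ∨ edc (3) (-1) u (K + 2) = -3 ∨ edc (3) (-1) u (K + 2) = -2 ∨ edc (3) (-1) u (K + 2) = -1 ∨ edc (3) (-1) u (K + 2) = 0 ∨ edc (3) (-1) u (K + 2) = 1 ∨ edc (3) (-1) u (K + 2) = 3 := by omega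
    rcases hf with h | h | h | h | h | h | h
    · refine wkillg hn hc (3) (-1) FB K 3 hF hu [1, 2] [0, 0, -1] [1, 2, -1]
          [0, 0, -1] (by norm_num) (by simp [FB]) (by simp [FB]) (by simp [FB])
          (by simp only [List.length_cons, List.length_nil]; omega)
          (by simp only [List.length_cons, List.length_nil]; omega) (by omega) (by simp) (by simp) ?_ ?_ <;>
        rw [h0, h1, h] <;> decide +kernel
    · refine wkillg hn hc (3) (-1) FB K 3 hF hu [1, 2] [0, 0, -1] [0, -2, 1]
          [0, 1, 1] (by norm_num) (by simp [FB]) (by simp [FB]) (by simp [FB])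
          (by simp only [List.length_cons, List.length_nil]; omega)
          (by simp only [List.length_cons, List.length_nil]; omega) (by omega) (by simp) (by simp) ?_ ?_ <;>
        rw [h0, h1, h] <;> decide +kernel
    · refine wkillg hn hc (3) (-1) FB K 3 hF hu [1, 2] [0, 0, -1] [0, -2, 1]
          [0, 1, 1] (by norm_num) (by simp [FB]) (by simp [FB]) (by simp [FB])
          (by simp only [List.length_cons, List.length_nil]; omega)
          (by simp only [List.length_cons, List.length_nil]; omega) (by omega) (by simp) (by simp) ?_ ?_ <;>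
        rw [h0, h1, h] <;> decide +kernel
    · refine wkillg hn hc (3) (-1) FB K 3 hF hu [1, 3] [0, 0, -1] [1, 2, -1]
          [0, -1, -1] (by norm_num) (by simp [FB]) (by simp [FB]) (by simp [FB])
          (by simp only [List.length_cons, List.length_nil]; omega)
          (by simp only [List.length_cons, List.length_nil]; omega) (by omega) (by simp) (by simp) ?_ ?_ <;>
        rw [h0, h1, h] <;> decide +kernel
    · refine wkillg hn hc (3) (-1) FB K 3 hF hu [2, 5] [0, -1, 0] [2, 3, 1, -1]
          [0, -1, -1] (by norm_num) (by simp [FB]) (by simp [FB]) (by simp [FB])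
          (by simp only [List.length_cons, List.length_nil]; omega)
          (by simp only [List.length_cons, List.length_nil]; omega) (by omega) (by simp) (by simp) ?_ ?_ <;>
        rw [h0, h1, h] <;> decide +kernel
    · refine wkillg hn hc (3) (-1) FB K 3 hF hu [3, 8] [1, -1, 1] [4, 6, 0, -1]
          [-1, -3, -2] (by norm_num) (by simp [FB]) (by simp [FB]) (by simp [FB])
          (by simp only [List.length_cons, List.length_nil]; omega)
          (by simp only [List.length_cons, List.length_nil]; omega) (by omega) (by simp) (by simp) ?_ ?_ <;>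
        rw [h0, h1, h] <;> decide +kernel
    · refine wkillg hn hc (3) (-1) FB K 3 hF hu [0, 1] [0, 0, 0] [1, -1]
          [0, 0, 1] (by norm_num) (by simp [FB]) (by simp [FB]) (by simp [FB])
          (by simp only [List.length_cons, List.length_nil]; omega)
          (by simp only [List.length_cons, List.length_nil]; omega) (by omega) (by simp) (by simp) ?_ ?_ <;>
        rw [h0, h1, h] <;> decide +kernel

theorem spineB_1m {n : ℕ} {β : ℝ} {u : ℕ → ℤ} (hn : 1 ≤ n) (hc : Core n β u) (K : ℕ) (hK : 25 ≤ K)
    (hF : IsPre FB u) (hu : ∀ k < K, edc (3) (-1) u k = 0)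
    (h0 : edc (3) (-1) u K = -1) (h10 : edc (3) (-1) u (K + 1) ≠ 0) (h11 : edc (3) (-1) u (K + 1) ≠ 1) : False := by
  by_cases hbig : 7 ≤ -1 * edc (3) (-1) u (K + 1) ∨ -1 * edc (3) (-1) u (K + 1) ≤ -3
  · refine wkillg hn hc (3) (-1) FB K 3 hF hu [] [0, -1, 0] [-2, -1, 1] [0, 0, 0]
      (by norm_num) (by simp [FB]) (by simp [FB]) (by simp [FB])
      (by simp only [List.length_cons, List.length_nil]; omega)
      (by simp only [List.length_cons, List.length_nil]; omega) (by omega) (by simp) (by simp) ?_ ?_ <;>
    rw [h0] <;> generalize edc (3) (-1) u (K + 1) = e at hbig ⊢ <;> generalize edc (3) (-1) u (K + 2) = x2 <;>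
    simp [wBg, wDg, dot, Tl, FB, Gc, mulL, addL, smulL, List.replicate] <;>
    rcases hbig with hbig | hbig <;> nlinarith
  · have hf : edc (3) (-1) u (K + 1) = 2 ∨ edc (3) (-1) u (K + 1) = -1 ∨ edc (3) (-1) u (K + 1) = -2 ∨ edc (3) (-1) u (K + 1) = -3 ∨ edc (3) (-1) u (K + 1) = -4 ∨ edc (3) (-1) u (K + 1) = -5 ∨ edc (3) (-1) u (K + 1) = -6 := by omega
    rcases hf with h | h | h | h | h | h | h
    · refine wkillg hn hc (3) (-1) FB K 3 hF hu [2, 5] [0, 1, 0] [3, 1, -1]
          [0, 1, 0] (by norm_num) (by simp [FB]) (by simp [FB]) (by simp [FB])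
          (by simp only [List.length_cons, List.length_nil]; omega)
          (by simp only [List.length_cons, List.length_nil]; omega) (by omega) (by simp) (by simp) ?_ ?_ <;>
        rw [h0, h] <;>
        generalize edc (3) (-1) u (K + 2) = x0 <;>
        simp [wBg, wDg, dot, Tl, FB, Gc, mulL, addL, smulL, List.replicate]
    · refine wkillg hn hc (3) (-1) FB K 8 hF hu [13, 35, 3, -1] [0, 0, 0, 0, 0, -6, -8, 0] [9, 15, 15, 12, 8, 5, 1, -2]
          [-2, -5, -8, -10, -11, -10, -5, 0] (by norm_num) (by simp [FB]) (by simp [FB]) (by simp [FB])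
          (by simp only [List.length_cons, List.length_nil]; omega)
          (by simp only [List.length_cons, List.length_nil]; omega) (by omega) (by simp) (by simp) ?_ ?_ <;>
        rw [h0, h] <;>
        generalize edc (3) (-1) u (K + 2) = x0 <;>
        simp [wBg, wDg, dot, Tl, FB, Gc, mulL, addL, smulL, List.replicate]
    · refine wkillg hn hc (3) (-1) FB K 5 hF hu [7, 21] [0, 0, -4, -8, 0] [8, 11, 8, 3, 2, -2]
          [-2, -5, -6, -4, 0] (by norm_num) (by simp [FB]) (by simp [FB]) (by simp [FB])
          (by simp only [List.length_cons, List.length_nil]; omega)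
          (by simp only [List.length_cons, List.length_nil]; omega) (by omega) (by simp) (by simp) ?_ ?_ <;>
        rw [h0, h] <;>
        generalize edc (3) (-1) u (K + 2) = x0 <;>
        simp [wBg, wDg, dot, Tl, FB, Gc, mulL, addL, smulL, List.replicate]
    · refine wkillg hn hc (3) (-1) FB K 4 hF hu [4, 12] [0, -3, -7, 0] [6, 7, 1, -2]
          [-2, -4, -3, 0] (by norm_num) (by simp [FB]) (by simp [FB]) (by simp [FB])
          (by simp only [List.length_cons, List.length_nil]; omega)
          (by simp only [List.length_cons, List.length_nil]; omega) (by omega) (by simp) (by simp) ?_ ?_ <;>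
        rw [h0, h] <;>
        generalize edc (3) (-1) u (K + 2) = x0 <;>
        simp [wBg, wDg, dot, Tl, FB, Gc, mulL, addL, smulL, List.replicate]
    · refine wkillg hn hc (3) (-1) FB K 3 hF hu [2, 5] [-1, -3, 0] [3, 2, 1, -1]
          [-1, -1, 0] (by norm_num) (by simp [FB]) (by simp [FB]) (by simp [FB])
          (by simp only [List.length_cons, List.length_nil]; omega)
          (by simp only [List.length_cons, List.length_nil]; omega) (by omega) (by simp) (by simp) ?_ ?_ <;>
        rw [h0, h] <;>
        generalize edc (3) (-1) u (K + 2) = x0 <;>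
        simp [wBg, wDg, dot, Tl, FB, Gc, mulL, addL, smulL, List.replicate]
    · refine wkillg hn hc (3) (-1) FB K 3 hF hu [1, 2] [0, -2, 0] [1, 1, -1]
          [-1, -1, 0] (by norm_num) (by simp [FB]) (by simp [FB]) (by simp [FB])
          (by simp only [List.length_cons, List.length_nil]; omega)
          (by simp only [List.length_cons, List.length_nil]; omega) (by omega) (by simp) (by simp) ?_ ?_ <;>
        rw [h0, h] <;>
        generalize edc (3) (-1) u (K + 2) = x0 <;>
        simp [wBg, wDg, dot, Tl, FB, Gc, mulL, addL, smulL, List.replicate]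
    · refine wkillg hn hc (3) (-1) FB K 3 hF hu [1, 2] [0, -2, 0] [1, 1, -1]
          [-1, -1, 0] (by norm_num) (by simp [FB]) (by simp [FB]) (by simp [FB])
          (by simp only [List.length_cons, List.length_nil]; omega)
          (by simp only [List.length_cons, List.length_nil]; omega) (by omega) (by simp) (by simp) ?_ ?_ <;>
        rw [h0, h] <;>
        generalize edc (3) (-1) u (K + 2) = x0 <;>
        simp [wBg, wDg, dot, Tl, FB, Gc, mulL, addL, smulL, List.replicate]

theorem spineB_2m_0 {n : ℕ} {β : ℝ} {u : ℕ → ℤ} (hn : 1 ≤ n) (hc : Core n β u) (K : ℕ) (hK : 25 ≤ K)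
    (hF : IsPre FB u) (hu : ∀ k < K, edc (3) (-1) u k = 0)
    (h0 : edc (3) (-1) u K = -1) (h1 : edc (3) (-1) u (K + 1) = 0)  : False := by
  by_cases hbig : 6 ≤ -1 * edc (3) (-1) u (K + 2) ∨ -1 * edc (3) (-1) u (K + 2) ≤ -4
  · refine wkillg hn hc (3) (-1) FB K 3 hF hu [] [0, 0, -1] [-2, -1, 1] [0, 0, 0]
      (by norm_num) (by simp [FB]) (by simp [FB]) (by simp [FB])
      (by simp only [List.length_cons, List.length_nil]; omega)
      (by simp only [List.length_cons, List.length_nil]; omega) (by omega) (by simp) (by simp) ?_ ?_ <;>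
    rw [h0, h1] <;> generalize edc (3) (-1) u (K + 2) = e at hbig ⊢ <;>
    simp [wBg, wDg, dot, Tl, FB, Gc, mulL, addL, smulL, List.replicate] <;>
    rcases hbig with hbig | hbig <;> nlinarith
  · have hf : edc (3) (-1) u (K + 2) = 3 ∨ edc (3) (-1) u (K + 2) = 2 ∨ edc (3) (-1) u (K + 2) = 1 ∨ edc (3) (-1) u (K + 2) = 0 ∨ edc (3) (-1) u (K + 2) = -1 ∨ edc (3) (-1) u (K + 2) = -2 ∨ edc (3) (-1) u (K + 2) = -3 ∨ edc (3) (-1) u (K + 2) = -4 ∨ edc (3) (-1) u (K + 2) = -5 := by omega
    rcases hf with h | h | h | h | h | h | h | h | h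
    · refine wkillg hn hc (3) (-1) FB K 3 hF hu [1, 2] [0, 0, 1] [1, 2, -1]
          [0, 0, 1] (by norm_num) (by simp [FB]) (by simp [FB]) (by simp [FB])
          (by simp only [List.length_cons, List.length_nil]; omega)
          (by simp only [List.length_cons, List.length_nil]; omega) (by omega) (by simp) (by simp) ?_ ?_ <;>
        rw [h0, h1, h] <;> decide +kernel
    · refine wkillg hn hc (3) (-1) FB K 3 hF hu [1, 2] [0, 0, 1] [1, -1]
          [0, 1, 1] (by norm_num) (by simp [FB]) (by simp [FB]) (by simp [FB])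
          (by simp only [List.length_cons, List.length_nil]; omega)
          (by simp only [List.length_cons, List.length_nil]; omega) (by omega) (by simp) (by simp) ?_ ?_ <;>
        rw [h0, h1, h] <;> decide +kernel
    · refine wkillg hn hc (3) (-1) FB K 3 hF hu [1, 2] [0, 0, 0] [1, -1]
          [0, 1, 1] (by norm_num) (by simp [FB]) (by simp [FB]) (by simp [FB])
          (by simp only [List.length_cons, List.length_nil]; omega)
          (by simp only [List.length_cons, List.length_nil]; omega) (by omega) (by simp) (by simp) ?_ ?_ <;>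
        rw [h0, h1, h] <;> decide +kernel
    · refine wkillg hn hc (3) (-1) FB K 3 hF hu [1, 4] [0, 0, 0] [2, 2, -1]
          [0, 1, 1] (by norm_num) (by simp [FB]) (by simp [FB]) (by simp [FB])
          (by simp only [List.length_cons, List.length_nil]; omega)
          (by simp only [List.length_cons, List.length_nil]; omega) (by omega) (by simp) (by simp) ?_ ?_ <;>
        rw [h0, h1, h] <;> decide +kernel
    · refine wkillg hn hc (3) (-1) FB K 3 hF hu [5, 15] [-2, -1, -2] [10, 6, -3]
          [3, 7, 5] (by norm_num) (by simp [FB]) (by simp [FB]) (by simp [FB])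
          (by simp only [List.length_cons, List.length_nil]; omega)
          (by simp only [List.length_cons, List.length_nil]; omega) (by omega) (by simp) (by simp) ?_ ?_ <;>
        rw [h0, h1, h] <;> decide +kernel
    · refine wkillg hn hc (3) (-1) FB K 13 hF hu [1380, 3245, 407, -71, -15, 1] [0, 0, 0, 0, 0, 0, 0, 2, 10, -46, -576, -348, -1189] [308, 778, 1133, 1230, 1238, 1174, 1056, 892, 710, 509, 321, 150, 15, -67]
          [-71, -195, -355, -533, -710, -870, -994, -1066, -1066, -977, -782, -463, -156] (by norm_num) (by simp [FB]) (by simp [FB]) (by simp [FB])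
          (by simp only [List.length_cons, List.length_nil]; omega)
          (by simp only [List.length_cons, List.length_nil]; omega) (by omega) (by simp) (by simp) ?_ ?_ <;>
        rw [h0, h1, h] <;> decide +kernel
    · refine wkillg hn hc (3) (-1) FB K 9 hF hu [167, 379, 51, -10, -1] [0, 0, 0, 0, 1, -5, -68, -44, -214] [82, 127, 182, 175, 154, 118, 79, 39, 6, -17]
          [-18, -47, -81, -113, -135, -142, -126, -81, -41] (by norm_num) (by simp [FB]) (by simp [FB]) (by simp [FB])
          (by simp only [List.length_cons, List.length_nil]; omega)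
          (by simp only [List.length_cons, List.length_nil]; omega) (by omega) (by simp) (by simp) ?_ ?_ <;>
        rw [h0, h1, h] <;> decide +kernel
    · refine wkillg hn hc (3) (-1) FB K 5 hF hu [8, 14, 4, -1] [0, 0, -3, -2, -12] [8, 5, 9, 5, 3, 0, -1]
          [-2, -4, -5, -4, -4] (by norm_num) (by simp [FB]) (by simp [FB]) (by simp [FB])
          (by simp only [List.length_cons, List.length_nil]; omega)
          (by simp only [List.length_cons, List.length_nil]; omega) (by omega) (by simp) (by simp) ?_ ?_ <;>
        rw [h0, h1, h] <;> decide +kernel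
    · refine wkillg hn hc (3) (-1) FB K 3 hF hu [1, 4] [0, 0, -3] [3, 0, -1]
          [0, 0, -1] (by norm_num) (by simp [FB]) (by simp [FB]) (by simp [FB])
          (by simp only [List.length_cons, List.length_nil]; omega)
          (by simp only [List.length_cons, List.length_nil]; omega) (by omega) (by simp) (by simp) ?_ ?_ <;>
        rw [h0, h1, h] <;> decide +kernel

theorem spineB_2m_n1 {n : ℕ} {β : ℝ} {u : ℕ → ℤ} (hn : 1 ≤ n) (hc : Core n β u) (K : ℕ) (hK : 25 ≤ K)
    (hF : IsPre FB u) (hu : ∀ k < K, edc (3) (-1) u k = 0)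
    (h0 : edc (3) (-1) u K = -1) (h1 : edc (3) (-1) u (K + 1) = 1) (h2 : edc (3) (-1) u (K + 2) ≠ -2) : False := by
  by_cases hbig : 4 ≤ -1 * edc (3) (-1) u (K + 2) ∨ -1 * edc (3) (-1) u (K + 2) ≤ -5
  · refine wkillg hn hc (3) (-1) FB K 3 hF hu [] [0, 0, -1] [-2, -1, 1] [0, 0, 0]
      (by norm_num) (by simp [FB]) (by simp [FB]) (by simp [FB])
      (by simp only [List.length_cons, List.length_nil]; omega)
      (by simp only [List.length_cons, List.length_nil]; omega) (by omega) (by simp) (by simp) ?_ ?_ <;>
    rw [h0, h1] <;> generalize edc (3) (-1) u (K + 2) = e at hbig ⊢ <;>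
    simp [wBg, wDg, dot, Tl, FB, Gc, mulL, addL, smulL, List.replicate] <;>
    rcases hbig with hbig | hbig <;> nlinarith
  · have hf : edc (3) (-1) u (K + 2) = 4 ∨ edc (3) (-1) u (K + 2) = 3 ∨ edc (3) (-1) u (K + 2) = 2 ∨ edc (3) (-1) u (K + 2) = 1 ∨ edc (3) (-1) u (K + 2) = 0 ∨ edc (3) (-1) u (K + 2) = -1 ∨ edc (3) (-1) u (K + 2) = -3 := by omega
    rcases hf with h | h | h | h | h | h | h
    · refine wkillg hn hc (3) (-1) FB K 3 hF hu [1, 2] [0, 0, 1] [1, 2, -1]
          [0, 0, 1] (by norm_num) (by simp [FB]) (by simp [FB]) (by simp [FB])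
          (by simp only [List.length_cons, List.length_nil]; omega)
          (by simp only [List.length_cons, List.length_nil]; omega) (by omega) (by simp) (by simp) ?_ ?_ <;>
        rw [h0, h1, h] <;> decide +kernel
    · refine wkillg hn hc (3) (-1) FB K 3 hF hu [1, 2] [0, 0, 1] [0, -2, 1]
          [0, -1, -1] (by norm_num) (by simp [FB]) (by simp [FB]) (by simp [FB])
          (by simp only [List.length_cons, List.length_nil]; omega)
          (by simp only [List.length_cons, List.length_nil]; omega) (by omega) (by simp) (by simp) ?_ ?_ <;>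
        rw [h0, h1, h] <;> decide +kernel
    · refine wkillg hn hc (3) (-1) FB K 3 hF hu [1, 2] [0, 0, 1] [0, -2, 1]
          [0, -1, -1] (by norm_num) (by simp [FB]) (by simp [FB]) (by simp [FB])
          (by simp only [List.length_cons, List.length_nil]; omega)
          (by simp only [List.length_cons, List.length_nil]; omega) (by omega) (by simp) (by simp) ?_ ?_ <;>
        rw [h0, h1, h] <;> decide +kernel
    · refine wkillg hn hc (3) (-1) FB K 3 hF hu [1, 3] [0, 0, 1] [1, 2, -1]
          [0, 1, 1] (by norm_num) (by simp [FB]) (by simp [FB]) (by simp [FB])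
          (by simp only [List.length_cons, List.length_nil]; omega)
          (by simp only [List.length_cons, List.length_nil]; omega) (by omega) (by simp) (by simp) ?_ ?_ <;>
        rw [h0, h1, h] <;> decide +kernel
    · refine wkillg hn hc (3) (-1) FB K 3 hF hu [2, 5] [0, 1, 0] [2, 3, 1, -1]
          [0, 1, 1] (by norm_num) (by simp [FB]) (by simp [FB]) (by simp [FB])
          (by simp only [List.length_cons, List.length_nil]; omega)
          (by simp only [List.length_cons, List.length_nil]; omega) (by omega) (by simp) (by simp) ?_ ?_ <;>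
        rw [h0, h1, h] <;> decide +kernel
    · refine wkillg hn hc (3) (-1) FB K 3 hF hu [3, 8] [-1, 1, -1] [4, 6, 0, -1]
          [1, 3, 2] (by norm_num) (by simp [FB]) (by simp [FB]) (by simp [FB])
          (by simp only [List.length_cons, List.length_nil]; omega)
          (by simp only [List.length_cons, List.length_nil]; omega) (by omega) (by simp) (by simp) ?_ ?_ <;>
        rw [h0, h1, h] <;> decide +kernel
    · refine wkillg hn hc (3) (-1) FB K 3 hF hu [0, 1] [0, 0, 0] [1, -1]
          [0, 0, -1] (by norm_num) (by simp [FB]) (by simp [FB]) (by simp [FB])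
          (by simp only [List.length_cons, List.length_nil]; omega)
          (by simp only [List.length_cons, List.length_nil]; omega) (by omega) (by simp) (by simp) ?_ ?_ <;>
        rw [h0, h1, h] <;> decide +kernel

end Pool.Agent.MP1f45fc.SalemC
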