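import Mathlib
import Pool.Agent.Lib.MP_1f45fc_nt.SalemC.SpineG
import Pool.Agent.Lib.MP_1f45fc_nt.SalemC.SpineA
import Pool.Agent.Lib.MP_1f45fc_nt.SalemC.SpineB

set_option autoImplicit false

open Polynomial

namespace Pool.Agent.MP1f45fc.SalemC

/-- Rigidity for an explicit vector with `T p0 = σ rev p0`, test vector `1`, `u 0 = 2`. -/
theorem rigid_gen {n : ℕ} {β : ℝ} {u : ℕ → ℤ} (hn : 1 ≤ n) (hc : Core n β u) (h2 : u 0 = 2)
    (p0 : List ℤ) (σ : ℤ) (hσ : σ = 1 ∨ σ = -1)
    (hT : T u (toP p0) = C (σ : ℝ) * toP p0.reverse)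
    (hrev : p0.reverse.getD 0 0 = 1) (hp0 : p0.getD 0 0 = 2 * σ) :
    β ^ n * evl p0 β + σ * evl p0.reverse β = 0 := by
  have hS : 0 < (∑ i ∈ Finset.range n, (β⁻¹) ^ (2 * i)) := by
    have hb : 0 < β⁻¹ := inv_pos.mpr (by linarith [hc.one_lt])
    exact Finset.sum_pos (fun i _ => by positivity) ⟨0, by simp; omega⟩
  have hσ2 : (σ : ℝ) * σ = 1 := by rcases hσ with h | h <;> rw [h] <;> norm_num
  have hT1 : T u (C 1) = C 2 := by rw [T_C, h2]; norm_num
  have hrig := rigid_T hS hc.hyp (toP p0) (C 1) (by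
      intro m
      rw [hT, mul_left_comm, ip_C_mul_left, ip_C_mul_right, auto_reverse p0 m]
      linear_combination (ip (X ^ m * toP p0) (toP p0)) * hσ2) (by
      rw [hT, coeff_C_mul, coeff_toP, hrev]
      rcases hσ with h | h <;> rw [h] <;> norm_num) (by
      unfold B
      rw [hT1, ip_C_left, ip_C_left]; simp; norm_num) (by
      unfold B
      rw [hT1, hT, ip_C_left, ip_C_left, coeff_C_mul, coeff_toP, coeff_toP, hrev, hp0]
      push_cast; ring)
  have hroot := hc.rigid (toP p0) hrig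
  rw [hT, eval_mul, eval_C, eval_toP, eval_toP] at hroot
  exact hroot

theorem evl_replicate (n : ℕ) (l : List ℤ) (x : ℝ) :
    evl (List.replicate n 0 ++ l) x = x ^ n * evl l x := by
  rw [← eval_toP, toP_replicate, eval_mul, eval_pow, eval_X, eval_toP]

/-! ### Spine A -/

theorem spineA_R {β : ℝ} {u : ℕ → ℤ} (hc : Core 2 β u) (K : ℕ) (hK : 15 ≤ K)
    (hF : IsPre FA u) (hu : ∀ k < K, edc 2 1 u k = 0) (s : ℤ) (hs : s = 1 ∨ s = -1)
    (h0 : edc 2 1 u K = s) (h1 : edc 2 1 u (K + 1) = 2 * s) (h2 : edc 2 1 u (K + 2) = 3 * s) :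
    False := by
  obtain ⟨N, rfl⟩ : ∃ N, K = N + 8 := ⟨K - 8, by omega⟩
  have hu0 : u 0 = 2 := by
    have := hF
    simp only [FA, IsPre] at this
    exact this.1
  set p0 : List ℤ := (-2 * s) :: (List.replicate (N + 9) 0 ++ [-1, -2, 1]) with hp0
  have hr : p0.reverse = 1 :: -2 :: -1 :: (List.replicate (N + 9) 0 ++ [-2 * s]) := by
    rw [hp0]
    simp [List.reverse_cons, List.reverse_append]
  have e0 : toP p0 = toP [-2 * s] + X ^ (N + 3) * toP (mulL (Gc 2 1) [0, 0, 0, 0, 0, 0, 0, 1]) := by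
    rw [hp0, toP, toP_replicate]
    simp only [toP, mulL, Gc, addL, smulL]
    norm_num
    ring
  have e1 : T u (toP p0) = C ((-s : ℤ) : ℝ) * toP p0.reverse := by
    rw [hr, e0, T_add, T_top 2 1 u (N + 8) N hu [0, 0, 0, 0, 0, 0, 0, 1] (by simp) (by simp),
      h0, h1, h2, T_toP u [-2 * s], T_toP u (mulL (Gc 2 1) [0, 0, 0, 0, 0, 0, 0, 1]),
      ← Tl_eq_Tf FA u hF [-2 * s] (by simp [FA]),
      ← Tl_eq_Tf FA u hF _ (by simp [FA, mulL, Gc, addL, smulL])]
    simp only [toP, toP_replicate]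
    have c2 : (C (2 : ℝ) : ℝ[X]) = 2 := map_ofNat C 2
    have c3 : (C (3 : ℝ) : ℝ[X]) = 3 := map_ofNat C 3
    have c4 : (C (4 : ℝ) : ℝ[X]) = 4 := map_ofNat C 4
    rcases hs with hs | hs <;> subst hs <;>
      simp [Tl, dot, wDg, FA, mulL, Gc, addL, smulL, toP, List.replicate, c2, c3, c4] <;> ring
  have hroot := rigid_gen (by norm_num) hc hu0 p0 (-s) (by omega) e1 (by rw [hr]; simp)
    (by rw [hp0]; simp)
  rw [hr, hp0] at hroot
  simp only [evl, evl_replicate] at hroot
  push_cast at hroot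
  have hβ := hc.one_lt
  have h3 : (β ^ (N + 12) - s) * (β - 1) ^ 2 = 0 := by
    have hs2 : (s : ℝ) * s = 1 := by rcases hs with hs | hs <;> rw [hs] <;> norm_num
    linear_combination hroot - 2 * β ^ (N + 12) * hs2
  have hp : 1 < β ^ (N + 12) := one_lt_pow₀ hβ (by omega)
  have h4 : 0 < β ^ (N + 12) - s := by
    rcases hs with hs | hs <;> rw [hs] <;> push_cast <;> linarith
  have h5 : 0 < (β - 1) ^ 2 := pow_pos (by linarith) 2
  exact absurd h3 (mul_pos h4 h5).ne'

theorem spineA {β : ℝ} {u : ℕ → ℤ} (hc : Core 2 β u) (hF : IsPre FA u) : False := by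
  by_cases hall : ∀ k, edc 2 1 u k = 0
  · have hβ := hc.one_lt
    have hT : ∀ j : ℕ, T u (X ^ j * toP (Gc 2 1)) = X ^ j * T u (toP (Gc 2 1)) := by
      intro j
      induction j with
      | zero => simp
      | succ j ih =>
        have : toP (Gc 2 1) = toP (mulL (Gc 2 1) [1]) := by simp [toP, mulL, Gc, addL, smulL]
        have hd : dl u (X ^ j * toP (Gc 2 1)) = 0 := by
          rw [this, dl_Gc, dotf_zero _ _ (fun k _ => hall _)]; simp
        rw [pow_succ', mul_assoc, T_X_mul, ih, hd]; simp; ring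
    have hroot := hc.rigid (toP (Gc 2 1)) hT
    rw [T_toP, ← Tl_eq_Tf FA u hF (Gc 2 1) (by simp [FA, Gc]), eval_toP, eval_toP] at hroot
    simp [Tl, dot, FA, Gc, evl] at hroot
    have h3 : β ^ 2 * (β - 1) ^ 2 = 0 := by linear_combination hroot
    have h5 : 0 < β ^ 2 * (β - 1) ^ 2 := mul_pos (by positivity) (pow_pos (by linarith) 2)
    exact absurd h3 h5.ne'
  · push Not at hall
    classical
    have hfind := Nat.find_spec hall
    have hmin : ∀ k < Nat.find hall, edc 2 1 u k = 0 := fun k hk => by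
      by_contra hcon
      exact Nat.find_min hall hk hcon
    generalize Nat.find hall = K at hfind hmin
    have hge : 15 ≤ K := by
      by_contra hlt
      push Not at hlt
      apply hfind
      rw [isPre_iff] at hF
      unfold edc
      have l : FA.length = 17 := by simp [FA]
      rw [l] at hF
      rw [hF (K + 2) (by omega), hF (K + 1) (by omega), hF K (by omega)]
      interval_cases K <;> simp [FA]
    by_cases h0 : edc 2 1 u K ≤ -2 ∨ 2 ≤ edc 2 1 u K
    · exact spineA_0 (by norm_num) hc K hge hF hmin h0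
    have h01 : edc 2 1 u K = 1 ∨ edc 2 1 u K = -1 := by omega
    rcases h01 with h0 | h0
    · by_cases h1 : edc 2 1 u (K + 1) = 2
      · by_cases h2 : edc 2 1 u (K + 2) = 3
        · exact spineA_R hc K hge hF hmin 1 (Or.inl rfl) h0 h1 h2
        · exact spineA_2p_2 (by norm_num) hc K hge hF hmin h0 h1 h2
      · exact spineA_1p (by norm_num) hc K hge hF hmin h0 h1
    · by_cases h1 : edc 2 1 u (K + 1) = -2
      · by_cases h2 : edc 2 1 u (K + 2) = -3
        · exact spineA_R hc K hge hF hmin (-1) (Or.inr rfl) h0 h1 h2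
        · exact spineA_2m_2 (by norm_num) hc K hge hF hmin h0 h1 h2
      · exact spineA_1m (by norm_num) hc K hge hF hmin h0 h1

/-! ### Spine B -/

theorem spineB_R {β : ℝ} {u : ℕ → ℤ} (hc : Core 2 β u) (K : ℕ) (hK : 25 ≤ K)
    (hF : IsPre FB u) (hu : ∀ k < K, edc 3 (-1) u k = 0) (s : ℤ) (hs : s = 1 ∨ s = -1)
    (h0 : edc 3 (-1) u K = s) (h1 : edc 3 (-1) u (K + 1) = -s)
    (h2 : edc 3 (-1) u (K + 2) = 2 * s) : False := by
  obtain ⟨N, rfl⟩ : ∃ N, K = N + 8 := ⟨K - 8, by omega⟩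
  have hu0 : u 0 = 2 := by
    have := hF
    simp only [FB, IsPre] at this
    exact this.1
  set p0 : List ℤ := (2 * s) :: (-s) :: (List.replicate (N + 8) 0 ++ [1, -3, 1]) with hp0
  have hr : p0.reverse = 1 :: -3 :: 1 :: (List.replicate (N + 8) 0 ++ [-s, 2 * s]) := by
    rw [hp0]
    simp [List.reverse_cons, List.reverse_append]
  have e0 : toP p0 = toP [2 * s, -s] +
      X ^ (N + 3) * toP (mulL (Gc 3 (-1)) [0, 0, 0, 0, 0, 0, 0, 1]) := by
    rw [hp0, toP, toP, toP_replicate]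
    simp only [toP, mulL, Gc, addL, smulL]
    norm_num
    ring
  have e1 : T u (toP p0) = C (s : ℝ) * toP p0.reverse := by
    rw [hr, e0, T_add, T_top 3 (-1) u (N + 8) N hu [0, 0, 0, 0, 0, 0, 0, 1] (by simp) (by simp),
      h0, h1, h2, T_toP u [2 * s, -s], T_toP u (mulL (Gc 3 (-1)) [0, 0, 0, 0, 0, 0, 0, 1]),
      ← Tl_eq_Tf FB u hF [2 * s, -s] (by simp [FB]),
      ← Tl_eq_Tf FB u hF _ (by simp [FB, mulL, Gc, addL, smulL])]
    simp only [toP, toP_replicate]
    have c2 : (C (2 : ℝ) : ℝ[X]) = 2 := map_ofNat C 2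
    have c3 : (C (3 : ℝ) : ℝ[X]) = 3 := map_ofNat C 3
    have c4 : (C (4 : ℝ) : ℝ[X]) = 4 := map_ofNat C 4
    rcases hs with hs | hs <;> subst hs <;>
      simp [Tl, dot, wDg, FB, mulL, Gc, addL, smulL, toP, List.replicate, c2, c3, c4] <;> ring
  have hroot := rigid_gen (by norm_num) hc hu0 p0 s hs e1 (by rw [hr]; simp)
    (by rw [hp0]; simp)
  rw [hr, hp0] at hroot
  simp only [evl, evl_replicate] at hroot
  push_cast at hroot
  have hβ := hc.one_lt
  have h3 : (β ^ (N + 11) - s) * (β - 1) ^ 3 = 0 := by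
    have hs2 : (s : ℝ) * s = 1 := by rcases hs with hs | hs <;> rw [hs] <;> norm_num
    linear_combination hroot + (β ^ (N + 11) - 2 * β ^ (N + 12)) * hs2
  have hp : 1 < β ^ (N + 11) := one_lt_pow₀ hβ (by omega)
  have h4 : 0 < β ^ (N + 11) - s := by
    rcases hs with hs | hs <;> rw [hs] <;> push_cast <;> linarith
  have h5 : 0 < (β - 1) ^ 3 := pow_pos (by linarith) 3
  exact absurd h3 (mul_pos h4 h5).ne'

theorem spineB {β : ℝ} {u : ℕ → ℤ} (hc : Core 2 β u) (hF : IsPre FB u) : False := by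
  by_cases hall : ∀ k, edc 3 (-1) u k = 0
  · have hβ := hc.one_lt
    have hT : ∀ j : ℕ, T u (X ^ j * toP (Gc 3 (-1))) = X ^ j * T u (toP (Gc 3 (-1))) := by
      intro j
      induction j with
      | zero => simp
      | succ j ih =>
        have : toP (Gc 3 (-1)) = toP (mulL (Gc 3 (-1)) [1]) := by
          simp [toP, mulL, Gc, addL, smulL]
        have hd : dl u (X ^ j * toP (Gc 3 (-1))) = 0 := by
          rw [this, dl_Gc, dotf_zero _ _ (fun k _ => hall _)]; simp
        rw [pow_succ', mul_assoc, T_X_mul, ih, hd]; simp; ring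
    have hroot := hc.rigid (toP (Gc 3 (-1))) hT
    rw [T_toP, ← Tl_eq_Tf FB u hF (Gc 3 (-1)) (by simp [FB, Gc]), eval_toP, eval_toP] at hroot
    simp [Tl, dot, FB, Gc, evl] at hroot
    have h3 : β * (β - 1) ^ 3 = 0 := by linear_combination hroot
    have h5 : 0 < β * (β - 1) ^ 3 := mul_pos (by positivity) (pow_pos (by linarith) 3)
    exact absurd h3 h5.ne'
  · push Not at hall
    classical
    have hfind := Nat.find_spec hall
    have hmin : ∀ k < Nat.find hall, edc 3 (-1) u k = 0 := fun k hk => by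
      by_contra hcon
      exact Nat.find_min hall hk hcon
    generalize Nat.find hall = K at hfind hmin
    have hge : 25 ≤ K := by
      by_contra hlt
      push Not at hlt
      apply hfind
      rw [isPre_iff] at hF
      unfold edc
      have l : FB.length = 27 := by simp [FB]
      rw [l] at hF
      rw [hF (K + 2) (by omega), hF (K + 1) (by omega), hF K (by omega)]
      interval_cases K <;> simp [FB]
    by_cases h0 : edc 3 (-1) u K ≤ -2 ∨ 2 ≤ edc 3 (-1) u K
    · exact spineB_0 (by norm_num) hc K hge hF hmin h0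
    have h01 : edc 3 (-1) u K = 1 ∨ edc 3 (-1) u K = -1 := by omega
    rcases h01 with h0 | h0
    · by_cases h1 : edc 3 (-1) u (K + 1) = 0
      · exact spineB_2p_0 (by norm_num) hc K hge hF hmin h0 h1
      by_cases h1' : edc 3 (-1) u (K + 1) = -1
      · by_cases h2 : edc 3 (-1) u (K + 2) = 2
        · exact spineB_R hc K hge hF hmin 1 (Or.inl rfl) h0 h1' h2
        · exact spineB_2p_n1 (by norm_num) hc K hge hF hmin h0 h1' h2
      · exact spineB_1p (by norm_num) hc K hge hF hmin h0 h1 h1'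
    · by_cases h1 : edc 3 (-1) u (K + 1) = 0
      · exact spineB_2m_0 (by norm_num) hc K hge hF hmin h0 h1
      by_cases h1' : edc 3 (-1) u (K + 1) = 1
      · by_cases h2 : edc 3 (-1) u (K + 2) = -2
        · exact spineB_R hc K hge hF hmin (-1) (Or.inr rfl) h0 h1' h2
        · exact spineB_2m_n1 (by norm_num) hc K hge hF hmin h0 h1' h2
      · exact spineB_1m (by norm_num) hc K hge hF hmin h0 h1 h1'

end Pool.Agent.MP1f45fc.SalemC
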