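import Pool.Agent.Lib.MP_1f45fc_nt.SalemC.Sps

set_option autoImplicit false

namespace Pool.Agent.MP1f45fc.SalemC

def goals2a0 : List Goal := [⟨[], 17, 20, 20⟩]

def goals2b0 : List Goal := [⟨[2, 4, 10, 24, 57, 137, 329, 790, 1896], 17, 20, 20⟩,
  ⟨[2, 4, 10, 24, 58], 17, 20, 20⟩,
  ⟨[2, 4, 10, 24, 59], 17, 20, 20⟩,
  ⟨[2, 4, 10, 25], 17, 20, 20⟩,
  ⟨[2, 4, 10, 26], 17, 20, 20⟩,
  ⟨[2, 4, 11], 17, 20, 20⟩,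
  ⟨[2, 5], 17, 20, 20⟩,
  ⟨[2, 6], 17, 20, 20⟩,
  ⟨[2, 7], 17, 20, 20⟩,
  ⟨[2, 8], 17, 20, 20⟩,
  ⟨[3], 17, 20, 20⟩]

theorem tree2x0_ok : runTo 2 false sps2 [
  .branch (-3) 7 3278 [-1] 5000 [1],
  .dead 2278 [1],
  .dead 1278 [1],
  .branch (0) 1 1514 [-1, -1] 1042 [-1, 1],
  .zero,
  .z0,
  .spine,
  .branch (3) 6 1131 [2, -1] 12000 [0, 1],
  .rigid [-2, 1] [0, 1],
  .branch (9) 3 3099 [4, 3, -2] 5000 [0, -2, 1],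
  .branch (20) 3 1229 [2, 2, 1, -1] 3000 [1, -1, -2, 1],
  .rigid [-2, -2, -1, 1] [0, 0, 0, 1],
  .branch (48) 2 1428 [4, 2, 2, 3, -2] 5000 [2, 0, -4, -3, 2],
  .branch (110) 2 9691 [7, 5, 2, 8, 7, -5] 223 [2, -1, -1, -1, -4, 2],
  .rigid [-2, -2, -1, -2, -1, 1] [0, 0, 0, 0, 0, 1],
  .branch (255) 2 14000 [6, 0, 2, 3, 1, 8, -4] 15000 [9, 3, -8, -2, -16, -13, 9],
  .rigid [-2, 0, -1, -1, 0, -2, 1] [0, 0, 0, 0, 0, 0, 1],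
  .branch (590) 2 1096 [2, 0, -1, 1, -1, 1, 2, -1] 1821 [3, 1, 0, -2, -5, -5, -6, 4],
  .rigid [-2, 0, 1, -1, 1, -1, -2, 1] [0, 0, 0, 0, 0, 0, 0, 1],
  .branch (1363) 1 8000 [97, 3, -25, -20, -34, 4, 41, 128, -62] 66000 [9, 14, 3, -2, -40, -35, -34, -17, 18],
  .rigid [-2, 0, 1, 1, 1, 0, -1, -2, 1] [0, 0, 0, 0, 0, 0, 0, 0, 1],
  .branch (113) 2 1105 [2, 0, -1, 1, 2, -1] 11000 [2, 1, -5, -8, -5, 4],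
  .rigid [-2, 0, 1, -1, -2, 1] [0, 0, 0, 0, 0, 1],
  .branch (265) 2 6807 [20, 6, -12, -4, 18, 19, -11] 19846 [12, -7, -22, -25, -33, -40, 26],
  .branch (616) 2 76000 [30, 20, -15, -24, 9, 40, 32, -21] 82342 [28, -14, -38, -15, -1, -34, -64, 35],
  .rigid [-2, -2, 1, 2, -1, -3, -1, 1] [0, 0, 0, 0, 0, 0, 0, 1],
  .branch (1435) 1 58000 [43, -15, -18, 2, 3, -8, 6, 64, -28] 5000 [0, 0, -3, -2, 1, 0, -3, -1, 1],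
  .rigid [-2, 2, 1, -2, -1, 2, 1, -3, 1] [0, 0, 0, 0, 0, 0, 0, 0, 1],
  .branch (619) 2 6727 [44, -6, -22, -18, -2, 19, 64, -30] 81000 [2, 1, -13, -13, -13, -24, -16, 13],
  .rigid [-2, 0, 1, 1, 0, -1, -2, 1] [0, 0, 0, 0, 0, 0, 0, 1],
  .split,
  .split,
  .split,
  .dead 347133 [67, 31, 95, 114, 117, 128, 33, -53],
  .dead 294601 [53, 19, 86, 107, 113, 128, 35, -53],
  .dead 296706 [53, 19, 86, 107, 113, 128, 35, -53],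
  .dead 267000 [20, -9, 60, 86, 100, 128, 43, -54],
  .branch (52) 1 2114 [6, -3, -2, 8, -3] 5000 [0, 0, -3, -1, 1],
  .rigid [-2, 2, 1, -3, 1] [0, 0, 0, 0, 1],
  .branch (23) 4 3104 [2, 1, 4, -2] 3014 [0, -1, -2, 1],
  .rigid [-2, 0, -2, 1] [0, 0, 0, 1],
  .branch (57) 3 369 [2, 1, 1, 4, -2] 5000 [0, -2, 0, -2, 1],
  .branch (136) 2 2325 [1, 2, 2, 3, 3, -2] 5000 [1, -3, 0, 1, -5, 2],
  .rigid [-2, -2, -2, -2, -1, 1] [0, 0, 0, 0, 0, 1],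
  .branch (329) 1 1094 [2, -2, 1, 1, -1, 5, -2] 4000 [1, 0, -2, 1, -2, -4, 2],
  .branch (789) 2 5000 [1, -1, -2, 3, -2, 0, 5, -2] 4000 [1, -1, 2, 1, -3, 0, -2, 1],
  .rigid [-2, 0, 0, -2, 1, -1, -2, 1] [0, 0, 0, 0, 0, 0, 0, 1],
  .branch (1896) 1 2105 [3, -2, 1, -5, -3, -1, -4, 7, -2] 2000 [5, 3, 3, 6, -7, -4, -3, -5, 3]] goals2a0 = some goals2b0 := by
  decide +kernel

def goals2a1 : List Goal := [⟨[2, 4, 10, 24, 57, 137, 329, 790, 1896], 17, 20, 20⟩,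
  ⟨[2, 4, 10, 24, 58], 17, 20, 20⟩]

def goals2b1 : List Goal := [⟨[2, 4, 10, 24, 58, 140, 338, 816, 1970, 4756, 11482, 27720, 66922, 161564, 390049, 941660], 17, 20, 20⟩,
  ⟨[2, 4, 10, 24, 58, 140, 338, 816, 1970, 4756, 11482, 27720, 66922, 161564, 390050], 17, 20, 20⟩,
  ⟨[2, 4, 10, 24, 58, 140, 338, 816, 1970, 4756, 11482, 27720, 66922, 161564, 390051], 17, 20, 20⟩,
  ⟨[2, 4, 10, 24, 58, 140, 338, 816, 1970, 4756, 11482, 27720, 66922, 161565], 17, 20, 20⟩,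
  ⟨[2, 4, 10, 24, 58, 140, 338, 816, 1970, 4756, 11482, 27720, 66923], 17, 20, 20⟩,
  ⟨[2, 4, 10, 24, 58, 140, 338, 816, 1970, 4756, 11482, 27721], 17, 20, 20⟩,
  ⟨[2, 4, 10, 24, 58, 140, 338, 816, 1970, 4756, 11483], 17, 20, 20⟩,
  ⟨[2, 4, 10, 24, 58, 140, 338, 816, 1970, 4757], 17, 20, 20⟩,
  ⟨[2, 4, 10, 24, 58, 140, 338, 816, 1971], 17, 20, 20⟩,
  ⟨[2, 4, 10, 24, 58, 140, 338, 817], 17, 20, 20⟩,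
  ⟨[2, 4, 10, 24, 58, 140, 339], 17, 20, 20⟩,
  ⟨[2, 4, 10, 24, 58, 141], 17, 20, 20⟩]

theorem tree2x1_ok : runTo 2 false sps2 [
  .rigid [-2, 2, -2, 2, 1, -2, 2, -3, 1] [0, 0, 0, 0, 0, 0, 0, 0, 1],
  .branch (139) 3 7000 [1, 1, 2, 1, 4, -2] 7000 [0, -3, -1, -1, -4, 2],
  .rigid [-2, 0, -2, 0, -2, 1] [0, 0, 0, 0, 0, 1],
  .branch (337) 3 7000 [1, 0, 1, 2, 1, 4, -2] 7000 [0, -2, 0, -2, -1, -4, 2],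
  .branch (812) 2 10000 [2, 2, 2, 3, 5, 5, 4, -3] 5000 [1, -2, 1, -1, -1, 1, -5, 2],
  .rigid [-2, -2, -2, -2, -2, -2, -1, 1] [0, 0, 0, 0, 0, 0, 0, 1],
  .branch (1962) 0 4000 [2, -5, 4, -2, 0, 3, -4, 6, -2] 4000 [1, 0, -2, 1, 0, 0, -2, -4, 2],
  .branch (815) 3 7000 [1, 0, 0, 1, 2, 1, 4, -2] 7000 [0, -2, 1, -1, -2, -1, -4, 2],
  .rigid [-2, 0, -2, 0, -2, 0, -2, 1] [0, 0, 0, 0, 0, 0, 0, 1],
  .branch (1969) 3 7000 [1, 0, 0, 0, 1, 2, 1, 4, -2] 7000 [0, -2, 0, -2, 0, -2, -1, -4, 2],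
  .branch (4752) 1 14000 [2, 2, 2, 2, 2, 3, 5, 6, 6, -4] 5000 [3, -7, 2, -3, -1, -1, -2, 2, -10, 4],
  .rigid [-2, -2, -2, -2, -2, -2, -2, -2, -1, 1] [0, 0, 0, 0, 0, 0, 0, 0, 0, 1],
  .branch (4755) 3 7000 [1, 0, 0, 0, 0, 1, 2, 1, 4, -2] 7000 [0, -2, 1, 0, 0, -1, -2, -1, -4, 2],
  .rigid [-2, 0, -2, 0, -2, 0, -2, 0, -2, 1] [0, 0, 0, 0, 0, 0, 0, 0, 0, 1],
  .branch (11481) 3 7000 [1, 0, 0, 0, 0, 0, 1, 2, 1, 4, -2] 7000 [0, -2, 1, 0, 0, 0, -1, -2, -1, -4, 2],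
  .branch (27716) 1 23000 [2, 2, 2, 2, 2, 3, 5, 5, 7, 9, 9, -6] 5000 [3, -7, 2, -3, -1, 0, -1, 1, -3, 2, -10, 4],
  .rigid [-2, -2, -2, -2, -2, -2, -2, -2, -2, -2, -1, 1] [0, 0, 0, 0, 0, 0, 0, 0, 0, 0, 0, 1],
  .branch (27719) 3 7000 [1, 0, 0, 0, 0, 0, 0, 1, 2, 1, 4, -2] 7000 [1, 0, 0, 0, 0, 0, 0, -1, -2, -1, -4, 2],
  .rigid [-2, 0, -2, 0, -2, 0, -2, 0, -2, 0, -2, 1] [0, 0, 0, 0, 0, 0, 0, 0, 0, 0, 0, 1],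
  .branch (66921) 3 7000 [1, 0, 0, 0, 0, 0, 0, 0, 1, 2, 1, 4, -2] 7000 [0, -2, 1, 0, 0, 0, 0, 0, -1, -2, -1, -4, 2],
  .branch (161560) 1 23000 [1, 0, 3, 2, 2, 2, 2, 3, 5, 5, 7, 9, 9, -6] 5000 [3, -7, 1, -4, 1, -3, -1, -1, -3, 2, -3, 2, -10, 4],
  .rigid [-2, -2, -2, -2, -2, -2, -2, -2, -2, -2, -2, -2, -1, 1] [0, 0, 0, 0, 0, 0, 0, 0, 0, 0, 0, 0, 0, 1],
  .branch (161563) 3 7000 [1, 0, 0, 0, 0, 0, 0, 0, 0, 1, 2, 1, 4, -2] 7000 [1, 0, 0, 0, 0, 0, 0, 0, 0, -1, -2, -1, -4, 2],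
  .rigid [-2, 0, -2, 0, -2, 0, -2, 0, -2, 0, -2, 0, -2, 1] [0, 0, 0, 0, 0, 0, 0, 0, 0, 0, 0, 0, 0, 1],
  .branch (390049) 3 7000 [1, 0, 0, 0, 0, 0, 0, 0, 0, 0, 1, 2, 1, 4, -2] 7000 [1, 0, 0, 0, 0, 0, 0, 0, 0, 0, -1, -2, -1, -4, 2],
  .branch (941660) 1 23000 [1, 0, 2, 0, 3, 2, 2, 2, 2, 3, 5, 5, 7, 9, 9, -6] 5000 [3, -7, 1, -4, 1, -2, 1, -1, -1, 1, -4, 2, -3, 2, -10, 4]] goals2a1 = some goals2b1 := by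
  decide +kernel

def goals2a2 : List Goal := [⟨[2, 4, 10, 24, 58, 140, 338, 816, 1970, 4756, 11482, 27720, 66922, 161564, 390049, 941660], 17, 20, 20⟩,
  ⟨[2, 4, 10, 24, 58, 140, 338, 816, 1970, 4756, 11482, 27720, 66922, 161564, 390050], 17, 20, 20⟩,
  ⟨[2, 4, 10, 24, 58, 140, 338, 816, 1970, 4756, 11482, 27720, 66922, 161564, 390051], 17, 20, 20⟩,
  ⟨[2, 4, 10, 24, 58, 140, 338, 816, 1970, 4756, 11482, 27720, 66922, 161565], 17, 20, 20⟩]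

def goals2b2 : List Goal := [⟨[2, 4, 10, 24, 58, 140, 338, 816, 1970, 4756, 11482, 27720, 66922, 161565, 390054, 941676], 17, 20, 20⟩,
  ⟨[2, 4, 10, 24, 58, 140, 338, 816, 1970, 4756, 11482, 27720, 66922, 161565, 390054, 941677], 17, 20, 20⟩]

theorem tree2x2_ok : runTo 2 false sps2 [
  .rigid [-2, -2, -2, -2, -2, -2, -2, -2, -2, -2, -2, -2, -2, -2, -1, 1] [0, 0, 0, 0, 0, 0, 0, 0, 0, 0, 0, 0, 0, 0, 0, 1],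
  .branch (941663) 3 7000 [1, 0, 0, 0, 0, 0, 0, 0, 0, 0, 0, 1, 2, 1, 4, -2] 7000 [1, 0, 0, 0, 0, 0, 0, 0, 0, 0, 0, -1, -2, -1, -4, 2],
  .rigid [-2, 0, -2, 0, -2, 0, -2, 0, -2, 0, -2, 0, -2, 0, -2, 1] [0, 0, 0, 0, 0, 0, 0, 0, 0, 0, 0, 0, 0, 0, 0, 1],
  .branch (2273377) 3 7000 [1, 0, 0, 0, 0, 0, 0, 0, 0, 0, 0, 0, 1, 2, 1, 4, -2] 7000 [1, 0, 0, 0, 0, 0, 0, 0, 0, 0, 0, 0, -1, -2, -1, -4, 2],
  .branch (5488416) 1 23000 [1, 0, 2, 0, 2, 0, 2, 0, 3, 2, 2, 3, 5, 5, 7, 9, 9, -6] 5000 [3, -7, 1, -4, 1, -2, 1, -1, -2, 0, -1, 1, -3, 4, -4, 2, -10, 4],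
  .rigid [-2, -2, -2, -2, -2, -2, -2, -2, -2, -2, -2, -2, -2, -2, -2, -2, -1, 1] [0, 0, 0, 0, 0, 0, 0, 0, 0, 0, 0, 0, 0, 0, 0, 0, 0, 1],
  .spine,
  .branch (5488424) 1 3000 [2, -5, 1, -2, 0, -2, 0, -1, 2, -2, 2, -2, 2, -1, 3, -4, 6, -2] 23000 [1, -1, 0, 0, 0, 0, 0, 0, 0, -1, -3, -3, -5, -5, -7, -9, -9, 6],
  .rigid [-2, 2, -2, 2, -2, 2, -2, 2, -2, 2, -2, 2, -2, 2, -2, 2, -3, 1] [0, 0, 0, 0, 0, 0, 0, 0, 0, 0, 0, 0, 0, 0, 0, 0, 0, 1],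
  .branch (2273382) 1 6000 [3, -7, 1, -4, 1, -2, 1, -1, -1, 2, -2, 1, -3, 3, -4, 11, -4] 23000 [1, -1, 0, 0, 0, 0, 0, 0, -1, -3, -3, -5, -5, -7, -9, -9, 6],
  .branch (5488432) 2 6000 [2, 1, 0, 0, 0, 0, 0, 0, 0, 0, 0, 0, 0, 0, -1, 0, 5, -2] 13000 [-1, -3, 2, -3, 1, 0, 0, 0, 0, -1, -2, -1, -4, -1, -6, 0, -6, 3],
  .rigid [-2, 0, 0, 0, 0, 0, 0, 0, 0, 0, 0, 0, 0, 0, 0, -1, -2, 1] [0, 0, 0, 0, 0, 0, 0, 0, 0, 0, 0, 0, 0, 0, 0, 0, 0, 1],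
  .rigdiv [16, -2, 24, -2, 16, -2, 8, -2, 0, -2, -8, -2, -16, -2, -24, 6, -17, 8] [0, 0, 0, 0, 0, 0, 0, 0, 0, 0, 0, 0, 0, 0, 0, 0, 0, 1],
  .branch (941668) 1 3000 [2, -4, 3, -2, 2, -2, 2, -2, 2, -2, 2, -1, 3, -4, 6, -2] 23000 [1, -1, 0, 0, 0, 0, 0, -1, -3, -3, -5, -5, -7, -9, -9, 6],
  .rigid [-2, 2, -2, 2, -2, 2, -2, 2, -2, 2, -2, 2, -2, 2, -3, 1] [0, 0, 0, 0, 0, 0, 0, 0, 0, 0, 0, 0, 0, 0, 0, 1],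
  .branch (390054) 1 8000 [3, -7, 1, -4, 1, -2, 1, -1, -1, 1, -3, 3, -5, 9, -3] 23000 [1, -1, 0, 0, 0, 0, -1, -3, -3, -5, -5, -7, -9, -9, 6],
  .branch (941676) 2 6000 [2, 1, 0, 0, 0, 0, 0, 0, 0, 0, 0, 0, -1, 0, 5, -2] 13000 [-1, -3, 2, -3, 1, 0, 0, -1, -2, -1, -4, -1, -6, 0, -6, 3]] goals2a2 = some goals2b2 := by
  decide +kernel

def goals2a3 : List Goal := [⟨[2, 4, 10, 24, 58, 140, 338, 816, 1970, 4756, 11482, 27720, 66922, 161565, 390054, 941676], 17, 20, 20⟩,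
  ⟨[2, 4, 10, 24, 58, 140, 338, 816, 1970, 4756, 11482, 27720, 66922, 161565, 390054, 941677], 17, 20, 20⟩,
  ⟨[2, 4, 10, 24, 58, 140, 338, 816, 1970, 4756, 11482, 27720, 66923], 17, 20, 20⟩,
  ⟨[2, 4, 10, 24, 58, 140, 338, 816, 1970, 4756, 11482, 27721], 17, 20, 20⟩]

def goals2b3 : List Goal := [⟨[2, 4, 10, 24, 58, 140, 338, 816, 1970, 4756, 11482, 27721, 66926, 161577, 390090, 941781, 2273709], 34, 37, 40⟩,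
  ⟨[2, 4, 10, 24, 58, 140, 338, 816, 1970, 4756, 11482, 27721, 66926, 161577, 390090, 941781, 2273710], 34, 37, 40⟩,
  ⟨[2, 4, 10, 24, 58, 140, 338, 816, 1970, 4756, 11482, 27721, 66926, 161577, 390090, 941781, 2273711], 34, 37, 40⟩,
  ⟨[2, 4, 10, 24, 58, 140, 338, 816, 1970, 4756, 11482, 27721, 66926, 161577, 390090, 941782], 34, 37, 40⟩,
  ⟨[2, 4, 10, 24, 58, 140, 338, 816, 1970, 4756, 11482, 27721, 66926, 161577, 390091], 34, 37, 40⟩,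
  ⟨[2, 4, 10, 24, 58, 140, 338, 816, 1970, 4756, 11482, 27721, 66926, 161577], 37, 40, 40⟩,
  ⟨[2, 4, 10, 24, 58, 140, 338, 816, 1970, 4756, 11482, 27721, 66926, 161578], 17, 20, 20⟩]

theorem tree2x3_ok : runTo 2 false sps2 [
  .rigid [-2, 0, 0, 0, 0, 0, 0, 0, 0, 0, 0, 0, 0, -1, -2, 1] [0, 0, 0, 0, 0, 0, 0, 0, 0, 0, 0, 0, 0, 0, 0, 1],
  .split,
  .branch (2273418) 2 14766 [2, -4, 5, -7, 3, -6, -1, -3, -3, -2, -8, -2, -11, 4, -6, 10, -3] 26356 [-2, -7, -1, 1, 0, 0, 0, 0, 0, -1, -3, -3, -5, -1, 1, -7, 3],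
  .branch (5488537) 1 11936 [4, 0, 4, 4, -1, 1, -3, -1, -5, -2, -5, -5, -7, -3, 1, -2, 6, -2] 28354 [-5, -17, 3, -16, 5, -10, 0, -6, -4, -2, -9, -1, -14, 8, -12, 9, -9, 3],
  .w2 [1, 2, 0, 0, 0, 0, 0, 0, 0, 0, 0, 0, -1, -4, -9, -24, -22, 14] [5, -3, 9, -6, 9, -4, 5, -2, 1, 0, -3, 2, -7, 6, -9, 6, -6, 2],
  .w2 [1, 3, 0, 0, 0, 0, 0, 0, 0, 0, 0, -1, -4, -6, -13, -15, 9] [-4, 0, -3, -3, -2, -4, -1, -1, 1, 1, 3, 3, 5, 2, 0, 4, -2],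
  .branch (2273418) 1 21000 [0, -6, 3, -7, 1, -5, -1, -3, -4, -4, -8, -4, -11, 2, -6, 8, -2] 18000 [-3, -7, -2, -1, 1, -1, -2, 0, -3, -3, -4, -3, -7, -2, -2, -3, 2],
  .branch (5488537) 1 13000 [-1, -2, 1, 0, 0, -1, -2, 0, -3, -3, -5, -5, -7, -4, -1, -2, 4, -1] 22000 [-6, -11, 0, -9, 1, -7, -1, -6, -6, -6, -10, -6, -14, -2, -8, 4, -2, 1],
  .w2 [1, 2, 0, 0, 0, 0, 0, 0, 0, 0, 0, 0, -1, -4, -9, -24, -22, 14] [5, -3, 9, -6, 9, -4, 5, -2, 1, 0, -3, 2, -7, 6, -9, 6, -6, 2],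
  .branch (161568) 1 3000 [2, -4, 3, -2, 2, -2, 2, -2, 2, -1, 3, -4, 6, -2] 23000 [1, -1, 0, 0, 0, -1, -3, -3, -5, -5, -7, -9, -9, 6],
  .rigid [-2, 2, -2, 2, -2, 2, -2, 2, -2, 2, -2, 2, -3, 1] [0, 0, 0, 0, 0, 0, 0, 0, 0, 0, 0, 0, 0, 1],
  .branch (66926) 1 7000 [3, -7, 2, -2, 1, -1, -1, 1, -3, 4, -3, 8, -3] 33000 [1, -1, 0, 0, -1, -3, -3, -5, -6, -11, -14, -11, 8],
  .branch (161576) 3 6000 [2, 1, 0, 0, 0, 0, 0, 0, 0, 0, -1, 0, 5, -2] 12000 [-1, -3, 1, 0, 0, 0, 0, 0, 0, -1, -2, -1, -4, 2],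
  .rigid [-2, 0, 0, 0, 0, 0, 0, 0, 0, 0, 0, -1, -2, 1] [0, 0, 0, 0, 0, 0, 0, 0, 0, 0, 0, 0, 0, 1],
  .split,
  .branch (390090) 2 1247 [2, -1, 2, -5, 1, -3, -1, -1, -4, -1, -5, 4, -1, 5, -2] 26359 [-2, -7, -1, 1, 0, 0, 0, -1, -3, -3, -5, -1, 1, -7, 3],
  .branch (941781) 2 16819 [4, -2, 3, 2, -3, -1, -5, -3, -7, -5, -9, -2, 0, -3, 9, -3] 21395 [-2, -7, 0, -7, 1, -5, -1, -3, -3, -2, -7, 4, -3, 4, -6, 2],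
  .branch (2273709) 3 23810 [-2, -7, 2, -2, 4, -7, -2, -7, -8, -8, -18, -6, -10, -3, -5, 11, -3] 71572 [1, -25, 0, -14, -22, -1, -16, -4, -17, -8, -21, 7, 11, 3, 24, -28, 7]] goals2a3 = some goals2b3 := by
  decide +kernel

def goals2a4 : List Goal := [⟨[2, 4, 10, 24, 58, 140, 338, 816, 1970, 4756, 11482, 27721, 66926, 161577, 390090, 941781, 2273709], 34, 37, 40⟩,
  ⟨[2, 4, 10, 24, 58, 140, 338, 816, 1970, 4756, 11482, 27721, 66926, 161577, 390090, 941781, 2273710], 34, 37, 40⟩,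
  ⟨[2, 4, 10, 24, 58, 140, 338, 816, 1970, 4756, 11482, 27721, 66926, 161577, 390090, 941781, 2273711], 34, 37, 40⟩,
  ⟨[2, 4, 10, 24, 58, 140, 338, 816, 1970, 4756, 11482, 27721, 66926, 161577, 390090, 941782], 34, 37, 40⟩,
  ⟨[2, 4, 10, 24, 58, 140, 338, 816, 1970, 4756, 11482, 27721, 66926, 161577, 390091], 34, 37, 40⟩,
  ⟨[2, 4, 10, 24, 58, 140, 338, 816, 1970, 4756, 11482, 27721, 66926, 161577], 37, 40, 40⟩,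
  ⟨[2, 4, 10, 24, 58, 140, 338, 816, 1970, 4756, 11482, 27721, 66926, 161578], 17, 20, 20⟩,
  ⟨[2, 4, 10, 24, 58, 140, 338, 816, 1970, 4756, 11483], 17, 20, 20⟩,
  ⟨[2, 4, 10, 24, 58, 140, 338, 816, 1970, 4757], 17, 20, 20⟩]

def goals2b4 : List Goal := [⟨[2, 4, 10, 24, 58, 140, 338, 816, 1970, 4757, 11486, 27733, 66962, 161681, 390382, 942584], 34, 37, 40⟩,
  ⟨[2, 4, 10, 24, 58, 140, 338, 816, 1970, 4757, 11486, 27733, 66962, 161681, 390382, 942585], 34, 37, 40⟩,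
  ⟨[2, 4, 10, 24, 58, 140, 338, 816, 1970, 4757, 11486, 27733, 66962, 161681, 390382, 942586], 34, 37, 40⟩,
  ⟨[2, 4, 10, 24, 58, 140, 338, 816, 1970, 4757, 11486, 27733, 66962, 161681, 390382, 942587], 34, 37, 40⟩,
  ⟨[2, 4, 10, 24, 58, 140, 338, 816, 1970, 4757, 11486, 27733, 66962, 161681, 390383], 34, 37, 40⟩,
  ⟨[2, 4, 10, 24, 58, 140, 338, 816, 1970, 4757, 11486, 27733, 66962, 161682], 34, 37, 40⟩,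
  ⟨[2, 4, 10, 24, 58, 140, 338, 816, 1970, 4757, 11486, 27733, 66962, 161683], 34, 37, 40⟩,
  ⟨[2, 4, 10, 24, 58, 140, 338, 816, 1970, 4757, 11486, 27733, 66962, 161684], 34, 37, 40⟩,
  ⟨[2, 4, 10, 24, 58, 140, 338, 816, 1970, 4757, 11486, 27733, 66963], 34, 37, 40⟩,
  ⟨[2, 4, 10, 24, 58, 140, 338, 816, 1970, 4757, 11486, 27733], 37, 40, 40⟩,
  ⟨[2, 4, 10, 24, 58, 140, 338, 816, 1970, 4757, 11486, 27734], 17, 20, 20⟩,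
  ⟨[2, 4, 10, 24, 58, 140, 338, 816, 1970, 4757, 11487], 17, 20, 20⟩]

theorem tree2x4_ok : runTo 2 false sps2 [
  .w2 [0, 1, 0, 0, 0, 0, 0, 0, 0, 0, 0, -1, -4, -8, -19, -17, 11] [4, -1, 7, -1, 6, -4, 3, -2, -2, -2, -5, 2, -6, 3, -4, 4, -1],
  .branch (5489340) 3 10035 [0, -2, 1, 0, 1, 1, -3, 0, -3, -3, -4, -1, -3, -3, 0, -3, 4, -1] 87380 [11, -49, 16, -63, -5, -91, 0, -56, -30, -26, -63, 44, -9, 75, 0, 55, -69, 17],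
  .w2 [0, 0, 0, 0, 0, 0, 0, 0, 0, 0, 0, 0, -1, -4, -7, -15, -14, 9] [5, 0, 5, 1, 1, 3, -3, 1, -5, -1, -7, 0, -3, -2, 2, -4, 4, -1],
  .rigid [-2, 0, -2, 0, 0, 0, 2, 0, 2, 0, 2, -1, 0, -1, -2, 0, -2, 1] [0, 0, 0, 0, 0, 0, 0, 0, 0, 0, 0, 0, 0, 0, 0, 0, 0, 1],
  .w2 [1, 2, 0, 0, 0, 0, 0, 0, 0, -1, -3, -4, -11, -24, -60, -144, -138, 87] [10, -6, 13, -12, 14, -14, 9, -7, 0, 1, -11, 13, -11, 15, -13, 9, -12, 4],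
  .w2 [1, 1, 0, 0, 0, 0, 0, 0, 0, 0, -1, -3, -4, -12, -29, -29, 18] [6, -2, 4, 0, 0, 3, -3, 2, -2, 1, -5, 3, 1, -1, 3, -6, 2],
  .w2 [1, 1, 0, 0, 0, 0, 0, 0, 0, 0, -1, -4, -7, -15, -14, 9] [3, -3, 4, -3, 5, -2, 0, -1, -1, 1, -3, 4, -5, 3, -3, 1],
  .w2 [1, 3, 0, 0, 0, 0, 0, 0, 0, -1, -4, -6, -13, -15, 9] [-4, 0, -3, -3, -1, -1, 1, 1, 3, 3, 5, 2, 0, 4, -2],
  .branch (390090) 1 12000 [1, -3, 3, -5, 1, -3, -2, -3, -3, -2, -8, 2, -2, 6, -2] 18000 [-3, -7, -2, -2, -2, -2, -2, -3, -4, -3, -7, -2, -2, -3, 2],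
  .branch (941781) 2 13000 [-1, -2, 1, -1, -2, 0, -3, -3, -5, -5, -7, -4, -1, -2, 4, -1] 15000 [-2, -6, -1, -4, 1, -3, -2, -3, -4, -3, -6, -1, -2, 3, -3, 1],
  .split,
  .split,
  .dead 36397 [8, 11, 2, 7, 4, 7, 6, 7, 8, 8, 13, 6, 6, 0, -2],
  .dead 20798 [5, 7, 1, 2, 2, 3, 5, 5, 6, 5, 9, 4, 2, 0, -1],
  .dead 22000 [5, 8, 1, 2, 2, 3, 5, 6, 9, 8, 14, 7, 4, 2, -5, 1],
  .w2 [1, 1, 0, 0, 0, 0, 0, 0, 0, 0, -1, -4, -7, -15, -14, 9] [3, -3, 4, -3, 5, -2, 0, -1, -1, 1, -3, 4, -5, 3, -3, 1],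
  .w2 [1, 3, 0, 0, 0, 0, 0, 0, 0, -1, -3, -5, -7, 4] [3, 1, 3, -1, 2, -1, 0, -1, -2, -1, -4, 0, -4, 2],
  .branch (27724) 2 3000 [2, -4, 2, -4, 3, -2, 2, -1, 3, -4, 6, -2] 5000 [0, 0, 0, 0, 0, 0, 0, 0, 0, -1, -2, 1],
  .rigid [-2, 2, -2, 2, -2, 2, -2, 2, -2, 2, -3, 1] [0, 0, 0, 0, 0, 0, 0, 0, 0, 0, 0, 1],
  .w2 [3, 6, 0, 0, 0, 0, 0, 0, -1, -6, -7, 4] [6, 4, 3, 3, 1, 0, -4, -3, -5, -6, -6, 4],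
  .branch (11486) 2 5000 [5, -7, 4, -4, 0, 1, -3, 3, -4, 11, -4] 5000 [0, 0, 0, 0, 0, 0, 0, 0, -1, -2, 1],
  .branch (27732) 3 6000 [2, 1, 0, 0, 0, 0, 0, 0, -1, 0, 5, -2] 12000 [-1, -3, 1, 0, 0, 0, 0, -1, -2, -1, -4, 2],
  .rigid [-2, 0, 0, 0, 0, 0, 0, 0, 0, -1, -2, 1] [0, 0, 0, 0, 0, 0, 0, 0, 0, 0, 0, 1],
  .split,
  .branch (66962) 2 6029 [2, -4, 3, -8, 0, -3, -3, -2, -7, 4, -2, 8, -3] 26366 [-2, -7, -1, 0, -2, 0, -3, -3, -5, -1, 1, -7, 3],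
  .branch (161681) 4 21716 [3, -5, 1, 0, -7, -3, -9, -5, -12, -3, 1, -2, 11, -4] 19462 [-1, -5, -1, -4, 2, -1, -2, -1, -4, 2, 3, 4, -7, 2],
  .branch (390381) 3 54581 [-7, -20, 4, -11, 3, -20, -14, -21, -32, -9, -22, 0, -10, 21, -6] 31871 [1, -13, -2, -9, -11, -1, -10, -2, -10, 6, 6, 3, 13, -16, 4],
  .w2 [1, 2, 0, 0, 0, 0, 0, 0, -1, -4, -7, -15, -36, -35, 22] [5, 1, 5, 0, 2, -4, -1, -1, -4, 1, -1, 3, 1, 4, -2],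
  .branch (942584) 4 10049 [-1, -4, 1, -3, -1, 0, -2, -1, -5, -1, -3, -3, 0, -3, 4, -1] 7930 [1, -2, 0, -1, -4, -5, -3, -3, -6, 1, 3, 5, 4, 5, -8, 2]] goals2a4 = some goals2b4 := by
  decide +kernel

def goals2a5 : List Goal := [⟨[2, 4, 10, 24, 58, 140, 338, 816, 1970, 4757, 11486, 27733, 66962, 161681, 390382, 942584], 34, 37, 40⟩,
  ⟨[2, 4, 10, 24, 58, 140, 338, 816, 1970, 4757, 11486, 27733, 66962, 161681, 390382, 942585], 34, 37, 40⟩,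
  ⟨[2, 4, 10, 24, 58, 140, 338, 816, 1970, 4757, 11486, 27733, 66962, 161681, 390382, 942586], 34, 37, 40⟩,
  ⟨[2, 4, 10, 24, 58, 140, 338, 816, 1970, 4757, 11486, 27733, 66962, 161681, 390382, 942587], 34, 37, 40⟩,
  ⟨[2, 4, 10, 24, 58, 140, 338, 816, 1970, 4757, 11486, 27733, 66962, 161681, 390383], 34, 37, 40⟩,
  ⟨[2, 4, 10, 24, 58, 140, 338, 816, 1970, 4757, 11486, 27733, 66962, 161682], 34, 37, 40⟩,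
  ⟨[2, 4, 10, 24, 58, 140, 338, 816, 1970, 4757, 11486, 27733, 66962, 161683], 34, 37, 40⟩,
  ⟨[2, 4, 10, 24, 58, 140, 338, 816, 1970, 4757, 11486, 27733, 66962, 161684], 34, 37, 40⟩,
  ⟨[2, 4, 10, 24, 58, 140, 338, 816, 1970, 4757, 11486, 27733, 66963], 34, 37, 40⟩,
  ⟨[2, 4, 10, 24, 58, 140, 338, 816, 1970, 4757, 11486, 27733], 37, 40, 40⟩,
  ⟨[2, 4, 10, 24, 58, 140, 338, 816, 1970, 4757, 11486, 27734], 17, 20, 20⟩,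
  ⟨[2, 4, 10, 24, 58, 140, 338, 816, 1970, 4757, 11487], 17, 20, 20⟩,
  ⟨[2, 4, 10, 24, 58, 140, 338, 816, 1971], 17, 20, 20⟩,
  ⟨[2, 4, 10, 24, 58, 140, 338, 817], 17, 20, 20⟩]

def goals2b5 : List Goal := [⟨[2, 4, 10, 24, 58, 140, 338, 817, 1974, 4769, 11522, 27837, 67254, 162486, 392565], 34, 37, 40⟩,
  ⟨[2, 4, 10, 24, 58, 140, 338, 817, 1974, 4769, 11522, 27837, 67254, 162486, 392566], 34, 37, 40⟩,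
  ⟨[2, 4, 10, 24, 58, 140, 338, 817, 1974, 4769, 11522, 27837, 67254, 162486, 392567], 34, 37, 40⟩,
  ⟨[2, 4, 10, 24, 58, 140, 338, 817, 1974, 4769, 11522, 27837, 67254, 162486, 392568], 34, 37, 40⟩,
  ⟨[2, 4, 10, 24, 58, 140, 338, 817, 1974, 4769, 11522, 27837, 67254, 162487], 34, 37, 40⟩,
  ⟨[2, 4, 10, 24, 58, 140, 338, 817, 1974, 4769, 11522, 27837, 67255], 34, 37, 40⟩,
  ⟨[2, 4, 10, 24, 58, 140, 338, 817, 1974, 4769, 11522, 27838], 34, 37, 40⟩,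
  ⟨[2, 4, 10, 24, 58, 140, 338, 817, 1974, 4769, 11522, 27839], 34, 37, 40⟩,
  ⟨[2, 4, 10, 24, 58, 140, 338, 817, 1974, 4769, 11522, 27840], 34, 37, 40⟩,
  ⟨[2, 4, 10, 24, 58, 140, 338, 817, 1974, 4769, 11523], 34, 37, 40⟩,
  ⟨[2, 4, 10, 24, 58, 140, 338, 817, 1974, 4769, 11524], 34, 37, 40⟩,
  ⟨[2, 4, 10, 24, 58, 140, 338, 817, 1974, 4769], 37, 40, 40⟩,
  ⟨[2, 4, 10, 24, 58, 140, 338, 817, 1974, 4770], 17, 20, 20⟩,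
  ⟨[2, 4, 10, 24, 58, 140, 338, 817, 1975], 17, 20, 20⟩]

theorem tree2x5_ok : runTo 2 false sps2 [
  .w2 [0, 1, 0, 0, 0, 0, 0, 0, 0, -1, -4, -7, -15, -36, -35, 22] [7, -1, 6, 0, 0, 3, -5, 1, -7, 3, -2, -3, 1, -5, 7, -2],
  .rigid [-2, 0, -2, 0, 0, 0, 2, 0, 2, -1, 0, -1, -2, 0, -2, 1] [0, 0, 0, 0, 0, 0, 0, 0, 0, 0, 0, 0, 0, 0, 0, 1],
  .branch (2275894) 3 571520 [-53, -282, -77, -121, -100, -89, -23, -187, -209, -49, -96, -104, -82, -57, -201, 244, -58] 48655 [-2, -8, 6, -6, -6, -14, -21, -10, -26, -2, 2, 10, 20, 9, 9, -19, 5],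
  .branch (5495194) 3 342208 [-1, -56, -63, -58, -58, -62, -17, -23, -163, -14, -6, -48, -52, -92, -133, -40, 140, -38] 161508 [-4, -72, 15, -16, -20, -18, -30, -65, -43, -6, -10, 4, 32, 28, -8, 77, -72, 16],
  .rigid [-2, 0, 0, 0, 0, 0, 0, 0, 2, -1, 0, 0, 0, 0, 0, -1, -2, 1] [0, 0, 0, 0, 0, 0, 0, 0, 0, 0, 0, 0, 0, 0, 0, 0, 0, 1],
  .w2 [1, 2, 0, 0, 0, 0, 0, 0, -1, -4, -9, -24, -55, -132, -320, -772, -739, 466] [-9, 6, -10, 4, -3, 6, -2, 6, -1, -4, 2, -4, 1, -3, 8, -7, 9, -3],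
  .w2 [0, 0, 0, 0, 0, 0, 0, 0, 0, 0, 0, 0, -1, -3, -4, -12, -11, 7] [5, -3, 5, -1, 1, -3, 0, -3, 0, 3, 0, 2, 1, 3, -1, 6, -5, 1],
  .w2 [1, 2, 0, 0, 0, 0, 0, 0, -1, -4, -8, -20, -49, -120, -289, -278, 175] [-7, -3, -3, 1, 0, 2, 3, -1, 4, -5, -2, -2, -1, 1, 2, 4, -2],
  .w2 [0, 0, 0, 0, 0, 0, 0, 0, 0, 0, -1, -3, -4, -13, -31, -28, 18] [-7, -2, -5, 1, 2, 3, 6, 0, 6, -4, -3, -4, -6, -1, -1, 6, -2],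
  .w2 [0, 0, 0, 0, 0, 0, 0, 0, 0, 0, -1, -3, -4, -12, -11, 7] [4, 0, 2, -1, 1, -3, 1, -1, -1, 3, 1, 4, 0, 3, -4, 1],
  .w2 [1, 1, 0, 0, 0, 0, 0, 0, -1, -3, -4, -12, -29, -29, 18] [-6, 2, -4, 1, 3, -2, 2, -1, 4, -5, 0, 1, -3, 6, -2],
  .w2 [3, 7, 0, 0, 0, 0, 0, -1, -6, -14, -27, -70, -69, 43] [14, -5, 14, -7, 13, -4, 1, -3, -12, 8, -15, 6, -17, 7],
  .w2 [0, 1, 0, 0, 0, 0, 0, 0, 0, -1, -4, -8, -8, 5] [3, -1, 3, -1, 2, -1, 1, 1, -2, 2, -2, 2, -3, 1],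
  .w2 [0, 1, 0, 0, 0, 0, 0, 0, 0, -1, -3, -5, -7, 4] [2, 0, 1, -1, 0, 0, 0, -1, -1, 3, 0, 1, -3, 1],
  .w2 [1, 3, 0, 0, 0, 0, 0, -1, -4, -6, -13, -15, 9] [-5, 0, -3, -3, -1, -1, 1, 1, 3, 1, 1, 4, -2],
  .branch (66962) 1 28000 [0, -9, 2, -12, -2, -9, -8, -5, -15, 4, -4, 12, -4] 50000 [-7, -16, -3, -4, -4, -6, -9, -8, -14, -5, -2, -9, 5],
  .split,
  .split,
  .dead 33452 [9, 11, 4, 7, 6, 7, 8, 8, 13, 5, 4, 1, -2],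
  .dead 20798 [5, 7, 2, 5, 4, 5, 6, 5, 9, 4, 2, 0, -1],
  .dead 21000 [5, 7, 2, 5, 4, 5, 6, 5, 9, 4, 2, 0, -1],
  .w2 [1, 3, 0, 0, 0, 0, 0, -1, -3, -5, -7, 4] [3, 1, 3, -1, 2, -2, -2, -1, -4, 0, -4, 2],
  .w2 [2, 4, 0, 0, 0, 0, 0, -1, -5, -5, 3] [4, 3, 3, 1, 1, -1, -1, -3, -3, -3, 2],
  .branch (4760) 2 3000 [2, -4, 2, -4, 2, -3, 4, -4, 6, -2] 5000 [0, 0, 0, 0, 0, 0, 0, -1, -2, 1],
  .rigid [-2, 2, -2, 2, -2, 2, -2, 2, -3, 1] [0, 0, 0, 0, 0, 0, 0, 0, 0, 1],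
  .split,
  .dead 13808 [0, 0, -1, -3, -2, -3, -5, -5, -4, 3],
  .dead 9000 [0, 0, 0, 0, 0, -1, -3, -3, -3, 2],
  .branch (1974) 2 1000 [5, -3, 3, -1, 2, 3, -1, 7, -3] 5000 [0, 0, 0, 0, 0, 0, -1, -2, 1],
  .branch (4768) 3 6000 [2, 1, 0, 0, 0, 0, -1, 0, 5, -2] 12000 [-1, -3, 1, 0, 0, -1, -2, -1, -4, 2],
  .rigid [-2, 0, 0, 0, 0, 0, 0, -1, -2, 1] [0, 0, 0, 0, 0, 0, 0, 0, 0, 1],
  .split,
  .branch (11522) 3 9637 [7, -2, 4, -9, -1, -2, -6, 7, 1, 11, -5] 22360 [-1, -5, -1, 1, 0, -1, -3, 0, 1, -5, 2],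
  .branch (27836) 5 15015 [1, -3, 0, -1, -5, -3, -8, -4, -2, -3, 7, -2] 45563 [-2, -9, -4, -6, 0, -5, -7, 5, 7, 5, -13, 4],
  .w2 [0, 1, 0, 0, 0, 0, 0, -1, -4, -8, -8, 5] [2, 0, 2, 0, 0, -1, -2, 1, 0, 1, 2, -1],
  .branch (67252) 4 16573 [-2, -6, -3, -3, -2, -7, -9, -5, -5, -4, -2, 7, -2] 30898 [0, -11, -2, -8, -9, -2, -10, 5, 4, 2, 10, -12, 3],
  .w2 [0, 1, 0, 0, 0, 0, 0, -1, -4, -7, -15, -14, 9] [3, 0, 1, 1, 0, -1, -2, 1, 0, 0, 1, 2, -1],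
  .w2 [1, 2, 0, 0, 0, 0, -1, -4, -8, -20, -48, -46, 29] [-5, -3, -3, -1, 0, 3, 1, -1, -1, -3, -3, -3, 2],
  .branch (162484) 4 10054 [-1, -5, -1, -2, -1, -1, -5, -1, -3, -3, 0, -3, 4, -1] 43096 [0, -11, -3, -5, -17, -21, -19, -3, 12, 9, 17, 14, -24, 6],
  .w2 [0, 1, 0, 0, 0, 0, 0, -1, -4, -7, -15, -36, -35, 22] [4, -2, 4, -1, 0, 1, -5, 2, -1, -1, 1, -4, 4, -1],
  .rigid [-2, 0, -2, 0, 0, 0, 2, -1, 0, -1, -2, 0, -2, 1] [0, 0, 0, 0, 0, 0, 0, 0, 0, 0, 0, 0, 0, 1],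
  .branch (392565) 4 41423 [-2, -27, -11, -10, -20, -9, -12, -6, 1, -14, -3, -12, -25, 30, -7] 66447 [0, -8, 7, -11, -11, -22, -32, 6, 8, 18, 27, 12, 11, -26, 7]] goals2a5 = some goals2b5 := by
  decide +kernel

def goals2a6 : List Goal := [⟨[2, 4, 10, 24, 58, 140, 338, 817, 1974, 4769, 11522, 27837, 67254, 162486, 392565], 34, 37, 40⟩,
  ⟨[2, 4, 10, 24, 58, 140, 338, 817, 1974, 4769, 11522, 27837, 67254, 162486, 392566], 34, 37, 40⟩,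
  ⟨[2, 4, 10, 24, 58, 140, 338, 817, 1974, 4769, 11522, 27837, 67254, 162486, 392567], 34, 37, 40⟩,
  ⟨[2, 4, 10, 24, 58, 140, 338, 817, 1974, 4769, 11522, 27837, 67254, 162486, 392568], 34, 37, 40⟩,
  ⟨[2, 4, 10, 24, 58, 140, 338, 817, 1974, 4769, 11522, 27837, 67254, 162487], 34, 37, 40⟩,
  ⟨[2, 4, 10, 24, 58, 140, 338, 817, 1974, 4769, 11522, 27837, 67255], 34, 37, 40⟩,
  ⟨[2, 4, 10, 24, 58, 140, 338, 817, 1974, 4769, 11522, 27838], 34, 37, 40⟩,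
  ⟨[2, 4, 10, 24, 58, 140, 338, 817, 1974, 4769, 11522, 27839], 34, 37, 40⟩,
  ⟨[2, 4, 10, 24, 58, 140, 338, 817, 1974, 4769, 11522, 27840], 34, 37, 40⟩,
  ⟨[2, 4, 10, 24, 58, 140, 338, 817, 1974, 4769, 11523], 34, 37, 40⟩]

def goals2b6 : List Goal := [⟨[2, 4, 10, 24, 58, 140, 338, 817, 1974, 4769, 11523], 139, 142, 160⟩,
  ⟨[2, 4, 10, 24, 58, 140, 338, 817, 1974, 4769, 11523], 71, 74, 80⟩]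

theorem tree2x6_ok : runTo 2 false sps2 [
  .w2 [0, 1, 0, 0, 0, 0, -1, -3, -4, -11, -24, -60, -144, -138, 87] [-9, 4, -1, 0, 4, -1, 1, -3, -3, 4, -1, 4, 5, -10, 3],
  .split,
  .split,
  .split,
  .split,
  .split,
  .dead 1200406 [376, 366, 247, 217, 204, 171, 184, 122, 86, 68, 5, 13, 23, -43, 11],
  .dead 1230372 [377, 369, 249, 219, 206, 173, 187, 126, 87, 69, 4, 13, 23, -43, 11],
  .split,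
  .dead 1258563 [379, 373, 248, 223, 210, 175, 191, 127, 89, 70, 3, 13, 23, -43, 11],
  .dead 1264197 [382, 382, 253, 227, 217, 183, 201, 130, 92, 73, 3, 14, 26, -47, 12],
  .split,
  .split,
  .dead 1250949 [386, 393, 256, 235, 225, 190, 212, 136, 97, 76, 0, 16, 29, -51, 13],
  .dead 212706 [61, 63, 40, 36, 35, 31, 34, 20, 15, 12, 0, 2, 5, -8, 2],
  .dead 1121357 [389, 402, 258, 237, 230, 195, 219, 141, 100, 79, 1, 18, 29, -54, 14],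
  .split,
  .split,
  .dead 1416022 [397, 426, 266, 252, 247, 212, 242, 151, 107, 85, -2, 20, 34, -59, 15],
  .dead 19052 [6, 6, 4, 4, 4, 4, 4, 3, 1, 1, -1],
  .branch (948439) 1 298647 [-68, -89, -64, -67, -63, -59, -58, -18, -21, -17, -11, -24, -29, -3, 28, -8] 1010787 [-237, -403, -139, -181, -236, -169, -274, -142, -62, -71, 108, 17, -18, 163, -137, 29],
  .dead 5485411 [1636, 1851, 1144, 1133, 1112, 990, 1131, 669, 513, 397, 28, 144, 218, -229, -22, 24],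
  .split,
  .split,
  .dead 68580 [20, 24, 13, 15, 15, 12, 17, 11, 7, 5, 0, 0, 3, -4, 1],
  .dead 84820 [20, 25, 15, 14, 16, 14, 16, 11, 8, 7, -1, 0, 3, -4, 1],
  .dead 908577 [229, 308, 157, 176, 186, 170, 216, 128, 95, 79, -9, 21, 40, -63, 16],
  .w2 [1, 1, 0, 0, 0, 0, -1, -3, -4, -13, -33, -80, -193, -186, 117] [5, 2, 2, -1, -1, -2, -2, 4, 2, 2, 1, -1, -2, -4, 2],
  .w2 [0, 0, 0, 0, 0, 0, 0, 0, 0, -1, -4, -9, -25, -24, 15] [6, 2, 4, 0, -2, -2, -4, 3, 3, 4, 6, 1, 2, -4, 1],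
  .w2 [0, 1, 0, 0, 0, 0, 0, -1, -3, -4, -12, -29, -29, 18] [5, 2, 2, 0, -2, -1, -2, 2, 3, 2, 2, 0, -3, 1],
  .w2 [0, 1, 0, 0, 0, 0, 0, -1, -4, -9, -25, -24, 15] [5, -2, 2, -2, -2, 2, -2, 4, 0, -1, 3, -6, 2],
  .split,
  .split,
  .split,
  .split,
  .dead 75278 [20, 23, 13, 15, 10, 12, 15, 5, 7, 0, 5, -3],
  .dead 49320 [15, 18, 11, 13, 8, 9, 11, 4, 6, 0, 3, -2],
  .dead 187843 [52, 63, 31, 42, 27, 33, 39, 14, 19, 2, 10, -7],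
  .split,
  .dead 53567 [16, 20, 10, 13, 9, 12, 13, 5, 5, 0, 3, -2],
  .dead 53743 [16, 20, 10, 13, 9, 12, 13, 5, 5, 0, 3, -2],
  .split,
  .dead 118748 [32, 42, 21, 29, 19, 24, 28, 10, 13, 1, 5, -4],
  .dead 39842 [9, 13, 5, 9, 5, 8, 10, 4, 4, 0, 1, -1],
  .w2 [0, 1, 0, 0, 0, 0, -1, -3, -4, -12, -11, 7] [3, -1, 2, -1, 2, -2, -1, 3, 0, 1, -3, 1],
  .w2 [0, 1, 0, 0, 0, 0, 0, -1, -3, -5, -7, 4] [2, 0, 1, -1, 0, 0, 1, 2, 0, 1, -3, 1],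
  .split,
  .split,
  .dead 16420 [-3, -6, -2, -3, -4, -2, -5, -2, 0, -4, 2]] goals2a6 = some goals2b6 := by
  decide +kernel

def goals2a7 : List Goal := [⟨[2, 4, 10, 24, 58, 140, 338, 817, 1974, 4769, 11523], 139, 142, 160⟩,
  ⟨[2, 4, 10, 24, 58, 140, 338, 817, 1974, 4769, 11523], 71, 74, 80⟩,
  ⟨[2, 4, 10, 24, 58, 140, 338, 817, 1974, 4769, 11524], 34, 37, 40⟩,
  ⟨[2, 4, 10, 24, 58, 140, 338, 817, 1974, 4769], 37, 40, 40⟩,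
  ⟨[2, 4, 10, 24, 58, 140, 338, 817, 1974, 4770], 17, 20, 20⟩,
  ⟨[2, 4, 10, 24, 58, 140, 338, 817, 1975], 17, 20, 20⟩,
  ⟨[2, 4, 10, 24, 58, 140, 339], 17, 20, 20⟩,
  ⟨[2, 4, 10, 24, 58, 141], 17, 20, 20⟩]

def goals2b7 : List Goal := [⟨[2, 4, 10, 24, 58, 141, 342, 829, 2010, 4873], 145, 148, 160⟩,
  ⟨[2, 4, 10, 24, 58, 141, 342, 829, 2010, 4874], 34, 37, 40⟩,
  ⟨[2, 4, 10, 24, 58, 141, 342, 829, 2010, 4875], 34, 37, 40⟩,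
  ⟨[2, 4, 10, 24, 58, 141, 342, 829, 2010, 4876], 34, 37, 40⟩,
  ⟨[2, 4, 10, 24, 58, 141, 342, 829, 2011], 34, 37, 40⟩,
  ⟨[2, 4, 10, 24, 58, 141, 342, 829, 2012], 34, 37, 40⟩,
  ⟨[2, 4, 10, 24, 58, 141, 342, 829], 37, 40, 40⟩,
  ⟨[2, 4, 10, 24, 58, 141, 342, 830], 17, 20, 20⟩,
  ⟨[2, 4, 10, 24, 58, 141, 343], 17, 20, 20⟩]

theorem tree2x7_ok : runTo 2 false sps2 [
  .dead 16502 [-3, -6, -2, -3, -4, -2, -5, -2, 0, -4, 2],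
  .dead 16663 [-3, -6, -2, -3, -4, -2, -5, -2, 0, -4, 2],
  .w2 [1, 2, 0, 0, 0, 0, -1, -4, -7, -6, 4] [3, 1, 1, 1, -1, 0, 0, 1, 1, -3, 1],
  .branch (11521) 2 3009 [0, -1, 1, 0, 0, -1, -2, 0, -1, 3, -1] 17000 [-3, -6, -2, -3, -4, -2, -5, -2, 0, -4, 2],
  .w2 [1, 4, 0, 0, 0, -1, -4, -7, -14, -12, 8] [6, 0, 3, -3, 1, -2, -2, 6, 1, 6, -3],
  .split,
  .split,
  .dead 24542 [6, 7, 4, 5, 6, 5, 9, 4, 2, 0, -1],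
  .dead 23646 [5, 6, 2, 5, 4, 5, 6, 3, 3, 0, -1],
  .dead 17000 [5, 7, 2, 5, 4, 5, 6, 3, 3, 0, -1],
  .rigid [8, -2, 8, -2, 0, -2, -8, 2, -9, 4] [0, 0, 0, 0, 0, 0, 0, 0, 0, 1],
  .split,
  .dead 13811 [-1, -2, 0, -3, -3, -5, -5, -4, 3],
  .dead 9000 [0, 0, 0, 0, -1, -3, -3, -3, 2],
  .branch (820) 2 3000 [2, -4, 2, -4, 2, -3, 6, -2] 5000 [0, 0, 0, 0, 0, -1, -2, 1],
  .rigid [-2, 2, -2, 2, -2, 2, -3, 1] [0, 0, 0, 0, 0, 0, 0, 1],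
  .split,
  .dead 13813 [-1, -3, -2, -3, -5, -5, -4, 3],
  .dead 9000 [0, 0, -1, -3, -2, -3, -3, 2],
  .branch (341) 3 5000 [1, -2, 2, 1, -1, 5, -2] 5000 [0, 0, 0, 0, -1, -2, 1],
  .branch (825) 1 4000 [1, 1, 0, 0, 0, 2, 4, -2] 6000 [-1, -5, 2, -2, -3, 2, -5, 2],
  .branch (1997) 1 2011 [2, -2, 4, -2, 0, 4, -2, 5, -2] 5000 [0, -2, -2, 0, -2, 1, -1, -2, 1],
  .rigid [-2, 4, -4, 2, 0, -3, 5, -4, 1] [0, 0, 0, 0, 0, 0, 0, 0, 1],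
  .branch (828) 3 6000 [2, 0, -2, 1, -1, 0, 5, -2] 13000 [-1, -3, 1, -2, -4, 0, -4, 2],
  .rigid [-2, 0, 0, 0, 0, -1, -2, 1] [0, 0, 0, 0, 0, 0, 0, 1],
  .split,
  .branch (2009) 4 5798 [1, 0, 1, -1, -2, 1, 1, 2, -1] 22362 [-1, -5, -1, 0, -3, 0, 1, -5, 2],
  .branch (4870) 1 37727 [3, 1, -2, -9, -15, 3, 10, 15, 7, -6] 15470 [0, -6, -3, -5, -2, 2, 3, 4, -7, 2],
  .w2 [2, 4, 0, -1, -4, -7, -15, -36, -35, 22] [-11, 9, -3, 7, -3, -8, 1, -6, 15, -5],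
  .branch (4872) 5 15878 [-1, -5, -2, -3, -7, -2, -3, -3, 7, -2] 26106 [-2, -6, -3, -5, -2, 3, 4, 1, -6, 2],
  .w2 [0, 1, 0, 0, 0, -1, -4, -8, -8, 5] [2, 0, 2, -1, -2, 1, 0, 1, 2, -1],
  .split,
  .split,
  .split,
  .split,
  .split,
  .dead 114952 [35, 32, 21, 19, 19, 14, 7, 3, -2, -1],
  .dead 116080 [35, 32, 21, 20, 21, 13, 7, 3, -2, -1],
  .dead 588372 [188, 175, 117, 108, 111, 68, 39, 22, -19, -3],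
  .split,
  .dead 195770 [59, 55, 37, 36, 36, 23, 12, 7, -6, -1],
  .dead 18964 [6, 6, 4, 4, 4, 3, 1, 1, -1],
  .split,
  .split,
  .dead 18998 [6, 6, 4, 4, 4, 3, 1, 1, -1],
  .dead 19033 [6, 6, 4, 4, 4, 3, 1, 1, -1],
  .dead 200304 [62, 64, 39, 39, 43, 25, 14, 9, -10],
  .split,
  .split,
  .dead 19172 [6, 6, 4, 4, 4, 3, 1, 1, -1],
  .dead 46140 [13, 15, 9, 8, 10, 6, 4, 1, -2]] goals2a7 = some goals2b7 := by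
  decide +kernel

def goals2a8 : List Goal := [⟨[2, 4, 10, 24, 58, 141, 342, 829, 2010, 4873], 145, 148, 160⟩,
  ⟨[2, 4, 10, 24, 58, 141, 342, 829, 2010, 4874], 34, 37, 40⟩,
  ⟨[2, 4, 10, 24, 58, 141, 342, 829, 2010, 4875], 34, 37, 40⟩,
  ⟨[2, 4, 10, 24, 58, 141, 342, 829, 2010, 4876], 34, 37, 40⟩,
  ⟨[2, 4, 10, 24, 58, 141, 342, 829, 2011], 34, 37, 40⟩,
  ⟨[2, 4, 10, 24, 58, 141, 342, 829, 2012], 34, 37, 40⟩,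
  ⟨[2, 4, 10, 24, 58, 141, 342, 829], 37, 40, 40⟩,
  ⟨[2, 4, 10, 24, 58, 141, 342, 830], 17, 20, 20⟩,
  ⟨[2, 4, 10, 24, 58, 141, 343], 17, 20, 20⟩,
  ⟨[2, 4, 10, 24, 59], 17, 20, 20⟩,
  ⟨[2, 4, 10, 25], 17, 20, 20⟩]

def goals2b8 : List Goal := [⟨[2, 4, 10, 25, 61, 149, 364, 890], 17, 20, 20⟩,
  ⟨[2, 4, 10, 25, 61, 149, 364, 891], 17, 20, 20⟩,
  ⟨[2, 4, 10, 25, 61, 149, 364, 892], 17, 20, 20⟩,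
  ⟨[2, 4, 10, 25, 61, 149, 364, 893], 17, 20, 20⟩,
  ⟨[2, 4, 10, 25, 61, 149, 364, 894], 17, 20, 20⟩,
  ⟨[2, 4, 10, 25, 61, 149, 364, 895], 17, 20, 20⟩,
  ⟨[2, 4, 10, 25, 61, 149, 365], 17, 20, 20⟩,
  ⟨[2, 4, 10, 25, 61, 150], 17, 20, 20⟩,
  ⟨[2, 4, 10, 25, 62], 17, 20, 20⟩,
  ⟨[2, 4, 10, 25, 63], 17, 20, 20⟩]

theorem tree2x8_ok : runTo 2 false sps2 [
  .split,
  .dead 47319 [13, 15, 9, 9, 12, 5, 4, 1, -2],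
  .dead 45483 [10, 12, 8, 9, 10, 5, 2, 2, -2],
  .split,
  .split,
  .split,
  .split,
  .dead 47201 [16, 17, 11, 10, 9, 6, 4, 2, 0, -1],
  .dead 38621 [10, 10, 7, 7, 8, 4, 2, 1, 1, -1],
  .dead 106068 [32, 35, 20, 22, 20, 11, 7, 3, 3, -3],
  .split,
  .dead 38940 [11, 12, 7, 9, 7, 4, 2, 1, 1, -1],
  .dead 39088 [11, 12, 7, 9, 7, 4, 2, 1, 1, -1],
  .split,
  .split,
  .dead 32721 [11, 13, 7, 9, 7, 4, 2, 1, 1, -1],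
  .dead 33841 [11, 14, 9, 9, 9, 3, 2, 1, 1, -1],
  .dead 43694 [11, 14, 9, 9, 10, 6, 3, 0, 1, -1],
  .w2 [1, 3, 0, -1, -3, -4, -12, -29, -29, 18] [7, -1, 0, -1, 0, 2, 0, -1, -7, 3],
  .w2 [0, 0, 0, 0, 0, 0, -1, -5, -5, 3] [2, 0, 1, -1, 0, 0, 1, 1, -3, 1],
  .split,
  .split,
  .dead 11417 [2, 4, 2, 2, 2, 1, 0, 2, -1],
  .dead 11495 [2, 4, 2, 2, 2, 1, 0, 2, -1],
  .dead 11655 [2, 4, 2, 2, 2, 1, 0, 2, -1],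
  .w2 [1, 1, 0, 0, -1, -3, -5, -7, 4] [2, -1, -1, 0, 0, 1, 1, -3, 1],
  .branch (2009) 3 3009 [0, -1, 1, -1, -2, 0, -1, 3, -1] 34000 [-2, -6, -2, -3, -5, -1, 1, -7, 3],
  .branch (4869) 2 6020 [-1, -1, -1, -3, -4, -1, -1, 2, 2, -1] 51000 [-2, -15, -7, -18, -11, 4, 5, 13, -18, 5],
  .w2 [1, 1, 0, 0, -1, -3, -4, -12, -11, 7] [3, 2, 2, -1, -2, 1, 1, 3, 1, -1],
  .w2 [2, 4, 0, -1, -4, -7, -15, -36, -35, 22] [-11, 9, -3, 7, -3, -8, 1, -6, 15, -5],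
  .split,
  .split,
  .dead 20584 [6, 7, 4, 5, 6, 3, 3, 0, -1],
  .dead 15790 [-5, -7, -4, -4, -4, -3, -1, -1, 1],
  .dead 53000 [-13, -19, -10, -13, -17, -8, -5, -2, 3],
  .split,
  .dead 11821 [2, 4, 2, 2, 2, 1, 0, 2, -1],
  .dead 12000 [2, 4, 2, 2, 2, 1, 0, 2, -1],
  .split,
  .split,
  .split,
  .dead 17183 [-3, -5, -1, -3, -4, -2, -3, 2],
  .dead 17293 [-3, -5, -1, -3, -4, -2, -3, 2],
  .dead 19588 [-3, -6, -1, -4, -6, -2, -5, 3],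
  .dead 14000 [-1, -4, -2, -3, -4, -2, -3, 2],
  .split,
  .split,
  .dead 20204 [-1, -2, -3, -5, -5, -4, 3],
  .dead 8875 [-1, -3, -2, -2, -3, -3, 2],
  .dead 9000 [-1, -2, 0, -3, -3, -3, 2],
  .branch (144) 2 7000 [1, -3, 2, -3, 6, -2] 5000 [0, 0, 0, -1, -2, 1],
  .rigid [-2, 2, -2, 2, -3, 1] [0, 0, 0, 0, 0, 1],
  .split,
  .split,
  .dead 20211 [-2, -5, -4, -5, -4, 3],
  .dead 20446 [-1, -2, -3, -6, -4, 3],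
  .dead 9000 [-1, -3, -2, -3, -3, 2],
  .branch (61) 3 5000 [2, -1, 0, 5, -2] 5000 [0, 0, -1, -2, 1],
  .branch (149) 2 5000 [1, 0, -2, 3, 4, -2] 14000 [-1, -7, -1, 1, -7, 3],
  .branch (364) 2 8000 [2, 1, 2, 3, 3, 3, -2] 5000 [0, -2, -2, 1, -1, -2, 1],
  .branch (890) 6 1135 [1, 0, 0, 4, 1, 0, 2, -1] 37000 [0, -2, -2, 2, 3, -1, -5, 2]] goals2a8 = some goals2b8 := by
  decide +kernel

def goals2a9 : List Goal := [⟨[2, 4, 10, 25, 61, 149, 364, 890], 17, 20, 20⟩,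
  ⟨[2, 4, 10, 25, 61, 149, 364, 891], 17, 20, 20⟩,
  ⟨[2, 4, 10, 25, 61, 149, 364, 892], 17, 20, 20⟩,
  ⟨[2, 4, 10, 25, 61, 149, 364, 893], 17, 20, 20⟩,
  ⟨[2, 4, 10, 25, 61, 149, 364, 894], 17, 20, 20⟩,
  ⟨[2, 4, 10, 25, 61, 149, 364, 895], 17, 20, 20⟩,
  ⟨[2, 4, 10, 25, 61, 149, 365], 17, 20, 20⟩,
  ⟨[2, 4, 10, 25, 61, 150], 17, 20, 20⟩,
  ⟨[2, 4, 10, 25, 62], 17, 20, 20⟩]

def goals2b9 : List Goal := [⟨[2, 4, 10, 25, 62, 153], 77, 80, 80⟩,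
  ⟨[2, 4, 10, 25, 62, 154], 17, 20, 20⟩,
  ⟨[2, 4, 10, 25, 62, 155], 17, 20, 20⟩]

theorem tree2x9_ok : runTo 2 false sps2 [
  .rigid [-2, -2, -2, -3, -2, -2, -1, 1] [0, 0, 0, 0, 0, 0, 0, 1],
  .branch (2180) 1 20000 [5, -17, -12, 3, 2, -12, -19, 22, -5] 5162 [4, 4, -1, 4, 5, 3, -7, -3, 2],
  .rigid [-2, 2, 0, -1, 0, 1, 1, -3, 1] [0, 0, 0, 0, 0, 0, 0, 0, 1],
  .w2 [0, 1, 0, 0, -1, -5, -5, 3] [-2, -1, -2, -2, -2, 0, 3, -1],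
  .w2 [0, 0, 0, 0, -1, -4, -3, 2] [-2, -1, 1, -1, -3, 0, 3, -1],
  .w2 [0, 0, 0, 0, -1, -4, -3, 2] [-2, -1, 1, -1, -3, 0, 3, -1],
  .w2 [0, 0, 0, 0, -1, -4, -3, 2] [-2, -1, 0, -3, -2, 0, 3, -1],
  .split,
  .branch (894) 3 12589 [2, -7, -5, 6, -5, -6, 8, -2] 25157 [-1, -3, -2, 2, 3, -1, -5, 2],
  .rigid [-2, 2, 0, -3, 2, 1, -3, 1] [0, 0, 0, 0, 0, 0, 0, 1],
  .w2 [1, 1, 0, -1, -4, -8, -8, 5] [-3, -1, 3, -1, -1, 4, 1, -1],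
  .w2 [0, 1, 0, 0, -1, -5, -5, 3] [-2, -2, 2, -1, -2, 2, 2, -1],
  .branch (894) 3 2009 [1, -4, -2, 4, -3, -3, 4, -1] 26000 [-1, -3, -2, 2, 3, -1, -5, 2],
  .rigid [-2, 2, 0, -3, 2, 1, -3, 1] [0, 0, 0, 0, 0, 0, 0, 1],
  .w2 [1, 1, 0, -1, -4, -8, -8, 5] [-3, -1, 3, -1, -1, 4, 1, -1],
  .w2 [0, 1, 0, 0, -1, -5, -5, 3] [-2, -2, 2, -1, -2, 2, 2, -1],
  .branch (368) 3 3041 [1, -4, 1, 1, -3, 6, -2] 9000 [0, -2, -2, 1, -1, -2, 1],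
  .rigid [-2, 2, -2, -1, 2, -3, 1] [0, 0, 0, 0, 0, 0, 1],
  .split,
  .split,
  .split,
  .split,
  .dead 19748 [-3, -6, -5, 2, -4, -3, 2],
  .dead 19825 [-3, -6, -5, 2, -4, -3, 2],
  .dead 52455 [-7, -18, -14, 2, -12, -6, 5],
  .split,
  .dead 20139 [-3, -6, -5, 2, -4, -3, 2],
  .dead 9727 [-2, -5, -3, 1, -3, -1, 1],
  .split,
  .split,
  .dead 9791 [-2, -5, -3, 1, -3, -1, 1],
  .dead 9858 [-2, -5, -3, 1, -3, -1, 1],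
  .dead 10000 [-2, -5, -3, 1, -3, -1, 1],
  .w2 [0, 1, 0, -1, -5, -5, 3] [-2, 0, 0, -2, 2, 2, -1],
  .branch (152) 4 7000 [2, 0, -3, 1, 5, -2] 28000 [-1, -5, -4, -3, -5, 3],
  .rigid [-2, 0, 0, -1, -2, 1] [0, 0, 0, 0, 0, 1],
  .split,
  .branch (377) 3 8813 [0, -2, -3, 0, 3, 4, -2] 18508 [-2, -6, -4, 1, 1, -5, 2],
  .branch (929) 3 17840 [-4, -5, -5, -2, 2, 6, 5, -3] 24173 [-1, -6, -4, 0, 4, 4, -7, 2],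
  .w2 [1, 2, -1, -4, -7, -15, -14, 9] [3, 3, 0, 2, 3, 2, 1, -1],
  .branch (2292) 5 58957 [-7, -33, -20, -5, 2, -7, -20, 22, -5] 22339 [0, -2, -3, 0, 6, 8, 1, -7, 2],
  .w2 [0, 0, 0, 0, -1, -4, -8, -8, 5] [2, -1, 0, 1, 1, 1, -2, 3, -1],
  .w2 [0, 1, 0, -1, -3, -5, -16, -14, 9] [2, 1, 1, 1, 1, 2, 0, 2, -1],
  .branch (5657) 5 57805 [-2, -19, -30, -7, 11, 4, -25, -12, 21, -5] 83183 [-3, -10, -2, 2, 13, 19, 10, 6, -18, 5],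
  .w2 [0, 0, 0, 0, -1, -4, -7, -17, -18, 11] [5, 0, -2, 1, 4, 0, -5, -2, 4, -1],
  .w2 [0, 1, 0, -1, -3, -4, -12, -29, -29, 18] [2, 0, 0, 1, 2, 2, -1, 1, 2, -1],
  .rigid [-2, -2, -2, -3, -3, -3, -2, -2, -1, 1] [0, 0, 0, 0, 0, 0, 0, 0, 0, 1],
  .w2 [2, 4, -5, -10, -18, -45, -116, -290, -281, 176] [-14, -1, -2, 3, -5, -7, 6, 6, 12, -6],
  .w2 [0, 0, 0, 0, 0, 0, -1, -5, -5, 3] [3, 2, 2, 2, 2, 2, 2, 0, -3, 1],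
  .w2 [1, 2, -1, -4, -6, -13, -37, -35, 22] [-5, -2, 3, 0, -3, -3, 4, 4, -2],
  .w2 [0, 0, 0, 0, 0, -1, -5, -5, 3] [-2, -2, -1, 0, -3, -2, 0, 3, -1],
  .w2 [1, 1, -1, -3, -4, -12, -11, 7] [5, -1, -2, 3, 3, 1, -6, 2],
  .split,
  .split,
  .split,
  .split,
  .dead 44008 [13, 13, 7, 6, 2, 2, -2],
  .dead 30105 [9, 8, 6, 5, 2, 0, -1],
  .split,
  .dead 18900 [6, 6, 4, 3, 1, 1, -1],
  .dead 18936 [6, 6, 4, 3, 1, 1, -1],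
  .split,
  .dead 19007 [6, 6, 4, 3, 1, 1, -1],
  .dead 19078 [6, 6, 4, 3, 1, 1, -1],
  .split,
  .split,
  .dead 39317 [13, 15, 9, 5, 2, 2, -2],
  .dead 20230 [6, 7, 6, 2, 1, 1, -1],
  .split,
  .dead 4426857 [1000, 1200, 800, 600, 200, 200, -200],
  .dead 22226 [5, 6, 4, 3, 1, 1, -1],
  .split,
  .split,
  .dead 11403 [2, 4, 2, 1, 0, 2, -1],
  .dead 11484 [2, 4, 2, 1, 0, 2, -1],
  .dead 11648 [2, 4, 2, 1, 0, 2, -1],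
  .split,
  .split,
  .split,
  .dead 39777 [11, 11, 9, 5, 0, -2],
  .dead 39942 [11, 11, 9, 5, 0, -2],
  .split,
  .dead 27420 [7, 7, 6, 5, 1, -2],
  .dead 27532 [7, 7, 6, 5, 1, -2]] goals2a9 = some goals2b9 := by
  decide +kernel

end Pool.Agent.MP1f45fc.SalemC
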