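import Pool.Agent.Lib.MP_1f45fc_nt.SalemC.Sps

set_option autoImplicit false

namespace Pool.Agent.MP1f45fc.SalemC

def goals2a100 : List Goal := [⟨[2, 5, 13, 34, 89, 233, 611, 1600, 4192], 299, 302, 320⟩,
  ⟨[2, 5, 13, 34, 89, 233, 611, 1600, 4192], 151, 154, 160⟩,
  ⟨[2, 5, 13, 34, 89, 233, 611, 1600, 4192], 77, 80, 80⟩,
  ⟨[2, 5, 13, 34, 89, 233, 611, 1600, 4193], 37, 40, 40⟩,
  ⟨[2, 5, 13, 34, 89, 233, 611, 1601], 37, 40, 40⟩]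

def goals2b100 : List Goal := []

theorem tree2x100_ok : runTo 2 false sps2 [
  .split,
  .dead 98181 [36, 29, 21, 20, 18, 14, 7, 4, -4],
  .dead 99392 [36, 29, 21, 20, 17, 17, 6, 4, -4],
  .split,
  .split,
  .dead 24401 [9, 7, 6, 5, 4, 3, 2, 1, -1],
  .dead 64589 [22, 20, 12, 11, 12, 11, 3, 4, -3],
  .split,
  .dead 39220 [13, 12, 8, 8, 8, 5, 2, 3, -2],
  .dead 39305 [13, 12, 8, 8, 8, 5, 2, 3, -2],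
  .branch (10981) 3 7000 [2, 0, 1, 1, -2, -3, 3, 0, 5, -2] 66000 [-3, 2, -4, 2, -2, -3, 8, -7, -14, 6],
  .branch (28766) 2 5000 [2, 3, 1, 0, 0, -1, 2, 0, 4, 1, -1] 40000 [0, -6, 5, -3, -1, -4, 7, -4, 9, -11, 3],
  .w2 [5, 14, 0, 0, 2, -5, 7, -8, 5, -111, 42] [-13, -19, -13, -11, -1, -4, -16, -15, -16, -9, 7],
  .w2 [6, 18, 0, 0, 3, -8, 10, -10, 10, -152, 57] [21, -4, 8, -12, 2, 1, 13, -12, 10, -29, 10],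
  .branch (28769) 5 13000 [3, 3, 1, 1, -1, -4, 0, -2, -1, 6, -2] 21000 [0, -1, 0, 0, 0, -1, 3, -1, 1, -3, 1],
  .rigid [-10, -7, -4, -5, 1, 0, -8, -4, -8, -9, 5] [0, 0, 0, 0, 0, 0, 0, 0, 0, 0, 1],
  .branch (75369) 5 20000 [-1, 1, 0, -3, -1, -8, -3, -6, -2, 0, 6, -2] 89000 [-3, -5, -1, 6, -8, -7, 13, -7, 11, 17, -21, 5],
  .w2 [2, 7, 0, 0, 1, -3, 5, -3, 0, -1, -154, 59] [-9, -7, -7, -3, -3, 4, -6, -1, -7, -6, -7, 4],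
  .split,
  .dead 122105 [52, 40, 30, 26, 25, 25, 20, 19, 13, 4, 0, -2],
  .dead 68000 [33, 24, 20, 16, 15, 17, 13, 12, 9, 3, -1, -1],
  .split,
  .dead 99237 [35, 30, 21, 17, 20, 16, 10, 14, 6, 2, 5, -3],
  .dead 28000 [-11, -8, -6, -6, -5, -6, -4, -3, -2, 0, -2, 1],
  .w2 [2, 5, 0, 0, 1, -3, 4, -3, 1, 2, -116, 44] [6, 3, 2, 1, -1, 1, 3, -3, 0, -2, -7, 3],
  .w2 [1, 2, 0, 0, 0, 0, 1, -1, 0, 2, -40, 15] [4, 2, 0, 1, -2, 1, 4, 0, 2, 0, -3, 1],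
  .split,
  .dead 43664 [-11, -8, -6, -6, -4, -8, -4, -6, -4, -5, 3],
  .dead 44000 [-11, -8, -6, -6, -4, -8, -4, -6, -4, -5, 3],
  .w2 [3, 8, 0, 0, 1, -2, 2, -1, 3, -77, 29] [7, 5, 2, 0, 2, -3, 1, -5, -3, -6, 3],
  .w2 [1, 4, 0, 0, 1, -3, 3, -1, 2, -40, 15] [4, 2, 0, 1, -1, -1, 4, -3, 0, -5, 2],
  .split,
  .dead 26795 [4, 1, 2, 0, 2, 4, 2, 6, 5, -3],
  .dead 27000 [4, 1, 2, 0, 2, 4, 2, 6, 5, -3],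
  .split,
  .split,
  .dead 23502 [0, -3, 2, 0, -4, -6, -1, -9, 4],
  .dead 16778 [0, -3, 2, -1, -2, -5, 0, -7, 3],
  .dead 47000 [0, -6, 4, -1, -6, -10, -3, -18, 8],
  .split,
  .split,
  .split,
  .dead 43738 [14, 8, 8, 9, 11, 9, 2, -3],
  .dead 43914 [14, 8, 8, 9, 11, 9, 2, -3],
  .split,
  .dead 32318 [9, 6, 5, 6, 7, 7, 1, -2],
  .dead 47231 [14, 8, 8, 9, 10, 11, 4, -4],
  .branch (4194) 2 6000 [1, 1, 0, 0, 0, -1, 2, 2, -1] 16000 [-2, 0, 1, 0, -4, -6, -3, -3, 2],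
  .branch (10989) 2 7000 [1, 3, 1, -2, -1, -3, 2, 4, 1, -1] 41000 [0, 0, 0, 0, 1, -4, 4, 2, -9, 3],
  .rigid [-4, -6, -2, 1, 1, 0, -4, -7, -2, 2] [0, 0, 0, 0, 0, 0, 0, 0, 0, 1],
  .w2 [4, 12, 0, 0, 2, -3, -2, 8, -55, 20] [-12, 3, 7, -1, 1, -1, -7, 2, 16, -6],
  .split,
  .dead 63535 [17, 4, 5, 7, 16, 18, 15, 1, -4],
  .dead 34000 [9, 1, 1, 5, 8, 11, 8, 0, -2]] goals2a100 = some goals2b100 := by
  decide +kernel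

def goals2a101 : List Goal := [⟨[2, 5, 13, 34, 89, 233, 612], 37, 40, 40⟩,
  ⟨[2, 5, 13, 34, 89, 234], 37, 40, 40⟩]

def goals2b101 : List Goal := [⟨[2, 5, 13, 34, 89, 234, 613, 1608, 4216, 11055, 28988], 77, 80, 80⟩,
  ⟨[2, 5, 13, 34, 89, 234, 613, 1608, 4216, 11055, 28989], 77, 80, 80⟩,
  ⟨[2, 5, 13, 34, 89, 234, 613, 1608, 4216, 11056], 77, 80, 80⟩,
  ⟨[2, 5, 13, 34, 89, 234, 613, 1608, 4217], 77, 80, 80⟩,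
  ⟨[2, 5, 13, 34, 89, 234, 613, 1608, 4218], 77, 80, 80⟩,
  ⟨[2, 5, 13, 34, 89, 234, 613, 1609], 37, 40, 40⟩,
  ⟨[2, 5, 13, 34, 89, 234, 614], 37, 40, 40⟩,
  ⟨[2, 5, 13, 34, 89, 234, 615], 37, 40, 40⟩]

theorem tree2x101_ok : runTo 2 false sps2 [
  .split,
  .dead 123201 [2, 4, -3, -16, -33, -45, 23],
  .dead 14000 [0, 2, -1, -2, -4, -6, 3],
  .branch (612) 4 12000 [1, 1, 0, -1, 1, 5, -2] 23000 [0, 1, 1, 0, -5, -6, 3],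
  .rigid [-2, -1, -1, -1, -1, -2, 1] [0, 0, 0, 0, 0, 0, 1],
  .branch (1607) 3 76000 [4, 15, -3, -3, -4, 30, 26, -14] 6000 [0, 0, 0, 0, 0, 1, -3, 1],
  .branch (4213) 3 8000 [1, 3, 3, -2, 0, 5, 4, 3, -2] 21000 [0, 0, 0, 0, -1, 3, 1, -6, 2],
  .branch (11045) 7 3000 [1, 2, 3, 1, 0, 3, 2, 3, 1, -1] 28000 [0, 0, 0, 0, 0, 0, 0, 1, -3, 1],
  .rigid [-4, -8, -9, -7, -5, -8, -9, -6, -1, 2] [0, 0, 0, 0, 0, 0, 0, 0, 0, 1],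
  .w2 [11, 29, 4, 1, -12, 10, 0, 2, -221, 84] [25, 16, -4, -11, 1, 17, -4, -23, -23, 12],
  .w2 [1, 3, 0, 0, 0, 1, 0, 1, -24, 9] [3, 2, 0, -2, 1, 4, 2, -3, -2, 1],
  .w2 [1, 2, 0, 0, 0, 1, -1, 2, -19, 7] [2, 3, 0, -2, 1, 4, 1, 0, -3, 1],
  .w2 [1, 2, 0, 0, 0, 1, -1, 2, -19, 7] [3, 0, 1, -2, 1, 4, 1, 0, -3, 1],
  .w2 [0, 1, 0, 0, 0, 0, 1, 2, -14, 5] [2, 0, -1, -1, 2, 1, 2, 0, -3, 1],
  .w2 [0, 1, 0, 0, 0, 0, 1, 0, -8, 3] [1, 1, -1, 0, -1, 2, 2, -1],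
  .split,
  .split,
  .split,
  .split,
  .dead 104491 [36, 31, 28, 18, 15, 4, 6, 6, -4],
  .dead 97034 [36, 32, 28, 18, 15, 4, 6, 6, -4],
  .split,
  .dead 97239 [36, 32, 27, 21, 14, 4, 6, 6, -4],
  .dead 111008 [36, 32, 27, 20, 16, 5, 7, 8, -5],
  .split,
  .split,
  .dead 111251 [36, 32, 27, 20, 16, 5, 7, 8, -5],
  .dead 67498 [23, 18, 18, 14, 9, 2, 4, 5, -3],
  .split,
  .dead 61808 [23, 19, 18, 13, 11, 4, 3, 5, -3],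
  .dead 61938 [23, 19, 18, 13, 11, 4, 3, 5, -3],
  .branch (11048) 3 7000 [4, -1, -1, 1, -1, 4, -3, -4, 7, -2] 41000 [-3, 1, 0, -3, -1, 5, 3, -5, -4, 2],
  .branch (28966) 2 10000 [6, 4, -3, -1, 2, 5, 0, -7, 3, 5, -2] 25000 [0, -4, -2, 2, -5, 7, -3, 0, 10, -9, 2],
  .w2 [3, 8, 0, 1, -3, 4, 1, -5, 3, -155, 59] [-10, -9, -2, -9, -9, -11, -6, 0, -10, -6, 4],
  .w2 [3, 8, 0, 1, -3, 4, 0, -3, 5, -156, 59] [12, -3, 3, 5, -4, 7, -7, -1, 6, -15, 5],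
  .split,
  .split,
  .dead 34557 [8, 3, 7, 8, 3, -2, 1, 7, 5, -3],
  .dead 34703 [-8, -3, -7, -8, -3, 2, -1, -7, -5, 3],
  .split,
  .dead 34851 [-8, -3, -7, -8, -3, 2, -1, -7, -5, 3],
  .dead 54000 [-12, -4, -11, -10, -7, 5, -1, -14, -5, 4],
  .w2 [2, 6, 0, 1, -3, 3, 1, -1, -47, 18] [5, 5, -2, 0, 1, 3, -1, -6, -3, 2],
  .w2 [1, 2, 0, 0, 0, 1, 0, -8, 3] [2, 0, -1, 0, 0, 1, -2, -2, 1],
  .split,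
  .split,
  .split,
  .split,
  .dead 60046 [23, 17, 14, 10, 11, 4, 1, -2],
  .dead 49487 [18, 15, 10, 9, 8, 3, 2, -2],
  .split,
  .dead 25296 [9, 7, 6, 5, 5, 1, 1, -1],
  .dead 25349 [9, 7, 6, 5, 5, 1, 1, -1],
  .split,
  .split,
  .dead 25402 [9, 7, 6, 5, 5, 1, 1, -1],
  .dead 25455 [9, 7, 6, 5, 5, 1, 1, -1],
  .dead 102207 [36, 29, 22, 19, 17, 8, 3, -4],
  .branch (4216) 3 6000 [2, 0, 1, 0, -1, 2, 0, 5, -2] 66000 [-3, 2, -3, -1, -3, 8, -7, -14, 6],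
  .branch (11055) 2 5000 [2, 3, 1, 0, -1, 2, 0, 4, 1, -1] 40000 [0, -6, 5, -3, -4, 7, -4, 9, -11, 3],
  .branch (28988) 2 15000 [3, 1, 5, 0, 0, 5, 2, 7, 1, 1, -1] 59000 [-3, 1, 0, 0, -11, 9, 0, 13, 3, -11, 3]] goals2a101 = some goals2b101 := by
  decide +kernel

def goals2a102 : List Goal := [⟨[2, 5, 13, 34, 89, 234, 613, 1608, 4216, 11055, 28988], 77, 80, 80⟩,
  ⟨[2, 5, 13, 34, 89, 234, 613, 1608, 4216, 11055, 28989], 77, 80, 80⟩,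
  ⟨[2, 5, 13, 34, 89, 234, 613, 1608, 4216, 11056], 77, 80, 80⟩,
  ⟨[2, 5, 13, 34, 89, 234, 613, 1608, 4217], 77, 80, 80⟩,
  ⟨[2, 5, 13, 34, 89, 234, 613, 1608, 4218], 77, 80, 80⟩,
  ⟨[2, 5, 13, 34, 89, 234, 613, 1609], 37, 40, 40⟩,
  ⟨[2, 5, 13, 34, 89, 234, 614], 37, 40, 40⟩,
  ⟨[2, 5, 13, 34, 89, 234, 615], 37, 40, 40⟩,
  ⟨[2, 5, 13, 34, 89, 235], 37, 40, 40⟩,
  ⟨[2, 5, 13, 34, 90], 37, 40, 40⟩]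

def goals2b102 : List Goal := [⟨[2, 5, 13, 34, 90, 236, 620, 1630], 77, 80, 80⟩,
  ⟨[2, 5, 13, 34, 90, 236, 620, 1631], 37, 40, 40⟩,
  ⟨[2, 5, 13, 34, 90, 236, 621], 37, 40, 40⟩,
  ⟨[2, 5, 13, 34, 90, 236, 622], 37, 40, 40⟩,
  ⟨[2, 5, 13, 34, 90, 237], 37, 40, 40⟩,
  ⟨[2, 5, 13, 34, 90, 238], 37, 40, 40⟩]

theorem tree2x102_ok : runTo 2 false sps2 [
  .w2 [1, 4, 0, 1, -3, 3, -2, 1, 0, -76, 29] [-4, -7, -7, -4, -4, -6, -5, -7, -3, 0, 1],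
  .w2 [1, 4, 0, 1, -3, 3, -2, 1, 0, -76, 29] [10, 10, 5, 4, 0, 11, 6, 8, 1, -10, 3],
  .w2 [2, 7, 0, 1, -3, 5, -5, 4, -56, 21] [8, -3, 3, -4, 1, 6, -5, 5, -12, 4],
  .branch (11058) 5 1076 [4, 1, -1, 2, -3, 2, -4, 2, 5, -2] 21000 [0, -1, 0, 0, -1, 3, -1, 1, -3, 1],
  .branch (28997) 3 4000 [2, 4, 0, 1, 0, 0, 0, -1, 2, 2, -1] 33000 [1, -3, -2, 2, -4, 4, -3, 3, 9, -9, 2],
  .w2 [0, 1, 0, 0, 0, 1, -2, 1, 1, -24, 9] [-2, -3, -1, -2, -1, -1, -1, -1, -2, 1],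
  .w2 [2, 5, 0, 1, -3, 4, -2, -2, 3, -116, 44] [-8, -8, -5, -5, -3, -4, -6, -5, -8, -1, 2],
  .w2 [1, 2, 0, 0, 0, 1, 0, -1, 0, -47, 18] [10, 4, 1, 4, -1, 7, 1, 6, 7, -9, 2],
  .split,
  .dead 42683 [17, 14, 11, 10, 8, 7, 7, 4, 2, -2],
  .dead 44000 [17, 14, 11, 9, 11, 6, 7, 4, 2, -2],
  .split,
  .dead 73459 [20, 17, 12, 14, 12, 2, 13, 7, 8, -5],
  .dead 21000 [-7, -6, -4, -5, -5, -2, -4, -1, -4, 2],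
  .w2 [2, 6, 0, 1, -3, 4, -1, 1, -58, 22] [5, 2, 3, -1, -1, 2, -4, -1, -7, 3],
  .w2 [1, 3, 0, 0, 0, 2, -2, 1, -29, 11] [3, 1, 2, -2, -1, 3, 0, -2, -2, 1],
  .split,
  .dead 39720 [6, 5, 6, 3, 7, 1, 9, 9, -5],
  .dead 30000 [5, 3, 5, 2, 5, 3, 7, 7, -4],
  .split,
  .split,
  .dead 25448 [1, 3, 1, 3, 6, 1, 9, -4],
  .dead 37445 [0, 6, -1, 5, 7, 1, 14, -6],
  .split,
  .dead 16889 [0, -2, 0, -2, -5, 0, -7, 3],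
  .dead 20000 [0, 5, -1, 2, 4, 2, 9, -4],
  .split,
  .split,
  .split,
  .dead 31055 [9, 6, 6, 5, 5, 2, -2],
  .dead 31186 [9, 6, 6, 5, 5, 2, -2],
  .split,
  .dead 31318 [9, 6, 6, 5, 5, 2, -2],
  .dead 32452 [9, 6, 5, 7, 7, 1, -2],
  .split,
  .split,
  .dead 32587 [9, 6, 5, 7, 7, 1, -2],
  .dead 32723 [9, 6, 5, 7, 7, 1, -2],
  .dead 48000 [14, 8, 8, 10, 11, 4, -4],
  .split,
  .dead 24704 [-2, 1, -1, -4, -10, -6, 4],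
  .dead 14000 [1, -2, 1, 2, 5, 3, -2],
  .split,
  .dead 38451 [1, 1, 6, 11, 13, -7],
  .dead 18000 [0, 1, 3, 5, 8, -4],
  .branch (235) 4 12000 [1, 1, -1, 1, 5, -2] 23000 [0, 2, 0, -5, -6, 3],
  .rigid [-2, -1, -1, -1, -2, 1] [0, 0, 0, 0, 0, 1],
  .branch (620) 3 37000 [2, 7, -3, 1, 14, 13, -7] 6000 [0, 0, 0, 0, 1, -3, 1],
  .branch (1629) 3 6000 [0, 3, 2, 0, 2, 5, 3, -2] 21000 [0, 0, 0, -1, 3, 1, -6, 2],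
  .branch (4280) 4 5000 [1, 4, 4, 5, 6, 7, 2, 3, -2] 60000 [-1, -1, 1, -5, 6, 1, 2, -9, 3],
  .branch (11245) 5 5000 [6, 8, 4, 4, 12, 5, 2, 1, 4, -2] 16000 [-1, -1, 0, -1, 2, 1, 1, 3, -4, 1],
  .w2 [1, 4, 1, -3, 3, -2, 1, 0, -76, 29] [-5, -9, -10, -9, -9, -10, -7, -2, 0, 1],
  .rigid [-2, -5, -7, -7, -7, -7, -6, -3, 0, 1] [0, 0, 0, 0, 0, 0, 0, 0, 0, 1],
  .w2 [1, 3, 0, 0, 1, 0, -1, 0, -47, 18] [5, 6, 6, 4, 6, 5, 2, -1, -3, 1],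
  .w2 [1, 2, 0, 0, 1, -1, 0, 2, -40, 15] [4, 8, 4, 5, 6, 5, 2, -1, -3, 1],
  .w2 [0, 1, 0, 0, 0, 1, -1, 1, -16, 6] [2, 2, 2, 2, 2, 3, 1, -1],
  .w2 [5, 15, 3, -8, 6, -1, 0, -110, 42] [12, 9, -2, -4, 7, -1, -13, -11, 6],
  .w2 [1, 3, 1, -3, 2, 0, 1, -24, 9] [3, 2, -1, 1, 2, 0, -2, -2, 1],
  .w2 [1, 3, 1, -3, 2, 0, 1, -24, 9] [3, 2, -1, 0, 4, 2, -3, -2, 1],
  .split,
  .split,
  .split,
  .split,
  .dead 69705 [23, 19, 17, 12, 3, 3, 5, -3],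
  .dead 73726 [23, 20, 17, 12, 2, 5, 7, -4],
  .split,
  .dead 44706 [14, 11, 10, 8, 2, 3, 3, -2],
  .dead 44803 [14, 11, 10, 8, 2, 3, 3, -2],
  .split,
  .split,
  .dead 44900 [14, 11, 10, 8, 2, 3, 3, -2],
  .dead 29363 [9, 9, 7, 4, 0, 2, 4, -2],
  .dead 66865 [23, 20, 20, 11, 2, 5, 7, -4]] goals2a102 = some goals2b102 := by
  decide +kernel

def goals2a103 : List Goal := [⟨[2, 5, 13, 34, 90, 236, 620, 1630], 77, 80, 80⟩,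
  ⟨[2, 5, 13, 34, 90, 236, 620, 1631], 37, 40, 40⟩,
  ⟨[2, 5, 13, 34, 90, 236, 621], 37, 40, 40⟩,
  ⟨[2, 5, 13, 34, 90, 236, 622], 37, 40, 40⟩,
  ⟨[2, 5, 13, 34, 90, 237], 37, 40, 40⟩,
  ⟨[2, 5, 13, 34, 90, 238], 37, 40, 40⟩,
  ⟨[2, 5, 13, 34, 91], 37, 40, 40⟩,
  ⟨[2, 5, 13, 35], 37, 40, 40⟩]

def goals2b103 : List Goal := [⟨[2, 5, 13, 35, 92, 243], 77, 80, 80⟩,
  ⟨[2, 5, 13, 35, 92, 244], 77, 80, 80⟩,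
  ⟨[2, 5, 13, 35, 92, 245], 77, 80, 80⟩,
  ⟨[2, 5, 13, 35, 93], 37, 40, 40⟩,
  ⟨[2, 5, 13, 35, 94], 37, 40, 40⟩]

theorem tree2x103_ok : runTo 2 false sps2 [
  .branch (4283) 2 7000 [4, 0, -4, 1, 4, -3, -4, 7, -2] 29000 [-4, 1, -3, -4, 6, 3, -5, -4, 2],
  .branch (11256) 2 9000 [2, 3, -7, -2, 6, -1, -9, 4, 5, -2] 34000 [0, -4, -3, 2, 5, -2, -3, 11, -9, 2],
  .rigid [-4, -4, -1, -4, -7, -3, 0, -5, -3, 2] [0, 0, 0, 0, 0, 0, 0, 0, 0, 1],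
  .w2 [3, 8, 1, -2, 1, 1, -3, 5, -156, 59] [12, -3, 3, 4, 3, -7, -1, 6, -15, 5],
  .split,
  .split,
  .dead 40502 [8, 3, 8, 8, -5, -2, 11, 4, -3],
  .dead 29759 [6, 2, 6, 6, -4, -1, 9, 2, -2],
  .dead 118000 [24, 9, 24, 23, -13, -3, 29, 13, -9],
  .w2 [1, 2, 0, 0, 1, 0, -8, 3] [2, 0, -1, 0, 1, -2, -2, 1],
  .split,
  .split,
  .split,
  .dead 213447 [73, 58, 40, 34, 11, 10, -9],
  .dead 106231 [36, 31, 19, 18, 6, 6, -5],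
  .split,
  .dead 66544 [23, 18, 12, 11, 5, 3, -3],
  .dead 66829 [23, 18, 12, 11, 5, 3, -3],
  .branch (1632) 2 6000 [2, 0, 1, -1, 2, 0, 5, -2] 22000 [-4, -4, -6, -5, -1, -6, -5, 3],
  .branch (4290) 2 6000 [3, 3, 1, 3, 4, 3, 4, 3, -2] 48000 [0, -4, 2, -5, 7, -4, 9, -11, 3],
  .branch (11277) 3 5000 [5, -1, 3, -1, 6, -4, 7, -7, 7, -2] 40000 [-2, -1, -3, -1, 4, 0, 9, 1, -7, 2],
  .w2 [1, 2, 0, 0, 1, -1, 1, -1, -39, 15] [-4, -2, -5, -2, -5, -1, -3, 0, -2, 1],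
  .rigid [-2, -3, -4, -3, -4, -3, -4, -2, -1, 1] [0, 0, 0, 0, 0, 0, 0, 0, 0, 1],
  .w2 [1, 4, 1, -3, 3, -2, 1, 1, -79, 30] [6, 5, 1, 1, 4, 2, 2, -2, -5, 2],
  .w2 [3, 9, 2, -6, 7, -5, 3, -74, 28] [11, -4, 3, -3, 7, -7, 4, -14, 5],
  .split,
  .dead 39685 [14, 13, 10, 7, 4, 5, 2, -2],
  .dead 21000 [7, 6, 6, 4, 3, 2, 1, -1],
  .split,
  .split,
  .dead 31338 [2, 6, 3, 7, 2, 11, -5],
  .dead 21704 [1, 5, 3, 3, 2, 9, -4],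
  .split,
  .dead 17870 [1, 3, 2, 2, 1, 7, -3],
  .dead 25000 [0, -5, -3, -3, -2, -9, 4],
  .split,
  .split,
  .split,
  .dead 24247 [7, 4, 4, 4, 0, -1],
  .dead 24351 [7, 4, 4, 4, 0, -1],
  .split,
  .dead 24456 [7, 4, 4, 4, 0, -1],
  .dead 31452 [9, 6, 7, 4, 2, -2],
  .split,
  .dead 44631 [14, 8, 10, 9, 2, -3],
  .dead 33000 [9, 6, 6, 7, 1, -2],
  .split,
  .split,
  .dead 27398 [3, 1, 4, 8, 4, -3],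
  .dead 15779 [2, -1, 2, 5, 3, -2],
  .dead 17000 [2, 1, 3, 6, 5, -3],
  .split,
  .split,
  .dead 10784 [1, 2, 2, 4, -2],
  .dead 10854 [1, 2, 2, 4, -2],
  .dead 32000 [1, 4, 8, 9, -5],
  .branch (91) 4 13000 [1, 1, -2, 6, -2] 20000 [0, 1, -5, -6, 3],
  .rigid [-2, -1, -1, -2, 1] [0, 0, 0, 0, 1],
  .split,
  .split,
  .split,
  .split,
  .dead 23196 [7, 5, 3, 0, -1],
  .dead 23247 [7, 5, 3, 0, -1],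
  .split,
  .dead 23299 [7, 5, 3, 0, -1],
  .dead 23351 [7, 5, 3, 0, -1],
  .split,
  .split,
  .dead 23404 [7, 5, 3, 0, -1],
  .dead 23456 [7, 5, 3, 0, -1],
  .split,
  .dead 23509 [7, 5, 3, 0, -1],
  .dead 23562 [7, 5, 3, 0, -1],
  .branch (243) 3 5000 [0, 1, -1, 2, 2, -1] 6000 [0, 0, 0, 1, -3, 1]] goals2a103 = some goals2b103 := by
  decide +kernel

def goals2a104 : List Goal := [⟨[2, 5, 13, 35, 92, 243], 77, 80, 80⟩,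
  ⟨[2, 5, 13, 35, 92, 244], 77, 80, 80⟩,
  ⟨[2, 5, 13, 35, 92, 245], 77, 80, 80⟩,
  ⟨[2, 5, 13, 35, 93], 37, 40, 40⟩,
  ⟨[2, 5, 13, 35, 94], 37, 40, 40⟩,
  ⟨[2, 5, 13, 36], 37, 40, 40⟩,
  ⟨[2, 5, 14], 37, 40, 40⟩,
  ⟨[2, 5, 15], 37, 40, 40⟩,
  ⟨[2, 5, 16], 37, 40, 40⟩,
  ⟨[2, 5, 17], 37, 40, 40⟩,
  ⟨[2, 5, 18], 37, 40, 40⟩,
  ⟨[2, 6], 17, 20, 20⟩]

def goals2b104 : List Goal := [⟨[2, 6, 16], 71, 74, 80⟩,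
  ⟨[2, 6, 17], 34, 37, 40⟩,
  ⟨[2, 6, 18], 34, 37, 40⟩,
  ⟨[2, 6, 19], 34, 37, 40⟩,
  ⟨[2, 6, 20], 34, 37, 40⟩,
  ⟨[2, 6, 21], 34, 37, 40⟩,
  ⟨[2, 6], 37, 40, 40⟩]

theorem tree2x104_ok : runTo 2 false sps2 [
  .branch (642) 2 8000 [0, 2, 1, 3, 3, 1, -1] 20000 [0, 1, -4, 4, 1, -6, 2],
  .branch (1697) 2 8000 [0, 1, 2, 5, 4, 2, 1, -1] 9000 [-1, -1, -1, 2, 2, 0, -3, 1],
  .branch (4484) 3 8000 [1, 3, 3, 8, 6, 1, -1, 5, -2] 27000 [-7, -4, 0, 9, 5, 2, 0, -6, 2],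
  .w2 [1, 5, -3, 3, -2, 2, -3, -75, 29] [-4, -8, -8, -11, -9, -5, -3, 0, 1],
  .branch (11851) 5 58000 [-2, 5, -4, 9, 1, -4, -15, -10, 14, -3] 80000 [-13, -8, -3, 20, 14, 1, 5, 5, -11, 3],
  .w2 [0, 1, 0, 0, 1, 0, -1, 0, -47, 18] [-11, -8, -2, -4, 1, 4, 8, 1, -7, 2],
  .rigid [-2, -3, -4, -6, -6, -5, -3, -2, -1, 1] [0, 0, 0, 0, 0, 0, 0, 0, 0, 1],
  .w2 [16, 60, -22, 17, -1, 6, -5, 7, -2479, 946] [38, 60, 42, 29, -3, -40, -53, -56, -17, 18],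
  .w2 [1, 2, 0, 1, -1, -1, 1, 1, -79, 30] [-6, -10, -12, -16, -13, -7, -2, 2, 3, -1],
  .w2 [0, 1, 0, 0, 1, -1, 1, -1, -39, 15] [-3, -6, -9, -8, -7, -4, -2, 1, 3, -1],
  .w2 [1, 2, 0, 1, -1, 2, -1, -47, 18] [4, 6, 5, 6, 3, 1, -3, -2, 1],
  .w2 [3, 8, -2, 1, -1, 3, -56, 21] [6, 4, 0, 1, -1, -5, -6, 3],
  .split,
  .split,
  .dead 36530 [9, 10, 8, 0, 3, 6, -3],
  .dead 26778 [7, 6, 8, -1, 2, 4, -2],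
  .split,
  .dead 26889 [7, 6, 8, -1, 2, 4, -2],
  .dead 27000 [7, 6, 8, -1, 2, 4, -2],
  .split,
  .dead 69408 [23, 19, 13, 3, 3, -3],
  .dead 43000 [14, 11, 7, 3, 2, -2],
  .split,
  .dead 17870 [1, 3, 2, 1, 7, -3],
  .dead 15000 [0, 3, 3, -1, 5, -2],
  .split,
  .split,
  .dead 32188 [9, 7, 6, 1, -2],
  .dead 32452 [9, 7, 6, 1, -2],
  .split,
  .dead 32723 [9, 7, 6, 1, -2],
  .dead 28000 [7, 4, 5, 2, -2],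
  .split,
  .dead 8890 [2, 2, 3, 1, -1],
  .dead 9000 [2, 2, 3, 1, -1],
  .split,
  .split,
  .dead 10784 [1, 2, 4, -2],
  .dead 10854 [1, 2, 4, -2],
  .dead 11000 [1, 2, 4, -2],
  .branch (36) 4 9000 [0, 0, 3, -1] 22000 [-4, -3, -3, 2],
  .rigid [-2, -1, -2, 1] [0, 0, 0, 1],
  .split,
  .split,
  .split,
  .dead 16499 [6, 3, 0, -1],
  .dead 16568 [6, 3, 0, -1],
  .split,
  .dead 16638 [6, 3, 0, -1],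
  .dead 16708 [6, 3, 0, -1],
  .split,
  .split,
  .dead 16780 [6, 3, 0, -1],
  .dead 16853 [6, 3, 0, -1],
  .split,
  .dead 16926 [6, 3, 0, -1],
  .dead 17000 [6, 3, 0, -1],
  .split,
  .split,
  .dead 17568 [6, 3, 0, -1],
  .dead 33415 [8, 5, 1, -2],
  .split,
  .dead 33704 [8, 5, 1, -2],
  .dead 34000 [8, 5, 1, -2],
  .split,
  .dead 13781 [3, 2, 1, -1],
  .dead 14000 [3, 2, 1, -1],
  .split,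
  .split,
  .dead 11675 [1, 1, -1],
  .dead 11781 [1, 1, -1],
  .split,
  .dead 11889 [1, 1, -1],
  .dead 12000 [1, 1, -1],
  .split,
  .dead 12781 [-1, -1, 1],
  .dead 13000 [-1, -1, 1],
  .split,
  .dead 38305 [-1, -1, 2],
  .dead 39000 [-1, -1, 2],
  .split,
  .dead 25524 [0, 0, 1],
  .dead 26000 [0, 0, 1],
  .split,
  .branch (15) 7 1855 [1, 2, -1] 29994 [0, 0, 1],
  .rigid [-2, -2, 1] [0, 0, 1],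
  .split,
  .split,
  .split,
  .dead 20579 [-4, 1, 1],
  .dead 20666 [-4, 1, 1],
  .split,
  .dead 20755 [-4, 1, 1],
  .dead 20845 [-4, 1, 1]] goals2a104 = some goals2b104 := by
  decide +kernel

def goals2a105 : List Goal := [⟨[2, 6, 16], 71, 74, 80⟩,
  ⟨[2, 6, 17], 34, 37, 40⟩,
  ⟨[2, 6, 18], 34, 37, 40⟩,
  ⟨[2, 6, 19], 34, 37, 40⟩,
  ⟨[2, 6, 20], 34, 37, 40⟩,
  ⟨[2, 6, 21], 34, 37, 40⟩,
  ⟨[2, 6], 37, 40, 40⟩,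
  ⟨[2, 7], 17, 20, 20⟩,
  ⟨[2, 8], 17, 20, 20⟩,
  ⟨[3], 17, 20, 20⟩]

def goals2b105 : List Goal := []

theorem tree2x105_ok : runTo 2 false sps2 [
  .split,
  .split,
  .dead 20935 [-4, 1, 1],
  .dead 21027 [-4, 1, 1],
  .split,
  .dead 21119 [-4, 1, 1],
  .dead 21213 [-4, 1, 1],
  .split,
  .split,
  .dead 16028 [-3, 0, 1],
  .dead 16158 [-3, 0, 1],
  .dead 16427 [3, 0, -1],
  .split,
  .split,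
  .dead 109930 [-6, 0, 5],
  .split,
  .dead 22635 [-1, 0, 1],
  .dead 22734 [-1, 0, 1],
  .split,
  .split,
  .dead 22833 [-1, 0, 1],
  .dead 22934 [-1, 0, 1],
  .dead 23138 [-1, 0, 1],
  .split,
  .split,
  .dead 49829 [-1, 0, 2],
  .dead 50254 [-1, 0, 2],
  .split,
  .dead 50688 [-1, 0, 2],
  .dead 51132 [-1, 0, 2],
  .split,
  .dead 79775 [-1, 0, 3],
  .dead 27994 [0, 0, 1],
  .split,
  .dead 28521 [0, 0, 1],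
  .dead 28994 [0, 0, 1],
  .branch (15) 7 7000 [1, 3, -1] 31000 [0, 0, 1],
  .rigid [-2, -2, 1] [0, 0, 1],
  .split,
  .split,
  .dead 55480 [-12, 2, 3],
  .dead 55975 [-12, 2, 3],
  .split,
  .dead 34686 [-8, 1, 2],
  .dead 35000 [-8, 1, 2],
  .split,
  .dead 16707 [3, 0, -1],
  .dead 17000 [3, 0, -1],
  .split,
  .split,
  .dead 23347 [-1, 0, 1],
  .dead 23560 [-1, 0, 1],
  .split,
  .dead 23778 [-1, 0, 1],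
  .dead 24000 [-1, 0, 1],
  .split,
  .split,
  .dead 27238 [0, 0, 1],
  .dead 27487 [0, 0, 1],
  .split,
  .dead 27741 [0, 0, 1],
  .dead 28000 [0, 0, 1],
  .split,
  .dead 28487 [0, 0, 1],
  .dead 29000 [0, 0, 1],
  .split,
  .dead 29487 [0, 0, 1],
  .dead 30000 [0, 0, 1],
  .split,
  .split,
  .dead 25635 [-1, 3],
  .dead 482073 [0, 50],
  .split,
  .dead 9817 [0, 1],
  .dead 10000 [0, 1],
  .split,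
  .dead 10642 [0, 1],
  .dead 11000 [0, 1],
  .branch (8) 4 1004 [3, -1] 16000 [0, 1],
  .rigid [-3, 1] [0, 1],
  .split,
  .split,
  .dead 12362 [0, 1],
  .dead 12567 [0, 1],
  .split,
  .dead 12780 [0, 1],
  .dead 13000 [0, 1],
  .split,
  .dead 13567 [0, 1],
  .dead 14000 [0, 1],
  .split,
  .dead 14567 [0, 1],
  .dead 15000 [0, 1]] goals2a105 = some goals2b105 := by
  decide +kernel

end Pool.Agent.MP1f45fc.SalemC
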