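import Pool.Agent.Lib.MP_1f45fc_nt.SalemC.Sps

set_option autoImplicit false

namespace Pool.Agent.MP1f45fc.SalemC

def goals2a60 : List Goal := [⟨[2, 5, 13, 34, 89, 234, 613, 1608, 4218], 139, 142, 160⟩,
  ⟨[2, 5, 13, 34, 89, 234, 613, 1608, 4218], 71, 74, 80⟩,
  ⟨[2, 5, 13, 34, 89, 234, 613, 1608, 4219], 34, 37, 40⟩,
  ⟨[2, 5, 13, 34, 89, 234, 613, 1608, 4220], 34, 37, 40⟩,
  ⟨[2, 5, 13, 34, 89, 234, 613, 1609], 34, 37, 40⟩,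
  ⟨[2, 5, 13, 34, 89, 234, 614], 34, 37, 40⟩,
  ⟨[2, 5, 13, 34, 89, 234, 615], 34, 37, 40⟩,
  ⟨[2, 5, 13, 34, 89, 235], 34, 37, 40⟩]

def goals2b60 : List Goal := [⟨[2, 5, 13, 34, 89, 235], 145, 148, 160⟩]

theorem tree2x60_ok : runTo 2 false sps2 [
  .split,
  .dead 190386 [42, 31, 36, 23, 33, 14, 36, 26, -17],
  .dead 69905 [16, 12, 15, 8, 14, 6, 14, 11, -7],
  .split,
  .split,
  .dead 53686 [11, 7, 9, 7, 8, 4, 10, 8, -5],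
  .dead 41435 [8, 6, 8, 6, 7, 3, 9, 6, -4],
  .split,
  .dead 63758 [12, 9, 12, 9, 9, 9, 12, 9, -6],
  .dead 50451 [8, 7, 8, 5, 9, 4, 10, 8, -5],
  .w2 [2, 5, 0, 1, -3, 4, -1, -21, 8] [3, 2, 0, 0, -2, 0, -3, -4, 2],
  .w2 [1, 1, 0, 0, 0, 1, -1, -5, 2] [1, 1, -1, 0, 0, 1, -2, -2, 1],
  .split,
  .split,
  .split,
  .dead 56754 [5, 10, 3, 9, 12, 4, 17, -8],
  .dead 38971 [3, 8, 2, 5, 8, 3, 13, -6],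
  .split,
  .dead 30580 [2, 7, 1, 4, 7, 2, 11, -5],
  .dead 37358 [2, 6, 3, 5, 8, 3, 13, -6],
  .split,
  .split,
  .dead 37493 [2, 6, 3, 5, 8, 3, 13, -6],
  .dead 22265 [1, 6, 0, 3, 6, 1, 9, -4],
  .dead 47677 [2, 9, 1, 6, 12, 2, 18, -8],
  .split,
  .split,
  .split,
  .split,
  .split,
  .dead 113088 [37, 23, 21, 19, 15, 5, -6],
  .dead 113207 [37, 23, 21, 19, 15, 5, -6],
  .split,
  .dead 113326 [37, 23, 21, 19, 15, 5, -6],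
  .dead 113445 [37, 23, 21, 19, 15, 5, -6],
  .split,
  .split,
  .dead 75000 [23, 14, 14, 11, 9, 4, -4],
  .dead 75080 [23, 14, 14, 11, 9, 4, -4],
  .split,
  .dead 46027 [14, 8, 7, 8, 6, 1, -2],
  .dead 46077 [14, 8, 7, 8, 6, 1, -2],
  .split,
  .split,
  .dead 229323 [73, 49, 40, 40, 32, 9, -12],
  .dead 115404 [37, 23, 21, 18, 18, 4, -6],
  .branch (1610) 1 5701 [1, 1, 0, 0, -1, 2, 2, -1] 117120 [-38, -25, -17, -22, -20, -12, -1, 4],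
  .branch (4224) 1 12425 [2, 6, 1, -2, -4, 3, 8, 2, -2] 15157 [1, -2, -4, -1, 0, 3, 1, -6, 2],
  .split,
  .dead 50220 [13, 5, 6, 8, 8, -1, -10, -2, 2],
  .dead 50321 [13, 4, 8, 10, 7, -1, -10, -2, 2],
  .split,
  .split,
  .split,
  .dead 30477 [9, 6, 6, 5, 5, 2, -2],
  .dead 30540 [9, 6, 6, 5, 5, 2, -2],
  .split,
  .dead 30604 [9, 6, 6, 5, 5, 2, -2],
  .dead 30668 [9, 6, 6, 5, 5, 2, -2],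
  .split,
  .split,
  .dead 30732 [9, 6, 6, 5, 5, 2, -2],
  .dead 30796 [9, 6, 6, 5, 5, 2, -2],
  .dead 42567 [14, 8, 9, 9, 7, 3, -3],
  .split,
  .split,
  .dead 25853 [3, 0, 2, 6, 9, 6, -4],
  .dead 28803 [-2, 0, -2, -6, -9, -6, 4],
  .split,
  .dead 19361 [-2, 1, -2, -3, -6, -5, 3],
  .dead 32052 [-2, 2, 0, -7, -9, -6, 4],
  .split,
  .split,
  .split,
  .dead 30298 [2, 2, 5, 8, 9, -5],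
  .dead 30406 [2, 2, 5, 8, 9, -5],
  .dead 30624 [2, 2, 5, 8, 9, -5],
  .split,
  .dead 33665 [1, 2, 5, 8, 9, -5]] goals2a60 = some goals2b60 := by
  decide +kernel

def goals2a61 : List Goal := [⟨[2, 5, 13, 34, 89, 235], 145, 148, 160⟩,
  ⟨[2, 5, 13, 34, 90], 34, 37, 40⟩]

def goals2b61 : List Goal := [⟨[2, 5, 13, 34, 90, 236, 621, 1633], 1091, 1094, 1280⟩,
  ⟨[2, 5, 13, 34, 90, 236, 621, 1633], 547, 550, 640⟩,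
  ⟨[2, 5, 13, 34, 90, 236, 621, 1633], 275, 278, 320⟩,
  ⟨[2, 5, 13, 34, 90, 236, 621, 1633], 139, 142, 160⟩,
  ⟨[2, 5, 13, 34, 90, 236, 621, 1633], 71, 74, 80⟩,
  ⟨[2, 5, 13, 34, 90, 236, 621, 1634], 34, 37, 40⟩,
  ⟨[2, 5, 13, 34, 90, 236, 621, 1635], 34, 37, 40⟩,
  ⟨[2, 5, 13, 34, 90, 236, 621, 1636], 34, 37, 40⟩,
  ⟨[2, 5, 13, 34, 90, 236, 622], 34, 37, 40⟩,
  ⟨[2, 5, 13, 34, 90, 237], 34, 37, 40⟩,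
  ⟨[2, 5, 13, 34, 90, 238], 34, 37, 40⟩]

theorem tree2x61_ok : runTo 2 false sps2 [
  .dead 22354 [1, 0, 3, 5, 8, -4],
  .branch (235) 4 11649 [1, 1, -1, 1, 5, -2] 47897 [-1, 6, -4, -13, -13, 7],
  .rigid [-2, -1, -1, -1, -2, 1] [0, 0, 0, 0, 0, 1],
  .branch (620) 3 50334 [3, 9, -2, 2, 21, 18, -10] 5856 [0, 0, 0, 0, 1, -3, 1],
  .branch (1629) 3 7800 [1, 3, 2, -1, 5, 4, 3, -2] 20358 [0, 0, 0, -1, 3, 1, -6, 2],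
  .branch (4280) 7 3877 [2, 3, 4, 3, 5, 5, 4, 0, -1] 81280 [0, 0, 1, -4, 4, -1, 3, -9, 3],
  .branch (11246) 5 38 [4, 6, 8, 8, 9, 6, 6, 3, 0, -1] 16577 [-1, -1, 0, -1, 2, 1, 1, 3, -4, 1],
  .rigidL [-2, -5, -7, -7, -7, -7, -6, -3, 0, 1] [0, 0, 0, 0, 0, 0, 0, 0, 0, 1] [-1, 1],
  .w2 [1, 3, 0, 0, 1, 0, -1, 0, -47, 18] [5, 6, 6, 4, 6, 5, 2, -1, -3, 1],
  .w2 [1, 2, 0, 0, 1, -1, 0, 2, -40, 15] [4, 8, 4, 5, 6, 5, 2, -1, -3, 1],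
  .w2 [0, 1, 0, 0, 0, 1, -1, 1, -16, 6] [2, 2, 2, 2, 2, 3, 1, -1],
  .w2 [0, 1, 0, 0, 0, 1, -1, 1, -16, 6] [2, 2, 2, 2, 2, 3, 1, -1],
  .w2 [5, 15, 3, -8, 6, -1, 0, -110, 42] [12, 9, -2, -4, 7, -1, -13, -11, 6],
  .w2 [1, 3, 1, -3, 2, 0, 1, -24, 9] [3, 2, -1, 1, 2, 0, -2, -2, 1],
  .w2 [1, 3, 1, -3, 2, 0, 1, -24, 9] [3, 2, -1, 0, 4, 2, -3, -2, 1],
  .w2 [1, 2, 0, 0, 1, -1, 0, -13, 5] [2, 1, 1, -2, 2, 2, 0, -3, 1],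
  .w2 [0, 1, 0, 0, 0, 1, 2, -14, 5] [1, 2, 1, -2, 2, 2, 0, -3, 1],
  .w2 [0, 1, 0, 0, 0, 1, 1, -11, 4] [1, 0, -1, -1, 2, 2, 0, -3, 1],
  .split,
  .branch (4283) 4 5803 [4, -1, -2, 3, 3, -3, -4, 7, -2] 21846 [-1, -1, 0, -1, 3, 0, -2, -2, 1],
  .branch (11256) 2 1763 [6, 6, -3, 2, 7, 1, -5, 2, 5, -2] 23878 [1, -7, -2, 2, 5, -3, 0, 10, -9, 2],
  .rigid [-4, -4, -1, -4, -7, -3, 0, -5, -3, 2] [0, 0, 0, 0, 0, 0, 0, 0, 0, 1],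
  .w2 [3, 8, 1, -2, 1, 1, -3, 5, -156, 59] [12, -3, 3, 4, 3, -7, -1, 6, -15, 5],
  .split,
  .split,
  .split,
  .dead 99289 [22, 11, 20, 17, -3, 4, 22, 9, -7],
  .dead 99496 [22, 11, 20, 17, -3, 4, 22, 9, -7],
  .split,
  .dead 68640 [15, 7, 13, 11, -2, 1, 15, 7, -5],
  .dead 68784 [15, 7, 13, 11, -2, 1, 15, 7, -5],
  .split,
  .split,
  .dead 68928 [15, 7, 13, 11, -2, 1, 15, 7, -5],
  .dead 69072 [15, 7, 13, 11, -2, 1, 15, 7, -5],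
  .split,
  .dead 69217 [15, 7, 13, 11, -2, 1, 15, 7, -5],
  .dead 61888 [15, 8, 13, 11, -2, 1, 15, 7, -5],
  .w2 [2, 6, 1, -3, 3, 1, -1, -47, 18] [5, 5, -2, 0, 3, -1, -6, -3, 2],
  .w2 [1, 3, 1, -3, 2, 1, 0, -29, 11] [3, 2, 1, 0, 2, 1, -5, -1, 1],
  .branch (4283) 3 6862 [4, -1, -1, 0, 4, -3, -4, 7, -2] 74354 [-5, 3, -4, -6, 11, 5, -7, -9, 4],
  .branch (11256) 2 7795 [6, 3, -1, -1, 9, -1, -7, 3, 5, -2] 24229 [1, -7, -2, 2, 5, -3, 0, 10, -9, 2],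
  .rigid [-4, -4, -1, -4, -7, -3, 0, -5, -3, 2] [0, 0, 0, 0, 0, 0, 0, 0, 0, 1],
  .w2 [3, 8, 1, -2, 1, 1, -3, 5, -156, 59] [12, -3, 3, 4, 3, -7, -1, 6, -15, 5],
  .split,
  .split,
  .split,
  .dead 52432 [-12, -4, -9, -11, 3, -1, -11, -6, 4],
  .dead 52539 [-12, -4, -9, -11, 3, -1, -11, -6, 4],
  .dead 109339 [-23, -10, -21, -19, 7, 1, -26, -11, 8],
  .split,
  .dead 70327 [-16, -5, -14, -12, 5, -1, -18, -6, 5],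
  .dead 21347 [6, 2, 6, 5, -1, -1, 6, 3, -2],
  .w2 [2, 6, 1, -3, 3, 1, -1, -47, 18] [5, 5, -2, 0, 3, -1, -6, -3, 2],
  .w2 [1, 2, 0, 0, 1, 0, -8, 3] [2, 0, -1, 0, 1, -2, -2, 1],
  .branch (1632) 5 5868 [2, 0, 1, -1, 2, 0, 5, -2] 30064 [0, 0, 0, -1, 4, -2, -5, 2],
  .branch (4290) 5 8668 [3, 5, 3, 2, 4, 3, 4, 3, -2] 46357 [0, 0, 0, -1, 3, -2, 5, -7, 2],
  .branch (11278) 4 2875 [2, 1, 4, 1, 3, 2, 3, 0, 2, -1] 13727 [-1, -1, 0, -1, 3, -3, 5, 2, -4, 1],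
  .rigid [-2, -3, -4, -3, -4, -3, -4, -2, -1, 1] [0, 0, 0, 0, 0, 0, 0, 0, 0, 1],
  .w2 [1, 4, 1, -3, 3, -2, 1, 1, -79, 30] [6, 5, 1, 1, 4, 2, 2, -2, -5, 2],
  .w2 [0, 1, 0, 0, 1, -2, 2, 0, -29, 11] [4, 5, 2, 3, 3, 3, 5, 1, -4, 1],
  .w2 [0, 1, 0, 0, 0, 1, 0, -1, -18, 7] [4, 2, 2, 2, 2, 2, 3, 2, -4, 1],
  .w2 [3, 9, 2, -6, 7, -5, 3, -74, 28] [11, -4, 3, -3, 7, -7, 4, -14, 5],
  .w2 [1, 2, 0, 0, 1, -1, 0, -13, 5] [3, -2, 2, -2, 3, -2, 4, -4, 1],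
  .w2 [0, 1, 0, 0, 1, -2, 2, -11, 4] [2, -1, 2, -2, 3, -2, 4, -4, 1],
  .w2 [0, 1, 0, 0, 0, 1, 0, -8, 3] [2, -2, 0, -1, 3, -2, 4, -4, 1],
  .split,
  .split,
  .split,
  .split,
  .split,
  .dead 71031 [24, 17, 13, 11, 4, 4, 2, -2]] goals2a61 = some goals2b61 := by
  decide +kernel

def goals2a62 : List Goal := [⟨[2, 5, 13, 34, 90, 236, 621, 1633], 1091, 1094, 1280⟩,
  ⟨[2, 5, 13, 34, 90, 236, 621, 1633], 547, 550, 640⟩,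
  ⟨[2, 5, 13, 34, 90, 236, 621, 1633], 275, 278, 320⟩,
  ⟨[2, 5, 13, 34, 90, 236, 621, 1633], 139, 142, 160⟩,
  ⟨[2, 5, 13, 34, 90, 236, 621, 1633], 71, 74, 80⟩,
  ⟨[2, 5, 13, 34, 90, 236, 621, 1634], 34, 37, 40⟩,
  ⟨[2, 5, 13, 34, 90, 236, 621, 1635], 34, 37, 40⟩,
  ⟨[2, 5, 13, 34, 90, 236, 621, 1636], 34, 37, 40⟩,
  ⟨[2, 5, 13, 34, 90, 236, 622], 34, 37, 40⟩,
  ⟨[2, 5, 13, 34, 90, 237], 34, 37, 40⟩,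
  ⟨[2, 5, 13, 34, 90, 238], 34, 37, 40⟩]

def goals2b62 : List Goal := []

theorem tree2x62_ok : runTo 2 false sps2 [
  .dead 71107 [24, 17, 13, 11, 4, 4, 2, -2],
  .split,
  .dead 71182 [24, 17, 13, 11, 4, 4, 2, -2],
  .dead 71258 [24, 17, 13, 11, 4, 4, 2, -2],
  .split,
  .dead 8797757 [3040, 2280, 1760, 1260, 660, 560, 180, -240],
  .dead 109329 [38, 29, 21, 17, 7, 8, 2, -3],
  .split,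
  .split,
  .dead 109558 [38, 29, 21, 17, 7, 8, 2, -3],
  .dead 37923 [14, 12, 8, 6, 3, 4, 0, -1],
  .split,
  .dead 38000 [14, 12, 8, 6, 3, 4, 0, -1],
  .dead 38078 [14, 12, 8, 6, 3, 4, 0, -1],
  .split,
  .split,
  .split,
  .dead 38155 [14, 12, 8, 6, 3, 4, 0, -1],
  .dead 38233 [14, 12, 8, 6, 3, 4, 0, -1],
  .split,
  .dead 38311 [14, 12, 8, 6, 3, 4, 0, -1],
  .dead 38389 [14, 12, 8, 6, 3, 4, 0, -1],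
  .split,
  .dead 38545 [14, 12, 8, 6, 3, 4, 0, -1],
  .dead 63906 [24, 18, 15, 12, 5, 6, 1, -2],
  .split,
  .split,
  .split,
  .split,
  .dead 27325 [7, 7, 6, 4, 2, 4, 3, -2],
  .dead 47169 [10, 8, 9, 7, 1, 7, 7, -4],
  .dead 63457 [15, 12, 12, 10, 5, 9, 8, -5],
  .split,
  .dead 44752 [10, 9, 9, 6, 3, 9, 6, -4],
  .dead 28782 [8, 5, 9, 5, 3, 5, 5, -3],
  .split,
  .split,
  .dead 48988 [10, 9, 11, 8, 2, 8, 9, -5],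
  .dead 43269 [8, 5, 9, 5, 2, 7, 7, -4],
  .dead 35968 [8, 6, 9, 5, 2, 7, 7, -4],
  .w2 [2, 6, 1, -3, 4, 0, -24, 9] [4, 3, -1, 0, -1, -3, -4, 2],
  .w2 [1, 1, 0, 0, 1, -1, -5, 2] [1, 1, -1, 0, 1, -2, -2, 1],
  .split,
  .split,
  .split,
  .dead 54674 [7, 11, 8, 8, 2, 13, -6],
  .dead 44508 [5, 9, 5, 8, 1, 11, -5],
  .split,
  .dead 33259 [3, 7, 3, 5, 1, 9, -4],
  .dead 24819 [2, 6, 2, 4, 0, 7, -3],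
  .split,
  .split,
  .dead 32701 [3, 7, 5, 6, 2, 11, -5],
  .dead 31735 [2, 5, 4, 5, 1, 9, -4],
  .dead 37905 [2, 10, 4, 6, 1, 14, -6],
  .split,
  .split,
  .split,
  .split,
  .dead 75778 [23, 15, 13, 10, 3, -4],
  .dead 75936 [23, 15, 13, 10, 3, -4],
  .split,
  .dead 76096 [23, 15, 13, 10, 3, -4],
  .dead 76255 [23, 15, 13, 10, 3, -4],
  .split,
  .split,
  .dead 76415 [23, 15, 13, 10, 3, -4],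
  .dead 76576 [23, 15, 13, 10, 3, -4],
  .split,
  .dead 23690 [7, 4, 4, 4, 0, -1],
  .dead 23740 [7, 4, 4, 4, 0, -1],
  .split,
  .split,
  .dead 120282 [37, 24, 20, 20, 5, -7],
  .dead 78550 [23, 15, 12, 13, 2, -4],
  .split,
  .dead 78880 [23, 15, 12, 13, 2, -4],
  .dead 50211 [14, 8, 8, 7, 3, -3],
  .split,
  .split,
  .dead 117694 [22, 11, 20, 27, 14, -11],
  .dead 8678 [2, 2, 2, 3, 1, -1],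
  .split,
  .dead 8731 [2, 2, 2, 3, 1, -1],
  .dead 30131 [4, 2, 5, 10, 3, -3]] goals2a62 = some goals2b62 := by
  decide +kernel

def goals2a63 : List Goal := [⟨[2, 5, 13, 34, 91], 34, 37, 40⟩,
  ⟨[2, 5, 13, 35], 34, 37, 40⟩]

def goals2b63 : List Goal := [⟨[2, 5, 13, 35, 92, 244], 145, 148, 160⟩,
  ⟨[2, 5, 13, 35, 92, 245], 34, 37, 40⟩,
  ⟨[2, 5, 13, 35, 93], 34, 37, 40⟩,
  ⟨[2, 5, 13, 35, 94], 34, 37, 40⟩,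
  ⟨[2, 5, 13, 35, 95], 34, 37, 40⟩]

theorem tree2x63_ok : runTo 2 false sps2 [
  .split,
  .split,
  .dead 79506 [10, 12, 15, 17, -10],
  .dead 19158 [2, 4, 5, 5, -3],
  .split,
  .dead 30761 [3, 4, 6, 7, -4],
  .dead 15499 [1, 3, 4, 3, -2],
  .branch (91) 5 11649 [1, 0, 1, 5, -2] 5925 [0, 1, -2, -2, 1],
  .rigid [-2, -1, -1, -2, 1] [0, 0, 0, 0, 1],
  .branch (242) 4 5862 [0, 1, -1, 2, 2, -1] 5856 [0, 0, 0, 1, -3, 1],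
  .w2 [2, 6, -3, 2, -3, 1] [2, 3, 2, 3, 1, -1],
  .branch (642) 3 3945 [0, 2, 3, 4, 4, 3, -2] 20358 [0, 0, -1, 3, 1, -6, 2],
  .branch (1697) 7 13463 [2, 6, 7, 10, 9, 6, 1, -2] 28069 [0, 0, 0, 0, 0, 1, -3, 1],
  .branch (4484) 6 2872 [4, 5, 2, 5, 5, -1, 1, 2, -1] 16578 [-1, -1, -2, 5, 0, 1, 3, -4, 1],
  .w2 [1, 5, -3, 3, -2, 2, -3, -75, 29] [-4, -8, -8, -11, -9, -5, -3, 0, 1],
  .branch (11850) 9 59224 [-2, 5, -4, 9, 1, -4, -15, -10, 14, -3] 34085 [-2, -2, -4, 9, 4, -3, 5, 8, -9, 2],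
  .w2 [0, 0, 0, 0, 0, 1, -1, 0, -13, 5] [3, 2, 0, 1, -1, -3, -3, -2, 4, -1],
  .w2 [0, 1, 0, 0, 1, 0, -1, 0, -47, 18] [-11, -8, -2, -4, 1, 4, 8, 1, -7, 2],
  .rigid [-2, -3, -4, -6, -6, -5, -3, -2, -1, 1] [0, 0, 0, 0, 0, 0, 0, 0, 0, 1],
  .w2 [16, 60, -22, 17, -1, 6, -5, 7, -2479, 946] [38, 60, 42, 29, -3, -40, -53, -56, -17, 18],
  .w2 [1, 2, 0, 1, -1, -1, 1, 1, -79, 30] [-6, -10, -12, -16, -13, -7, -2, 2, 3, -1],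
  .w2 [0, 1, 0, 0, 1, -1, 1, -1, -39, 15] [-3, -6, -9, -8, -7, -4, -2, 1, 3, -1],
  .w2 [0, 1, 0, 0, 1, -1, -1, 1, -29, 11] [-3, -4, -6, -8, -6, -2, -3, 1, 3, -1],
  .w2 [0, 0, 0, 0, 0, 1, 0, -1, -18, 7] [-2, -3, -3, -6, -3, -2, -1, 0, 3, -1],
  .w2 [0, 0, 0, 0, 0, 1, 0, -1, -18, 7] [2, 3, 3, 6, 3, 1, 3, 2, -4, 1],
  .w2 [1, 2, 0, 1, -1, 2, -1, -47, 18] [4, 6, 5, 6, 3, 1, -3, -2, 1],
  .w2 [0, 1, 0, 0, 1, 0, -1, -18, 7] [2, 3, 3, 4, 2, 1, -1],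
  .w2 [0, 1, 0, 0, 1, 0, -1, -18, 7] [2, 3, 3, 4, 2, 1, 0, -3, 1],
  .w2 [0, 1, 0, 0, 1, -1, 1, -16, 6] [2, 2, 2, 2, 3, 1, -1],
  .w2 [3, 8, -2, 1, -1, 3, -56, 21] [6, 4, 0, 1, -1, -5, -6, 3],
  .w2 [1, 2, 0, 1, -1, 0, -13, 5] [2, 1, 0, 2, 0, -2, -2, 1],
  .w2 [1, 2, 0, 1, -1, 2, -19, 7] [2, 3, -1, 2, 0, -2, -2, 1],
  .w2 [1, 2, 0, 1, -1, 0, -13, 5] [2, 1, 0, 2, -1, 1, -3, 1],
  .w2 [0, 1, 0, 0, 1, 0, -8, 3] [1, 0, 1, 2, -1],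
  .w2 [0, 1, 0, 0, 1, 0, -8, 3] [1, 0, 1, 2, -1],
  .split,
  .split,
  .split,
  .split,
  .split,
  .dead 43978 [14, 12, 10, 1, 3, 3, -2],
  .dead 44024 [14, 12, 10, 1, 3, 3, -2],
  .split,
  .dead 44070 [14, 12, 10, 1, 3, 3, -2],
  .dead 44115 [14, 12, 10, 1, 3, 3, -2],
  .split,
  .split,
  .dead 44161 [14, 12, 10, 1, 3, 3, -2],
  .dead 44207 [14, 12, 10, 1, 3, 3, -2],
  .split,
  .dead 44253 [14, 12, 10, 1, 3, 3, -2],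
  .dead 44299 [14, 12, 10, 1, 3, 3, -2],
  .split,
  .split,
  .dead 88781 [28, 24, 20, 2, 6, 6, -4],
  .dead 44483 [14, 12, 10, 1, 3, 3, -2],
  .split,
  .dead 44576 [14, 12, 10, 1, 3, 3, -2],
  .dead 44668 [14, 12, 10, 1, 3, 3, -2],
  .split,
  .split,
  .split,
  .dead 82728 [24, 18, 16, 3, 4, 7, -4],
  .dead 53369 [14, 12, 10, 1, 2, 6, -3],
  .split,
  .dead 53484 [14, 12, 10, 1, 2, 6, -3],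
  .dead 31662 [9, 9, 8, 1, 1, 4, -2],
  .split,
  .split,
  .dead 31727 [9, 9, 8, 1, 1, 4, -2],
  .dead 31791 [9, 9, 8, 1, 1, 4, -2],
  .split,
  .dead 31856 [9, 9, 8, 1, 1, 4, -2],
  .dead 31921 [9, 9, 8, 1, 1, 4, -2],
  .w2 [1, 2, 0, 1, 0, -8, 3] [2, 0, -1, 1, -2, -2, 1],
  .split,
  .split,
  .split,
  .split,
  .dead 114080 [38, 27, 16, 6, 3, -4],
  .dead 72175 [23, 19, 10, 4, 3, -3],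
  .split,
  .dead 72327 [23, 19, 10, 4, 3, -3],
  .dead 72480 [23, 19, 10, 4, 3, -3],
  .split,
  .split,
  .dead 72633 [23, 19, 10, 4, 3, -3],
  .dead 72786 [23, 19, 10, 4, 3, -3],
  .split,
  .dead 72940 [23, 19, 10, 4, 3, -3],
  .dead 73095 [23, 19, 10, 4, 3, -3],
  .split,
  .split,
  .split,
  .dead 47572 [14, 10, 8, 0, 3, -2],
  .dead 47672 [14, 10, 8, 0, 3, -2],
  .dead 236530 [74, 59, 35, 11, 11, -10]] goals2a63 = some goals2b63 := by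
  decide +kernel

def goals2a64 : List Goal := [⟨[2, 5, 13, 35, 92, 244], 145, 148, 160⟩,
  ⟨[2, 5, 13, 35, 92, 245], 34, 37, 40⟩,
  ⟨[2, 5, 13, 35, 93], 34, 37, 40⟩,
  ⟨[2, 5, 13, 35, 94], 34, 37, 40⟩,
  ⟨[2, 5, 13, 35, 95], 34, 37, 40⟩,
  ⟨[2, 5, 13, 36], 34, 37, 40⟩,
  ⟨[2, 5, 14], 34, 37, 40⟩,
  ⟨[2, 5, 15], 34, 37, 40⟩,
  ⟨[2, 5, 16], 34, 37, 40⟩,
  ⟨[2, 5, 17], 34, 37, 40⟩]

def goals2b64 : List Goal := []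

theorem tree2x64_ok : runTo 2 false sps2 [
  .split,
  .dead 74032 [23, 19, 10, 4, 3, -3],
  .dead 41566 [14, 11, 7, 3, 2, -2],
  .split,
  .split,
  .split,
  .dead 27412 [3, 7, 5, -1, 7, -3],
  .dead 24634 [2, 6, 3, 0, 7, -3],
  .split,
  .dead 24727 [2, 6, 3, 0, 7, -3],
  .dead 24822 [2, 6, 3, 0, 7, -3],
  .split,
  .dead 25012 [2, 6, 3, 0, 7, -3],
  .dead 25204 [2, 6, 3, 0, 7, -3],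
  .split,
  .split,
  .split,
  .split,
  .dead 23404 [7, 5, 3, 0, -1],
  .dead 23452 [7, 5, 3, 0, -1],
  .dead 23548 [7, 5, 3, 0, -1],
  .split,
  .dead 23646 [7, 5, 3, 0, -1],
  .dead 23744 [7, 5, 3, 0, -1],
  .split,
  .split,
  .dead 23843 [7, 5, 3, 0, -1],
  .dead 23942 [7, 5, 3, 0, -1],
  .split,
  .dead 24043 [7, 5, 3, 0, -1],
  .dead 24145 [7, 5, 3, 0, -1],
  .split,
  .split,
  .dead 32279 [7, 3, 7, 4, -3],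
  .dead 8680 [2, 2, 3, 1, -1],
  .split,
  .dead 8732 [2, 2, 3, 1, -1],
  .dead 8784 [2, 2, 3, 1, -1],
  .split,
  .dead 11669 [1, 0, 3, 4, -2],
  .dead 14635 [0, 0, 3, 4, -2],
  .split,
  .split,
  .dead 17036 [3, 3, 3, -2],
  .dead 28534 [3, 6, 4, -3],
  .split,
  .dead 26852 [2, 4, 5, -3],
  .dead 15501 [2, 1, 4, -2],
  .branch (36) 4 8717 [0, 0, 3, -1] 21425 [-4, -3, -3, 2],
  .rigid [-2, -1, -2, 1] [0, 0, 0, 1],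
  .split,
  .split,
  .split,
  .split,
  .split,
  .dead 60546 [16, 8, 0, -3],
  .dead 60611 [16, 8, 0, -3],
  .dead 216180 [64, 31, -1, -11],
  .split,
  .dead 84381 [24, 12, -1, -4],
  .dead 84561 [24, 12, -1, -4],
  .split,
  .split,
  .dead 84742 [24, 12, -1, -4],
  .dead 84924 [24, 12, -1, -4],
  .branch (99) 1 11501 [-2, 1, 4, 4, -2] 74211 [-24, -16, -1, -3, 3],
  .split,
  .dead 16132 [6, 3, 0, -1],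
  .dead 16164 [6, 3, 0, -1],
  .split,
  .split,
  .split,
  .dead 16197 [6, 3, 0, -1],
  .dead 16230 [6, 3, 0, -1],
  .split,
  .dead 16263 [6, 3, 0, -1],
  .dead 16296 [6, 3, 0, -1],
  .split,
  .dead 427528 [128, 65, -5, -21],
  .dead 16431 [6, 3, 0, -1],
  .split,
  .split,
  .split,
  .dead 16971 [6, 3, 0, -1],
  .dead 17035 [6, 3, 0, -1],
  .dead 17164 [6, 3, 0, -1],
  .split,
  .dead 17296 [6, 3, 0, -1],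
  .dead 17431 [6, 3, 0, -1],
  .split,
  .dead 13368 [3, 2, 1, -1],
  .dead 13571 [3, 2, 1, -1],
  .split,
  .split,
  .dead 11275 [1, 1, -1],
  .dead 11372 [1, 1, -1],
  .split,
  .dead 11471 [1, 1, -1],
  .dead 11572 [1, 1, -1],
  .split,
  .dead 12372 [-1, -1, 1],
  .dead 12572 [-1, -1, 1],
  .split,
  .dead 37005 [-1, -1, 2],
  .dead 37640 [-1, -1, 2]] goals2a64 = some goals2b64 := by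
  decide +kernel

def goals2a65 : List Goal := [⟨[2, 5, 18], 34, 37, 40⟩,
  ⟨[2, 5, 19], 34, 37, 40⟩,
  ⟨[2, 5, 20], 34, 37, 40⟩,
  ⟨[2, 5], 37, 40, 40⟩]

def goals2b65 : List Goal := [⟨[2, 5, 13, 33, 86, 223, 577, 1496, 3876], 74, 77, 80⟩,
  ⟨[2, 5, 13, 33, 86, 223, 577], 77, 80, 80⟩,
  ⟨[2, 5, 13, 33, 86, 223, 578], 37, 40, 40⟩,
  ⟨[2, 5, 13, 33, 87], 37, 40, 40⟩,
  ⟨[2, 5, 13, 34], 37, 40, 40⟩,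
  ⟨[2, 5, 13, 35], 37, 40, 40⟩,
  ⟨[2, 5, 13, 36], 37, 40, 40⟩,
  ⟨[2, 5, 14], 37, 40, 40⟩,
  ⟨[2, 5, 15], 37, 40, 40⟩,
  ⟨[2, 5, 16], 37, 40, 40⟩,
  ⟨[2, 5, 17], 37, 40, 40⟩,
  ⟨[2, 5, 18], 37, 40, 40⟩]

theorem tree2x65_ok : runTo 2 false sps2 [
  .split,
  .dead 66426 [0, -1, 3],
  .dead 25069 [0, 0, 1],
  .split,
  .dead 25634 [0, 0, 1],
  .dead 26069 [0, 0, 1],
  .dead 27069 [0, 0, 1],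
  .branch (12) 7 3000 [2, 2, -1] 151000 [-1, -1, 6],
  .branch (30) 3 9000 [4, 8, 4, -3] 5000 [0, -1, -2, 1],
  .rigid [-2, -3, -1, 1] [0, 0, 0, 1],
  .branch (78) 2 27000 [17, 17, 14, 24, -13] 68000 [0, 5, -40, -30, 18],
  .branch (198) 2 5487 [10, 15, 8, 16, 9, -7] 29000 [5, 1, -8, -7, -24, 11],
  .branch (501) 2 48000 [10, 11, 8, 17, 14, 24, -13] 42000 [9, 10, -11, 1, -22, -24, 13],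
  .rigid [-2, -3, -3, -3, -2, -1, 1] [0, 0, 0, 0, 0, 0, 1],
  .branch (1272) 2 441000 [107, 54, -77, 129, -38, 101, 256, -117] 196000 [11, 33, -6, -10, -37, -64, -47, 31],
  .rigid [-2, -1, 0, -2, 0, -1, -2, 1] [0, 0, 0, 0, 0, 0, 0, 1],
  .branch (3227) 1 332000 [63, 53, -51, 6, -15, -27, 81, 128, -61] 40190 [3, 36, 19, 3, -49, -64, -59, -25, 24],
  .rigid [-2, -1, 2, 1, 1, 1, -2, -2, 1] [0, 0, 0, 0, 0, 0, 0, 0, 1],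
  .branch (505) 1 2000 [8, -1, -2, 3, -3, 16, -6] 84000 [1, 24, -19, -23, -64, -34, 25],
  .rigid [-2, 1, 1, 0, 1, -3, 1] [0, 0, 0, 0, 0, 0, 1],
  .branch (201) 2 2000 [3, 2, -2, 3, 4, -2] 53000 [-3, 5, -14, -24, -19, 12],
  .branch (512) 2 24018 [15, 25, -15, -5, 40, 26, -16] 66000 [5, 1, -23, -2, -17, -40, 19],
  .branch (1303) 2 56000 [6, 10, -5, 1, 8, 20, 24, -13] 65666 [36, 29, -125, -21, 64, -111, -128, 65],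
  .rigid [-2, -3, -1, 0, -2, -3, -1, 1] [0, 0, 0, 0, 0, 0, 0, 1],
  .branch (3321) 1 15000 [509, 117, -685, 533, 567, -544, 450, 1024, -455] 57993 [25, 93, -159, -154, 98, -7, -256, -139, 94],
  .rigid [-2, 1, 3, -3, -2, 4, 0, -3, 1] [0, 0, 0, 0, 0, 0, 0, 0, 1],
  .branch (1307) 1 2384 [54, -9, -51, 31, -18, -3, 128, -49] 149000 [-18, 22, -88, -43, -6, -128, -64, 47],
  .rigid [-2, 1, 1, -2, 1, 1, -3, 1] [0, 0, 0, 0, 0, 0, 0, 1],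
  .branch (515) 2 25000 [17, 12, -25, -14, 23, 40, -18] 76103 [-18, 11, -32, -43, -64, -43, 30],
  .rigid [-2, -1, 2, 1, -2, -2, 1] [0, 0, 0, 0, 0, 0, 1],
  .split,
  .split,
  .dead 336309 [84, 8, 66, 128, 120, 27, -39],
  .dead 205543 [41, 2, 32, 64, 62, 14, -20],
  .dead 186000 [38, -1, 31, 64, 64, 16, -21],
  .branch (82) 1 6000 [1, 0, -1, 3, -1] 20000 [-4, -1, -12, -5, 4],
  .rigid [-2, 1, 1, -3, 1] [0, 0, 0, 0, 1],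
  .branch (32) 5 17000 [0, 2, 5, -2] 3000 [1, -2, -2, 1],
  .w2 [1, 1, 3, -1] [2, 3, 1, -1],
  .branch (86) 2 3000 [1, 4, 4, 3, -2] 12000 [1, 2, -1, -5, 2],
  .branch (221) 3 6000 [0, 0, 0, -1, 3, -1] 4000 [1, 2, -1, -3, -4, 2],
  .w2 [1, 2, 0, -2, 6, -2] [1, 1, 1, 1, 2, -1],
  .rigid [-2, -3, -4, -2, -1, 1] [0, 0, 0, 0, 0, 1],
  .branch (576) 3 35000 [0, 0, 1, -4, 1, 8, -3] 10000 [1, 5, 3, -2, -3, -4, 2],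
  .w2 [-1, -2, 0, 1, 0, -8, 3] [2, 0, -1, -1, 2, 2, -1],
  .split,
  .branch (1496) 1 102041 [259, 354, 239, 129, 225, 321, 103, -107] 12817 [4, 1, 1, -1, 2, 4, -7, 2],
  .branch (3876) 1 55947 [3, -8, 4, -5, 2, -2, -19, 18, -4] 4748 [8, 11, 5, 2, 3, 4, -8, -3, 2]] goals2a65 = some goals2b65 := by
  decide +kernel

def goals2a66 : List Goal := [⟨[2, 5, 13, 33, 86, 223, 577, 1496, 3876], 74, 77, 80⟩,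
  ⟨[2, 5, 13, 33, 86, 223, 577], 77, 80, 80⟩,
  ⟨[2, 5, 13, 33, 86, 223, 578], 37, 40, 40⟩,
  ⟨[2, 5, 13, 33, 87], 37, 40, 40⟩,
  ⟨[2, 5, 13, 34], 37, 40, 40⟩]

def goals2b66 : List Goal := [⟨[2, 5, 13, 34, 89, 233, 610, 1597, 4179], 37, 40, 40⟩,
  ⟨[2, 5, 13, 34, 89, 233, 610, 1597, 4180], 37, 40, 40⟩,
  ⟨[2, 5, 13, 34, 89, 233, 610, 1597, 4181], 37, 40, 40⟩,
  ⟨[2, 5, 13, 34, 89, 233, 610, 1597, 4182], 37, 40, 40⟩,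
  ⟨[2, 5, 13, 34, 89, 233, 610, 1597, 4183], 37, 40, 40⟩,
  ⟨[2, 5, 13, 34, 89, 233, 610, 1598], 37, 40, 40⟩,
  ⟨[2, 5, 13, 34, 89, 233, 610, 1599], 37, 40, 40⟩,
  ⟨[2, 5, 13, 34, 89, 233, 611], 37, 40, 40⟩,
  ⟨[2, 5, 13, 34, 89, 233, 612], 37, 40, 40⟩,
  ⟨[2, 5, 13, 34, 89, 234], 37, 40, 40⟩,
  ⟨[2, 5, 13, 34, 89, 235], 37, 40, 40⟩,
  ⟨[2, 5, 13, 34, 90], 37, 40, 40⟩,
  ⟨[2, 5, 13, 34, 91], 37, 40, 40⟩]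

theorem tree2x66_ok : runTo 2 false sps2 [
  .rigid [-2, 1, 0, 1, 0, 0, 1, -3, 1] [0, 0, 0, 0, 0, 0, 0, 0, 1],
  .branch (1494) 3 30000 [-4, 3, 1, -8, -2, 5, 4, -2] 13000 [4, 1, 1, -1, 2, 4, -7, 2],
  .w2 [-2, -4, -3, 3, 0, -2, -36, 14] [3, 5, 0, -3, 1, 3, 4, -2],
  .rigid [-2, -3, -2, -1, -2, -3, -1, 1] [0, 0, 0, 0, 0, 0, 0, 1],
  .branch (3876) 1 57000 [3, -8, 4, -5, 2, -2, -19, 18, -4] 5000 [8, 11, 5, 2, 3, 4, -8, -3, 2],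
  .rigid [-2, 1, 0, 1, 0, 0, 1, -3, 1] [0, 0, 0, 0, 0, 0, 0, 0, 1],
  .branch (1493) 6 53000 [0, 0, 1, -3, 1, -2, 6, -2] 4077 [3, 7, 9, -2, -11, -7, -1, 2],
  .w2 [0, -1, 0, 0, 1, 0, -8, 3] [1, -1, -1, -4, -1, 0, 3, -1],
  .w2 [0, -1, 0, 0, 1, 0, -8, 3] [1, -1, -1, -4, -1, 0, 3, -1],
  .w2 [0, -1, 0, 0, 1, 0, -8, 3] [2, -1, -1, -4, -1, 0, 3, -1],
  .w2 [-1, -2, 0, 1, -1, -1, -10, 4] [2, 1, -2, -4, -1, 0, 3, -1],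
  .w2 [-1, -2, 0, 1, -1, -1, -10, 4] [2, 1, -2, -4, -1, 0, 3, -1],
  .rigid [-2, -1, 1, 3, 0, -2, -2, 1] [0, 0, 0, 0, 0, 0, 0, 1],
  .branch (226) 1 3000 [0, 0, 0, -1, 3, -1] 6000 [0, 2, -1, -4, -1, 1],
  .rigid [-2, 1, 0, 1, -3, 1] [0, 0, 0, 0, 0, 1],
  .branch (87) 5 3001 [0, -1, 2, 2, -1] 3000 [0, 1, -2, -2, 1],
  .w2 [1, 4, -1, 3, -1] [2, 1, 1, 2, -1],
  .branch (229) 3 21000 [-1, 1, 4, 6, 5, -3] 13000 [1, 1, 0, 2, -6, 2],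
  .w2 [2, 5, -1, 2, 2, -1] [1, 2, 2, 3, 1, -1],
  .branch (600) 1 6000 [0, 3, 8, 8, 4, 2, -2] 12000 [1, 5, 0, 0, -5, -6, 3],
  .branch (1563) 3 21000 [0, 0, 0, 1, -3, -1, 6, -2] 14000 [1, 5, 4, 3, -4, -5, -3, 2],
  .w2 [-1, -2, 0, 0, 1, 0, -8, 3] [2, 0, -1, 0, -1, 2, 2, -1],
  .rigid [-2, -3, -4, -5, -3, -2, -1, 1] [0, 0, 0, 0, 0, 0, 0, 1],
  .branch (4076) 6 28000 [0, 0, 0, 0, 0, 0, -1, 3, -1] 11000 [4, 10, 11, 7, -6, -10, -7, -1, 2],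
  .w2 [0, -1, 0, 0, 0, 1, 0, -8, 3] [0, 1, 0, -2, -1, -2, 1],
  .w2 [0, -1, 0, 0, 0, 1, 0, -8, 3] [1, 1, 0, -2, -1, -2, 1],
  .w2 [0, -1, 0, 0, 0, 1, 0, -8, 3] [1, 1, 0, -2, -1, -2, 1],
  .w2 [-1, -1, 0, 0, 1, -2, 2, -11, 4] [2, 1, -2, -3, -3, -1, 0, 3, -1],
  .w2 [-1, -2, 0, 0, 1, -1, -1, -10, 4] [2, 1, -2, -3, -3, -1, 0, 3, -1],
  .rigid [-2, -1, 1, 2, 2, 0, -2, -2, 1] [0, 0, 0, 0, 0, 0, 0, 0, 1],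
  .branch (603) 1 3000 [0, 0, 0, 0, -1, 3, -1] 6000 [0, 1, 1, -1, -4, -1, 1],
  .rigid [-2, 1, 0, 0, 1, -3, 1] [0, 0, 0, 0, 0, 0, 1],
  .branch (231) 5 3001 [0, 0, -1, 2, 2, -1] 3000 [0, 0, 1, -2, -2, 1],
  .w2 [1, 4, 0, -1, 3, -1] [2, 1, 1, 1, 2, -1],
  .branch (606) 3 17000 [-1, 2, 2, 4, 4, 3, -2] 13000 [1, 1, 0, 0, 2, -6, 2],
  .w2 [3, 7, 0, -1, 1, 5, -2] [2, 4, 3, 4, 2, 1, -1],
  .branch (1586) 2 17000 [-1, -2, 3, 4, 4, 0, 7, -3] 30000 [2, 6, 4, 2, 2, -11, -12, 6],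
  .w2 [7, 14, 1, -3, 7, -5, 22, -8] [3, 7, 9, 9, 9, 3, 2, -2],
  .rigid [-2, -5, -7, -7, -6, -3, 0, 1] [0, 0, 0, 0, 0, 0, 0, 1],
  .branch (1590) 1 3000 [0, 0, 0, 0, 0, -1, 3, -1] 6000 [0, 1, 0, 1, -1, -4, -1, 1],
  .rigid [-2, 1, 0, 0, 0, 1, -3, 1] [0, 0, 0, 0, 0, 0, 0, 1],
  .branch (608) 5 3001 [0, 0, 0, -1, 2, 2, -1] 3000 [0, 0, 0, 1, -2, -2, 1],
  .w2 [1, 4, 0, 0, -1, 3, -1] [2, 1, 1, 1, 1, 2, -1],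
  .branch (1593) 3 14000 [-2, 3, 0, 2, 4, 4, 3, -2] 13000 [1, 1, 0, 0, 0, 2, -6, 2],
  .w2 [2, 5, 0, 0, -1, 2, 2, -1] [1, 2, 2, 2, 2, 3, 1, -1],
  .rigid [-4, -8, -9, -9, -8, -6, -1, 2] [0, 0, 0, 0, 0, 0, 0, 1],
  .branch (4174) 1 3000 [0, 0, 0, 0, 0, 0, -1, 3, -1] 6000 [0, 1, 0, 0, 1, -1, -4, -1, 1],
  .rigid [-2, 1, 0, 0, 0, 0, 1, -3, 1] [0, 0, 0, 0, 0, 0, 0, 0, 1],
  .branch (1595) 5 3001 [0, 0, 0, 0, -1, 2, 2, -1] 3000 [0, 0, 0, 0, 1, -2, -2, 1],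
  .w2 [1, 4, 0, 0, 0, -1, 3, -1] [2, 1, 1, 1, 1, 1, 2, -1],
  .branch (4179) 1 139 [8, 18, 21, 22, 21, 18, 12, 4, -5] 13000 [1, 1, 0, 0, 0, 0, 2, -6, 2],
  .branch (10939) 1 3000 [0, 0, 0, 0, 0, 0, 0, -1, 3, -1] 6000 [0, 1, 0, 0, 0, 1, -1, -4, -1, 1],
  .rigid [-2, 1, 0, 0, 0, 0, 0, 1, -3, 1] [0, 0, 0, 0, 0, 0, 0, 0, 0, 1],
  .branch (4179) 5 3001 [0, 0, 0, 0, 0, -1, 2, 2, -1] 3000 [0, 0, 0, 0, 0, 1, -2, -2, 1]] goals2a66 = some goals2b66 := by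
  decide +kernel

def goals2a67 : List Goal := [⟨[2, 5, 13, 34, 89, 233, 610, 1597, 4179], 37, 40, 40⟩,
  ⟨[2, 5, 13, 34, 89, 233, 610, 1597, 4180], 37, 40, 40⟩,
  ⟨[2, 5, 13, 34, 89, 233, 610, 1597, 4181], 37, 40, 40⟩]

def goals2b67 : List Goal := [⟨[2, 5, 13, 34, 89, 233, 610, 1597, 4181, 10946, 28657, 75025, 196418], 37, 40, 40⟩,
  ⟨[2, 5, 13, 34, 89, 233, 610, 1597, 4181, 10946, 28657, 75025, 196419], 37, 40, 40⟩,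
  ⟨[2, 5, 13, 34, 89, 233, 610, 1597, 4181, 10946, 28657, 75025, 196420], 37, 40, 40⟩,
  ⟨[2, 5, 13, 34, 89, 233, 610, 1597, 4181, 10946, 28657, 75026], 37, 40, 40⟩,
  ⟨[2, 5, 13, 34, 89, 233, 610, 1597, 4181, 10946, 28657, 75027], 37, 40, 40⟩,
  ⟨[2, 5, 13, 34, 89, 233, 610, 1597, 4181, 10946, 28658], 37, 40, 40⟩,
  ⟨[2, 5, 13, 34, 89, 233, 610, 1597, 4181, 10946, 28659], 37, 40, 40⟩,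
  ⟨[2, 5, 13, 34, 89, 233, 610, 1597, 4181, 10947], 37, 40, 40⟩,
  ⟨[2, 5, 13, 34, 89, 233, 610, 1597, 4181, 10948], 37, 40, 40⟩]

theorem tree2x67_ok : runTo 2 false sps2 [
  .w2 [2, 5, 0, 0, 0, 0, -2, 6, -2] [2, 2, 2, 2, 2, 2, 3, 1, -1],
  .branch (10944) 1 26000 [6, 27, 37, 41, 44, 41, 38, 27, 4, -9] 13000 [1, 1, 0, 0, 0, 0, 0, 2, -6, 2],
  .branch (28650) 1 3000 [0, 0, 0, 0, 0, 0, 0, 0, -1, 3, -1] 6000 [0, 1, 0, 0, 0, 0, 1, -1, -4, -1, 1],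
  .rigid [-2, 1, 0, 0, 0, 0, 0, 0, 1, -3, 1] [0, 0, 0, 0, 0, 0, 0, 0, 0, 0, 1],
  .branch (10944) 5 3001 [0, 0, 0, 0, 0, 0, -1, 2, 2, -1] 3000 [0, 0, 0, 0, 0, 0, 1, -2, -2, 1],
  .w2 [2, 5, 0, 0, 0, 0, 0, -1, 3, -1] [2, 1, 1, 1, 1, 1, 1, 1, 2, -1],
  .branch (28653) 3 18000 [-2, 3, 1, 1, 1, 0, 2, 3, 6, 5, -3] 13000 [1, 1, 0, 0, 0, 0, 0, 0, 2, -6, 2],
  .w2 [3, 9, 0, 0, 0, 0, 0, -2, 4, 4, -2] [2, 4, 3, 3, 3, 3, 3, 4, 2, 1, -1],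
  .w2 [17, 41, 4, -1, 0, 0, -1, -4, 17, 2, -3] [7, 14, 18, 17, 20, 17, 18, 14, 10, 3, -4],
  .branch (75018) 1 3000 [0, 0, 0, 0, 0, 0, 0, 0, 0, -1, 3, -1] 6000 [0, 1, 0, 0, 0, 0, 0, 1, -1, -4, -1, 1],
  .rigid [-2, 1, 0, 0, 0, 0, 0, 0, 0, 1, -3, 1] [0, 0, 0, 0, 0, 0, 0, 0, 0, 0, 0, 1],
  .branch (28655) 5 3001 [0, 0, 0, 0, 0, 0, 0, -1, 2, 2, -1] 3000 [0, 0, 0, 0, 0, 0, 0, 1, -2, -2, 1],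
  .w2 [2, 5, 0, 0, 0, 0, 0, 0, -1, 3, -1] [2, 1, 1, 1, 1, 1, 1, 1, 1, 2, -1],
  .branch (75021) 3 121000 [-9, 14, 9, 6, 1, 0, 3, 11, 21, 37, 24, -16] 13000 [1, 1, 0, 0, 0, 0, 0, 0, 0, 2, -6, 2],
  .w2 [6, 18, 0, 0, 0, 0, 0, 0, -3, 5, 9, -4] [4, 5, 7, 6, 6, 6, 6, 7, 5, 5, 2, -2],
  .w2 [17, 41, 4, -1, 0, 0, 0, -1, -4, 17, 2, -3] [6, 13, 17, 16, 18, 18, 16, 17, 13, 9, 1, -3],
  .branch (196411) 1 3000 [0, 0, 0, 0, 0, 0, 0, 0, 0, 0, -1, 3, -1] 6000 [0, 1, 0, 0, 0, 0, 0, 0, 1, -1, -4, -1, 1],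
  .rigid [-2, 1, 0, 0, 0, 0, 0, 0, 0, 0, 1, -3, 1] [0, 0, 0, 0, 0, 0, 0, 0, 0, 0, 0, 0, 1],
  .branch (75023) 5 3001 [0, 0, 0, 0, 0, 0, 0, 0, -1, 2, 2, -1] 3000 [0, 0, 0, 0, 0, 0, 0, 0, 1, -2, -2, 1],
  .w2 [2, 5, 0, 0, 0, 0, 0, 0, 0, -1, 3, -1] [2, 1, 1, 1, 1, 1, 1, 1, 1, 1, 2, -1],
  .branch (196414) 3 77000 [-6, 10, 6, 3, 2, 0, -1, 0, 8, 15, 25, 14, -10] 13000 [1, 1, 0, 0, 0, 0, 0, 0, 0, 0, 2, -6, 2],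
  .w2 [3, 7, 0, 0, 0, 0, 0, 0, 0, -1, 1, 5, -2] [1, 2, 2, 2, 2, 2, 2, 2, 2, 2, 3, 1, -1],
  .w2 [22, 56, 4, -1, 0, 0, 0, 0, -1, -7, 25, 2, -4] [8, 17, 19, 20, 24, 22, 24, 20, 19, 17, 11, 2, -4],
  .branch (514222) 1 3000 [0, 0, 0, 0, 0, 0, 0, 0, 0, 0, 0, -1, 3, -1] 6000 [0, 1, 0, 0, 0, 0, 0, 0, 0, 1, -1, -4, -1, 1],
  .rigid [-2, 1, 0, 0, 0, 0, 0, 0, 0, 0, 0, 1, -3, 1] [0, 0, 0, 0, 0, 0, 0, 0, 0, 0, 0, 0, 0, 1],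
  .branch (196416) 5 3001 [0, 0, 0, 0, 0, 0, 0, 0, 0, -1, 2, 2, -1] 3000 [0, 0, 0, 0, 0, 0, 0, 0, 0, 1, -2, -2, 1],
  .w2 [2, 5, 0, 0, 0, 0, 0, 0, 0, 0, -1, 3, -1] [2, 1, 1, 1, 1, 1, 1, 1, 1, 1, 1, 2, -1],
  .branch (514225) 3 77000 [-6, 10, 6, 3, 3, -2, -1, 0, 1, 5, 16, 25, 14, -10] 13000 [1, 1, 0, 0, 0, 0, 0, 0, 0, 0, 0, 2, -6, 2],
  .w2 [3, 7, 0, 0, 0, 0, 0, 0, 0, 0, -1, 1, 5, -2] [1, 2, 2, 2, 2, 2, 2, 2, 2, 2, 2, 3, 1, -1],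
  .w2 [22, 56, 4, -1, 0, 0, 0, 0, 0, -1, -7, 25, 2, -4] [7, 15, 18, 19, 23, 21, 21, 23, 19, 18, 15, 12, 2, -4],
  .branch (1346262) 1 3000 [0, 0, 0, 0, 0, 0, 0, 0, 0, 0, 0, 0, -1, 3, -1] 6000 [0, 1, 0, 0, 0, 0, 0, 0, 0, 0, 1, -1, -4, -1, 1],
  .rigid [-2, 1, 0, 0, 0, 0, 0, 0, 0, 0, 0, 0, 1, -3, 1] [0, 0, 0, 0, 0, 0, 0, 0, 0, 0, 0, 0, 0, 0, 1]] goals2a67 = some goals2b67 := by
  decide +kernel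

def goals2a68 : List Goal := [⟨[2, 5, 13, 34, 89, 233, 610, 1597, 4181, 10946, 28657, 75025, 196418], 37, 40, 40⟩]

def goals2b68 : List Goal := [⟨[2, 5, 13, 34, 89, 233, 610, 1597, 4181, 10946, 28657, 75025, 196418, 514229, 1346269, 3524578, 9227463], 37, 40, 40⟩,
  ⟨[2, 5, 13, 34, 89, 233, 610, 1597, 4181, 10946, 28657, 75025, 196418, 514229, 1346269, 3524578, 9227464], 37, 40, 40⟩,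
  ⟨[2, 5, 13, 34, 89, 233, 610, 1597, 4181, 10946, 28657, 75025, 196418, 514229, 1346269, 3524578, 9227465], 37, 40, 40⟩,
  ⟨[2, 5, 13, 34, 89, 233, 610, 1597, 4181, 10946, 28657, 75025, 196418, 514229, 1346269, 3524578, 9227466], 37, 40, 40⟩,
  ⟨[2, 5, 13, 34, 89, 233, 610, 1597, 4181, 10946, 28657, 75025, 196418, 514229, 1346269, 3524578, 9227467], 37, 40, 40⟩,
  ⟨[2, 5, 13, 34, 89, 233, 610, 1597, 4181, 10946, 28657, 75025, 196418, 514229, 1346269, 3524579], 37, 40, 40⟩,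
  ⟨[2, 5, 13, 34, 89, 233, 610, 1597, 4181, 10946, 28657, 75025, 196418, 514229, 1346269, 3524580], 37, 40, 40⟩,
  ⟨[2, 5, 13, 34, 89, 233, 610, 1597, 4181, 10946, 28657, 75025, 196418, 514229, 1346270], 37, 40, 40⟩,
  ⟨[2, 5, 13, 34, 89, 233, 610, 1597, 4181, 10946, 28657, 75025, 196418, 514229, 1346271], 37, 40, 40⟩,
  ⟨[2, 5, 13, 34, 89, 233, 610, 1597, 4181, 10946, 28657, 75025, 196418, 514230], 37, 40, 40⟩,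
  ⟨[2, 5, 13, 34, 89, 233, 610, 1597, 4181, 10946, 28657, 75025, 196418, 514231], 37, 40, 40⟩]

theorem tree2x68_ok : runTo 2 false sps2 [
  .branch (514227) 5 3001 [0, 0, 0, 0, 0, 0, 0, 0, 0, 0, -1, 2, 2, -1] 3000 [0, 0, 0, 0, 0, 0, 0, 0, 0, 0, 1, -2, -2, 1],
  .w2 [2, 5, 0, 0, 0, 0, 0, 0, 0, 0, 0, -1, 3, -1] [2, 1, 1, 1, 1, 1, 1, 1, 1, 1, 1, 1, 2, -1],
  .branch (1346265) 3 77000 [-6, 9, 8, 5, 1, 1, -1, -1, 0, 0, 8, 15, 25, 14, -10] 13000 [1, 1, 0, 0, 0, 0, 0, 0, 0, 0, 0, 0, 2, -6, 2],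
  .w2 [3, 7, 0, 0, 0, 0, 0, 0, 0, 0, 0, -1, 1, 5, -2] [1, 2, 2, 2, 2, 2, 2, 2, 2, 2, 2, 2, 3, 1, -1],
  .w2 [17, 41, 4, -1, 0, 0, 0, 0, 0, 0, -1, -4, 17, 2, -3] [5, 11, 12, 15, 16, 15, 15, 15, 16, 15, 12, 11, 8, 2, -3],
  .branch (3524571) 1 3000 [0, 0, 0, 0, 0, 0, 0, 0, 0, 0, 0, 0, 0, -1, 3, -1] 6000 [0, 1, 0, 0, 0, 0, 0, 0, 0, 0, 0, 1, -1, -4, -1, 1],
  .rigid [-2, 1, 0, 0, 0, 0, 0, 0, 0, 0, 0, 0, 0, 1, -3, 1] [0, 0, 0, 0, 0, 0, 0, 0, 0, 0, 0, 0, 0, 0, 0, 1],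
  .branch (1346267) 5 3001 [0, 0, 0, 0, 0, 0, 0, 0, 0, 0, 0, -1, 2, 2, -1] 3000 [0, 0, 0, 0, 0, 0, 0, 0, 0, 0, 0, 1, -2, -2, 1],
  .w2 [2, 5, 0, 0, 0, 0, 0, 0, 0, 0, 0, 0, -1, 3, -1] [2, 1, 1, 1, 1, 1, 1, 1, 1, 1, 1, 1, 1, 2, -1],
  .branch (3524574) 3 80000 [-6, 10, 6, 3, 2, 1, 0, -2, -2, -2, 2, 6, 13, 25, 17, -11] 13000 [1, 1, 0, 0, 0, 0, 0, 0, 0, 0, 0, 0, 0, 2, -6, 2],
  .w2 [3, 7, 0, 0, 0, 0, 0, 0, 0, 0, 0, 0, -1, 1, 5, -2] [1, 2, 2, 2, 2, 2, 2, 2, 2, 2, 2, 2, 2, 3, 1, -1],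
  .w2 [32, 84, 7, -2, 0, 0, 0, 0, 0, 0, 0, -1, -11, 35, 4, -6] [9, 21, 24, 27, 29, 29, 31, 31, 29, 29, 27, 25, 18, 16, 2, -5],
  .branch (9227458) 1 3000 [0, 0, 0, 0, 0, 0, 0, 0, 0, 0, 0, 0, 0, 0, -1, 3, -1] 6000 [0, 1, 0, 0, 0, 0, 0, 0, 0, 0, 0, 0, 1, -1, -4, -1, 1],
  .rigid [-2, 1, 0, 0, 0, 0, 0, 0, 0, 0, 0, 0, 0, 0, 1, -3, 1] [0, 0, 0, 0, 0, 0, 0, 0, 0, 0, 0, 0, 0, 0, 0, 0, 1],
  .branch (3524576) 5 3001 [0, 0, 0, 0, 0, 0, 0, 0, 0, 0, 0, 0, -1, 2, 2, -1] 3000 [0, 0, 0, 0, 0, 0, 0, 0, 0, 0, 0, 0, 1, -2, -2, 1],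
  .w2 [5, 14, 0, 0, 0, 0, 0, 0, 0, 0, 0, 0, 0, -5, 15, -5] [6, 3, 5, 3, 2, 0, 1, 0, 3, 1, 3, 4, 6, 7, 4, -3],
  .branch (9227461) 3 80000 [-6, 10, 6, 3, 2, 1, 0, -2, -1, -2, -2, 2, 6, 13, 25, 17, -11] 13000 [1, 1, 0, 0, 0, 0, 0, 0, 0, 0, 0, 0, 0, 0, 2, -6, 2],
  .w2 [3, 7, 0, 0, 0, 0, 0, 0, 0, 0, 0, 0, 0, -1, 1, 5, -2] [1, 2, 2, 2, 2, 2, 2, 2, 2, 2, 2, 2, 2, 2, 3, 1, -1],
  .w2 [17, 41, 4, -1, 0, 0, 0, 0, 0, 0, 0, 0, -1, -4, 17, 2, -3] [4, 10, 12, 12, 13, 15, 14, 14, 14, 15, 13, 12, 12, 10, 7, 0, -2],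
  .branch (24157810) 1 3000 [0, 0, 0, 0, 0, 0, 0, 0, 0, 0, 0, 0, 0, 0, 0, -1, 3, -1] 6000 [0, 1, 0, 0, 0, 0, 0, 0, 0, 0, 0, 0, 0, 1, -1, -4, -1, 1],
  .rigid [-2, 1, 0, 0, 0, 0, 0, 0, 0, 0, 0, 0, 0, 0, 0, 1, -3, 1] [0, 0, 0, 0, 0, 0, 0, 0, 0, 0, 0, 0, 0, 0, 0, 0, 0, 1],
  .branch (9227463) 5 3001 [0, 0, 0, 0, 0, 0, 0, 0, 0, 0, 0, 0, 0, -1, 2, 2, -1] 3000 [0, 0, 0, 0, 0, 0, 0, 0, 0, 0, 0, 0, 0, 1, -2, -2, 1]] goals2a68 = some goals2b68 := by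
  decide +kernel

def goals2a69 : List Goal := [⟨[2, 5, 13, 34, 89, 233, 610, 1597, 4181, 10946, 28657, 75025, 196418, 514229, 1346269, 3524578, 9227463], 37, 40, 40⟩,
  ⟨[2, 5, 13, 34, 89, 233, 610, 1597, 4181, 10946, 28657, 75025, 196418, 514229, 1346269, 3524578, 9227464], 37, 40, 40⟩,
  ⟨[2, 5, 13, 34, 89, 233, 610, 1597, 4181, 10946, 28657, 75025, 196418, 514229, 1346269, 3524578, 9227465], 37, 40, 40⟩]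

def goals2b69 : List Goal := [⟨[2, 5, 13, 34, 89, 233, 610, 1597, 4181, 10946, 28657, 75025, 196418, 514229, 1346269, 3524578, 9227465, 24157817, 63245985, 165580139, 433494430], 37, 40, 40⟩,
  ⟨[2, 5, 13, 34, 89, 233, 610, 1597, 4181, 10946, 28657, 75025, 196418, 514229, 1346269, 3524578, 9227465, 24157817, 63245986], 37, 40, 40⟩,
  ⟨[2, 5, 13, 34, 89, 233, 610, 1597, 4181, 10946, 28657, 75025, 196418, 514229, 1346269, 3524578, 9227465, 24157817, 63245987], 37, 40, 40⟩,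
  ⟨[2, 5, 13, 34, 89, 233, 610, 1597, 4181, 10946, 28657, 75025, 196418, 514229, 1346269, 3524578, 9227465, 24157817, 63245988], 37, 40, 40⟩,
  ⟨[2, 5, 13, 34, 89, 233, 610, 1597, 4181, 10946, 28657, 75025, 196418, 514229, 1346269, 3524578, 9227465, 24157818], 37, 40, 40⟩,
  ⟨[2, 5, 13, 34, 89, 233, 610, 1597, 4181, 10946, 28657, 75025, 196418, 514229, 1346269, 3524578, 9227465, 24157819], 37, 40, 40⟩]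

theorem tree2x69_ok : runTo 2 false sps2 [
  .w2 [5, 14, 0, 0, 0, 0, 0, 0, 0, 0, 0, 0, 0, 0, -5, 15, -5] [6, 3, 5, 3, 2, 0, 1, 1, 0, 3, 1, 3, 4, 6, 7, 4, -3],
  .branch (24157813) 3 77000 [-6, 9, 8, 5, 1, 1, -1, 1, -2, -2, 0, 0, 0, 8, 15, 25, 14, -10] 13000 [1, 1, 0, 0, 0, 0, 0, 0, 0, 0, 0, 0, 0, 0, 0, 2, -6, 2],
  .w2 [10, 28, 3, -1, 0, 0, 0, 0, 0, 0, 0, 0, 0, 0, -5, 8, 16, -7] [6, 9, 8, 9, 6, 8, 5, 6, 6, 5, 8, 6, 9, 8, 10, 7, 3, -3],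
  .w2 [43, 113, 10, -3, 0, 0, 0, 0, 0, 0, 0, 0, 0, -2, -13, 47, 5, -8] [12, 22, 31, 31, 35, 37, 38, 37, 37, 38, 37, 35, 31, 31, 23, 17, 3, -6],
  .branch (63245979) 1 3000 [0, 0, 0, 0, 0, 0, 0, 0, 0, 0, 0, 0, 0, 0, 0, 0, -1, 3, -1] 6000 [0, 1, 0, 0, 0, 0, 0, 0, 0, 0, 0, 0, 0, 0, 1, -1, -4, -1, 1],
  .rigid [-2, 1, 0, 0, 0, 0, 0, 0, 0, 0, 0, 0, 0, 0, 0, 0, 1, -3, 1] [0, 0, 0, 0, 0, 0, 0, 0, 0, 0, 0, 0, 0, 0, 0, 0, 0, 0, 1],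
  .branch (24157815) 5 3001 [0, 0, 0, 0, 0, 0, 0, 0, 0, 0, 0, 0, 0, 0, -1, 2, 2, -1] 3000 [0, 0, 0, 0, 0, 0, 0, 0, 0, 0, 0, 0, 0, 0, 1, -2, -2, 1],
  .w2 [6, 18, 0, 0, 0, 0, 0, 0, 0, 0, 0, 0, 0, 0, -1, -3, 17, -6] [7, 4, 7, 2, 2, 0, 1, 1, 1, 0, 2, 3, 4, 5, 7, 8, 6, -4],
  .branch (63245982) 3 77000 [-6, 9, 8, 5, 1, 1, -1, 1, -2, -1, -2, 0, 0, 0, 8, 15, 25, 14, -10] 13000 [1, 1, 0, 0, 0, 0, 0, 0, 0, 0, 0, 0, 0, 0, 0, 0, 2, -6, 2],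
  .w2 [10, 28, 3, -1, 0, 0, 0, 0, 0, 0, 0, 0, 0, 0, 0, -5, 8, 16, -7] [6, 9, 8, 9, 7, 5, 7, 4, 5, 4, 7, 5, 7, 8, 11, 9, 7, 3, -3],
  .w2 [32, 84, 7, -2, 0, 0, 0, 0, 0, 0, 0, 0, 0, 0, -1, -11, 35, 4, -6] [9, 17, 22, 22, 24, 28, 25, 28, 27, 28, 25, 28, 24, 22, 22, 17, 13, 1, -4],
  .branch (165580134) 1 3000 [0, 0, 0, 0, 0, 0, 0, 0, 0, 0, 0, 0, 0, 0, 0, 0, 0, -1, 3, -1] 6000 [0, 1, 0, 0, 0, 0, 0, 0, 0, 0, 0, 0, 0, 0, 0, 1, -1, -4, -1, 1],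
  .rigid [-2, 1, 0, 0, 0, 0, 0, 0, 0, 0, 0, 0, 0, 0, 0, 0, 0, 1, -3, 1] [0, 0, 0, 0, 0, 0, 0, 0, 0, 0, 0, 0, 0, 0, 0, 0, 0, 0, 0, 1],
  .branch (63245984) 5 3001 [0, 0, 0, 0, 0, 0, 0, 0, 0, 0, 0, 0, 0, 0, 0, -1, 2, 2, -1] 3000 [0, 0, 0, 0, 0, 0, 0, 0, 0, 0, 0, 0, 0, 0, 0, 1, -2, -2, 1],
  .w2 [6, 18, 0, 0, 0, 0, 0, 0, 0, 0, 0, 0, 0, 0, 0, -1, -3, 17, -6] [7, 4, 7, 2, 2, 0, 2, -1, 0, -1, 1, 2, 3, 4, 5, 7, 8, 6, -4],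
  .branch (165580137) 3 77000 [-6, 9, 8, 5, 1, 1, -1, 0, 0, 1, -2, -2, 0, 0, 0, 8, 15, 25, 14, -10] 13000 [1, 1, 0, 0, 0, 0, 0, 0, 0, 0, 0, 0, 0, 0, 0, 0, 0, 2, -6, 2],
  .w2 [15, 43, 3, -1, 0, 0, 0, 0, 0, 0, 0, 0, 0, 0, 0, -1, -5, 13, 22, -10] [8, 16, 14, 12, 12, 8, 8, 7, 5, 5, 7, 8, 8, 12, 12, 15, 13, 13, 5, -5],
  .w2 [43, 113, 10, -3, 0, 0, 0, 0, 0, 0, 0, 0, 0, 0, 0, -2, -13, 47, 5, -8] [11, 23, 28, 30, 31, 34, 35, 33, 36, 36, 33, 35, 34, 31, 31, 25, 24, 15, 4, -6],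
  .branch (433494430) 1 3000 [0, 0, 0, 0, 0, 0, 0, 0, 0, 0, 0, 0, 0, 0, 0, 0, 0, 0, -1, 3, -1] 6000 [0, 1, 0, 0, 0, 0, 0, 0, 0, 0, 0, 0, 0, 0, 0, 0, 1, -1, -4, -1, 1]] goals2a69 = some goals2b69 := by
  decide +kernel

end Pool.Agent.MP1f45fc.SalemC
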