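import Mathlib
import Pool.Agent.Lib.MP_1f45fc_nt.SalemC.Tree2x0
import Pool.Agent.Lib.MP_1f45fc_nt.SalemC.Tree2x1
import Pool.Agent.Lib.MP_1f45fc_nt.SalemC.Tree2x2
import Pool.Agent.Lib.MP_1f45fc_nt.SalemC.Tree2x3
import Pool.Agent.Lib.MP_1f45fc_nt.SalemC.Tree2x4
import Pool.Agent.Lib.MP_1f45fc_nt.SalemC.Tree2x5
import Pool.Agent.Lib.MP_1f45fc_nt.SalemC.Tree2x6
import Pool.Agent.Lib.MP_1f45fc_nt.SalemC.Tree2x7
import Pool.Agent.Lib.MP_1f45fc_nt.SalemC.Tree2x8
import Pool.Agent.Lib.MP_1f45fc_nt.SalemC.Tree2x9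
import Pool.Agent.Lib.MP_1f45fc_nt.SalemC.Tree2x10
import Pool.Agent.Lib.MP_1f45fc_nt.SalemC.Sound2

set_option autoImplicit false

namespace Pool.Agent.MP1f45fc.SalemC

def links2 : List (List Goal × List Goal) := [
  (goals2a0, goals2b0),
  (goals2a1, goals2b1),
  (goals2a2, goals2b2),
  (goals2a3, goals2b3),
  (goals2a4, goals2b4),
  (goals2a5, goals2b5),
  (goals2a6, goals2b6),
  (goals2a7, goals2b7),
  (goals2a8, goals2b8),
  (goals2a9, goals2b9),
  (goals2a10, goals2b10),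
  (goals2a11, goals2b11),
  (goals2a12, goals2b12),
  (goals2a13, goals2b13),
  (goals2a14, goals2b14),
  (goals2a15, goals2b15),
  (goals2a16, goals2b16),
  (goals2a17, goals2b17),
  (goals2a18, goals2b18),
  (goals2a19, goals2b19),
  (goals2a20, goals2b20),
  (goals2a21, goals2b21),
  (goals2a22, goals2b22),
  (goals2a23, goals2b23),
  (goals2a24, goals2b24),
  (goals2a25, goals2b25),
  (goals2a26, goals2b26),
  (goals2a27, goals2b27),
  (goals2a28, goals2b28),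
  (goals2a29, goals2b29),
  (goals2a30, goals2b30),
  (goals2a31, goals2b31),
  (goals2a32, goals2b32),
  (goals2a33, goals2b33),
  (goals2a34, goals2b34),
  (goals2a35, goals2b35),
  (goals2a36, goals2b36),
  (goals2a37, goals2b37),
  (goals2a38, goals2b38),
  (goals2a39, goals2b39),
  (goals2a40, goals2b40),
  (goals2a41, goals2b41),
  (goals2a42, goals2b42),
  (goals2a43, goals2b43),
  (goals2a44, goals2b44),
  (goals2a45, goals2b45),
  (goals2a46, goals2b46),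
  (goals2a47, goals2b47),
  (goals2a48, goals2b48),
  (goals2a49, goals2b49),
  (goals2a50, goals2b50),
  (goals2a51, goals2b51),
  (goals2a52, goals2b52),
  (goals2a53, goals2b53),
  (goals2a54, goals2b54),
  (goals2a55, goals2b55),
  (goals2a56, goals2b56),
  (goals2a57, goals2b57),
  (goals2a58, goals2b58),
  (goals2a59, goals2b59),
  (goals2a60, goals2b60),
  (goals2a61, goals2b61),
  (goals2a62, goals2b62),
  (goals2a63, goals2b63),
  (goals2a64, goals2b64),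
  (goals2a65, goals2b65),
  (goals2a66, goals2b66),
  (goals2a67, goals2b67),
  (goals2a68, goals2b68),
  (goals2a69, goals2b69),
  (goals2a70, goals2b70),
  (goals2a71, goals2b71),
  (goals2a72, goals2b72),
  (goals2a73, goals2b73),
  (goals2a74, goals2b74),
  (goals2a75, goals2b75),
  (goals2a76, goals2b76),
  (goals2a77, goals2b77),
  (goals2a78, goals2b78),
  (goals2a79, goals2b79),
  (goals2a80, goals2b80),
  (goals2a81, goals2b81),
  (goals2a82, goals2b82),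
  (goals2a83, goals2b83),
  (goals2a84, goals2b84),
  (goals2a85, goals2b85),
  (goals2a86, goals2b86),
  (goals2a87, goals2b87),
  (goals2a88, goals2b88),
  (goals2a89, goals2b89),
  (goals2a90, goals2b90),
  (goals2a91, goals2b91),
  (goals2a92, goals2b92),
  (goals2a93, goals2b93),
  (goals2a94, goals2b94),
  (goals2a95, goals2b95),
  (goals2a96, goals2b96),
  (goals2a97, goals2b97),
  (goals2a98, goals2b98),
  (goals2a99, goals2b99),
  (goals2a100, goals2b100),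
  (goals2a101, goals2b101),
  (goals2a102, goals2b102),
  (goals2a103, goals2b103),
  (goals2a104, goals2b104),
  (goals2a105, goals2b105)]

theorem links2_ok : link links2 [⟨[], 17, 20, 20⟩] = true := by
  decide +kernel

theorem links2_sound {n : ℕ} {β : ℝ} {u : ℕ → ℤ} (hctx : Ctx 2 false sps2 n β u) :
    ∀ ab ∈ links2, (∀ g ∈ ab.2, Bad β u g) → ∀ g ∈ ab.1, Bad β u g := by
  unfold links2
  refine List.forall_mem_cons.mpr ⟨fun h => runTo_sound hctx _ _ _ tree2x0_ok h, ?_⟩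
  refine List.forall_mem_cons.mpr ⟨fun h => runTo_sound hctx _ _ _ tree2x1_ok h, ?_⟩
  refine List.forall_mem_cons.mpr ⟨fun h => runTo_sound hctx _ _ _ tree2x2_ok h, ?_⟩
  refine List.forall_mem_cons.mpr ⟨fun h => runTo_sound hctx _ _ _ tree2x3_ok h, ?_⟩
  refine List.forall_mem_cons.mpr ⟨fun h => runTo_sound hctx _ _ _ tree2x4_ok h, ?_⟩
  refine List.forall_mem_cons.mpr ⟨fun h => runTo_sound hctx _ _ _ tree2x5_ok h, ?_⟩
  refine List.forall_mem_cons.mpr ⟨fun h => runTo_sound hctx _ _ _ tree2x6_ok h, ?_⟩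
  refine List.forall_mem_cons.mpr ⟨fun h => runTo_sound hctx _ _ _ tree2x7_ok h, ?_⟩
  refine List.forall_mem_cons.mpr ⟨fun h => runTo_sound hctx _ _ _ tree2x8_ok h, ?_⟩
  refine List.forall_mem_cons.mpr ⟨fun h => runTo_sound hctx _ _ _ tree2x9_ok h, ?_⟩
  refine List.forall_mem_cons.mpr ⟨fun h => runTo_sound hctx _ _ _ tree2x10_ok h, ?_⟩
  refine List.forall_mem_cons.mpr ⟨fun h => runTo_sound hctx _ _ _ tree2x11_ok h, ?_⟩
  refine List.forall_mem_cons.mpr ⟨fun h => runTo_sound hctx _ _ _ tree2x12_ok h, ?_⟩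
  refine List.forall_mem_cons.mpr ⟨fun h => runTo_sound hctx _ _ _ tree2x13_ok h, ?_⟩
  refine List.forall_mem_cons.mpr ⟨fun h => runTo_sound hctx _ _ _ tree2x14_ok h, ?_⟩
  refine List.forall_mem_cons.mpr ⟨fun h => runTo_sound hctx _ _ _ tree2x15_ok h, ?_⟩
  refine List.forall_mem_cons.mpr ⟨fun h => runTo_sound hctx _ _ _ tree2x16_ok h, ?_⟩
  refine List.forall_mem_cons.mpr ⟨fun h => runTo_sound hctx _ _ _ tree2x17_ok h, ?_⟩
  refine List.forall_mem_cons.mpr ⟨fun h => runTo_sound hctx _ _ _ tree2x18_ok h, ?_⟩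
  refine List.forall_mem_cons.mpr ⟨fun h => runTo_sound hctx _ _ _ tree2x19_ok h, ?_⟩
  refine List.forall_mem_cons.mpr ⟨fun h => runTo_sound hctx _ _ _ tree2x20_ok h, ?_⟩
  refine List.forall_mem_cons.mpr ⟨fun h => runTo_sound hctx _ _ _ tree2x21_ok h, ?_⟩
  refine List.forall_mem_cons.mpr ⟨fun h => runTo_sound hctx _ _ _ tree2x22_ok h, ?_⟩
  refine List.forall_mem_cons.mpr ⟨fun h => runTo_sound hctx _ _ _ tree2x23_ok h, ?_⟩
  refine List.forall_mem_cons.mpr ⟨fun h => runTo_sound hctx _ _ _ tree2x24_ok h, ?_⟩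
  refine List.forall_mem_cons.mpr ⟨fun h => runTo_sound hctx _ _ _ tree2x25_ok h, ?_⟩
  refine List.forall_mem_cons.mpr ⟨fun h => runTo_sound hctx _ _ _ tree2x26_ok h, ?_⟩
  refine List.forall_mem_cons.mpr ⟨fun h => runTo_sound hctx _ _ _ tree2x27_ok h, ?_⟩
  refine List.forall_mem_cons.mpr ⟨fun h => runTo_sound hctx _ _ _ tree2x28_ok h, ?_⟩
  refine List.forall_mem_cons.mpr ⟨fun h => runTo_sound hctx _ _ _ tree2x29_ok h, ?_⟩
  refine List.forall_mem_cons.mpr ⟨fun h => runTo_sound hctx _ _ _ tree2x30_ok h, ?_⟩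
  refine List.forall_mem_cons.mpr ⟨fun h => runTo_sound hctx _ _ _ tree2x31_ok h, ?_⟩
  refine List.forall_mem_cons.mpr ⟨fun h => runTo_sound hctx _ _ _ tree2x32_ok h, ?_⟩
  refine List.forall_mem_cons.mpr ⟨fun h => runTo_sound hctx _ _ _ tree2x33_ok h, ?_⟩
  refine List.forall_mem_cons.mpr ⟨fun h => runTo_sound hctx _ _ _ tree2x34_ok h, ?_⟩
  refine List.forall_mem_cons.mpr ⟨fun h => runTo_sound hctx _ _ _ tree2x35_ok h, ?_⟩
  refine List.forall_mem_cons.mpr ⟨fun h => runTo_sound hctx _ _ _ tree2x36_ok h, ?_⟩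
  refine List.forall_mem_cons.mpr ⟨fun h => runTo_sound hctx _ _ _ tree2x37_ok h, ?_⟩
  refine List.forall_mem_cons.mpr ⟨fun h => runTo_sound hctx _ _ _ tree2x38_ok h, ?_⟩
  refine List.forall_mem_cons.mpr ⟨fun h => runTo_sound hctx _ _ _ tree2x39_ok h, ?_⟩
  refine List.forall_mem_cons.mpr ⟨fun h => runTo_sound hctx _ _ _ tree2x40_ok h, ?_⟩
  refine List.forall_mem_cons.mpr ⟨fun h => runTo_sound hctx _ _ _ tree2x41_ok h, ?_⟩
  refine List.forall_mem_cons.mpr ⟨fun h => runTo_sound hctx _ _ _ tree2x42_ok h, ?_⟩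
  refine List.forall_mem_cons.mpr ⟨fun h => runTo_sound hctx _ _ _ tree2x43_ok h, ?_⟩
  refine List.forall_mem_cons.mpr ⟨fun h => runTo_sound hctx _ _ _ tree2x44_ok h, ?_⟩
  refine List.forall_mem_cons.mpr ⟨fun h => runTo_sound hctx _ _ _ tree2x45_ok h, ?_⟩
  refine List.forall_mem_cons.mpr ⟨fun h => runTo_sound hctx _ _ _ tree2x46_ok h, ?_⟩
  refine List.forall_mem_cons.mpr ⟨fun h => runTo_sound hctx _ _ _ tree2x47_ok h, ?_⟩
  refine List.forall_mem_cons.mpr ⟨fun h => runTo_sound hctx _ _ _ tree2x48_ok h, ?_⟩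
  refine List.forall_mem_cons.mpr ⟨fun h => runTo_sound hctx _ _ _ tree2x49_ok h, ?_⟩
  refine List.forall_mem_cons.mpr ⟨fun h => runTo_sound hctx _ _ _ tree2x50_ok h, ?_⟩
  refine List.forall_mem_cons.mpr ⟨fun h => runTo_sound hctx _ _ _ tree2x51_ok h, ?_⟩
  refine List.forall_mem_cons.mpr ⟨fun h => runTo_sound hctx _ _ _ tree2x52_ok h, ?_⟩
  refine List.forall_mem_cons.mpr ⟨fun h => runTo_sound hctx _ _ _ tree2x53_ok h, ?_⟩
  refine List.forall_mem_cons.mpr ⟨fun h => runTo_sound hctx _ _ _ tree2x54_ok h, ?_⟩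
  refine List.forall_mem_cons.mpr ⟨fun h => runTo_sound hctx _ _ _ tree2x55_ok h, ?_⟩
  refine List.forall_mem_cons.mpr ⟨fun h => runTo_sound hctx _ _ _ tree2x56_ok h, ?_⟩
  refine List.forall_mem_cons.mpr ⟨fun h => runTo_sound hctx _ _ _ tree2x57_ok h, ?_⟩
  refine List.forall_mem_cons.mpr ⟨fun h => runTo_sound hctx _ _ _ tree2x58_ok h, ?_⟩
  refine List.forall_mem_cons.mpr ⟨fun h => runTo_sound hctx _ _ _ tree2x59_ok h, ?_⟩
  refine List.forall_mem_cons.mpr ⟨fun h => runTo_sound hctx _ _ _ tree2x60_ok h, ?_⟩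
  refine List.forall_mem_cons.mpr ⟨fun h => runTo_sound hctx _ _ _ tree2x61_ok h, ?_⟩
  refine List.forall_mem_cons.mpr ⟨fun h => runTo_sound hctx _ _ _ tree2x62_ok h, ?_⟩
  refine List.forall_mem_cons.mpr ⟨fun h => runTo_sound hctx _ _ _ tree2x63_ok h, ?_⟩
  refine List.forall_mem_cons.mpr ⟨fun h => runTo_sound hctx _ _ _ tree2x64_ok h, ?_⟩
  refine List.forall_mem_cons.mpr ⟨fun h => runTo_sound hctx _ _ _ tree2x65_ok h, ?_⟩
  refine List.forall_mem_cons.mpr ⟨fun h => runTo_sound hctx _ _ _ tree2x66_ok h, ?_⟩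
  refine List.forall_mem_cons.mpr ⟨fun h => runTo_sound hctx _ _ _ tree2x67_ok h, ?_⟩
  refine List.forall_mem_cons.mpr ⟨fun h => runTo_sound hctx _ _ _ tree2x68_ok h, ?_⟩
  refine List.forall_mem_cons.mpr ⟨fun h => runTo_sound hctx _ _ _ tree2x69_ok h, ?_⟩
  refine List.forall_mem_cons.mpr ⟨fun h => runTo_sound hctx _ _ _ tree2x70_ok h, ?_⟩
  refine List.forall_mem_cons.mpr ⟨fun h => runTo_sound hctx _ _ _ tree2x71_ok h, ?_⟩
  refine List.forall_mem_cons.mpr ⟨fun h => runTo_sound hctx _ _ _ tree2x72_ok h, ?_⟩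
  refine List.forall_mem_cons.mpr ⟨fun h => runTo_sound hctx _ _ _ tree2x73_ok h, ?_⟩
  refine List.forall_mem_cons.mpr ⟨fun h => runTo_sound hctx _ _ _ tree2x74_ok h, ?_⟩
  refine List.forall_mem_cons.mpr ⟨fun h => runTo_sound hctx _ _ _ tree2x75_ok h, ?_⟩
  refine List.forall_mem_cons.mpr ⟨fun h => runTo_sound hctx _ _ _ tree2x76_ok h, ?_⟩
  refine List.forall_mem_cons.mpr ⟨fun h => runTo_sound hctx _ _ _ tree2x77_ok h, ?_⟩
  refine List.forall_mem_cons.mpr ⟨fun h => runTo_sound hctx _ _ _ tree2x78_ok h, ?_⟩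
  refine List.forall_mem_cons.mpr ⟨fun h => runTo_sound hctx _ _ _ tree2x79_ok h, ?_⟩
  refine List.forall_mem_cons.mpr ⟨fun h => runTo_sound hctx _ _ _ tree2x80_ok h, ?_⟩
  refine List.forall_mem_cons.mpr ⟨fun h => runTo_sound hctx _ _ _ tree2x81_ok h, ?_⟩
  refine List.forall_mem_cons.mpr ⟨fun h => runTo_sound hctx _ _ _ tree2x82_ok h, ?_⟩
  refine List.forall_mem_cons.mpr ⟨fun h => runTo_sound hctx _ _ _ tree2x83_ok h, ?_⟩
  refine List.forall_mem_cons.mpr ⟨fun h => runTo_sound hctx _ _ _ tree2x84_ok h, ?_⟩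
  refine List.forall_mem_cons.mpr ⟨fun h => runTo_sound hctx _ _ _ tree2x85_ok h, ?_⟩
  refine List.forall_mem_cons.mpr ⟨fun h => runTo_sound hctx _ _ _ tree2x86_ok h, ?_⟩
  refine List.forall_mem_cons.mpr ⟨fun h => runTo_sound hctx _ _ _ tree2x87_ok h, ?_⟩
  refine List.forall_mem_cons.mpr ⟨fun h => runTo_sound hctx _ _ _ tree2x88_ok h, ?_⟩
  refine List.forall_mem_cons.mpr ⟨fun h => runTo_sound hctx _ _ _ tree2x89_ok h, ?_⟩
  refine List.forall_mem_cons.mpr ⟨fun h => runTo_sound hctx _ _ _ tree2x90_ok h, ?_⟩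
  refine List.forall_mem_cons.mpr ⟨fun h => runTo_sound hctx _ _ _ tree2x91_ok h, ?_⟩
  refine List.forall_mem_cons.mpr ⟨fun h => runTo_sound hctx _ _ _ tree2x92_ok h, ?_⟩
  refine List.forall_mem_cons.mpr ⟨fun h => runTo_sound hctx _ _ _ tree2x93_ok h, ?_⟩
  refine List.forall_mem_cons.mpr ⟨fun h => runTo_sound hctx _ _ _ tree2x94_ok h, ?_⟩
  refine List.forall_mem_cons.mpr ⟨fun h => runTo_sound hctx _ _ _ tree2x95_ok h, ?_⟩
  refine List.forall_mem_cons.mpr ⟨fun h => runTo_sound hctx _ _ _ tree2x96_ok h, ?_⟩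
  refine List.forall_mem_cons.mpr ⟨fun h => runTo_sound hctx _ _ _ tree2x97_ok h, ?_⟩
  refine List.forall_mem_cons.mpr ⟨fun h => runTo_sound hctx _ _ _ tree2x98_ok h, ?_⟩
  refine List.forall_mem_cons.mpr ⟨fun h => runTo_sound hctx _ _ _ tree2x99_ok h, ?_⟩
  refine List.forall_mem_cons.mpr ⟨fun h => runTo_sound hctx _ _ _ tree2x100_ok h, ?_⟩
  refine List.forall_mem_cons.mpr ⟨fun h => runTo_sound hctx _ _ _ tree2x101_ok h, ?_⟩
  refine List.forall_mem_cons.mpr ⟨fun h => runTo_sound hctx _ _ _ tree2x102_ok h, ?_⟩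
  refine List.forall_mem_cons.mpr ⟨fun h => runTo_sound hctx _ _ _ tree2x103_ok h, ?_⟩
  refine List.forall_mem_cons.mpr ⟨fun h => runTo_sound hctx _ _ _ tree2x104_ok h, ?_⟩
  refine List.forall_mem_cons.mpr ⟨fun h => runTo_sound hctx _ _ _ tree2x105_ok h, ?_⟩
  intro ab hab
  exact absurd hab (by simp)

end Pool.Agent.MP1f45fc.SalemC
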