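import Pool.Agent.Lib.MP_1f45fc_nt.SalemC.Sps

set_option autoImplicit false

namespace Pool.Agent.MP1f45fc.SalemC

def goals3a0 : List Goal := [⟨[], 17, 20, 20⟩]

def goals3b0 : List Goal := [⟨[1, 1, 2, 3, 5, 8, 13, 21, 34, 55, 89, 144, 233, 377, 609], 17, 20, 20⟩,
  ⟨[1, 1, 2, 3, 5, 8, 13, 21, 34, 55, 89, 144, 233, 377, 610], 17, 20, 20⟩,
  ⟨[1, 1, 2, 3, 5, 8, 13, 21, 34, 55, 89, 144, 233, 377, 611], 17, 20, 20⟩,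
  ⟨[1, 1, 2, 3, 5, 8, 13, 21, 34, 55, 89, 144, 233, 378], 17, 20, 20⟩,
  ⟨[1, 1, 2, 3, 5, 8, 13, 21, 34, 55, 89, 144, 234], 17, 20, 20⟩,
  ⟨[1, 1, 2, 3, 5, 8, 13, 21, 34, 55, 89, 145], 17, 20, 20⟩,
  ⟨[1, 1, 2, 3, 5, 8, 13, 21, 34, 55, 90], 17, 20, 20⟩,
  ⟨[1, 1, 2, 3, 5, 8, 13, 21, 34, 56], 17, 20, 20⟩,
  ⟨[1, 1, 2, 3, 5, 8, 13, 21, 35], 17, 20, 20⟩,
  ⟨[1, 1, 2, 3, 5, 8, 13, 22], 17, 20, 20⟩,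
  ⟨[1, 1, 2, 3, 5, 8, 14], 17, 20, 20⟩,
  ⟨[1, 1, 2, 3, 5, 9], 17, 20, 20⟩,
  ⟨[1, 1, 2, 3, 6], 17, 20, 20⟩,
  ⟨[1, 1, 2, 4], 17, 20, 20⟩,
  ⟨[1, 1, 3], 17, 20, 20⟩,
  ⟨[1, 2], 17, 20, 20⟩,
  ⟨[1, 3], 17, 20, 20⟩,
  ⟨[1, 4], 17, 20, 20⟩,
  ⟨[2], 17, 20, 20⟩,
  ⟨[3], 17, 20, 20⟩]

theorem tree3x0_ok : runTo 3 false sps3 [
  .branch (-3) 7 3386 [-1] 5000 [1],
  .dead 2386 [1],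
  .dead 1386 [1],
  .branch (0) 1 1714 [-1, -1] 1058 [-1, 1],
  .zero,
  .z0,
  .branch (0) 5 1243 [1, -1] 7000 [0, 1],
  .zero,
  .branch (1) 3 1000 [1, 0, -1] 4000 [0, -1, 1],
  .branch (1) 2 1423 [1, 1, 0, -1] 5000 [1, -2, -3, 3],
  .rigid [-1, -1, 0, 1] [0, 1, 1, 1],
  .branch (2) 2 1299 [1, 0, 0, 1, -1] 4000 [1, 0, -3, -1, 2],
  .rigid [-1, 0, 0, -1, 1] [0, 0, 0, 1, 1],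
  .branch (4) 2 840 [2, 0, -1, 1, 2, -2] 4000 [0, -1, -2, -1, -1, 2],
  .rigid [-1, 0, 1, -1, -1, 1] [0, 0, 0, 0, 1, 1],
  .branch (7) 2 3000 [2, 0, -1, 0, 1, 2, -2] 4000 [0, 0, -1, -1, -1, 0, 1],
  .rigid [-1, 0, 1, 0, -1, -1, 1] [0, 0, 0, 0, 0, 1, 1],
  .branch (12) 1 1029 [1, 0, -1, 0, 0, 1, 1, -1] 21000 [-1, -1, -6, -6, -6, -5, 0, 6],
  .rigid [-1, 0, 1, 0, 0, -1, -1, 1] [0, 0, 0, 0, 0, 0, 1, 1],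
  .branch (2) 3 1217 [1, 0, 1, -1] 2026 [0, -1, -1, 1],
  .rigid [-1, 0, -1, 1] [0, 0, 1, 1],
  .branch (4) 3 2000 [0, 0, 1, 1, -1] 2022 [0, 0, -1, -1, 1],
  .branch (6) 2 1413 [0, 0, 2, 1, 0, -1] 3000 [1, -1, 0, 0, -3, 2],
  .rigid [-1, -1, -1, -1, 0, 1] [0, 0, 0, 0, 1, 1],
  .branch (11) 1 1096 [1, -1, 1, 0, -1, 2, -1] 2201 [1, 0, 0, 0, -2, -2, 2],
  .rigid [-1, 1, -1, 0, 1, -2, 1] [0, 0, 0, 0, 0, 1, 1],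
  .branch (7) 3 2000 [0, 0, 0, 1, 1, -1] 2019 [0, 0, 0, -1, -1, 1],
  .rigid [-1, 0, -1, 0, -1, 1] [0, 0, 0, 0, 1, 1],
  .branch (12) 3 2000 [0, 0, 0, 0, 1, 1, -1] 2016 [0, 0, 0, 0, -1, -1, 1],
  .branch (19) 1 4190 [1, 1, 1, 1, 1, 2, 1, -2] 2000 [2, -2, 1, -2, 0, 1, -5, 3],
  .rigid [-1, -1, -1, -1, -1, -1, 0, 1] [0, 0, 0, 0, 0, 0, 1, 1],
  .branch (20) 3 2000 [0, 0, 0, 0, 0, 1, 1, -1] 2014 [0, 0, 0, 0, 0, -1, -1, 1],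
  .rigid [-1, 0, -1, 0, -1, 0, -1, 1] [0, 0, 0, 0, 0, 0, 1, 1],
  .branch (33) 3 2000 [0, 0, 0, 0, 0, 0, 1, 1, -1] 2012 [0, 0, 0, 0, 0, 0, -1, -1, 1],
  .branch (53) 1 8053 [0, 0, 2, 1, 1, 2, 3, 3, 1, -3] 2000 [2, -2, 1, -1, 0, 0, -1, 1, -5, 3],
  .rigid [-1, -1, -1, -1, -1, -1, -1, -1, 0, 1] [0, 0, 0, 0, 0, 0, 0, 0, 1, 1],
  .branch (54) 3 2000 [0, 0, 0, 0, 0, 0, 0, 1, 1, -1] 2010 [0, 0, 0, 0, 0, 0, 0, -1, -1, 1],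
  .rigid [-1, 0, -1, 0, -1, 0, -1, 0, -1, 1] [0, 0, 0, 0, 0, 0, 0, 0, 1, 1],
  .branch (88) 3 2000 [0, 0, 0, 0, 0, 0, 0, 0, 1, 1, -1] 2009 [0, 0, 0, 0, 0, 0, 0, 0, -1, -1, 1],
  .branch (142) 1 8051 [0, 0, 1, 0, 2, 1, 1, 2, 3, 3, 1, -3] 2000 [2, -2, 1, 0, 0, -1, 0, 0, -1, 1, -5, 3],
  .rigid [-1, -1, -1, -1, -1, -1, -1, -1, -1, -1, 0, 1] [0, 0, 0, 0, 0, 0, 0, 0, 0, 0, 1, 1],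
  .branch (143) 3 2000 [0, 0, 0, 0, 0, 0, 0, 0, 0, 1, 1, -1] 2007 [0, 0, 0, 0, 0, 0, 0, 0, 0, -1, -1, 1],
  .rigid [-1, 0, -1, 0, -1, 0, -1, 0, -1, 0, -1, 1] [0, 0, 0, 0, 0, 0, 0, 0, 0, 0, 1, 1],
  .branch (232) 3 2000 [0, 0, 0, 0, 0, 0, 0, 0, 0, 0, 1, 1, -1] 2007 [0, 0, 0, 0, 0, 0, 0, 0, 0, 0, -1, -1, 1],
  .branch (375) 1 11000 [0, 0, 0, 0, 0, 1, 2, 1, 1, 2, 3, 3, 1, -3] 2000 [2, -1, 2, -1, 0, 0, 0, -1, 0, 0, -1, 1, -5, 3],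
  .rigid [-1, -1, -1, -1, -1, -1, -1, -1, -1, -1, -1, -1, 0, 1] [0, 0, 0, 0, 0, 0, 0, 0, 0, 0, 0, 0, 1, 1],
  .branch (376) 3 2000 [0, 0, 0, 0, 0, 0, 0, 0, 0, 0, 0, 1, 1, -1] 2006 [0, 0, 0, 0, 0, 0, 0, 0, 0, 0, 0, -1, -1, 1],
  .rigid [-1, 0, -1, 0, -1, 0, -1, 0, -1, 0, -1, 0, -1, 1] [0, 0, 0, 0, 0, 0, 0, 0, 0, 0, 0, 0, 1, 1],
  .branch (609) 3 2000 [0, 0, 0, 0, 0, 0, 0, 0, 0, 0, 0, 0, 1, 1, -1] 2005 [0, 0, 0, 0, 0, 0, 0, 0, 0, 0, 0, 0, -1, -1, 1]] goals3a0 = some goals3b0 := by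
  decide +kernel

def goals3a1 : List Goal := [⟨[1, 1, 2, 3, 5, 8, 13, 21, 34, 55, 89, 144, 233, 377, 609], 17, 20, 20⟩,
  ⟨[1, 1, 2, 3, 5, 8, 13, 21, 34, 55, 89, 144, 233, 377, 610], 17, 20, 20⟩,
  ⟨[1, 1, 2, 3, 5, 8, 13, 21, 34, 55, 89, 144, 233, 377, 611], 17, 20, 20⟩,
  ⟨[1, 1, 2, 3, 5, 8, 13, 21, 34, 55, 89, 144, 233, 378], 17, 20, 20⟩,
  ⟨[1, 1, 2, 3, 5, 8, 13, 21, 34, 55, 89, 144, 234], 17, 20, 20⟩,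
  ⟨[1, 1, 2, 3, 5, 8, 13, 21, 34, 55, 89, 145], 17, 20, 20⟩]

def goals3b1 : List Goal := [⟨[1, 1, 2, 3, 5, 8, 13, 21, 34, 55, 89, 145, 235], 17, 20, 20⟩]

theorem tree3x1_ok : runTo 3 false sps3 [
  .branch (985) 1 11000 [0, 0, 0, 0, 0, 0, 0, 1, 2, 1, 1, 2, 3, 3, 1, -3] 2000 [2, -1, 1, -2, 1, 0, 0, 0, 1, 0, -1, 0, -1, 1, -5, 3],
  .rigid [-1, -1, -1, -1, -1, -1, -1, -1, -1, -1, -1, -1, -1, -1, 0, 1] [0, 0, 0, 0, 0, 0, 0, 0, 0, 0, 0, 0, 0, 0, 1, 1],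
  .branch (986) 3 2000 [0, 0, 0, 0, 0, 0, 0, 0, 0, 0, 0, 0, 0, 1, 1, -1] 2005 [0, 0, 0, 0, 0, 0, 0, 0, 0, 0, 0, 0, 0, -1, -1, 1],
  .rigid [-1, 0, -1, 0, -1, 0, -1, 0, -1, 0, -1, 0, -1, 0, -1, 1] [0, 0, 0, 0, 0, 0, 0, 0, 0, 0, 0, 0, 0, 0, 1, 1],
  .branch (1596) 3 2000 [0, 0, 0, 0, 0, 0, 0, 0, 0, 0, 0, 0, 0, 0, 1, 1, -1] 2004 [0, 0, 0, 0, 0, 0, 0, 0, 0, 0, 0, 0, 0, 0, -1, -1, 1],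
  .branch (2582) 1 11000 [0, 0, 0, 0, 0, 0, 0, 0, 0, 1, 2, 1, 1, 2, 3, 3, 1, -3] 2000 [2, -1, 1, -2, 1, 0, 0, 0, 0, -1, 0, 1, -1, 0, -1, 1, -5, 3],
  .rigid [-1, -1, -1, -1, -1, -1, -1, -1, -1, -1, -1, -1, -1, -1, -1, -1, 0, 1] [0, 0, 0, 0, 0, 0, 0, 0, 0, 0, 0, 0, 0, 0, 0, 0, 1, 1],
  .spine,
  .branch (2586) 1 2000 [2, -1, 1, -1, 1, -2, 1, 1, 0, -1, 1, -1, 1, 0, 1, -1, 5, -3] 11000 [0, 0, 0, 0, 0, 0, 0, 0, 0, 0, 0, -1, -2, -2, -3, -3, -1, 3],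
  .rigid [-1, 1, -1, 1, -1, 1, -1, 1, -1, 1, -1, 1, -1, 1, -1, 1, -2, 1] [0, 0, 0, 0, 0, 0, 0, 0, 0, 0, 0, 0, 0, 0, 0, 0, 1, 1],
  .branch (1599) 1 2000 [2, -1, 1, -2, 1, 0, 0, 0, 1, 0, -1, 1, 0, 1, -1, 5, -3] 11000 [0, 0, 0, 0, 0, 0, 0, 0, 0, 0, -1, -2, -2, -3, -3, -1, 3],
  .branch (2587) 2 1000 [0, 0, 0, 0, 0, 0, 0, 0, 0, 0, 0, 0, 0, 0, 0, 1, 1, -1] 7000 [-1, -2, 1, 0, 0, 0, 0, 0, 0, 0, 0, -1, -1, -1, -2, 0, -2, 2],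
  .rigid [-1, 0, 0, 0, 0, 0, 0, 0, 0, 0, 0, 0, 0, 0, 0, -1, -1, 1] [0, 0, 0, 0, 0, 0, 0, 0, 0, 0, 0, 0, 0, 0, 0, 0, 1, 1],
  .rigdiv [4, -1, 6, -1, 4, -1, 2, -1, 0, -1, -2, -1, -4, -1, -6, 3, -5, 4] [0, 0, 0, 0, 0, 0, 0, 0, 0, 0, 0, 0, 0, 0, 0, 0, 1, 1],
  .branch (989) 1 2000 [2, -1, 1, -1, 1, -1, 1, -1, 1, -1, 1, 0, 1, -1, 5, -3] 11000 [0, 0, 0, 0, 0, 0, 0, 0, 0, -1, -2, -2, -3, -3, -1, 3],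
  .rigid [-1, 1, -1, 1, -1, 1, -1, 1, -1, 1, -1, 1, -1, 1, -2, 1] [0, 0, 0, 0, 0, 0, 0, 0, 0, 0, 0, 0, 0, 0, 1, 1],
  .branch (612) 1 2000 [2, -1, 2, -1, 0, 0, 0, -1, 0, 1, 0, 1, -1, 5, -3] 11000 [0, 0, 0, 0, 0, 0, 0, 0, -1, -2, -2, -3, -3, -1, 3],
  .branch (990) 2 1000 [0, 0, 0, 0, 0, 0, 0, 0, 0, 0, 0, 0, 0, 1, 1, -1] 7000 [-1, -2, 1, 0, 0, 0, 0, 0, 0, -1, -1, -1, -2, 0, -2, 2],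
  .rigid [-1, 0, 0, 0, 0, 0, 0, 0, 0, 0, 0, 0, 0, -1, -1, 1] [0, 0, 0, 0, 0, 0, 0, 0, 0, 0, 0, 0, 0, 0, 1, 1],
  .branch (1605) 3 1214 [2, 0, 1, -1, 2, -1, 0, -1, -1, 0, 0, 0, -2, 2, 0, 3, -2] 24000 [0, -1, 0, 0, 0, 0, 0, 0, 0, 0, 0, -1, -2, 0, -2, -3, 3],
  .rigdiv [-2, 2, -3, 3, -2, 2, -1, 1, 0, 0, 1, -1, 2, -4, 3, -4, 2] [0, 0, 0, 0, 0, 0, 0, 0, 0, 0, 0, 0, 0, 0, 0, 1, 1],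
  .w2 [1, 1, 0, 1, 0, 0, 0, 0, 0, 0, 0, -2, -5, -4, -8, -5, 8] [-3, 0, -2, -2, -1, -1, 0, 0, 1, 1, 2, 2, 2, -1, 1, 2, -2],
  .w2 [1, 1, 0, 0, 0, 0, 0, 0, 0, 0, 0, -1, -2, -1, -3, -2, 3] [-2, 0, 0, -1, -1, 0, 1, 0, 0, 0, 0, 0, 0, -1, 0, 2, -1],
  .branch (379) 1 184 [1, -1, 1, -2, 0, 0, 1, -1, 1, -1, 1, 0, 3, -2] 11000 [0, 0, 0, 0, 0, 0, 0, -1, -2, -2, -3, -3, -1, 3],
  .rigid [-1, 1, -1, 1, -1, 1, -1, 1, -1, 1, -1, 1, -2, 1] [0, 0, 0, 0, 0, 0, 0, 0, 0, 0, 0, 0, 1, 1],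
  .branch (235) 1 2000 [2, -1, 2, -1, 0, 0, 1, 0, 0, 1, -1, 5, -3] 11000 [0, 0, 0, 0, 0, 0, -1, -2, -2, -3, -3, -1, 3]] goals3a1 = some goals3b1 := by
  decide +kernel

def goals3a2 : List Goal := [⟨[1, 1, 2, 3, 5, 8, 13, 21, 34, 55, 89, 145, 235], 17, 20, 20⟩,
  ⟨[1, 1, 2, 3, 5, 8, 13, 21, 34, 55, 90], 17, 20, 20⟩,
  ⟨[1, 1, 2, 3, 5, 8, 13, 21, 34, 56], 17, 20, 20⟩,
  ⟨[1, 1, 2, 3, 5, 8, 13, 21, 35], 17, 20, 20⟩,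
  ⟨[1, 1, 2, 3, 5, 8, 13, 22], 17, 20, 20⟩]

def goals3b2 : List Goal := [⟨[1, 1, 2, 3, 5, 8, 13, 22, 36, 59, 97, 159], 17, 20, 20⟩,
  ⟨[1, 1, 2, 3, 5, 8, 13, 22, 36, 59, 97, 160], 17, 20, 20⟩,
  ⟨[1, 1, 2, 3, 5, 8, 13, 22, 36, 59, 97, 161], 17, 20, 20⟩,
  ⟨[1, 1, 2, 3, 5, 8, 13, 22, 36, 59, 97, 162], 17, 20, 20⟩,
  ⟨[1, 1, 2, 3, 5, 8, 13, 22, 36, 59, 97, 163], 17, 20, 20⟩,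
  ⟨[1, 1, 2, 3, 5, 8, 13, 22, 36, 59, 97, 164], 17, 20, 20⟩,
  ⟨[1, 1, 2, 3, 5, 8, 13, 22, 36, 59, 98], 17, 20, 20⟩,
  ⟨[1, 1, 2, 3, 5, 8, 13, 22, 36, 59, 99], 17, 20, 20⟩,
  ⟨[1, 1, 2, 3, 5, 8, 13, 22, 36, 60], 17, 20, 20⟩]

theorem tree3x2_ok : runTo 3 false sps3 [
  .branch (380) 2 1000 [0, 0, 0, 0, 0, 0, 0, 0, 0, 0, 0, 1, 1, -1] 7000 [-1, -2, 1, 0, 0, 0, 0, -1, -1, -1, -2, 0, -2, 2],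
  .rigid [-1, 0, 0, 0, 0, 0, 0, 0, 0, 0, 0, -1, -1, 1] [0, 0, 0, 0, 0, 0, 0, 0, 0, 0, 0, 0, 1, 1],
  .branch (618) 3 1224 [2, 0, 1, -2, 1, 0, 0, -1, 0, 0, -2, 2, 0, 3, -2] 24000 [0, -1, 0, 0, 0, 0, 0, 0, 0, -1, -2, 0, -2, -3, 3],
  .branch (1002) 6 4432 [1, 0, 2, 1, -1, -1, -1, 0, -2, -2, -3, 0, 1, 1, 3, -2] 43000 [0, 0, 0, 0, 0, 0, 0, 0, 0, -1, -1, 1, 0, -3, -3, 3],
  .branch (1625) 3 1000 [2, 0, 2, 0, 3, -2, 0, -1, -1, -2, -3, 1, -1, 2, 0, 3, -2] 5000 [0, -1, 0, 0, 0, 0, 0, 0, 0, 0, 0, 0, 0, 1, 0, -2, 1],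
  .rigid [-1, 1, -2, 2, -2, 2, -1, 1, 0, 0, 1, -2, 2, -3, 2, -2, 1] [0, 0, 0, 0, 0, 0, 0, 0, 0, 0, 0, 0, 0, 0, 0, 1, 1],
  .w2 [1, 1, 0, 0, 0, 0, 0, 0, 0, -1, -2, -1, -2, -4, -7, -3, 6] [3, -1, 1, 0, -1, 0, -1, 1, -1, 1, -1, 3, -1, 0, 1, -4, 2],
  .w2 [0, 0, 0, 0, 0, 0, 0, 0, 0, 0, 0, 0, -1, -2, -2, -1, 2] [1, -1, 0, 0, 0, 0, 0, 0, 0, 0, 0, 1, 1, 0, 0, -2, 1],
  .w2 [1, 2, 0, 0, 0, 0, 0, 0, 0, -1, -3, -3, -3, -7, -3, 6] [2, -2, 2, -2, 3, -2, 1, 0, -1, 0, -1, 2, -2, 2, -4, 2],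
  .w2 [1, 1, 0, 0, 0, 0, 0, 0, 0, -1, -2, -1, -2, -5, -2, 4] [2, 0, 1, -1, 1, -1, 0, 0, 1, 0, 0, 2, -2, 1, -2, 1],
  .w2 [0, 1, 0, 0, 0, 0, 0, 0, 0, 0, -1, -2, -1, -3, -2, 3] [-2, 0, 0, 1, 0, 0, 0, 0, -1, 0, 1, -2, 0, 0, 2, -1],
  .w2 [0, 0, 0, 0, 0, 0, 0, 0, 0, 0, 0, 0, -1, -3, -1, 2] [-1, -1, 0, 1, 0, 0, 0, 0, 0, 0, -1, -1, 0, 0, 2, -1],
  .w2 [0, 0, 0, 0, 0, 0, 0, 0, 0, 0, 0, 0, -1, -3, -1, 2] [-1, -1, 0, 1, 0, 0, 0, 0, 0, 0, -1, -2, -1, 1, 2, -1],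
  .w2 [1, 1, 0, 1, 0, 0, 0, 0, 0, -2, -5, -4, -8, -5, 8] [3, 0, 2, 2, 1, 1, 0, -1, -2, -1, -3, 1, -2, -3, 3],
  .w2 [1, 1, 0, 0, 0, 0, 0, 0, 0, -1, -2, -1, -3, -2, 3] [-2, 0, 0, -1, -1, 0, 1, 0, 0, 0, 0, -1, 0, 2, -1],
  .branch (146) 1 163 [1, -1, 1, -1, 1, -1, 1, -1, 1, 0, 3, -2] 11000 [0, 0, 0, 0, 0, -1, -2, -2, -3, -3, -1, 3],
  .rigid [-1, 1, -1, 1, -1, 1, -1, 1, -1, 1, -2, 1] [0, 0, 0, 0, 0, 0, 0, 0, 0, 0, 1, 1],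
  .branch (91) 1 2000 [2, -2, 1, 0, 1, 0, 0, 1, -1, 5, -3] 11000 [0, 0, 0, 0, -1, -2, -2, -3, -3, -1, 3],
  .branch (147) 2 1000 [0, 0, 0, 0, 0, 0, 0, 0, 0, 1, 1, -1] 7000 [-1, -2, 1, 0, 0, -1, -1, -1, -2, 0, -2, 2],
  .rigid [-1, 0, 0, 0, 0, 0, 0, 0, 0, -1, -1, 1] [0, 0, 0, 0, 0, 0, 0, 0, 0, 0, 1, 1],
  .branch (241) 3 1238 [2, 0, 1, -2, 1, -1, -1, -1, -1, 2, 0, 3, -2] 24000 [0, -1, 0, 0, 0, 0, 0, -1, -2, 0, -2, -3, 3],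
  .branch (392) 6 2642 [1, -1, 0, 0, -1, 0, -2, -2, -2, 1, 0, 1, 3, -2] 43000 [0, 0, 0, 0, 0, 0, 0, -1, -1, 1, 0, -3, -3, 3],
  .branch (638) 3 3786 [4, 0, 3, 0, 1, -4, -1, -2, -4, 1, -1, 4, 0, 4, -3] 6000 [0, -1, 0, 0, 0, 0, 0, -1, -1, 1, 0, 1, 0, -2, 1],
  .branch (1038) 3 11255 [-1, -3, 0, -1, 0, -1, -3, -2, -4, -1, -2, 0, 0, 0, 4, -2] 7000 [0, -1, 0, 0, -1, -1, 1, -1, -1, 1, 1, 2, 2, -1, -4, 2],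
  .rigid [-1, 0, -1, 0, 0, 0, 1, 0, 1, -1, 0, -1, -1, 0, -1, 1] [0, 0, 0, 0, 0, 0, 0, 0, 0, 0, 0, 0, 0, 0, 1, 1],
  .branch (1691) 2 10000 [1, -2, 0, -1, 0, -1, 1, -2, -2, 1, -1, 0, -1, -2, -1, 5, -2] 17000 [0, -1, 1, -2, -2, -3, -3, -2, -5, 2, 3, 4, 4, 1, -3, -5, 3],
  .rigid [-1, 1, -1, 1, -1, 1, -1, 1, 0, -1, 1, -1, 1, -1, 1, -2, 1] [0, 0, 0, 0, 0, 0, 0, 0, 0, 0, 0, 0, 0, 0, 0, 1, 1],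
  .w2 [1, 1, 0, 0, 0, 0, 0, -1, -2, -1, -2, -4, -5, -9, -17, -5, 13] [2, 0, 1, -1, -1, -1, -1, 1, -1, 3, 1, 2, 1, -2, -2, -2, 2],
  .w2 [0, 0, 0, 0, 0, 0, 0, 0, 0, 0, -1, -2, -2, -4, -1, 3] [-2, 0, 0, 1, 0, 0, 0, 1, 0, -3, -2, -2, -1, 1, 4, -2],
  .w2 [1, 1, 0, 0, 0, 0, 0, -1, -2, -1, -2, -4, -7, -3, 6] [3, -2, 2, -1, -2, 1, -1, 1, -1, 3, -1, 0, 1, -4, 2],
  .w2 [0, 0, 0, 0, 0, 0, 0, 0, 0, 0, -1, -2, -2, -1, 2] [1, -1, 0, 0, 0, 0, 0, 0, 0, 1, 1, 0, 0, -2, 1],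
  .w2 [1, 2, 1, 0, 0, 0, 0, -2, -5, -4, -5, -11, -4, 9] [3, -1, 3, -3, 3, -1, 1, -1, -2, 3, -4, 2, -5, 3],
  .w2 [1, 1, 0, 0, 0, 0, 0, -1, -2, -1, -1, -3, -2, 3] [2, -1, 0, 0, 1, -1, 1, 0, -1, 2, 0, 0, -2, 1],
  .w2 [0, 1, 0, 0, 0, 0, 0, 0, -1, -2, -1, -3, -2, 3] [-2, 0, 0, 1, 0, 0, -1, 0, 1, -2, 0, 0, 2, -1],
  .w2 [0, 0, 0, 0, 0, 0, 0, 0, 0, 0, -1, -3, -1, 2] [-1, -1, 0, 1, 0, 0, 0, 0, -1, -1, 0, 0, 2, -1],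
  .w2 [0, 0, 0, 0, 0, 0, 0, 0, 0, 0, -1, -3, -1, 2] [-1, 0, 1, 0, 0, 0, 0, 0, -1, -2, -1, 1, 2, -1],
  .rigid [2, 0, 1, 1, 0, 0, -1, -1, -2, 0, -1, -2, 2] [0, 0, 0, 0, 0, 0, 0, 0, 0, 0, 0, 1, 1],
  .w2 [1, 1, 0, 0, 0, 0, 0, -1, -2, -1, -3, -2, 3] [-2, 0, 0, 0, 0, -1, 1, 0, 0, -1, 0, 2, -1],
  .branch (57) 1 159 [1, -1, 1, -1, 1, -1, 1, 0, 3, -2] 11000 [0, 0, -1, -2, -1, -2, -3, -3, -1, 3],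
  .rigid [-1, 1, -1, 1, -1, 1, -1, 1, -2, 1] [0, 0, 0, 0, 0, 0, 0, 0, 1, 1],
  .branch (36) 1 2000 [2, -2, 1, -1, 1, 1, -1, 5, -3] 14000 [0, 0, -1, -2, -2, -3, -4, -2, 4],
  .branch (58) 3 1000 [0, 0, 0, 0, 0, 0, 0, 1, 1, -1] 8000 [0, -1, 0, 0, 0, -1, -1, -1, -2, 2],
  .rigid [-1, 0, 0, 0, 0, 0, 0, -1, -1, 1] [0, 0, 0, 0, 0, 0, 0, 0, 1, 1],
  .branch (97) 3 4000 [1, -1, 1, -2, 0, -1, -1, 2, 0, 3, -2] 24000 [0, -1, 0, 0, 0, -1, -2, 0, -2, -3, 3],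
  .branch (159) 6 2642 [1, -1, 0, 0, -2, -2, -2, 1, 0, 1, 3, -2] 43000 [0, 0, 0, 0, 0, -1, -1, 1, 0, -3, -3, 3]] goals3a2 = some goals3b2 := by
  decide +kernel

def goals3a3 : List Goal := [⟨[1, 1, 2, 3, 5, 8, 13, 22, 36, 59, 97, 159], 17, 20, 20⟩,
  ⟨[1, 1, 2, 3, 5, 8, 13, 22, 36, 59, 97, 160], 17, 20, 20⟩,
  ⟨[1, 1, 2, 3, 5, 8, 13, 22, 36, 59, 97, 161], 17, 20, 20⟩,
  ⟨[1, 1, 2, 3, 5, 8, 13, 22, 36, 59, 97, 162], 17, 20, 20⟩,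
  ⟨[1, 1, 2, 3, 5, 8, 13, 22, 36, 59, 97, 163], 17, 20, 20⟩,
  ⟨[1, 1, 2, 3, 5, 8, 13, 22, 36, 59, 97, 164], 17, 20, 20⟩,
  ⟨[1, 1, 2, 3, 5, 8, 13, 22, 36, 59, 98], 17, 20, 20⟩,
  ⟨[1, 1, 2, 3, 5, 8, 13, 22, 36, 59, 99], 17, 20, 20⟩,
  ⟨[1, 1, 2, 3, 5, 8, 13, 22, 36, 60], 17, 20, 20⟩,
  ⟨[1, 1, 2, 3, 5, 8, 14], 17, 20, 20⟩,
  ⟨[1, 1, 2, 3, 5, 9], 17, 20, 20⟩]

def goals3b3 : List Goal := [⟨[1, 1, 2, 3, 5, 9, 15, 25, 42, 70], 547, 550, 640⟩,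
  ⟨[1, 1, 2, 3, 5, 9, 15, 25, 42, 70], 275, 278, 320⟩,
  ⟨[1, 1, 2, 3, 5, 9, 15, 25, 42, 70], 139, 142, 160⟩,
  ⟨[1, 1, 2, 3, 5, 9, 15, 25, 42, 70], 71, 74, 80⟩,
  ⟨[1, 1, 2, 3, 5, 9, 15, 25, 42, 70], 37, 40, 40⟩,
  ⟨[1, 1, 2, 3, 5, 9, 15, 25, 42, 71], 17, 20, 20⟩,
  ⟨[1, 1, 2, 3, 5, 9, 15, 25, 42, 72], 17, 20, 20⟩,
  ⟨[1, 1, 2, 3, 5, 9, 15, 25, 42, 73], 17, 20, 20⟩,
  ⟨[1, 1, 2, 3, 5, 9, 15, 25, 42, 74], 17, 20, 20⟩,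
  ⟨[1, 1, 2, 3, 5, 9, 15, 25, 42, 75], 17, 20, 20⟩,
  ⟨[1, 1, 2, 3, 5, 9, 15, 25, 43], 17, 20, 20⟩,
  ⟨[1, 1, 2, 3, 5, 9, 15, 25, 44], 17, 20, 20⟩,
  ⟨[1, 1, 2, 3, 5, 9, 15, 26], 17, 20, 20⟩,
  ⟨[1, 1, 2, 3, 5, 9, 16], 17, 20, 20⟩]

theorem tree3x3_ok : runTo 3 false sps3 [
  .branch (260) 3 4101 [0, 0, 1, 0, -1, -3, -2, 0, -1, -1, 2, 3, -2] 5000 [0, -1, 0, -1, -1, 0, -1, 1, 0, 1, 0, -2, 1],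
  .w2 [1, 1, 0, 0, 0, -1, -2, -2, -4, -5, -7, -2, 6] [2, 1, 1, 0, 1, -1, -1, 1, 1, 1, 1, 2, -2],
  .branch (428) 3 5871 [0, -3, 1, -2, -1, -1, -4, 1, -2, 0, 1, -1, 4, -2] 7000 [0, -1, 0, 0, -1, -2, 0, 1, 1, 2, 2, -1, -4, 2],
  .rigid [-1, 0, -1, 0, 0, 0, 1, -1, 0, -1, -1, 0, -1, 1] [0, 0, 0, 0, 0, 0, 0, 0, 0, 0, 0, 0, 1, 1],
  .split,
  .branch (704) 2 11723 [0, -3, -1, -2, -2, -1, -2, 1, 0, -2, 0, -2, -1, 5, -2] 14352 [0, -2, 0, -1, -2, -4, -4, 3, 2, 4, 4, 1, -3, -5, 3],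
  .split,
  .split,
  .split,
  .split,
  .dead 144952 [-32, -31, -21, -20, -16, -15, -15, -6, -4, -1, 2, -1, -3, 4],
  .dead 37007 [-8, -8, -5, -5, -4, -5, -5, -2, -1, 0, 1, 0, -1, 1],
  .split,
  .dead 37127 [-8, -8, -5, -5, -4, -5, -5, -2, -1, 0, 1, 0, -1, 1],
  .dead 37263 [-8, -8, -5, -6, -5, -4, -5, -2, -1, 0, 1, 0, -1, 1],
  .split,
  .dead 78546 [-17, -17, -11, -11, -9, -11, -10, -3, -2, 0, 2, 0, -2, 2],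
  .dead 37774 [-8, -9, -6, -5, -6, -5, -4, -2, -1, 0, 1, 0, -1, 1],
  .split,
  .dead 77203 [-16, -18, -10, -11, -11, -11, -12, -4, -3, 0, 3, -1, -2, 4, -1],
  .dead 46266 [-8, -9, -4, -6, -6, -6, -6, -3, -1, 1, 1, 0, -1, 1],
  .w2 [1, 1, 0, 0, 0, -1, -2, -1, -2, -4, -5, -9, -17, -5, 13] [2, 0, 1, -1, -1, -1, -1, 3, 1, 2, 1, -2, -2, -2, 2],
  .split,
  .dead 52597 [-10, -11, -6, -7, -7, -8, -8, -3, -2, 1, 2, 0, -1, 1],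
  .dead 25000 [-4, -5, -3, -3, -4, -4, -4, -2, -2, 0, 1, 1],
  .w2 [0, 0, 0, 0, 0, 0, 0, 0, -1, -2, -1, -2, -1, 2] [-2, -1, -1, 0, 1, 0, 0, -1, -2, -1, -1, 1, 2, -1],
  .w2 [1, 1, 0, 0, 0, -1, -2, -1, -2, -4, -7, -3, 6] [3, -2, 2, -1, -2, 1, -1, 4, 0, -1, 0, -5, 3],
  .split,
  .split,
  .split,
  .split,
  .dead 43288 [-6, -8, -4, -7, -2, -5, -5, 0, -3, -1, -3, 4],
  .dead 17583 [-3, -4, -2, -3, -2, -3, -2, 0, -1, 0, -2, 2],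
  .dead 17761 [-3, -4, -2, -3, -1, -2, -3, 0, -1, 0, -2, 2],
  .split,
  .dead 22432 [-3, -4, -2, -3, -1, -2, -3, 0, -2, -1, -1, 2],
  .dead 10555 [-2, -3, -1, -1, -1, -2, -2, 0, 0, 0, -1, 1],
  .split,
  .dead 10763 [-2, -3, -1, -1, -1, -2, -2, 0, 0, 0, -1, 1],
  .dead 16000 [-2, -3, -1, -1, -1, -2, -2, 0, -1, -1, 0, 1],
  .w2 [1, 1, 0, 0, 0, -1, -2, -1, -1, -3, -2, 3] [1, -1, 0, -1, 1, 0, -1, 2, 0, 0, -2, 1],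
  .w2 [0, 1, 0, 0, 0, 0, -1, -2, -1, -3, -2, 3] [1, 0, 0, -1, 0, 0, 1, 1, 0, 0, -2, 1],
  .w2 [0, 0, 0, 0, 0, 0, 0, 0, -1, -3, -1, 2] [-1, -1, 0, 1, 0, 0, -1, -1, 0, 0, 2, -1],
  .w2 [0, 0, 0, 0, 0, 0, 0, 0, -1, -3, -1, 2] [-1, 0, 1, 0, 0, 0, -1, -2, -1, 1, 2, -1],
  .split,
  .split,
  .dead 12248 [-1, -3, -1, -1, -1, -2, -2, 1, -1, -2, 2],
  .dead 12473 [-1, -3, 0, 0, -2, -2, -2, 1, -1, -2, 2],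
  .dead 6000 [0, -1, 0, 0, 0, -1, -2, 0, 0, -1, 1],
  .w2 [1, 1, 0, 0, 0, -1, -2, -1, -3, -2, 3] [2, 0, 0, 0, -1, 0, 0, 1, 0, -2, 1],
  .rigid [2, -1, 2, -1, 0, -1, -2, 1, -3, 2] [0, 0, 0, 0, 0, 0, 0, 0, 1, 1],
  .branch (23) 1 154 [1, -1, 1, -1, 1, 0, 3, -2] 14000 [-1, -2, -1, -2, -3, -4, -2, 4],
  .rigid [-1, 1, -1, 1, -1, 1, -2, 1] [0, 0, 0, 0, 0, 0, 1, 1],
  .branch (14) 3 3000 [1, 0, 1, 0, 0, 3, -2] 4000 [0, 0, 0, 0, -1, -1, 1],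
  .rigid [-2, 1, -1, 0, 0, -3, 2] [0, 0, 0, 0, 0, 1, 1],
  .branch (24) 3 1000 [0, 0, 0, 0, 0, 1, 1, -1] 16000 [-1, -2, 1, -2, -3, -2, -2, 3],
  .rigid [-1, 0, 0, 0, 0, -1, -1, 1] [0, 0, 0, 0, 0, 0, 1, 1],
  .branch (41) 4 435 [1, 0, 0, -1, -1, 1, 1, 1, -1] 24000 [0, -1, 0, -1, -2, 0, -2, -3, 3],
  .rigdiv [-2, 0, -1, 1, 0, -2, -1, -2, 2] [0, 0, 0, 0, 0, 0, 0, 1, 1],
  .branch (70) 6 1081 [1, 0, 1, -1, -1, 1, 0, 1, 1, -1] 43000 [0, 0, 0, -1, -1, 1, 0, -3, -3, 3],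
  .split,
  .split,
  .split,
  .split,
  .split,
  .dead 44607 [-11, -9, -6, -6, -5, -3, -2, 0, 2, 1]] goals3a3 = some goals3b3 := by
  decide +kernel

def goals3a4 : List Goal := [⟨[1, 1, 2, 3, 5, 9, 15, 25, 42, 70], 547, 550, 640⟩,
  ⟨[1, 1, 2, 3, 5, 9, 15, 25, 42, 70], 275, 278, 320⟩,
  ⟨[1, 1, 2, 3, 5, 9, 15, 25, 42, 70], 139, 142, 160⟩,
  ⟨[1, 1, 2, 3, 5, 9, 15, 25, 42, 70], 71, 74, 80⟩,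
  ⟨[1, 1, 2, 3, 5, 9, 15, 25, 42, 70], 37, 40, 40⟩,
  ⟨[1, 1, 2, 3, 5, 9, 15, 25, 42, 71], 17, 20, 20⟩,
  ⟨[1, 1, 2, 3, 5, 9, 15, 25, 42, 72], 17, 20, 20⟩,
  ⟨[1, 1, 2, 3, 5, 9, 15, 25, 42, 73], 17, 20, 20⟩,
  ⟨[1, 1, 2, 3, 5, 9, 15, 25, 42, 74], 17, 20, 20⟩,
  ⟨[1, 1, 2, 3, 5, 9, 15, 25, 42, 75], 17, 20, 20⟩,
  ⟨[1, 1, 2, 3, 5, 9, 15, 25, 43], 17, 20, 20⟩,
  ⟨[1, 1, 2, 3, 5, 9, 15, 25, 44], 17, 20, 20⟩,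
  ⟨[1, 1, 2, 3, 5, 9, 15, 26], 17, 20, 20⟩,
  ⟨[1, 1, 2, 3, 5, 9, 16], 17, 20, 20⟩,
  ⟨[1, 1, 2, 3, 6], 17, 20, 20⟩,
  ⟨[1, 1, 2, 4], 17, 20, 20⟩]

def goals3b4 : List Goal := [⟨[1, 1, 2, 4, 7, 12, 20, 35], 71, 74, 80⟩,
  ⟨[1, 1, 2, 4, 7, 12, 21], 71, 74, 80⟩,
  ⟨[1, 1, 2, 4, 8], 34, 37, 40⟩,
  ⟨[1, 1, 2, 4, 9], 34, 37, 40⟩,
  ⟨[1, 1, 2, 4, 10], 34, 37, 40⟩,
  ⟨[1, 1, 2, 4, 11], 34, 37, 40⟩,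
  ⟨[1, 1, 2, 4], 37, 40, 40⟩]

theorem tree3x4_ok : runTo 3 false sps3 [
  .dead 32845 [-7, -6, -4, -4, -3, -2, -2, 0, 1, 1],
  .split,
  .dead 24217 [-5, -5, -3, -3, -3, -2, 0, 0, 0, 1],
  .dead 24301 [-5, -5, -3, -3, -3, -2, 0, 0, 0, 1],
  .split,
  .dead 32753 [-7, -7, -4, -4, -4, -3, -1, 0, 1, 1],
  .dead 32957 [-6, -6, -5, -4, -4, -3, -1, 0, 1, 1],
  .split,
  .split,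
  .dead 33184 [-6, -6, -5, -4, -4, -3, -1, 0, 1, 1],
  .dead 16713 [-4, -4, -2, -2, -2, -1, 0, -1, 0, 1],
  .dead 31211 [-6, -6, -3, -4, -5, -3, -1, 0, 1, 1],
  .split,
  .dead 38997 [-8, -9, -5, -7, -6, -3, -2, 0, 2, 1],
  .dead 12000 [-2, -2, -1, -2, -3, -1, 0, 0, 1],
  .split,
  .split,
  .split,
  .split,
  .dead 26046 [-4, -5, -3, -4, -2, -1, -1, -1, -1, 2],
  .dead 26223 [-4, -5, -3, -4, -2, -1, -1, -1, -1, 2],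
  .dead 30498 [-5, -6, -4, -4, -4, -2, -1, 0, -1, 2],
  .split,
  .dead 28299 [-5, -7, -4, -4, -4, -2, -1, 0, -1, 2],
  .dead 15131 [-2, -3, -2, -3, -1, 0, -1, -1, 0, 1],
  .split,
  .dead 25295 [3, 5, 3, 3, 3, 1, 1, 1, 1, -2],
  .dead 10000 [-1, -2, -2, -1, -1, -1, 0, 0, -1, 1],
  .w2 [1, 2, 0, -1, -3, -3, -3, -8, -4, 7] [3, -1, 0, -1, 1, 2, -1, -2, -4, 3],
  .w2 [0, 1, 0, 0, -1, -2, -1, -3, -2, 3] [-1, 0, 0, 1, -1, -1, 0, 0, 2, -1],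
  .w2 [0, 0, 0, 0, 0, 0, -1, -3, -1, 2] [-1, 0, 1, 0, -1, -2, -1, 1, 2, -1],
  .w2 [0, 0, 0, 0, 0, 0, -1, -3, -1, 2] [-1, 0, 1, 0, -1, -2, -1, 1, 2, -1],
  .split,
  .split,
  .dead 12235 [-1, -3, -1, -2, -2, 1, -1, -2, 2],
  .dead 12471 [-1, -3, -1, -2, -2, 1, -1, -2, 2],
  .dead 13000 [-1, -3, -1, -2, -2, 1, -1, -2, 2],
  .w2 [1, 1, 0, -1, -2, -1, -3, -2, 3] [2, 0, 0, 0, -1, 1, 0, -2, 1],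
  .split,
  .split,
  .dead 11347 [-1, -2, -1, -2, -2, -1, -1, 2],
  .dead 11547 [-1, -2, -1, -2, -2, -1, -1, 2],
  .dead 12000 [-1, -2, -1, -2, -2, -1, -1, 2],
  .split,
  .dead 26129 [-1, -3, -3, -5, -7, -2, 6],
  .dead 7000 [-1, -1, 0, -2, -2, -1, 2],
  .branch (10) 2 1000 [1, 0, 0, -1, 2, -1] 4000 [0, 0, 0, -1, -1, 1],
  .rigid [-1, 1, -1, 1, -2, 1] [0, 0, 0, 0, 1, 1],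
  .split,
  .dead 19238 [-1, -3, -3, -5, -1, 4],
  .dead 7000 [-1, -2, -1, -2, -1, 2],
  .split,
  .branch (6) 6 2533 [1, 0, 1, 2, -2] 70942 [0, -1, -1, 0, 4],
  .branch (10) 1 1231 [2, 1, 0, 3, 1, -2] 6611 [0, -3, 0, 1, -3, 2],
  .branch (16) 2 1113 [1, 0, 1, 1, 0, 1, -1] 3807 [0, -1, -1, 1, -1, -1, 1],
  .rigid [-1, 0, -1, -1, 0, -1, 1] [0, 0, 0, 0, 0, 1, 1],
  .branch (29) 1 10187 [3, -2, 1, 6, -3, 1, 6, -4] 5285 [0, -4, -5, 2, -2, -8, -6, 7],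
  .rigid [-1, 1, 0, -2, 2, 0, -2, 1] [0, 0, 0, 0, 0, 0, 1, 1],
  .split,
  .branch (11) 3 689 [0, 0, 0, 1, 1, -1] 20065 [-1, -2, -1, -1, -1, 2],
  .rigid [-1, 0, 0, -1, -1, 1] [0, 0, 0, 0, 1, 1],
  .branch (20) 2 5365 [0, 0, 0, 1, 1, 1, -1] 8324 [-1, -2, -1, 0, 0, -1, 1],
  .branch (35) 1 6534 [-1, 0, 0, 1, 2, 3, 1, -2] 18447 [0, -5, -2, 1, 1, -1, -6, 4],
  .branch (60) 2 49250 [0, -4, 0, 3, 4, 5, 1, 6, -5] 5596 [0, -1, -1, 0, 0, 0, -1, -1, 1],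
  .rigid [-1, 0, -1, -1, -1, -1, 0, -1, 1] [0, 0, 0, 0, 0, 0, 0, 1, 1],
  .w2 [0, 0, 0, 0, 0, 1, 1, 2, 3] [-2, 0, 1, -1, -1, 0, 3, 1, -2],
  .split,
  .split,
  .dead 40795 [8, 7, 5, 2, 0, -1, -2],
  .dead 13581 [3, 3, 2, 1, 0, 0, -1],
  .split,
  .dead 13669 [3, 3, 2, 1, 0, 0, -1],
  .dead 13759 [3, 3, 2, 1, 0, 0, -1],
  .split,
  .dead 12495 [2, 2, 1, 0, 0, -1],
  .dead 12678 [2, 2, 1, 0, 0, -1],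
  .branch (11) 2 788 [0, 0, 0, 1, 1, -1] 27264 [-3, -4, -3, -1, -1, 3],
  .rigid [-1, 0, 0, -1, -1, 1] [0, 0, 0, 0, 1, 1],
  .branch (20) 2 471 [0, -1, 0, 1, 2, 2, -2] 8530 [-1, -2, -1, 0, 0, -1, 1],
  .branch (35) 1 13578 [-2, -2, -2, 2, 5, 6, 2, -4] 17790 [-1, -3, -2, 0, 1, 0, -3, 2]] goals3a4 = some goals3b4 := by
  decide +kernel

def goals3a5 : List Goal := [⟨[1, 1, 2, 4, 7, 12, 20, 35], 71, 74, 80⟩,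
  ⟨[1, 1, 2, 4, 7, 12, 21], 71, 74, 80⟩,
  ⟨[1, 1, 2, 4, 8], 34, 37, 40⟩,
  ⟨[1, 1, 2, 4, 9], 34, 37, 40⟩,
  ⟨[1, 1, 2, 4, 10], 34, 37, 40⟩,
  ⟨[1, 1, 2, 4, 11], 34, 37, 40⟩,
  ⟨[1, 1, 2, 4], 37, 40, 40⟩,
  ⟨[1, 1, 3], 17, 20, 20⟩,
  ⟨[1, 2], 17, 20, 20⟩]

def goals3b5 : List Goal := [⟨[1, 2, 3, 6, 10, 19, 34], 34, 37, 40⟩,
  ⟨[1, 2, 3, 6, 10, 19, 35], 34, 37, 40⟩,
  ⟨[1, 2, 3, 6, 11], 34, 37, 40⟩,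
  ⟨[1, 2, 3, 6, 12], 34, 37, 40⟩,
  ⟨[1, 2, 3, 6, 13], 34, 37, 40⟩,
  ⟨[1, 2, 3, 6, 14], 34, 37, 40⟩,
  ⟨[1, 2, 3, 6, 15], 34, 37, 40⟩,
  ⟨[1, 2, 3, 6, 16], 34, 37, 40⟩,
  ⟨[1, 2, 3, 6, 17], 34, 37, 40⟩,
  ⟨[1, 2, 3, 6], 37, 40, 40⟩,
  ⟨[1, 2, 3, 7], 17, 20, 20⟩,
  ⟨[1, 2, 3, 8], 17, 20, 20⟩,
  ⟨[1, 2, 3, 9], 17, 20, 20⟩,
  ⟨[1, 2, 3, 10], 17, 20, 20⟩,
  ⟨[1, 2, 3, 11], 17, 20, 20⟩,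
  ⟨[1, 2, 3, 12], 17, 20, 20⟩,
  ⟨[1, 2, 4], 17, 20, 20⟩,
  ⟨[1, 2, 5], 17, 20, 20⟩,
  ⟨[1, 2, 6], 17, 20, 20⟩,
  ⟨[1, 2, 7], 17, 20, 20⟩]

theorem tree3x5_ok : runTo 3 false sps3 [
  .branch (60) 2 49130 [-1, -4, 0, 3, 4, 5, 1, 6, -5] 5723 [0, -1, -1, 0, 0, 0, -1, -1, 1],
  .rigid [-1, 0, -1, -1, -1, -1, 0, -1, 1] [0, 0, 0, 0, 0, 0, 0, 1, 1],
  .w2 [0, 0, 0, 0, 0, 1, 1, 2, 3] [-2, 0, 1, -1, -1, 0, 3, 1, -2],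
  .split,
  .dead 13943 [3, 3, 2, 1, 0, 0, -1],
  .dead 14134 [3, 3, 2, 1, 0, 0, -1],
  .split,
  .dead 6446 [-1, -1, -1, 0, 1],
  .dead 6608 [-1, -1, -1, 0, 1],
  .split,
  .dead 28945 [-1, -2, -1, -1, 3],
  .dead 24123 [-1, -1, -1, 0, 2],
  .split,
  .dead 27024 [0, -1, -1, 0, 2],
  .dead 27914 [0, -1, -1, 0, 2],
  .rigid [1, -1, -1, -2, 1] [0, 0, 0, 0, 1],
  .branch (6) 2 3000 [1, 0, 1, 2, -2] 7000 [-1, -1, -1, 0, 1],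
  .branch (10) 1 2000 [1, 0, 0, 1, 1, -1] 7000 [0, -3, 0, 1, -3, 2],
  .branch (16) 2 10000 [1, 0, 1, 2, 1, 2, -2] 4000 [0, -1, -1, 1, -1, -1, 1],
  .rigid [-1, 0, -1, -1, 0, -1, 1] [0, 0, 0, 0, 0, 1, 1],
  .branch (29) 1 4000 [2, -2, 0, 6, -3, 1, 6, -4] 17000 [-1, -4, -4, 1, -2, -6, -5, 6],
  .rigid [-1, 1, 0, -2, 2, 0, -2, 1] [0, 0, 0, 0, 0, 0, 1, 1],
  .branch (11) 2 1000 [0, 0, 0, 1, 1, -1] 10000 [-2, -3, -2, -1, -1, 2],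
  .rigid [-1, 0, 0, -1, -1, 1] [0, 0, 0, 0, 1, 1],
  .split,
  .split,
  .split,
  .dead 26292 [4, 4, 3, 1, -1, -2],
  .dead 26515 [4, 4, 3, 1, -1, -2],
  .dead 26235 [6, 6, 5, 2, -1, -3],
  .branch (20) 1 152 [0, -1, 0, 1, 2, 2, -2] 15000 [-3, -3, -2, -1, 0, 0, 1],
  .branch (35) 1 42000 [-3, -3, -3, 2, 6, 8, 3, -5] 3145 [-1, -3, -2, 0, 0, 0, -3, 2],
  .branch (60) 1 39000 [-1, -4, -1, 2, 4, 5, 1, 6, -5] 17000 [-4, -5, -6, -1, 2, 2, -4, -3, 3],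
  .rigid [-1, 0, -1, -1, -1, -1, 0, -1, 1] [0, 0, 0, 0, 0, 0, 0, 1, 1],
  .branch (5) 7 2000 [1, 0, 1, -1] 18000 [0, 0, 0, 1],
  .rigid [-1, 1, -2, 1] [0, 0, 1, 1],
  .split,
  .split,
  .split,
  .dead 8009 [0, -1, 0, 1],
  .dead 8130 [0, -1, 0, 1],
  .dead 32640 [-2, -3, 0, 4],
  .split,
  .dead 33758 [-2, -3, 0, 4],
  .dead 16000 [-1, -2, 0, 2],
  .split,
  .split,
  .dead 20768 [0, -1, 0, 2],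
  .dead 21440 [0, -1, 0, 2],
  .split,
  .dead 22181 [0, -1, 0, 2],
  .dead 23000 [0, -1, 0, 2],
  .split,
  .dead 36489 [0, -1, 0, 3],
  .dead 25000 [0, -1, 0, 2],
  .split,
  .dead 14049 [0, 0, 0, 1],
  .dead 15000 [0, 0, 0, 1],
  .split,
  .dead 15049 [0, 0, 0, 1],
  .dead 16000 [0, 0, 0, 1],
  .dead 17000 [0, 0, 0, 1],
  .branch (2) 6 1120 [1, 1, -1] 12000 [0, 0, 1],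
  .rigid [-1, -1, 1] [0, 1, 1],
  .branch (5) 8 2000 [1, 1, 1, -1] 20000 [0, 0, 0, 1],
  .branch (9) 2 473 [1, 3, 2, 1, -2] 4000 [0, 0, -1, -1, 1],
  .branch (15) 2 2000 [2, 3, 3, 2, 2, -3] 691 [0, 1, -1, -4, -3, 3],
  .rigid [-1, -2, -2, -1, 0, 1] [0, 0, 0, 0, 1, 1],
  .branch (27) 2 1000 [0, 1, 0, 0, 1, 1, -1] 554 [0, 1, 0, -3, -3, -1, 2],
  .rigid [-1, -1, 0, 0, -1, -1, 1] [0, 0, 0, 0, 0, 1, 1],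
  .branch (49) 1 1252 [1, 2, 0, -2, 0, 3, 2, -2] 17000 [-3, 4, 2, -7, -12, -8, -1, 6],
  .rigid [-1, -1, 1, 2, 0, -2, -1, 1] [0, 0, 0, 0, 0, 0, 1, 1],
  .branch (17) 1 4000 [1, 1, 0, 0, 3, -2] 5285 [-2, 1, -3, -6, -1, 3],
  .rigid [-1, 0, 1, 0, -2, 1] [0, 0, 0, 0, 1, 1],
  .split,
  .branch (10) 8 4289 [3, 4, 2, 6, -5] 341753 [0, 0, -1, 0, 12],
  .branch (18) 2 9382 [1, 3, 2, 3, 1, -2] 7663 [-1, 0, -1, 0, -3, 2],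
  .branch (32) 2 463 [1, 3, 3, 4, 2, 2, -3] 3799 [0, 0, -1, 0, -1, -1, 1],
  .rigid [-1, -2, -2, -2, -1, 0, 1] [0, 0, 0, 0, 0, 1, 1],
  .branch (59) 1 12349 [2, 1, -2, 5, -2, 1, 8, -5] 5784 [-2, 2, -2, -1, -4, -8, -3, 5],
  .rigid [-1, 0, 1, -1, 1, 0, -2, 1] [0, 0, 0, 0, 0, 0, 1, 1],
  .branch (34) 2 790 [0, 0, 0, 1, -1, 2, -1] 41528 [-3, 0, -3, -1, -6, -4, 5]] goals3a5 = some goals3b5 := by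
  decide +kernel

def goals3a6 : List Goal := [⟨[1, 2, 3, 6, 10, 19, 34], 34, 37, 40⟩,
  ⟨[1, 2, 3, 6, 10, 19, 35], 34, 37, 40⟩,
  ⟨[1, 2, 3, 6, 11], 34, 37, 40⟩]

def goals3b6 : List Goal := [⟨[1, 2, 3, 6, 11, 21], 145, 148, 160⟩,
  ⟨[1, 2, 3, 6, 11, 22], 71, 74, 80⟩]

theorem tree3x6_ok : runTo 3 false sps3 [
  .rigid [-1, 0, 0, -1, 1, -2, 1] [0, 0, 0, 0, 0, 1, 1],
  .split,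
  .split,
  .dead 10975 [2, 0, 2, 1, 3, 1, -2],
  .dead 11108 [2, 0, 2, 1, 3, 1, -2],
  .dead 11384 [2, 0, 2, 1, 3, 1, -2],
  .split,
  .branch (19) 4 16256 [0, 1, 0, 2, 3, -2] 14509 [0, 0, -1, 0, -1, 1],
  .rigid [-1, -1, 0, -1, -1, 1] [0, 0, 0, 0, 1, 1],
  .branch (36) 3 34461 [-1, 2, -1, 2, 6, 6, -5] 26531 [-3, -1, -4, -1, -3, -6, 5],
  .branch (66) 2 33805 [-4, 2, 0, 2, 6, 8, 3, -5] 1230 [0, 0, -2, 0, 0, -1, -3, 2],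
  .branch (120) 2 26324 [-2, 0, 0, 2, 3, 3, 2, 3, -3] 38229 [-2, 1, -3, -1, 2, 1, -6, -6, 5],
  .rigidL [-1, -2, -2, -2, -2, -2, -1, 0, 1] [0, 0, 0, 0, 0, 0, 0, 1, 1] [-1, 1],
  .w2 [0, 0, 0, 0, 0, 1, 1, 2, 4] [2, 2, -1, -1, 1, 0, -3, -2, 2],
  .w2 [0, 0, 0, 0, 0, 1, 1, 2] [-1, 0, 1, 0, 0, 1, 1, -1],
  .branch (67) 3 20917 [-1, 0, -1, 1, 2, 2, 4, -3] 21060 [-1, 0, -2, -1, 0, -2, -2, 2],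
  .branch (123) 2 12766 [-4, 2, -1, 2, 5, 3, 8, 3, -5] 41786 [-1, 0, -3, 1, 0, -1, -1, -8, 5],
  .branch (225) 2 158415 [-16, -1, -4, 9, 11, 15, 24, 9, 16, -17] 13993 [-1, 1, -2, 0, 1, -1, 1, -3, -4, 3],
  .rigid [-1, -2, -2, -2, -2, -2, -2, -1, 0, 1] [0, 0, 0, 0, 0, 0, 0, 0, 1, 1],
  .w2 [0, 0, 0, 0, 0, 0, 0, 1, 1, 3] [-1, -1, 1, 0, 0, 1, 0, 2, 1, -1],
  .w2 [0, 0, 0, 0, 0, 1, 1, 2, 3] [-2, 0, 1, -1, 0, 0, 0, 3, -2],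
  .split,
  .split,
  .split,
  .dead 260942 [64, 40, 35, 19, 5, 7, -2, -9],
  .dead 26564 [6, 4, 3, 2, 0, 1, 0, -1],
  .split,
  .dead 26667 [6, 4, 3, 2, 0, 1, 0, -1],
  .dead 26770 [6, 4, 3, 2, 0, 1, 0, -1],
  .split,
  .split,
  .dead 26874 [6, 4, 3, 2, 0, 1, 0, -1],
  .dead 26979 [6, 4, 3, 2, 0, 1, 0, -1],
  .dead 172520 [40, 24, 23, 12, 3, 5, -1, -6],
  .split,
  .split,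
  .dead 54304 [8, 4, 7, 3, 0, 4, 3, -4],
  .dead 54708 [8, 4, 7, 3, 0, 4, 3, -4],
  .dead 867706 [128, 56, 105, 46, 7, 71, 53, -69],
  .split,
  .split,
  .dead 105114 [12, 6, 10, 3, 3, 7, -8],
  .dead 32283 [8, 4, 7, 2, 2, 5, -5],
  .dead 29568 [6, 3, 5, 1, 2, 4, -4],
  .split,
  .split,
  .dead 35418 [6, 3, 3, 2, 1, -3],
  .dead 29700 [6, 3, 4, 2, 1, -3],
  .split,
  .dead 29910 [6, 3, 4, 2, 1, -3],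
  .dead 30124 [6, 3, 4, 2, 1, -3],
  .split,
  .dead 29365 [2, 1, 2, 1, 1, -2],
  .dead 36323 [3, 1, 2, 2, 2, -3],
  .branch (19) 4 16779 [0, 1, 0, 2, 3, -2] 14967 [0, 0, -1, 0, -1, 1],
  .rigid [-1, -1, 0, -1, -1, 1] [0, 0, 0, 0, 1, 1],
  .branch (36) 3 33721 [-2, 2, -1, 2, 6, 6, -5] 48686 [-5, -1, -6, -2, -4, -8, 7],
  .branch (66) 2 32950 [-5, 2, 0, 2, 6, 8, 3, -5] 23684 [-1, 0, -3, 0, 1, -2, -6, 4],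
  .branch (120) 2 27120 [-2, 0, 0, 2, 3, 3, 2, 3, -3] 39384 [-2, 1, -3, -1, 2, 1, -6, -6, 5],
  .rigid [-1, -2, -2, -2, -2, -2, -1, 0, 1] [0, 0, 0, 0, 0, 0, 0, 1, 1],
  .w2 [0, 0, 0, 0, 0, 1, 1, 2, 4] [2, 2, -1, -1, 1, 0, -3, -2, 2],
  .w2 [0, 0, 0, 0, 0, 1, 1, 2] [-1, 0, 1, 0, 0, 1, 1, -1],
  .branch (67) 3 19586 [-1, 0, -1, 1, 1, 1, 3, -2] 21668 [-1, 0, -2, -1, 0, -2, -2, 2],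
  .branch (123) 2 11737 [-4, 1, -1, 1, 3, 2, 6, 3, -4] 114759 [-3, -1, -7, 1, -1, -2, -1, -16, 10],
  .branch (225) 2 163003 [-16, -1, -4, 9, 11, 15, 24, 9, 16, -17] 43298 [-2, 1, -4, 0, 1, -1, 2, -6, -8, 6],
  .rigid [-1, -2, -2, -2, -2, -2, -2, -1, 0, 1] [0, 0, 0, 0, 0, 0, 0, 0, 1, 1],
  .w2 [0, 0, 0, 0, 0, 0, 0, 1, 1, 3] [-1, -1, 1, 0, 0, 1, 0, 2, 1, -1],
  .w2 [0, 0, 0, 0, 0, 1, 1, 2, 3] [-2, 0, 1, -1, 0, 0, 0, 3, -2],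
  .split,
  .split,
  .dead 27405 [6, 4, 3, 2, 0, 1, 0, -1],
  .dead 27621 [6, 4, 3, 2, 0, 1, 0, -1],
  .split,
  .dead 25147 [6, 3, 4, 2, 0, 1, 0, -1],
  .dead 25339 [6, 3, 4, 2, 0, 1, 0, -1],
  .split,
  .dead 122476 [24, 10, 20, 9, 2, 14, 10, -13],
  .dead 61950 [8, 3, 7, 3, 1, 5, 4, -5],
  .split,
  .dead 29945 [6, 3, 5, 1, 2, 4, -4],
  .dead 30332 [6, 3, 5, 1, 2, 4, -4],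
  .split,
  .dead 30560 [6, 3, 4, 2, 1, -3]] goals3a6 = some goals3b6 := by
  decide +kernel

def goals3a7 : List Goal := [⟨[1, 2, 3, 6, 11, 21], 145, 148, 160⟩,
  ⟨[1, 2, 3, 6, 11, 22], 71, 74, 80⟩,
  ⟨[1, 2, 3, 6, 12], 34, 37, 40⟩,
  ⟨[1, 2, 3, 6, 13], 34, 37, 40⟩,
  ⟨[1, 2, 3, 6, 14], 34, 37, 40⟩,
  ⟨[1, 2, 3, 6, 15], 34, 37, 40⟩,
  ⟨[1, 2, 3, 6, 16], 34, 37, 40⟩,
  ⟨[1, 2, 3, 6, 17], 34, 37, 40⟩,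
  ⟨[1, 2, 3, 6], 37, 40, 40⟩,
  ⟨[1, 2, 3, 7], 17, 20, 20⟩]

def goals3b7 : List Goal := [⟨[1, 2, 3, 7], 37, 40, 40⟩]

theorem tree3x7_ok : runTo 3 false sps3 [
  .dead 31011 [6, 3, 4, 2, 1, -3],
  .split,
  .dead 36878 [3, 1, 2, 2, 2, -3],
  .dead 39245 [2, 1, 2, 2, 2, -3],
  .split,
  .split,
  .dead 13538 [2, 1, 2, 1, -2],
  .dead 13723 [2, 1, 2, 1, -2],
  .dead 14113 [2, 1, 2, 1, -2],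
  .split,
  .split,
  .dead 26619 [-1, 0, -1, -1, 2],
  .dead 27043 [-1, 0, -1, -1, 2],
  .split,
  .dead 27485 [-1, 0, -1, -1, 2],
  .dead 27945 [-1, 0, -1, -1, 2],
  .w2 [0, 0, 0, 0, 1] [0, 0, 1, 1],
  .w2 [0, 0, 0, 0, 1] [0, 0, 1, 1],
  .w2 [0, 0, 0, 0, 1] [0, 0, 1, 1],
  .w2 [0, 0, 0, 0, 1] [0, 0, 1, 1],
  .branch (10) 8 5000 [2, 2, 1, 4, -3] 31000 [0, 0, 0, 0, 1],
  .branch (18) 2 6000 [1, 3, 2, 4, 2, -3] 8000 [-1, 0, -1, 0, -3, 2],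
  .branch (32) 2 15000 [0, 3, 3, 6, 3, 3, -4] 31000 [-1, 1, -3, 1, -4, -6, 5],
  .rigid [-1, -2, -2, -2, -1, 0, 1] [0, 0, 0, 0, 0, 1, 1],
  .branch (59) 1 40000 [4, 3, -6, 16, -5, 1, 24, -14] 5428 [-2, 2, -2, -1, -4, -8, -3, 5],
  .rigid [-1, 0, 1, -1, 1, 0, -2, 1] [0, 0, 0, 0, 0, 0, 1, 1],
  .branch (34) 2 1000 [0, 0, 0, 1, -1, 2, -1] 44000 [-3, 0, -3, -1, -6, -4, 5],
  .rigid [-1, 0, 0, -1, 1, -2, 1] [0, 0, 0, 0, 0, 1, 1],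
  .split,
  .dead 11679 [2, 0, 2, 1, 3, 1, -2],
  .dead 12000 [2, 0, 2, 1, 3, 1, -2],
  .split,
  .branch (19) 4 17358 [0, 1, 0, 2, 3, -2] 15462 [0, 0, -1, 0, -1, 1],
  .rigid [-1, -1, 0, -1, -1, 1] [0, 0, 0, 0, 1, 1],
  .branch (36) 3 34795 [-2, 2, -1, 2, 6, 6, -5] 120184 [-7, -2, -8, -3, -6, -12, 11],
  .branch (66) 1 30088 [-5, 1, 0, 2, 6, 8, 3, -5] 37104 [-8, -4, -12, -2, 4, -3, -12, 8],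
  .branch (120) 2 21330 [-2, 0, -1, 2, 3, 3, 2, 3, -3] 38745 [-3, 1, -3, -1, 2, 1, -6, -6, 5],
  .rigid [-1, -2, -2, -2, -2, -2, -1, 0, 1] [0, 0, 0, 0, 0, 0, 0, 1, 1],
  .w2 [0, 0, 0, 0, 0, 1, 1, 2, 4] [2, 2, -1, -1, 1, 0, -3, -2, 2],
  .split,
  .split,
  .dead 101869 [24, 14, 13, 6, 1, 0, -5],
  .dead 102692 [24, 14, 13, 6, 1, 0, -5],
  .split,
  .dead 103531 [24, 14, 13, 6, 1, 0, -5],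
  .dead 97709 [24, 14, 14, 6, 1, 0, -5],
  .split,
  .dead 37994 [4, 2, 3, 1, 1, 3, -3],
  .dead 31958 [4, 2, 4, 1, 1, 3, -3],
  .split,
  .dead 31478 [6, 3, 4, 2, 1, -3],
  .dead 19536 [6, 3, 4, 3, 1, -3],
  .split,
  .dead 35053 [2, 0, 2, 1, 1, -2],
  .dead 35674 [2, 0, 2, 1, 1, -2],
  .branch (19) 2 18000 [0, 1, 0, 2, 3, -2] 20000 [-6, -3, -4, -3, -1, 3],
  .rigid [-1, -1, 0, -1, -1, 1] [0, 0, 0, 0, 1, 1],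
  .branch (36) 2 36000 [-2, 2, -1, 2, 6, 6, -5] 19000 [-6, -3, -5, -2, -2, -4, 4],
  .branch (66) 1 24000 [-5, 1, -1, 2, 6, 8, 3, -5] 112000 [-18, -9, -24, -4, 8, -5, -24, 16],
  .branch (120) 2 22000 [-2, 0, -1, 2, 3, 3, 2, 3, -3] 33000 [-3, 1, -4, -1, 2, 1, -6, -6, 5],
  .rigid [-1, -2, -2, -2, -2, -2, -1, 0, 1] [0, 0, 0, 0, 0, 0, 0, 1, 1],
  .w2 [0, 0, 0, 0, 0, 1, 1, 2, 4] [2, 2, -1, -1, 1, 0, -3, -2, 2],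
  .branch (67) 2 21000 [-1, 0, -1, 1, 1, 1, 3, -2] 53000 [-12, -5, -10, -5, -1, -7, -6, 7],
  .branch (123) 1 37000 [-8, 1, -4, 1, 6, 5, 12, 6, -8] 76000 [-14, -10, -15, -3, -3, -1, 4, -16, 9],
  .branch (225) 1 36000 [-6, -1, -2, 2, 3, 5, 8, 3, 6, -6] 207000 [-40, -9, -38, -7, 9, -1, 30, -24, -38, 24],
  .rigid [-1, -2, -2, -2, -2, -2, -2, -1, 0, 1] [0, 0, 0, 0, 0, 0, 0, 0, 1, 1],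
  .split,
  .dead 32579 [12, 7, 7, 4, 1, 2, 0, -2],
  .dead 51000 [16, 9, 10, 6, 2, 3, 0, -3],
  .split,
  .dead 14537 [2, 1, 2, 1, -2],
  .dead 15000 [2, 1, 2, 1, -2],
  .split,
  .split,
  .dead 28425 [-1, 0, -1, -1, 2],
  .dead 28926 [-1, 0, -1, -1, 2],
  .dead 79000 [-3, -1, -4, -3, 6],
  .w2 [0, 0, 0, 0, 1] [0, 0, 1, 1],
  .w2 [0, 0, 0, 0, 1] [0, 0, 1, 1],
  .w2 [0, 0, 0, 0, 1] [0, 0, 1, 1],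
  .w2 [0, 0, 0, 0, 1] [0, 0, 1, 1],
  .split,
  .split,
  .split,
  .dead 17880 [-2, -1, -2, 3],
  .dead 18145 [-2, -1, -2, 3],
  .split,
  .dead 18420 [-2, -1, -2, 3],
  .dead 4730 [-1, 0, -1, 1]] goals3a7 = some goals3b7 := by
  decide +kernel

def goals3a8 : List Goal := [⟨[1, 2, 3, 7], 37, 40, 40⟩,
  ⟨[1, 2, 3, 8], 17, 20, 20⟩,
  ⟨[1, 2, 3, 9], 17, 20, 20⟩,
  ⟨[1, 2, 3, 10], 17, 20, 20⟩,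
  ⟨[1, 2, 3, 11], 17, 20, 20⟩,
  ⟨[1, 2, 3, 12], 17, 20, 20⟩,
  ⟨[1, 2, 4], 17, 20, 20⟩,
  ⟨[1, 2, 5], 17, 20, 20⟩,
  ⟨[1, 2, 6], 17, 20, 20⟩,
  ⟨[1, 2, 7], 17, 20, 20⟩,
  ⟨[1, 3], 17, 20, 20⟩,
  ⟨[1, 4], 17, 20, 20⟩,
  ⟨[2], 17, 20, 20⟩,
  ⟨[3], 17, 20, 20⟩]

def goals3b8 : List Goal := []

theorem tree3x8_ok : runTo 3 false sps3 [
  .split,
  .split,
  .dead 4793 [-1, 0, -1, 1],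
  .dead 4858 [-1, 0, -1, 1],
  .dead 5000 [-1, 0, -1, 1],
  .split,
  .split,
  .dead 20738 [0, 0, -1, 2],
  .dead 21426 [0, 0, -1, 2],
  .split,
  .dead 20285 [-1, 0, -1, 2],
  .dead 21000 [-1, 0, -1, 2],
  .w2 [0, 0, 1, 2] [-1, 0, 2, -1],
  .w2 [0, 0, 0, 1] [0, 0, 1],
  .w2 [0, 0, 0, 1] [0, 0, 1],
  .w2 [0, 0, 0, 1] [0, 0, 1],
  .split,
  .branch (6) 7 790 [0, 1, 1, -1] 19830 [0, 0, 0, 1],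
  .rigid [-1, -1, -1, 1] [0, 0, 1, 1],
  .split,
  .split,
  .split,
  .split,
  .dead 52492 [-8, -2, 3, 4],
  .dead 39496 [-6, -1, 2, 3],
  .split,
  .dead 39653 [-6, -1, 2, 3],
  .dead 11652 [-3, -1, 1, 1],
  .split,
  .split,
  .dead 11694 [-3, -1, 1, 1],
  .dead 11736 [-3, -1, 1, 1],
  .dead 71220 [-12, -3, 5, 5],
  .split,
  .split,
  .dead 11909 [-3, -1, 1, 1],
  .dead 11998 [-3, -1, 1, 1],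
  .split,
  .dead 12088 [-3, -1, 1, 1],
  .dead 12181 [-3, -1, 1, 1],
  .split,
  .split,
  .split,
  .dead 12318 [-1, 0, 0, 1],
  .dead 12415 [-1, 0, 0, 1],
  .split,
  .dead 12514 [-1, 0, 0, 1],
  .dead 12614 [-1, 0, 0, 1],
  .split,
  .split,
  .dead 12717 [-1, 0, 0, 1],
  .dead 12822 [-1, 0, 0, 1],
  .dead 42839 [-3, -1, 1, 3],
  .split,
  .split,
  .dead 28485 [-1, 0, 0, 2],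
  .dead 15314 [0, 0, 0, 1],
  .split,
  .dead 15566 [0, 0, 0, 1],
  .dead 15830 [0, 0, 0, 1],
  .split,
  .dead 16314 [0, 0, 0, 1],
  .dead 16830 [0, 0, 0, 1],
  .split,
  .dead 17314 [0, 0, 0, 1],
  .dead 17830 [0, 0, 0, 1],
  .dead 18830 [0, 0, 0, 1],
  .branch (6) 5 1000 [0, 1, 1, -1] 19000 [0, 0, 0, 1],
  .rigid [-1, -1, -1, 1] [0, 0, 1, 1],
  .split,
  .split,
  .split,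
  .dead 12275 [-3, -1, 1, 1],
  .dead 14213 [-2, -1, 1, 1],
  .dead 12572 [-3, -1, 1, 1],
  .split,
  .dead 12781 [-3, -1, 1, 1],
  .dead 13000 [-3, -1, 1, 1],
  .split,
  .split,
  .dead 13263 [-1, 0, 0, 1],
  .dead 13498 [-1, 0, 0, 1],
  .split,
  .dead 13744 [-1, 0, 0, 1],
  .dead 14000 [-1, 0, 0, 1],
  .split,
  .split,
  .dead 16104 [0, 0, 0, 1],
  .dead 16390 [0, 0, 0, 1],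
  .dead 32000 [-1, 0, 0, 2],
  .split,
  .dead 17390 [0, 0, 0, 1],
  .dead 18000 [0, 0, 0, 1],
  .split,
  .split,
  .dead 14528 [-1, 0, 2],
  .dead 14975 [-1, 0, 2],
  .split,
  .dead 15464 [-1, 0, 2],
  .dead 16000 [-1, 0, 2],
  .split,
  .dead 9383 [0, 0, 1],
  .dead 10000 [0, 0, 1],
  .split,
  .dead 10383 [0, 0, 1],
  .dead 11000 [0, 0, 1],
  .split,
  .split,
  .dead 25349 [-1, 6],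
  .dead 26152 [-1, 6],
  .split,
  .dead 4821 [0, 1],
  .dead 5000 [0, 1],
  .split,
  .dead 5658 [0, 1],
  .dead 6000 [0, 1],
  .branch (3) 3 2000 [1, -1] 9000 [0, 1],
  .rigid [-2, 1] [0, 1],
  .split,
  .split,
  .dead 6396 [0, 1],
  .dead 6583 [0, 1],
  .dead 7000 [0, 1],
  .split,
  .dead 7583 [0, 1],
  .dead 8000 [0, 1],
  .dead 4000 [1]] goals3a8 = some goals3b8 := by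
  decide +kernel

end Pool.Agent.MP1f45fc.SalemC
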