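import Mathlib
import Pool.Agent.Lib.MP_1f45fc_nt.SalemC.Tree3x0
import Pool.Agent.Lib.MP_1f45fc_nt.SalemC.Sound2

set_option autoImplicit false

namespace Pool.Agent.MP1f45fc.SalemC

def links3 : List (List Goal × List Goal) := [
  (goals3a0, goals3b0),
  (goals3a1, goals3b1),
  (goals3a2, goals3b2),
  (goals3a3, goals3b3),
  (goals3a4, goals3b4),
  (goals3a5, goals3b5),
  (goals3a6, goals3b6),
  (goals3a7, goals3b7),
  (goals3a8, goals3b8)]

theorem links3_ok : link links3 [⟨[], 17, 20, 20⟩] = true := by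
  decide +kernel

theorem links3_sound {n : ℕ} {β : ℝ} {u : ℕ → ℤ} (hctx : Ctx 3 false sps3 n β u) :
    ∀ ab ∈ links3, (∀ g ∈ ab.2, Bad β u g) → ∀ g ∈ ab.1, Bad β u g := by
  unfold links3
  refine List.forall_mem_cons.mpr ⟨fun h => runTo_sound hctx _ _ _ tree3x0_ok h, ?_⟩
  refine List.forall_mem_cons.mpr ⟨fun h => runTo_sound hctx _ _ _ tree3x1_ok h, ?_⟩
  refine List.forall_mem_cons.mpr ⟨fun h => runTo_sound hctx _ _ _ tree3x2_ok h, ?_⟩
  refine List.forall_mem_cons.mpr ⟨fun h => runTo_sound hctx _ _ _ tree3x3_ok h, ?_⟩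
  refine List.forall_mem_cons.mpr ⟨fun h => runTo_sound hctx _ _ _ tree3x4_ok h, ?_⟩
  refine List.forall_mem_cons.mpr ⟨fun h => runTo_sound hctx _ _ _ tree3x5_ok h, ?_⟩
  refine List.forall_mem_cons.mpr ⟨fun h => runTo_sound hctx _ _ _ tree3x6_ok h, ?_⟩
  refine List.forall_mem_cons.mpr ⟨fun h => runTo_sound hctx _ _ _ tree3x7_ok h, ?_⟩
  refine List.forall_mem_cons.mpr ⟨fun h => runTo_sound hctx _ _ _ tree3x8_ok h, ?_⟩
  intro ab hab
  exact absurd hab (by simp)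

end Pool.Agent.MP1f45fc.SalemC
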