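import Pool.Agent.Lib.MP_1f45fc_nt.SalemC.Run

set_option autoImplicit false

namespace Pool.Agent.MP1f45fc.SalemC

theorem tree4_ok : run 4 false [] [
  .branch (-3) 7 3478 [-1] 5000 [1],
  .dead 2478 [1],
  .dead 1478 [1],
  .branch (0) 1 1885 [-1, -1] 1072 [-1, 1],
  .zero,
  .z0,
  .branch (0) 4 1229 [1, -1] 6000 [0, 1],
  .zero,
  .branch (1) 4 1000 [1, 0, -1] 8000 [0, 0, 1],
  .branch (1) 2 1309 [1, 1, 0, -1] 5000 [1, -1, -2, 2],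
  .rigid [-1, -1, 0, 1] [0, 1, 1, 1],
  .branch (2) 2 1199 [1, 0, 0, 1, -1] 6000 [0, 0, -2, -1, 2],
  .rigid [-1, 0, 0, -1, 1] [0, 0, 0, 1, 1],
  .branch (4) 3 651 [2, 0, -1, 1, 2, -2] 13000 [0, 0, -1, -1, -1, 2],
  .rigid [-1, 0, 1, -1, -1, 1] [0, 0, 0, 0, 1, 1],
  .split,
  .split,
  .branch (7) 2 4176 [1, 0, 0, 0, 1, 1, -1] 55389 [-1, -1, -4, -2, -3, -1, 6],
  .rigid [-1, 0, 1, 0, -1, -1, 1] [0, 0, 0, 0, 0, 1, 1],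
  .split,
  .dead 55398 [-3, -2, -8, -6, -5, 1, 8],
  .dead 13862 [-1, -1, -2, -1, -1, 0, 2],
  .branch (7) 1 4411 [1, 0, 0, 0, 1, 1, -1] 2946 [0, 0, -1, -1, -1, 0, 1],
  .rigid [-1, 0, 1, 0, -1, -1, 1] [0, 0, 0, 0, 0, 1, 1],
  .branch (7) 1 5000 [1, 0, -1, 0, 1, 2, -2] 3000 [0, 0, -1, -1, -1, 0, 1],
  .rigid [-1, 0, 1, 0, -1, -1, 1] [0, 0, 0, 0, 0, 1, 1],
  .rigid [1, 0, -1, -1, -1, 1] [0, 0, 0, 0, 1, 1],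
  .branch (2) 6 1115 [1, 0, 1, -1] 13000 [0, 0, 0, 1],
  .rigid [-1, 0, -1, 1] [0, 0, 1, 1],
  .branch (4) 3 2000 [0, 0, 1, 1, -1] 2097 [0, 0, -1, -1, 1],
  .branch (6) 2 7000 [0, 1, 2, 2, 1, -2] 2000 [1, 0, 0, -1, -1, 1],
  .rigid [-1, -1, -1, -1, 0, 1] [0, 0, 0, 0, 1, 1],
  .branch (11) 1 7000 [1, 0, 2, 1, -1, 3, -2] 5000 [1, 1, 0, 0, -2, -2, 2],
  .rigid [-1, 1, -1, 0, 1, -2, 1] [0, 0, 0, 0, 0, 1, 1],
  .branch (7) 3 2000 [0, 0, 0, 1, 1, -1] 2083 [0, 0, 0, -1, -1, 1],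
  .rigid [-1, 0, -1, 0, -1, 1] [0, 0, 0, 0, 1, 1],
  .branch (12) 3 2000 [0, 0, 0, 0, 1, 1, -1] 2070 [0, 0, 0, 0, -1, -1, 1],
  .branch (19) 2 9000 [1, 0, 0, 1, 2, 2, 1, -2] 3000 [1, 0, 0, 0, 1, 0, -2, 1],
  .rigidL [-1, -1, -1, -1, -1, -1, 0, 1] [0, 0, 0, 0, 0, 0, 1, 1] [-1, 1],
  .w2 [1, 2, 0, 1, 2, 3, -1, -1] [3, -2, 1, 0, 0, 0, -5, 3],
  .split,
  .branch (20) 3 1951 [0, 0, 0, 0, 0, 1, 1, -1] 2060 [0, 0, 0, 0, 0, -1, -1, 1],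
  .rigid [-1, 0, -1, 0, -1, 0, -1, 1] [0, 0, 0, 0, 0, 0, 1, 1],
  .split,
  .split,
  .split,
  .split,
  .dead 36872 [-6, -5, -2, -1, 0, 0, 1, 1],
  .dead 37067 [-6, -5, -2, -1, 0, 0, 1, 1],
  .split,
  .dead 25280 [-3, -3, -2, 0, 0, 0, 0, 1],
  .dead 18793 [-3, -2, -1, -2, 0, 0, 0, 1],
  .split,
  .dead 77541 [-11, -10, -5, -4, 0, 0, 1, 3],
  .dead 19290 [-3, -3, -2, -1, 0, 0, 0, 1],
  .split,
  .split,
  .dead 19491 [-3, -3, -2, -1, 0, 0, 0, 1],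
  .dead 19695 [-3, -3, -2, -1, 0, 0, 0, 1],
  .split,
  .dead 12588 [-2, -1, -1, -1, 0, 0, 1],
  .dead 20115 [-3, -3, -2, -1, 0, 0, 0, 1],
  .split,
  .split,
  .split,
  .dead 22391 [-2, -3, -2, -2, -1, 0, -1, 2],
  .dead 12029 [-1, -2, 0, 0, 0, 0, -1, 1],
  .dead 16084 [-1, -2, -2, -1, -1, -1, -1, 2],
  .split,
  .dead 13649 [-1, -2, 0, -1, -1, 0, -2, 2],
  .dead 8319 [-1, -1, 0, -1, 0, 0, -1, 1],
  .split,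
  .split,
  .split,
  .dead 10228 [-2, -2, -1, -1, 0, 0, 1],
  .dead 10330 [-2, -2, -1, -1, 0, 0, 1],
  .dead 10542 [-2, -2, -1, -1, 0, 0, 1],
  .branch (20) 2 2000 [0, 0, 0, 0, 0, 1, 1, -1] 10000 [-1, -1, 0, -1, 0, -1, -2, 2],
  .rigid [-1, 0, -1, 0, -1, 0, -1, 1] [0, 0, 0, 0, 0, 0, 1, 1],
  .split,
  .dead 10764 [-2, -2, -1, -1, 0, 0, 1],
  .dead 11000 [-2, -2, -1, -1, 0, -1, 0, 1],
  .split,
  .split,
  .split,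
  .dead 10650 [-1, -2, 0, -1, 0, -2, 2],
  .dead 10823 [-1, -2, 0, -1, 0, -2, 2],
  .dead 11186 [-1, -2, 0, -1, 0, -2, 2],
  .split,
  .dead 11537 [0, -1, -1, -1, 0, -2, 2],
  .dead 12000 [0, -1, -1, -1, 0, -2, 2],
  .split,
  .split,
  .split,
  .dead 15516 [-1, -2, -1, 0, -1, 2],
  .dead 7958 [-1, -1, 0, -1, 0, 1],
  .split,
  .dead 8110 [-1, -1, 0, -1, 0, 1],
  .dead 8270 [-1, -1, 0, -1, 0, 1],
  .split,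
  .dead 9683 [-1, -2, -1, -1, -1, 2],
  .dead 10000 [-1, -2, -1, -1, -1, 2],
  .split,
  .split,
  .dead 8056 [0, -1, 0, -2, 2],
  .dead 8404 [0, -2, -1, -1, 2],
  .dead 13000 [-1, -2, -1, -2, 3],
  .split,
  .split,
  .split,
  .split,
  .dead 12549 [0, -1, 0, 2],
  .dead 12680 [0, -1, 0, 2],
  .dead 12953 [0, -1, 0, 2],
  .split,
  .dead 13243 [0, -1, 0, 2],
  .dead 13551 [0, -1, 0, 2],
  .split,
  .split,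
  .dead 13879 [0, -1, 0, 2],
  .dead 14229 [0, -1, 0, 2],
  .split,
  .dead 14602 [0, -1, 0, 2],
  .dead 15000 [0, -1, 0, 2],
  .split,
  .split,
  .dead 8696 [0, 0, 0, 1],
  .dead 9077 [0, 0, 0, 1],
  .split,
  .dead 9509 [0, 0, 0, 1],
  .dead 10000 [0, 0, 0, 1],
  .split,
  .dead 10077 [0, 0, 0, 1],
  .dead 11000 [0, 0, 0, 1],
  .split,
  .dead 11077 [0, 0, 0, 1],
  .dead 12000 [0, 0, 0, 1],
  .split,
  .split,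
  .dead 13054 [0, -1, 3],
  .dead 13619 [0, -1, 3],
  .split,
  .dead 14264 [0, -1, 3],
  .dead 15000 [0, -1, 3],
  .split,
  .dead 6408 [0, 0, 1],
  .dead 7000 [0, 0, 1],
  .branch (2) 4 1017 [1, 1, -1] 10000 [0, 0, 1],
  .rigid [-1, -1, 1] [0, 1, 1],
  .split,
  .split,
  .split,
  .dead 9286 [0, 1, 1],
  .dead 9490 [0, 1, 1],
  .split,
  .dead 9706 [0, 1, 1],
  .dead 9935 [0, 1, 1],
  .split,
  .split,
  .dead 10178 [0, 1, 1],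
  .dead 10436 [0, 1, 1],
  .split,
  .dead 10709 [0, 1, 1],
  .dead 11000 [0, 1, 1],
  .split,
  .split,
  .dead 7052 [0, 0, 1],
  .dead 7333 [0, 0, 1],
  .dead 8000 [0, 0, 1],
  .split,
  .dead 8333 [0, 0, 1],
  .dead 9000 [0, 0, 1],
  .split,
  .dead 4603 [0, 1],
  .dead 5000 [0, 1],
  .split,
  .dead 2733 [1],
  .dead 3000 [1],
  .dead 4000 [1]] [⟨[], 17, 20, 20⟩] = true := by
  decide +kernel

theorem tree5_ok : run 5 false [] [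
  .branch (-3) 7 3557 [-1] 5000 [1],
  .dead 2557 [1],
  .dead 1557 [1],
  .branch (0) 1 2030 [-1, -1] 1084 [-1, 1],
  .zero,
  .z0,
  .branch (0) 3 1217 [1, -1] 5000 [0, 1],
  .zero,
  .branch (1) 3 1000 [1, 0, -1] 7000 [0, 0, 1],
  .branch (1) 5 1212 [1, 1, 0, -1] 10000 [0, 0, 0, 1],
  .rigid [-1, -1, 0, 1] [0, 1, 1, 1],
  .branch (2) 6 1113 [1, 0, 0, 1, -1] 14000 [0, 0, 0, 0, 1],
  .rigid [-1, 0, 0, -1, 1] [0, 0, 0, 1, 1],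
  .split,
  .branch (4) 5 4365 [1, 0, 0, 1, 1, -1] 16146 [0, 0, 0, 0, 0, 1],
  .rigid [-1, 0, 1, -1, -1, 1] [0, 0, 0, 0, 1, 1],
  .split,
  .split,
  .split,
  .dead 14374 [0, 0, -1, -1, 0, 2],
  .dead 8084 [0, 0, -1, 0, 0, 1],
  .split,
  .dead 8192 [0, 0, -1, 0, 0, 1],
  .dead 40341 [-1, 0, -2, -1, 1, 4],
  .split,
  .split,
  .dead 40925 [-1, 0, -2, -1, 1, 4],
  .dead 41528 [-1, 0, -2, -1, 1, 4],
  .split,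
  .dead 35139 [0, 0, -1, -1, 1, 3],
  .dead 35694 [0, 0, -1, -1, 1, 3],
  .rigid [1, 0, -1, -1, -1, 1] [0, 0, 0, 0, 1, 1],
  .w2 [0, 0, 0, 1, 1, 2] [-1, 0, 1, 1, 1, -1],
  .w2 [0, 0, 0, 0, 0, 1] [0, 0, 0, 0, 1],
  .branch (4) 4 5000 [1, 0, 0, 1, 1, -1] 17000 [0, 0, 0, 0, 0, 1],
  .rigid [-1, 0, 1, -1, -1, 1] [0, 0, 0, 0, 1, 1],
  .split,
  .split,
  .split,
  .dead 36270 [0, 0, -1, -1, 1, 3],
  .dead 44173 [-1, 0, -2, -1, 1, 4],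
  .split,
  .dead 21970 [0, 0, -1, 0, 0, 2],
  .dead 22344 [0, 0, -1, 0, 0, 2],
  .split,
  .split,
  .dead 22733 [0, 0, -1, 0, 0, 2],
  .dead 23138 [0, 0, -1, 0, 0, 2],
  .split,
  .dead 23560 [0, 0, -1, 0, 0, 2],
  .dead 24000 [0, 0, -1, 0, 0, 2],
  .rigid [1, 0, -1, -1, -1, 1] [0, 0, 0, 0, 1, 1],
  .w2 [0, 0, 0, 1, 1, 2] [-1, 0, 1, 1, 1, -1],
  .rigid [1, 0, -2, -1, 1] [0, 0, 0, 1, 1],
  .w2 [0, 0, 0, 1, 2] [-1, 0, 1, 1, -1],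
  .w2 [0, 0, 0, 0, 1] [0, 0, 1, 1],
  .w2 [0, 0, 0, 0, 1] [0, 0, 1, 1],
  .rigid [1, -1, -2, 1] [0, 0, 0, 1],
  .w2 [0, 0, 1, 2] [-1, 1, 2, -1],
  .w2 [0, 0, 0, 1] [0, 0, 1],
  .branch (2) 5 1028 [1, 0, 1, -1] 12000 [0, 0, 0, 1],
  .rigid [-1, 0, -1, 1] [0, 0, 1, 1],
  .split,
  .split,
  .split,
  .split,
  .dead 10334 [0, 0, 1, 1],
  .dead 10470 [0, 0, 1, 1],
  .split,
  .dead 10610 [0, 0, 1, 1],
  .dead 10756 [0, 0, 1, 1],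
  .split,
  .split,
  .dead 10907 [0, 0, 1, 1],
  .dead 11063 [0, 0, 1, 1],
  .dead 18427 [0, 0, 1, 2],
  .split,
  .split,
  .dead 11750 [0, 0, 1, 1],
  .dead 12134 [0, 0, 1, 1],
  .split,
  .dead 12550 [0, 0, 1, 1],
  .dead 13000 [0, 0, 1, 1],
  .split,
  .split,
  .dead 7647 [0, 0, 0, 1],
  .dead 8034 [0, 0, 0, 1],
  .split,
  .dead 8480 [0, 0, 0, 1],
  .dead 9000 [0, 0, 0, 1],
  .split,
  .dead 9034 [0, 0, 0, 1],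
  .dead 10000 [0, 0, 0, 1],
  .split,
  .dead 10034 [0, 0, 0, 1],
  .dead 11000 [0, 0, 0, 1],
  .split,
  .dead 5361 [0, 0, 1],
  .dead 6000 [0, 0, 1],
  .split,
  .split,
  .dead 3377 [0, 1],
  .dead 3552 [0, 1],
  .split,
  .dead 3758 [0, 1],
  .dead 4000 [0, 1],
  .split,
  .dead 2678 [1],
  .dead 3000 [1],
  .dead 4000 [1]] [⟨[], 17, 20, 20⟩] = true := by
  decide +kernel

theorem tree6_ok : run 6 false [] [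
  .branch (-3) 7 3623 [-1] 5000 [1],
  .dead 2623 [1],
  .dead 1623 [1],
  .branch (0) 1 2153 [-1, -1] 1094 [-1, 1],
  .zero,
  .z0,
  .branch (0) 3 1207 [1, -1] 5000 [0, 1],
  .zero,
  .branch (1) 3 1000 [1, 0, -1] 7000 [0, 0, 1],
  .branch (1) 4 1130 [1, 1, 0, -1] 9000 [0, 0, 0, 1],
  .rigid [-1, -1, 0, 1] [0, 1, 1, 1],
  .branch (2) 5 1040 [1, 0, 0, 1, -1] 13000 [0, 0, 0, 0, 1],
  .rigid [-1, 0, 0, -1, 1] [0, 0, 0, 1, 1],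
  .split,
  .split,
  .split,
  .split,
  .split,
  .dead 6806 [0, 0, 0, 0, 1],
  .dead 6858 [0, 0, 0, 0, 1],
  .dead 24743 [0, 1, -1, 1, 3],
  .split,
  .dead 36839 [0, 1, -1, 2, 4],
  .dead 7186 [0, 0, 0, 0, 1],
  .split,
  .split,
  .dead 7304 [0, 0, 0, 0, 1],
  .dead 7427 [0, 0, 0, 0, 1],
  .split,
  .dead 7555 [0, 0, 0, 0, 1],
  .dead 7688 [0, 0, 0, 0, 1],
  .split,
  .split,
  .split,
  .dead 7828 [0, 0, 0, 0, 1],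
  .dead 7973 [0, 0, 0, 0, 1],
  .dead 8284 [0, 0, 0, 0, 1],
  .split,
  .dead 8625 [0, 0, 0, 0, 1],
  .dead 9000 [0, 0, 0, 0, 1],
  .rigid [1, 0, -2, -1, 1] [0, 0, 0, 1, 1],
  .w2 [0, 0, 0, 1, 2] [-1, 0, 1, 1, -1],
  .w2 [0, 0, 0, 0, 1] [0, 0, 1, 1],
  .rigid [1, -1, -2, 1] [0, 0, 0, 1],
  .w2 [0, 0, 1, 2] [-1, 1, 2, -1],
  .split,
  .split,
  .split,
  .dead 15516 [1, 1, 3],
  .dead 4061 [0, 0, 1],
  .split,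
  .dead 4183 [0, 0, 1],
  .dead 4317 [0, 0, 1],
  .split,
  .split,
  .dead 4464 [0, 0, 1],
  .dead 4626 [0, 0, 1],
  .split,
  .dead 4804 [0, 0, 1],
  .dead 5000 [0, 0, 1],
  .split,
  .dead 5317 [0, 0, 1],
  .dead 6000 [0, 0, 1],
  .split,
  .dead 3505 [0, 1],
  .dead 4000 [0, 1],
  .dead 3000 [1],
  .dead 4000 [1]] [⟨[], 17, 20, 20⟩] = true := by
  decide +kernel

theorem tree7_ok : run 7 false [] [
  .branch (-3) 7 3680 [-1] 5000 [1],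
  .dead 2680 [1],
  .dead 1680 [1],
  .branch (0) 1 2257 [-1, -1] 1102 [-1, 1],
  .zero,
  .z0,
  .branch (0) 3 1199 [1, -1] 5000 [0, 1],
  .zero,
  .branch (1) 3 1000 [1, 0, -1] 7000 [0, 0, 1],
  .branch (1) 4 1060 [1, 1, 0, -1] 9000 [0, 0, 0, 1],
  .rigid [-1, -1, 0, 1] [0, 1, 1, 1],
  .branch (2) 5 1000 [1, 0, 0, 1, -1] 13000 [0, 0, 0, 0, 1],
  .rigid [-1, 0, 0, -1, 1] [0, 0, 0, 1, 1],
  .split,
  .split,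
  .split,
  .dead 11455 [0, 0, 0, 1, 1],
  .dead 11829 [0, 0, 0, 1, 1],
  .split,
  .dead 12237 [0, 0, 0, 1, 1],
  .dead 12685 [0, 0, 0, 1, 1],
  .split,
  .dead 13721 [0, 0, 0, 1, 1],
  .dead 15000 [0, 0, 0, 1, 1],
  .rigid [1, 0, -2, -1, 1] [0, 0, 0, 1, 1],
  .w2 [0, 0, 0, 1, 2] [-1, 0, 1, 1, -1],
  .w2 [0, 0, 0, 0, 1] [0, 0, 1, 1],
  .rigid [1, -1, -2, 1] [0, 0, 0, 1],
  .w2 [0, 0, 1, 2] [-1, 1, 2, -1],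
  .split,
  .split,
  .dead 4017 [0, 0, 1],
  .dead 4277 [0, 0, 1],
  .split,
  .dead 4598 [0, 0, 1],
  .dead 5000 [0, 0, 1],
  .split,
  .dead 5277 [0, 0, 1],
  .dead 6000 [0, 0, 1],
  .split,
  .dead 3461 [0, 1],
  .dead 4000 [0, 1],
  .dead 3000 [1],
  .dead 4000 [1]] [⟨[], 17, 20, 20⟩] = true := by
  decide +kernel

theorem tree8_ok : run 8 false [] [
  .branch (-3) 7 3728 [-1] 5000 [1],
  .dead 2728 [1],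
  .dead 1728 [1],
  .branch (0) 1 2346 [-1, -1] 1110 [-1, 1],
  .zero,
  .z0,
  .branch (0) 3 1191 [1, -1] 5000 [0, 1],
  .zero,
  .branch (1) 3 1000 [1, 0, -1] 7000 [0, 0, 1],
  .branch (1) 4 1001 [1, 1, 0, -1] 9000 [0, 0, 0, 1],
  .rigidL [-1, -1, 0, 1] [0, 1, 1, 1] [-1, 1],
  .split,
  .split,
  .split,
  .dead 15328 [1, 1, 1, 2],
  .dead 4644 [0, 0, 0, 1],
  .split,
  .dead 4811 [0, 0, 0, 1],
  .dead 8236 [0, 0, 1, 1],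
  .split,
  .split,
  .dead 8599 [0, 0, 1, 1],
  .dead 9009 [0, 0, 1, 1],
  .dead 6000 [0, 0, 0, 1],
  .rigid [1, -1, -2, 1] [0, 0, 0, 1],
  .w2 [0, 0, 1, 2] [-1, 1, 2, -1],
  .split,
  .split,
  .dead 3979 [0, 0, 1],
  .dead 4240 [0, 0, 1],
  .split,
  .dead 4572 [0, 0, 1],
  .dead 5000 [0, 0, 1],
  .split,
  .dead 5240 [0, 0, 1],
  .dead 6000 [0, 0, 1],
  .split,
  .dead 3421 [0, 1],
  .dead 4000 [0, 1],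
  .dead 3000 [1],
  .dead 4000 [1]] [⟨[], 17, 20, 20⟩] = true := by
  decide +kernel

theorem tree9_ok : run 9 true [] [
  .branch (-3) 7 4000 [-1] 5000 [1],
  .dead 3000 [1],
  .dead 2000 [1],
  .branch (0) 1 3000 [-1, -1] 1150 [-1, 1],
  .zero,
  .z0,
  .branch (0) 3 1185 [1, -1] 5000 [0, 1],
  .zero,
  .branch (1) 3 2000 [1, 1, -1] 7000 [0, 0, 1],
  .split,
  .branch (1) 2 950 [1, 1, 0, -1] 5965 [0, 0, 0, 1],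
  .split,
  .split,
  .split,
  .dead 14383 [1, 2, 2, 1],
  .dead 8414 [0, 1, 1, 1],
  .split,
  .dead 8576 [0, 1, 1, 1],
  .dead 8748 [0, 1, 1, 1],
  .split,
  .dead 14471 [0, 2, 2, 1],
  .dead 9553 [0, 1, 1, 1],
  .split,
  .split,
  .dead 9414 [0, 1, 1, 1],
  .dead 9748 [0, 1, 1, 1],
  .dead 10553 [0, 1, 1, 1],
  .split,
  .split,
  .dead 7462 [1, 1, 1],
  .dead 6191 [0, 1, 1],
  .branch (1) 1 1000 [1, 1, 0, -1] 13000 [0, 1, 1, 1],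
  .split,
  .dead 11251 [0, 1, 1, 1],
  .dead 12000 [0, 1, 1, 1],
  .split,
  .split,
  .dead 6135 [0, 1, 1],
  .dead 6589 [0, 1, 1],
  .dead 5000 [0, 0, 1],
  .split,
  .dead 5205 [0, 0, 1],
  .dead 6000 [0, 0, 1],
  .split,
  .dead 3384 [0, 1],
  .dead 4000 [0, 1],
  .dead 3000 [1],
  .dead 4000 [1]] [⟨[], 17, 20, 20⟩] = true := by
  decide +kernel

end Pool.Agent.MP1f45fc.SalemC
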