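import Mathlib
import Pool.Agent.Lib.MP_1f45fc_nt.SalemC.Quad
import Pool.Agent.Lib.MP_1f45fc_nt.SalemC.Spine
import Pool.Agent.Lib.MP_1f45fc_nt.SalemC.SpineR
import Pool.Agent.Lib.MP_1f45fc_nt.SalemC.TreeS
import Pool.Agent.Lib.MP_1f45fc_nt.SalemC.Tree2L
import Pool.Agent.Lib.MP_1f45fc_nt.SalemC.Tree3L

set_option autoImplicit false

open Polynomial

namespace Pool.Agent.MP1f45fc.SalemC

/-- Lehmer's polynomial. -/
noncomputable def lehmer : ℤ[X] :=
  X ^ 10 + X ^ 9 - X ^ 7 - X ^ 6 - X ^ 5 - X ^ 4 - X ^ 3 + X + 1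

theorem aeval_lehmer (x : ℝ) : aeval x lehmer =
    x ^ 10 + x ^ 9 - x ^ 7 - x ^ 6 - x ^ 5 - x ^ 4 - x ^ 3 + x + 1 := by
  simp [lehmer]

theorem evl_leh (x : ℝ) : evl leh x =
    x ^ 10 + x ^ 9 - x ^ 7 - x ^ 6 - x ^ 5 - x ^ 4 - x ^ 3 + x + 1 := by
  simp [leh, evl]; ring

/-- Taylor expansion at `1`. -/
theorem leh_taylor (y : ℝ) : evl leh (1 + y) = -1 - 5 * y + y ^ 2 * (26 + 134 * y + 280 * y ^ 2 +
    350 * y ^ 3 + 286 * y ^ 4 + 155 * y ^ 5 + 54 * y ^ 6 + 11 * y ^ 7 + y ^ 8) := by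
  rw [evl_leh]; ring

theorem leh_neg {β τ : ℝ} (hβ : 1 < β) (hβτ : β < τ) (hτ : evl leh τ = 0) : evl leh β < 0 := by
  have h1 := leh_taylor (β - 1)
  have h2 := leh_taylor (τ - 1)
  rw [show 1 + (β - 1) = β by ring] at h1
  rw [show 1 + (τ - 1) = τ by ring, hτ] at h2
  set y := β - 1 with hy
  set w := τ - 1 with hw
  have hy0 : 0 < y := by rw [hy]; linarith
  have hyw : y < w := by rw [hy, hw]; linarith
  have hw0 : 0 < w := hy0.trans hyw
  set G := 26 + 134 * y + 280 * y ^ 2 +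
    350 * y ^ 3 + 286 * y ^ 4 + 155 * y ^ 5 + 54 * y ^ 6 + 11 * y ^ 7 + y ^ 8 with hG
  set K := 26 + 134 * w + 280 * w ^ 2 +
    350 * w ^ 3 + 286 * w ^ 4 + 155 * w ^ 5 + 54 * w ^ 6 + 11 * w ^ 7 + w ^ 8 with hK
  have hGK : G ≤ K := by
    rw [hG, hK]
    gcongr
  rw [h1]
  have hGpos : 0 < G := by rw [hG]; positivity
  have h3 : w ^ 2 * K = 1 + 5 * w := by linarith
  have h4 : w ^ 2 * (-1 - 5 * y + y ^ 2 * G) < 0 := by
    have h5 : w ^ 2 * (y ^ 2 * G) ≤ y ^ 2 * (1 + 5 * w) := by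
      rw [← h3]
      have := mul_le_mul_of_nonneg_left hGK (show 0 ≤ w ^ 2 * y ^ 2 by positivity)
      nlinarith
    have h6 : y ^ 2 < w ^ 2 := by nlinarith
    have h7 : y ^ 2 * w < w ^ 2 * y := by nlinarith [mul_pos hy0 hw0]
    nlinarith
  by_contra hcon
  push Not at hcon
  have := mul_nonneg (sq_nonneg w) hcon
  linarith

theorem tau_lt {τ : ℝ} (hτ1 : 1 < τ) (hτ : evl leh τ = 0) : τ < 20 / 17 := by
  by_contra hcon
  push Not at hcon
  rcases eq_or_lt_of_le hcon with h | h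
  · rw [← h, evl_leh] at hτ
    norm_num at hτ
  · have := leh_neg (β := 20 / 17) (by norm_num) h hτ
    rw [evl_leh] at this
    norm_num at this

theorem core_false {n : ℕ} (hn : 2 ≤ n) {β τ : ℝ} {u : ℕ → ℤ} (hc : Core n β u)
    (h2 : n = 2 → u 0 ≠ 1)
    (hβτ : β < τ) (hτ : evl leh τ = 0) : False := by
  have hβ := hc.one_lt
  have hL := leh_neg hβ hβτ hτ
  have hτ2 := tau_lt (hβ.trans hβτ) hτ
  have hI : InInt 17 20 20 β⁻¹ := by
    refine ⟨by norm_num, by norm_num, ?_, ?_⟩
    · push_cast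
      rw [← div_eq_mul_inv, le_div_iff₀ (by linarith)]
      linarith
    · push_cast
      have : β⁻¹ < 1 := inv_lt_one_of_one_lt₀ hβ
      linarith
  have hroot : ∀ (m : ℕ) (rel : Bool) (t : List Instr), Ctx m rel [] n β u →
      run m rel [] t [⟨[], 17, 20, 20⟩] = true → False := by
    intro m rel t hctx hrun
    exact run_sound hctx t _ hrun ⟨[], 17, 20, 20⟩ (by simp) hI trivial
  rcases Nat.lt_or_ge n 9 with h9 | h9
  · interval_cases n
    · -- n = 2
      have hctx : Ctx 2 false sps2 2 β u := by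
        refine ⟨hc, by norm_num, by simp, hL, ?_⟩
        intro s hs hpre
        simp only [sps2, List.mem_cons, List.not_mem_nil, or_false] at hs
        rcases hs with hs | hs | hs
        · subst hs; exact h2 rfl hpre.1
        · subst hs; exact spineA hc hpre
        · subst hs; exact spineB hc hpre
      exact link_sound links2 _ links2_ok (links2_sound hctx) ⟨[], 17, 20, 20⟩ (by simp) hI trivial
    · -- n = 3
      have hctx : Ctx 3 false sps3 3 β u := by
        refine ⟨hc, by norm_num, by simp, hL, ?_⟩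
        intro s hs hpre
        simp only [sps3, List.mem_cons, List.not_mem_nil, or_false] at hs
        subst hs; exact spine3 hc hpre
      exact link_sound links3 _ links3_ok (links3_sound hctx) ⟨[], 17, 20, 20⟩ (by simp) hI trivial
    · exact hroot 4 false _ ⟨hc, by norm_num, by simp, hL, by simp⟩ tree4_ok
    · exact hroot 5 false _ ⟨hc, by norm_num, by simp, hL, by simp⟩ tree5_ok
    · exact hroot 6 false _ ⟨hc, by norm_num, by simp, hL, by simp⟩ tree6_ok
    · exact hroot 7 false _ ⟨hc, by norm_num, by simp, hL, by simp⟩ tree7_ok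
    · exact hroot 8 false _ ⟨hc, by norm_num, by simp, hL, by simp⟩ tree8_ok
  · exact hroot 9 true _ ⟨hc, by norm_num, by simpa using h9, hL, by simp⟩ tree9_ok

/-- Main theorem: `P` monic with a simple root `θ > 1` and all other roots in the open unit disc,
`n ≥ 3` (or `n = 2` and `P(0) ≠ ε`), `ε = ±1`; every real root `β > 1` of `X ^ n P + ε P*` is at
least the root `τ > 1` of Lehmer's polynomial. -/
theorem salem_construction (P : ℤ[X]) (hP : P.Monic) (θ : ℝ) (hθ : 1 < θ)
    (hθP : aeval θ P = 0) (hθs : aeval θ (derivative P) ≠ 0)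
    (hroots : ∀ z : ℂ, aeval z P = 0 → z ≠ (θ : ℂ) → ‖z‖ < 1)
    (n : ℕ) (ε : ℤ) (hn : 3 ≤ n ∨ (n = 2 ∧ P.coeff 0 ≠ ε))
    (hε : ε = 1 ∨ ε = -1) (β : ℝ) (hβ : 1 < β)
    (heq : β ^ n * aeval β P + ε * aeval β P.reverse = 0)
    (τ : ℝ) (hτ : aeval τ lehmer = 0) : τ ≤ β := by
  by_contra hlt
  push Not at hlt
  have hτ' : evl leh τ = 0 := by rw [evl_leh, ← aeval_lehmer, hτ]
  have hP0 : P ≠ 0 := hP.ne_zero
  -- remove the factor X^k
  obtain ⟨P1, hP1⟩ : X ^ P.natTrailingDegree ∣ P := by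
    rw [X_pow_dvd_iff]
    intro d hd
    exact coeff_eq_zero_of_lt_natTrailingDegree hd
  set k := P.natTrailingDegree with hk
  have hP1c : P1.coeff 0 ≠ 0 := by
    have : P.coeff k ≠ 0 := by
      rw [hk]
      exact mem_support_iff.mp (natTrailingDegree_mem_support_of_nonzero hP0)
    rw [hP1, coeff_X_pow_mul'] at this
    simpa using this
  have hP1m : P1.Monic := by
    have h1 : (X ^ k * P1).Monic := by rw [← hP1]; exact hP
    exact (monic_X_pow k).of_mul_monic_left h1
  have hrev : P.reverse = P1.reverse := by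
    conv_lhs => rw [hP1]
    rw [mul_comm]
    exact reverse_mul_X_pow P1 k
  have hθ0 : θ ^ k ≠ 0 := pow_ne_zero k (by linarith)
  have hP1θ : aeval θ P1 = 0 := by
    rw [hP1] at hθP
    simp only [map_mul, map_pow, aeval_X] at hθP
    rcases mul_eq_zero.mp hθP with h | h
    · exact absurd h hθ0
    · exact h
  have hPmap : (P1.map (Int.castRingHom ℝ)).IsRoot θ := by
    rw [IsRoot.def, eval_map_real]; exact hP1θ
  obtain ⟨D, hD⟩ := dvd_iff_isRoot.mpr hPmap
  -- the remaining roots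
  have hDroots : ∀ z : ℂ, aeval z D = 0 → ‖z‖ < 1 := by
    intro z hz
    have h1 : aeval z P1 = 0 := by
      rw [← aeval_map_real, hD, map_mul, hz, mul_zero]
    have h2 : aeval z P = 0 := by rw [hP1, map_mul, h1, mul_zero]
    refine hroots z h2 ?_
    intro hzθ
    rw [hzθ] at hz
    have hDθ : D.eval θ = 0 := by
      have h3 : aeval (θ : ℂ) D = ((D.eval θ : ℝ) : ℂ) := by
        rw [show (θ : ℂ) = algebraMap ℝ ℂ θ from rfl, aeval_algebraMap_apply]
        simp
      rw [h3] at hz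
      exact_mod_cast hz
    apply hθs
    have h4 : aeval θ (derivative P) = (derivative (P.map (Int.castRingHom ℝ))).eval θ := by
      rw [derivative_map, eval_map_real]
    rw [h4, hP1, Polynomial.map_mul, hD, derivative_mul, derivative_mul]
    simp [hDθ]
  have heq1 : β ^ (n + k) * aeval β P1 + ε * aeval β P1.reverse = 0 := by
    have h1 : aeval β P = β ^ k * aeval β P1 := by
      conv_lhs => rw [hP1]
      simp
    rw [h1, hrev] at heq
    rw [← heq]; ring
  have hP1β : aeval β P1 ≠ 0 := by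
    intro h0
    have hβθ : β = θ := by
      by_contra hne
      have h1 : aeval (β : ℂ) P = 0 := by
        rw [show (β : ℂ) = algebraMap ℝ ℂ β from rfl, aeval_algebraMap_apply]
        conv_lhs => rw [hP1]
        rw [map_mul, h0, mul_zero, map_zero]
      have h2 := hroots (β : ℂ) h1 (by exact_mod_cast hne)
      rw [Complex.norm_real, Real.norm_eq_abs, abs_of_pos (by linarith)] at h2
      linarith
    have h3 : aeval β P1.reverse = 0 := by
      rw [h0, mul_zero, zero_add] at heq1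
      rcases mul_eq_zero.mp heq1 with h | h
      · rcases hε with h' | h' <;> rw [h'] at h <;> norm_num at h
      · exact h
    have hβ0 : β ≠ 0 := by linarith
    have h4 : aeval β⁻¹ P1 = 0 := by
      let _ : Invertible β⁻¹ := invertibleOfNonzero (inv_ne_zero hβ0)
      have h5 := eval₂_reverse_eq_zero_iff (algebraMap ℤ ℝ) β⁻¹ P1
      rw [invOf_eq_inv, inv_inv] at h5
      exact h5.mp h3
    rw [hβθ] at h4
    have h6 := quad_case P1 hP1m θ hθ D hD hDroots hP1c h4
    have h7 := tau_lt (hβ.trans hlt) hτ'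
    have h8 : θ⁻¹ < 1 := inv_lt_one_of_one_lt₀ hθ
    rw [hβθ] at hlt
    linarith
  obtain ⟨u, hu0, hcore⟩ := exists_core P1 hP1m θ hθ D hD hDroots hP1c (n + k) (by omega) ε hε β hβ
    hP1β heq1
  refine core_false (by omega) hcore ?_ hlt hτ'
  · intro hnk
    rcases hn with hn | ⟨hn, hc1⟩
    · omega
    · have hk0 : k = 0 := by omega
      rw [hk0, pow_zero, one_mul] at hP1
      rw [hP1] at hc1
      rw [hu0]
      rcases hε with h | h <;> subst h <;> omega

end Pool.Agent.MP1f45fc.SalemC
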