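import Pool.Agent.Lib.MP_1f45fc_nt.SalemC.Run

set_option autoImplicit false

namespace Pool.Agent.MP1f45fc.SalemC

/-- Spines for `n = 2`. -/
def sps2 : List (List ℤ) := [[1],
  [2, 4, 10, 24, 58, 140, 338, 816, 1970, 4756, 11482, 27720, 66922, 161564, 390050, 941664,
    2273378],
[2, 5, 13, 34, 89, 233, 610, 1597, 4181, 10946, 28657, 75025, 196418, 514229, 1346269, 3524578,
    9227465, 24157817, 63245986, 165580141, 433494437, 1134903170, 2971215073, 7778742049,
    20365011074, 53316291173, 139583862445]]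

/-- Spine for `n = 3`. -/
def sps3 : List (List ℤ) := [[1, 1, 2, 3, 5, 8, 13, 21, 34, 55, 89, 144, 233, 377, 610, 987, 1597]]

end Pool.Agent.MP1f45fc.SalemC
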